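import Mathlib

/-!
# Eigenvalue sums of Schroedinger operators with complex potentials (MP_c84763_mp)

`eigenSum V hbar γ σ` is the sum over the eigenvalues `E` of `-ħ²Δ + V` outside `[0,∞)`, repeated
according to their geometric multiplicity, of `|E|^(-σ) dist(E,[0,∞))^(γ+σ)`.
-/

open MeasureTheory
open scoped InnerProductSpace

namespace Pool.Agent.Lib.MP_c84763_mp

/-- `ℝ^d` with the Euclidean norm. -/
abbrev Sp (d : ℕ) := EuclideanSpace ℝ (Fin d)

/-- The distance of the complex number `E` to the half-axis `[0,∞)`. -/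
noncomputable def distHalf (E : ℂ) : ℝ := Metric.infDist E {z : ℂ | 0 ≤ z.re ∧ z.im = 0}

/-- `u` is a classical (twice continuously differentiable) solution in `L²(ℝ^d)` of
`-ħ² Δu + V u = E u`, where the complex number `E` is not in `[0,∞)`. -/
structure IsEigenfunction {d : ℕ} (V : Sp d → ℂ) (hbar : ℝ) (E : ℂ) (u : Sp d → ℂ) : Prop where
  notMem : ¬ (0 ≤ E.re ∧ E.im = 0)
  smooth : ContDiff ℝ 2 u
  memL2 : MemLp u 2 volume
  eqn : ∀ x, -((hbar : ℂ) ^ 2) * Laplacian.laplacian u x + V x * u x = E * u x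

/-- Sum of `|E|^(-σ) dist(E,[0,∞))^(γ+σ)` over the eigenvalues of `-ħ²Δ+V` outside `[0,∞)`,
each repeated according to its geometric multiplicity: the supremum, over all finite linearly
independent families of eigenfunctions, of the sum over the family. -/
noncomputable def eigenSum {d : ℕ} (V : Sp d → ℂ) (hbar γ σ : ℝ) : ENNReal :=
  ⨆ (N : ℕ) (E : Fin N → ℂ) (u : Fin N → Sp d → ℂ) (_ : LinearIndependent ℂ u)
    (_ : ∀ j, IsEigenfunction V hbar (E j) (u j)),
    ∑ j, ENNReal.ofReal (‖E j‖ ^ (-σ) * distHalf (E j) ^ (γ + σ))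

end Pool.Agent.Lib.MP_c84763_mp
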