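import Mathlib
import Pool.Agent.Lib.MP_c84763_mp.Defs

/-!
# Basic objects: regular radial solutions, shells, parameters
-/

open MeasureTheory
open scoped InnerProductSpace ComplexConjugate

namespace Pool.Agent.Lib.MP_c84763_mp

/-- `λ_D = (D-1)(D-3)/4`; for `D = d + 2ℓ` this is the coefficient of the centrifugal term. -/
noncomputable def lam (D : ℕ) : ℝ := ((D : ℝ) - 1) * ((D : ℝ) - 3) / 4

/-- Coefficients of the entire function `Φ_D`, `4 w Φ'' + 2 D Φ' + Φ = 0`, `Φ(0) = 1`. -/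
noncomputable def phiCoef (D : ℕ) : ℕ → ℝ
  | 0 => 1
  | (m + 1) => -phiCoef D m / (2 * ((m : ℝ) + 1) * (2 * (m : ℝ) + (D : ℝ)))

/-- The entire function `Φ_D`. -/
noncomputable def Phi (D : ℕ) (w : ℂ) : ℂ := ∑' m : ℕ, (phiCoef D m : ℂ) * w ^ m

/-- The regular solution for the zero potential: `r^((D-1)/2) Φ_D(z r²)`. -/
noncomputable def f0 (D : ℕ) (z : ℂ) (r : ℝ) : ℂ :=
  ((r ^ (((D : ℝ) - 1) / 2) : ℝ) : ℂ) * Phi D (z * (r : ℂ) ^ 2)

/-- `f` is a solution, with derivative `f'`, of `f'' = (λ_D/r² + c v(r) - z) f` on `(0,∞)`. -/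
structure IsSol (D : ℕ) (c : ℝ) (v : ℝ → ℂ) (z : ℂ) (f f' : ℝ → ℂ) (s : Set ℝ) : Prop where
  d1 : ∀ r ∈ s, HasDerivAt f (f' r) r
  d2 : ∀ r ∈ s, HasDerivAt f' ((((lam D / r ^ 2 : ℝ) : ℂ) + (c : ℂ) * v r - z) * f r) r

/-- A family (in the spectral parameter `z`) of solutions, regular at `0`, entire in `z`. -/
structure IsRegular (D : ℕ) (c : ℝ) (v : ℝ → ℂ) (f f' : ℂ → ℝ → ℂ) : Prop where
  sol : ∀ z, IsSol D c v z (f z) (f' z) (Set.Ioi 0)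
  near : ∀ z r, 0 < r → r ≤ 1 → f z r = f0 D z r
  an : ∀ r, 0 < r → Differentiable ℂ (fun z => f z r)
  an' : ∀ r, 0 < r → Differentiable ℂ (fun z => f' z r)

/-- A regular solution on `(0,∞)` which is square integrable at infinity. -/
structure IsGlobal (D : ℕ) (c : ℝ) (v : ℝ → ℂ) (z : ℂ) (f f' : ℝ → ℂ) : Prop where
  sol : IsSol D c v z f f' (Set.Ioi 0)
  near : ∀ r, 0 < r → r ≤ 1 → f r = f0 D z r
  l2 : IntegrableOn (fun r => ‖f r‖ ^ 2) (Set.Ioi 1)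

/-- Trapezoid function: `1` on `[a,b]`, `0` outside `(a-e,b+e)`. -/
noncomputable def trap (a b e r : ℝ) : ℝ := max 0 (min 1 (min ((r - a) / e + 1) ((b - r) / e + 1)))

/-- Parameters of a shell: radius `R`, width `L`, height `h` of the imaginary part, height `A` and
width `w` of the real walls, width `e` of the ramps. -/
structure Par where
  (R L h A w e : ℝ)

/-- The profile of a shell. -/
noncomputable def shell (P : Par) (r : ℝ) : ℂ :=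
  ((P.h * trap P.R (P.R + P.L) P.e r : ℝ) : ℂ) * Complex.I +
    ((P.A * (trap (P.R - P.e - P.w) (P.R - P.e) P.e r +
      trap (P.R + P.L + P.e) (P.R + P.L + P.e + P.w) P.e r) : ℝ) : ℂ)

/-- Numerical conditions on a shell; `k ≥ 1` bounds the coupling constant, `N` is the number of
radial modes, everything inside is supported in `[1,X]`. -/
structure Good (k : ℝ) (N : ℕ) (P : Par) (X : ℝ) : Prop where
  hk : 1 ≤ k
  hN : 1 ≤ N
  hX : 1 ≤ X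
  hR : 0 < P.R
  hL : 0 < P.L
  hh : 0 < P.h
  hA : 0 < P.A
  hw : 0 < P.w
  he : 0 < P.e
  c1 : 16 * N * k ≤ P.h * P.L ^ 2
  c2 : (1280 * N) ^ 2 * k ≤ P.A * P.L ^ 2
  c2' : P.h ≤ P.A
  c3 : √(k * P.A) * P.e ≤ 1 / 128
  c4 : 2 * √(k * P.A) ≤ P.w * P.h
  c5 : 1000 * N * P.L ≤ P.R
  c5' : 2 * P.e + P.w ≤ P.L
  c6 : 12 * X ≤ P.h * P.L * (Real.exp (P.R / P.L) - 1)
  c6' : 12 * X ≤ P.R

/-- The radial potential `v` contains the shell with parameters `P` in the right position. -/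
structure Fits (P : Par) (X : ℝ) (v : ℝ → ℂ) : Prop where
  cont : Continuous v
  zero : ∀ r, r ≤ 1 → v r = 0
  re_nonneg : ∀ r, 0 ≤ (v r).re
  im_le_one : ∀ r, (v r).im ≤ 1
  bdd : ∀ r, ‖v r‖ ≤ 1
  mid : ∀ r, X ≤ r → r ≤ P.R - P.e → (v r).im = 0
  lwall : ∀ r, P.R - P.e - P.w ≤ r → r ≤ P.R - P.e → v r = P.A
  lramp : ∀ r, P.R - P.e ≤ r → r ≤ P.R → ‖v r‖ ≤ P.A + P.h
  cav : ∀ r, P.R ≤ r → r ≤ P.R + P.L → v r = P.h * Complex.I
  rramp : ∀ r, P.R + P.L ≤ r → r ≤ P.R + P.L + P.e → ‖v r‖ ≤ P.A + P.h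
  rwall : ∀ r, P.R + P.L + P.e ≤ r → r ≤ P.R + P.L + P.e + P.w → v r = P.A
  out : ∀ r, P.R + P.L + P.e ≤ r → (v r).im ≤ P.h / 8

/-- The spectral parameter belonging to `κ`. -/
noncomputable def zOf (D : ℕ) (c : ℝ) (P : Par) (κ : ℂ) : ℂ :=
  ((lam D / P.R ^ 2 : ℝ) : ℂ) + ((c * P.h : ℝ) : ℂ) * Complex.I + κ ^ 2

/-- The standing assumptions on a mode `(n, D)` and a coupling constant `c`. -/
structure Mode (k : ℝ) (N : ℕ) (P : Par) (c : ℝ) (n D : ℕ) : Prop where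
  hc1 : 1 / k ≤ c
  hc2 : c ≤ k
  hn1 : 1 ≤ n
  hn2 : n ≤ N
  hD : 4 ≤ D
  lo : 4 * (n : ℝ) ^ 2 * P.R ^ 2 ≤ lam D * P.L ^ 2
  hi : lam D * P.L ^ 2 ≤ 10 * (n : ℝ) ^ 2 * P.R ^ 2

/-- The radial factor of an eigenfunction as a function of `s = |x|²`. -/
noncomputable def rad (D : ℕ) (z : ℂ) (f : ℝ → ℂ) (s : ℝ) : ℂ :=
  if s ≤ 1 then Phi D (z * (s : ℂ)) else ((s ^ (-((D : ℝ) - 1) / 4) : ℝ) : ℂ) * f (√s)

/-- Value of a polynomial at a point of `ℝ^d`. -/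
noncomputable def ev {d : ℕ} (P : MvPolynomial (Fin d) ℂ) (x : Sp d) : ℂ :=
  MvPolynomial.eval (fun i => ((x i : ℝ) : ℂ)) P

/-- Homogeneous harmonic polynomial of degree `l`. -/
structure IsHarm {d : ℕ} (l : ℕ) (P : MvPolynomial (Fin d) ℂ) : Prop where
  hom : P.IsHomogeneous l
  harm : ∑ i, MvPolynomial.pderiv i (MvPolynomial.pderiv i P) = 0

/-- The function `rad(|x|²) P(x)`. -/
noncomputable def eigFun (d l : ℕ) (z : ℂ) (f : ℝ → ℂ) (P : MvPolynomial (Fin d) ℂ) (x : Sp d) : ℂ :=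
  rad (d + 2 * l) z f (‖x‖ ^ 2) * ev P x

end Pool.Agent.Lib.MP_c84763_mp
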