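import Mathlib

/-! # The cavity: solutions of `φ'' = -(κ² + η) φ` on `[0,L]`, `η` small -/

open MeasureTheory Set

namespace Pool.Agent.Lib.MP_c84763_mp

/-- Variation of constants: both sides have the same value and derivative at `0` and solve the
same equation; or: the derivative of
`s ↦ φ(s) cos κ(t-s) + φ'(s) sin κ(t-s)/κ` is `-(sin κ(t-s)/κ) η(s) φ(s)`. -/
theorem duhamel {φ φ' η : ℝ → ℂ} {κ : ℂ} {L : ℝ} (hκ : κ ≠ 0) (hL : 0 ≤ L)
    (h1 : ∀ s ∈ Icc 0 L, HasDerivAt φ (φ' s) s)
    (h2 : ∀ s ∈ Icc 0 L, HasDerivAt φ' (-(κ ^ 2 + η s) * φ s) s)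
    (hη : ContinuousOn η (Icc 0 L)) (t : ℝ) (ht : t ∈ Icc 0 L) :
    φ t = φ 0 * Complex.cos (κ * t) + φ' 0 * (Complex.sin (κ * t) / κ) -
        (∫ s in (0 : ℝ)..t, Complex.sin (κ * ((t - s : ℝ) : ℂ)) / κ * η s * φ s) ∧
      φ' t = -φ 0 * (κ * Complex.sin (κ * t)) + φ' 0 * Complex.cos (κ * t) -
        (∫ s in (0 : ℝ)..t, Complex.cos (κ * ((t - s : ℝ) : ℂ)) * η s * φ s) := by
  have hsub : uIcc (0 : ℝ) t ⊆ Icc 0 L := by
    rw [uIcc_of_le ht.1]
    exact Icc_subset_Icc le_rfl ht.2
  have hφc : ContinuousOn φ (uIcc 0 t) := fun s hs =>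
    (h1 s (hsub hs)).continuousAt.continuousWithinAt
  have hηc : ContinuousOn η (uIcc 0 t) := hη.mono hsub
  have hlin : ∀ s : ℝ, HasDerivAt (fun s : ℝ => κ * ((t - s : ℝ) : ℂ)) (-κ) s := by
    intro s
    have h : HasDerivAt (fun s : ℝ => ((t - s : ℝ) : ℂ)) (-1 : ℂ) s := by
      have h0 : HasDerivAt (fun s : ℝ => t - s) (-1) s := by
        simpa using (hasDerivAt_id s).const_sub t
      simpa using h0.ofReal_comp
    have h' := h.const_mul κ
    simpa using h'
  have hsin : ∀ s : ℝ, HasDerivAt (fun s : ℝ => Complex.sin (κ * ((t - s : ℝ) : ℂ)))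
      (-(κ * Complex.cos (κ * ((t - s : ℝ) : ℂ)))) s := by
    intro s
    have h := (Complex.hasDerivAt_sin (κ * ((t - s : ℝ) : ℂ))).comp s (hlin s)
    have e : -(κ * Complex.cos (κ * ((t - s : ℝ) : ℂ))) =
        Complex.cos (κ * ((t - s : ℝ) : ℂ)) * -κ := by ring
    rw [e]
    exact h
  have hcos : ∀ s : ℝ, HasDerivAt (fun s : ℝ => Complex.cos (κ * ((t - s : ℝ) : ℂ)))
      (κ * Complex.sin (κ * ((t - s : ℝ) : ℂ))) s := by
    intro s
    have h := (Complex.hasDerivAt_cos (κ * ((t - s : ℝ) : ℂ))).comp s (hlin s)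
    have e : κ * Complex.sin (κ * ((t - s : ℝ) : ℂ)) =
        -Complex.sin (κ * ((t - s : ℝ) : ℂ)) * -κ := by ring
    rw [e]
    exact h
  have hcs : Continuous fun s : ℝ => Complex.sin (κ * ((t - s : ℝ) : ℂ)) :=
    continuous_iff_continuousAt.2 fun s => (hsin s).continuousAt
  have hcc : Continuous fun s : ℝ => Complex.cos (κ * ((t - s : ℝ) : ℂ)) :=
    continuous_iff_continuousAt.2 fun s => (hcos s).continuousAt
  constructor
  · have hder : ∀ s ∈ uIcc (0 : ℝ) t, HasDerivAt
        (fun s : ℝ => φ s * Complex.cos (κ * ((t - s : ℝ) : ℂ)) +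
          φ' s * (Complex.sin (κ * ((t - s : ℝ) : ℂ)) / κ))
        (-(Complex.sin (κ * ((t - s : ℝ) : ℂ)) / κ * η s * φ s)) s := by
      intro s hs
      have ha := (h1 s (hsub hs)).mul (hcos s)
      have hb := (h2 s (hsub hs)).mul ((hsin s).div_const κ)
      have hc := ha.add hb
      refine hc.congr_deriv ?_
      field_simp
      ring
    have hint : IntervalIntegrable
        (fun s : ℝ => -(Complex.sin (κ * ((t - s : ℝ) : ℂ)) / κ * η s * φ s)) volume 0 t := by
      apply ContinuousOn.intervalIntegrable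
      exact (((hcs.div_const κ).continuousOn.mul hηc).mul hφc).neg
    have h := intervalIntegral.integral_eq_sub_of_hasDerivAt hder hint
    rw [intervalIntegral.integral_neg] at h
    simp only [sub_self, sub_zero, Complex.ofReal_zero, mul_zero, Complex.cos_zero,
      Complex.sin_zero, zero_div, mul_one, add_zero] at h
    linear_combination -h
  · have hder : ∀ s ∈ uIcc (0 : ℝ) t, HasDerivAt
        (fun s : ℝ => -φ s * (κ * Complex.sin (κ * ((t - s : ℝ) : ℂ))) +
          φ' s * Complex.cos (κ * ((t - s : ℝ) : ℂ)))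
        (-(Complex.cos (κ * ((t - s : ℝ) : ℂ)) * η s * φ s)) s := by
      intro s hs
      have ha := (h1 s (hsub hs)).neg.mul ((hsin s).const_mul κ)
      have hb := (h2 s (hsub hs)).mul (hcos s)
      have hc := ha.add hb
      refine hc.congr_deriv ?_
      simp only [Pi.neg_apply]
      ring
    have hint : IntervalIntegrable
        (fun s : ℝ => -(Complex.cos (κ * ((t - s : ℝ) : ℂ)) * η s * φ s)) volume 0 t := by
      apply ContinuousOn.intervalIntegrable
      exact ((hcc.continuousOn.mul hηc).mul hφc).neg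
    have h := intervalIntegral.integral_eq_sub_of_hasDerivAt hder hint
    rw [intervalIntegral.integral_neg] at h
    simp only [sub_self, sub_zero, Complex.ofReal_zero, mul_zero, Complex.cos_zero,
      Complex.sin_zero, mul_one, zero_add] at h
    linear_combination -h

end Pool.Agent.Lib.MP_c84763_mp
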