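import Mathlib
import Pool.Agent.Lib.MP_c84763_mp.CavityOde

/-! # The matching function is close to `sin κL` -/

open MeasureTheory Set

namespace Pool.Agent.Lib.MP_c84763_mp

/-- `|sin w|, |cos w| ≤ cosh (Im w)`. -/
theorem norm_sin_le_cosh (w : ℂ) : ‖Complex.sin w‖ ≤ Real.cosh w.im := by
  rw [Complex.sin, norm_div, norm_mul, Complex.norm_I, mul_one, Real.cosh_eq]
  have h2 : ‖(2 : ℂ)‖ = 2 := by simp
  rw [h2]
  refine div_le_div_of_nonneg_right ?_ (by norm_num)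
  refine (norm_sub_le _ _).trans ?_
  rw [Complex.norm_exp, Complex.norm_exp]
  simp

theorem norm_cos_le_cosh (w : ℂ) : ‖Complex.cos w‖ ≤ Real.cosh w.im := by
  rw [Complex.cos, norm_div, Real.cosh_eq]
  have h2 : ‖(2 : ℂ)‖ = 2 := by simp
  rw [h2]
  refine div_le_div_of_nonneg_right ?_ (by norm_num)
  refine (norm_add_le _ _).trans ?_
  rw [Complex.norm_exp, Complex.norm_exp]
  simp [add_comm]

private theorem cosh_half_le : Real.cosh (1 / 2) ≤ 8 / 7 := by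
  refine (Real.cosh_le_exp_half_sq _).trans ?_
  have h : (1 / 2 : ℝ) ^ 2 / 2 = 1 / 8 := by norm_num
  rw [h]
  have h1 : 1 - (1 / 8 : ℝ) ≤ Real.exp (-(1 / 8)) := by
    have := Real.add_one_le_exp (-(1 / 8 : ℝ))
    linarith
  rw [Real.exp_neg] at h1
  have h2 : 0 < Real.exp (1 / 8) := Real.exp_pos _
  have h3 : (1 - (1 / 8 : ℝ)) * Real.exp (1 / 8) ≤ 1 := by
    calc (1 - (1 / 8 : ℝ)) * Real.exp (1 / 8) ≤ (Real.exp (1 / 8))⁻¹ * Real.exp (1 / 8) :=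
          mul_le_mul_of_nonneg_right h1 h2.le
      _ = 1 := inv_mul_cancel₀ h2.ne'
  linarith

/-- Proof. With `F = sup |κ φ|`: `F ≤ (1/20) c0 + c0 + c0 (η0 L/|κ|) F`, `c0 = cosh (1/2) < 1.13`,
so `F ≤ 1.21`; then insert `duhamel` at `t = L`. The error is at most
`|κ(a+b) cos κL| + |κ²ab sin κL| + (1 + 1/20) c0 (1/100) F < 1/5`. -/
theorem cavity {φ φ' η : ℝ → ℂ} {κ b : ℂ} {L η0 : ℝ} (hκ : κ ≠ 0) (hL : 0 < L)
    (hκL : |κ.im| * L ≤ 1 / 2) (h1 : ∀ s ∈ Icc 0 L, HasDerivAt φ (φ' s) s)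
    (h2 : ∀ s ∈ Icc 0 L, HasDerivAt φ' (-(κ ^ 2 + η s) * φ s) s)
    (hη : ContinuousOn η (Icc 0 L)) (hη0 : ∀ s ∈ Icc 0 L, ‖η s‖ ≤ η0)
    (hsm : η0 * L ≤ ‖κ‖ / 100) (hφ1 : φ' 0 = 1) (ha : ‖κ‖ * ‖φ 0‖ ≤ 1 / 20)
    (hb : ‖κ‖ * ‖b‖ ≤ 1 / 20) :
    ‖κ * (φ L + b * φ' L) - Complex.sin (κ * L)‖ ≤ 1 / 5 := by
  set c0 : ℝ := 8 / 7 with hc0
  have hκ0 : 0 < ‖κ‖ := norm_pos_iff.mpr hκ
  have hη00 : 0 ≤ η0 := (norm_nonneg _).trans (hη0 0 ⟨le_rfl, hL.le⟩)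
  have hsin : ∀ t : ℝ, t ∈ Icc 0 L → ‖Complex.sin (κ * (t : ℂ))‖ ≤ c0 := by
    intro t ht
    refine (norm_sin_le_cosh _).trans (le_trans ?_ cosh_half_le)
    rw [Real.cosh_le_cosh]
    have : (κ * (t : ℂ)).im = κ.im * t := by simp
    rw [this, abs_mul, abs_of_nonneg ht.1, abs_of_pos (by norm_num : (0 : ℝ) < 1 / 2)]
    exact (mul_le_mul_of_nonneg_left ht.2 (abs_nonneg _)).trans hκL
  have hcos : ∀ t : ℝ, t ∈ Icc 0 L → ‖Complex.cos (κ * (t : ℂ))‖ ≤ c0 := by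
    intro t ht
    refine (norm_cos_le_cosh _).trans (le_trans ?_ cosh_half_le)
    rw [Real.cosh_le_cosh]
    have : (κ * (t : ℂ)).im = κ.im * t := by simp
    rw [this, abs_mul, abs_of_nonneg ht.1, abs_of_pos (by norm_num : (0 : ℝ) < 1 / 2)]
    exact (mul_le_mul_of_nonneg_left ht.2 (abs_nonneg _)).trans hκL
  have hφc : ContinuousOn φ (Icc 0 L) := fun s hs => (h1 s hs).continuousAt.continuousWithinAt
  obtain ⟨t0, ht0, hmax⟩ := isCompact_Icc.exists_isMaxOn (nonempty_Icc.mpr hL.le) hφc.norm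
  have hm : ∀ s ∈ Icc 0 L, ‖φ s‖ ≤ ‖φ t0‖ := fun s hs => hmax hs
  have hint : ∀ (g : ℝ → ℂ) (t : ℝ), t ∈ Icc 0 L → (∀ s ∈ Icc 0 L, ‖g s‖ ≤ c0) →
      ‖∫ s in (0 : ℝ)..t, g (t - s) * η s * φ s‖ ≤ c0 * η0 * ‖φ t0‖ * L := by
    intro g t ht hg
    refine (intervalIntegral.norm_integral_le_of_norm_le_const
      (C := c0 * η0 * ‖φ t0‖) ?_).trans ?_
    · intro s hs
      rw [uIoc_of_le ht.1] at hs
      have hsI : s ∈ Icc 0 L := ⟨hs.1.le, hs.2.trans ht.2⟩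
      have htsI : t - s ∈ Icc 0 L := ⟨by linarith [hs.2], by linarith [hs.1, ht.2]⟩
      rw [norm_mul, norm_mul]
      exact mul_le_mul (mul_le_mul (hg _ htsI) (hη0 s hsI) (norm_nonneg _) (by positivity))
        (hm s hsI) (norm_nonneg _) (by positivity)
    · rw [sub_zero, abs_of_nonneg ht.1]
      exact mul_le_mul_of_nonneg_left ht.2 (by positivity)
  have hsm2 : c0 * η0 * ‖φ t0‖ * L ≤ c0 / 100 * (‖κ‖ * ‖φ t0‖) := by
    have := mul_le_mul_of_nonneg_left hsm (by positivity : 0 ≤ c0 * ‖φ t0‖)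
    calc c0 * η0 * ‖φ t0‖ * L = c0 * ‖φ t0‖ * (η0 * L) := by ring
      _ ≤ c0 * ‖φ t0‖ * (‖κ‖ / 100) := this
      _ = _ := by ring
  have hI1 : ∀ t : ℝ, t ∈ Icc 0 L → κ * φ t = κ * φ 0 * Complex.cos (κ * t) +
      Complex.sin (κ * t) - ∫ s in (0 : ℝ)..t, Complex.sin (κ * ((t - s : ℝ) : ℂ)) * η s * φ s := by
    intro t ht
    have h := (duhamel hκ hL.le h1 h2 hη t ht).1
    have e : (∫ s in (0 : ℝ)..t, Complex.sin (κ * ((t - s : ℝ) : ℂ)) / κ * η s * φ s) =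
        κ⁻¹ * ∫ s in (0 : ℝ)..t, Complex.sin (κ * ((t - s : ℝ) : ℂ)) * η s * φ s := by
      rw [← intervalIntegral.integral_const_mul]
      congr 1
      ext s
      rw [div_eq_mul_inv]
      ring
    rw [e, hφ1] at h
    rw [h]
    field_simp
  set F : ℝ := ‖κ‖ * ‖φ t0‖ with hF
  have hF0 : 0 ≤ F := by positivity
  have hFle : F ≤ c0 / 20 + c0 + c0 / 100 * F := by
    have h := hI1 t0 ht0
    have e : F = ‖κ * φ t0‖ := by rw [norm_mul]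
    rw [e, h]
    have i1 := hint (fun s => Complex.sin (κ * (s : ℂ))) t0 ht0 hsin
    have i2 := i1.trans hsm2
    refine (norm_sub_le _ _).trans ?_
    refine add_le_add ((norm_add_le _ _).trans (add_le_add ?_ (hsin t0 ht0))) ?_
    · rw [norm_mul, norm_mul]
      calc ‖κ‖ * ‖φ 0‖ * ‖Complex.cos (κ * t0)‖ ≤ 1 / 20 * c0 :=
            mul_le_mul ha (hcos t0 ht0) (norm_nonneg _) (by norm_num)
        _ = c0 / 20 := by ring
    · rw [← h, ← e]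
      exact i2
  have hF2 : F ≤ 5 / 4 := by
    rw [hc0] at hFle
    linarith
  have hLI : L ∈ Icc 0 L := ⟨hL.le, le_rfl⟩
  have hφL := hI1 L hLI
  have hφ'L := (duhamel hκ hL.le h1 h2 hη L hLI).2
  rw [hφ1] at hφ'L
  set I1 : ℂ := ∫ s in (0 : ℝ)..L, Complex.sin (κ * ((L - s : ℝ) : ℂ)) * η s * φ s with hI1d
  set I2 : ℂ := ∫ s in (0 : ℝ)..L, Complex.cos (κ * ((L - s : ℝ) : ℂ)) * η s * φ s with hI2d
  have b1 : ‖I1‖ ≤ c0 / 100 * F := (hint (fun s => Complex.sin (κ * (s : ℂ))) L hLI hsin).trans hsm2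
  have b2 : ‖I2‖ ≤ c0 / 100 * F := (hint (fun s => Complex.cos (κ * (s : ℂ))) L hLI hcos).trans hsm2
  have e : κ * (φ L + b * φ' L) - Complex.sin (κ * L) =
      (κ * φ 0) * Complex.cos (κ * L) + (κ * b) * Complex.cos (κ * L) -
        (κ * φ 0) * (κ * b) * Complex.sin (κ * L) - I1 - (κ * b) * I2 := by
    rw [mul_add, hφL, hφ'L]
    ring
  rw [e]
  have n1 : ‖(κ * φ 0) * Complex.cos (κ * L)‖ ≤ 1 / 20 * c0 := by
    rw [norm_mul, norm_mul]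
    exact mul_le_mul ha (hcos L hLI) (norm_nonneg _) (by norm_num)
  have n2 : ‖(κ * b) * Complex.cos (κ * L)‖ ≤ 1 / 20 * c0 := by
    rw [norm_mul, norm_mul]
    exact mul_le_mul hb (hcos L hLI) (norm_nonneg _) (by norm_num)
  have n3 : ‖(κ * φ 0) * (κ * b) * Complex.sin (κ * L)‖ ≤ 1 / 20 * (1 / 20) * c0 := by
    rw [norm_mul, norm_mul, norm_mul, norm_mul]
    exact mul_le_mul (mul_le_mul ha hb (by positivity) (by norm_num)) (hsin L hLI) (norm_nonneg _)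
      (by norm_num)
  have n4 : ‖(κ * b) * I2‖ ≤ 1 / 20 * (c0 / 100 * F) := by
    rw [norm_mul, norm_mul]
    exact mul_le_mul hb b2 (norm_nonneg _) (by norm_num)
  have t1 := norm_sub_le ((κ * φ 0) * Complex.cos (κ * L) + (κ * b) * Complex.cos (κ * L) -
        (κ * φ 0) * (κ * b) * Complex.sin (κ * L) - I1) ((κ * b) * I2)
  have t2 := norm_sub_le ((κ * φ 0) * Complex.cos (κ * L) + (κ * b) * Complex.cos (κ * L) -
        (κ * φ 0) * (κ * b) * Complex.sin (κ * L)) I1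
  have t3 := norm_sub_le ((κ * φ 0) * Complex.cos (κ * L) + (κ * b) * Complex.cos (κ * L))
    ((κ * φ 0) * (κ * b) * Complex.sin (κ * L))
  have t4 := norm_add_le ((κ * φ 0) * Complex.cos (κ * L)) ((κ * b) * Complex.cos (κ * L))
  rw [hc0] at *
  linarith

end Pool.Agent.Lib.MP_c84763_mp
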