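import Mathlib

/-! # A comparison lemma for `y'' ≥ m² y` -/

open Set

namespace Pool.Agent.Lib.MP_c84763_mp

private theorem Compare_mono {f f1 : ℝ → ℝ} {a b : ℝ} (h : ∀ r ∈ Icc a b, HasDerivAt f (f1 r) r)
    (h0 : ∀ r ∈ Icc a b, 0 ≤ f1 r) : ∀ r ∈ Icc a b, f a ≤ f r := by
  intro r hr
  have hab : a ≤ b := hr.1.trans hr.2
  have hm : MonotoneOn f (Icc a b) := by
    refine monotoneOn_of_deriv_nonneg (convex_Icc a b)
      (fun x hx => (h x hx).continuousAt.continuousWithinAt) ?_ ?_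
    · intro x hx
      exact (h x (interior_subset hx)).differentiableAt.differentiableWithinAt
    · intro x hx
      rw [(h x (interior_subset hx)).deriv]
      exact h0 x (interior_subset hx)
  exact hm (left_mem_Icc.2 hab) hr hr.1

/-- Proof: `w = y' + m y` satisfies `w' ≥ m w`, so `w(r) ≥ w(a) e^(m(r-a))`, and
`(e^(m(r-a)) y)' = e^(m(r-a)) w`. -/
theorem compare {y y1 y2 : ℝ → ℝ} {a b m θ : ℝ} (hm : 0 < m)
    (h1 : ∀ r ∈ Icc a b, HasDerivAt y (y1 r) r) (h2 : ∀ r ∈ Icc a b, HasDerivAt y1 (y2 r) r)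
    (hy : ∀ r ∈ Icc a b, m ^ 2 * y r ≤ y2 r) (h0 : 0 ≤ y a) (hθ0 : 0 ≤ θ) (hθ1 : θ ≤ 1)
    (hθ : -(θ * m * y a) ≤ y1 a) :
    ∀ r ∈ Icc a b, (1 - θ) / 2 * y a * Real.exp (m * (r - a)) ≤ y r := by
  have e1 : ∀ r, HasDerivAt (fun r => Real.exp (m * (r - a))) (Real.exp (m * (r - a)) * m) r := by
    intro r
    have h := ((hasDerivAt_id r).sub_const a).const_mul m
    have h' := h.exp
    simpa using! h'
  have e2 : ∀ r, HasDerivAt (fun r => Real.exp (-(m * (r - a)))) (Real.exp (-(m * (r - a))) * (-m)) r := by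
    intro r
    have h := (((hasDerivAt_id r).sub_const a).const_mul m).neg
    have h' := h.exp
    simpa using! h'
  -- the function `w = y' + m y`
  have hw : ∀ r ∈ Icc a b, (y1 a + m * y a) * Real.exp (m * (r - a)) ≤ y1 r + m * y r := by
    intro r hr
    have hd : ∀ r ∈ Icc a b, HasDerivAt (fun r => Real.exp (-(m * (r - a))) * (y1 r + m * y r))
        (Real.exp (-(m * (r - a))) * (-m) * (y1 r + m * y r) +
          Real.exp (-(m * (r - a))) * (y2 r + m * y1 r)) r := by
      intro r hr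
      exact (e2 r).mul ((h2 r hr).add ((h1 r hr).const_mul m))
    have h3 := Compare_mono hd (fun r hr => by
      have h4 := hy r hr
      have h5 : Real.exp (-(m * (r - a))) * (-m) * (y1 r + m * y r) +
          Real.exp (-(m * (r - a))) * (y2 r + m * y1 r) =
          Real.exp (-(m * (r - a))) * (y2 r - m ^ 2 * y r) := by ring
      rw [h5]
      exact mul_nonneg (Real.exp_pos _).le (by linarith)) r hr
    simp only [sub_self, mul_zero, neg_zero, Real.exp_zero, one_mul] at h3
    have h4 : Real.exp (m * (r - a)) * Real.exp (-(m * (r - a))) = 1 := by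
      rw [← Real.exp_add, add_neg_cancel, Real.exp_zero]
    have h5 := mul_le_mul_of_nonneg_left h3 (Real.exp_pos (m * (r - a))).le
    rw [← mul_assoc, h4, one_mul] at h5
    linarith
  have hwa : (1 - θ) * m * y a ≤ y1 a + m * y a := by linarith
  have hwr : ∀ r ∈ Icc a b, (1 - θ) * m * y a * Real.exp (m * (r - a)) ≤ y1 r + m * y r :=
    fun r hr => (mul_le_mul_of_nonneg_right hwa (Real.exp_pos _).le).trans (hw r hr)
  intro r hr
  have hd : ∀ r ∈ Icc a b, HasDerivAt (fun r => Real.exp (m * (r - a)) * y r -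
      (1 - θ) / 2 * y a * (Real.exp (m * (r - a)) * Real.exp (m * (r - a))))
      (Real.exp (m * (r - a)) * m * y r + Real.exp (m * (r - a)) * y1 r -
      (1 - θ) / 2 * y a * (Real.exp (m * (r - a)) * m * Real.exp (m * (r - a)) +
        Real.exp (m * (r - a)) * (Real.exp (m * (r - a)) * m))) r := by
    intro r hr
    exact ((e1 r).mul (h1 r hr)).sub (((e1 r).mul (e1 r)).const_mul _)
  have h3 := Compare_mono hd (fun r hr => by
    have h4 := hwr r hr
    have h5 : Real.exp (m * (r - a)) * m * y r + Real.exp (m * (r - a)) * y1 r -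
      (1 - θ) / 2 * y a * (Real.exp (m * (r - a)) * m * Real.exp (m * (r - a)) +
        Real.exp (m * (r - a)) * (Real.exp (m * (r - a)) * m)) =
        Real.exp (m * (r - a)) * ((y1 r + m * y r) - (1 - θ) * m * y a * Real.exp (m * (r - a))) := by
      ring
    rw [h5]
    exact mul_nonneg (Real.exp_pos _).le (by linarith)) r hr
  simp only [sub_self, mul_zero, Real.exp_zero, one_mul, mul_one] at h3
  have h4 : 0 ≤ y a - (1 - θ) / 2 * y a := by nlinarith
  have h5 : 0 ≤ Real.exp (m * (r - a)) * (y r - (1 - θ) / 2 * y a * Real.exp (m * (r - a))) := by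
    have h6 := h4.trans h3
    have h7 : Real.exp (m * (r - a)) * (y r - (1 - θ) / 2 * y a * Real.exp (m * (r - a))) =
        Real.exp (m * (r - a)) * y r -
      (1 - θ) / 2 * y a * (Real.exp (m * (r - a)) * Real.exp (m * (r - a))) := by ring
    rw [h7]
    exact h6
  have h6 := nonneg_of_mul_nonneg_right h5 (Real.exp_pos _)
  linarith

/-- The same from the right end point (apply `compare` to `r ↦ y (a + b - r)`). -/
theorem compare_right {y y1 y2 : ℝ → ℝ} {a b m θ : ℝ} (hm : 0 < m)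
    (h1 : ∀ r ∈ Icc a b, HasDerivAt y (y1 r) r) (h2 : ∀ r ∈ Icc a b, HasDerivAt y1 (y2 r) r)
    (hy : ∀ r ∈ Icc a b, m ^ 2 * y r ≤ y2 r) (h0 : 0 ≤ y b) (hθ0 : 0 ≤ θ) (hθ1 : θ ≤ 1)
    (hθ : y1 b ≤ θ * m * y b) :
    ∀ r ∈ Icc a b, (1 - θ) / 2 * y b * Real.exp (m * (b - r)) ≤ y r := by
  intro r hr
  have hmem : ∀ r ∈ Icc a b, a + b - r ∈ Icc a b := fun r hr =>
    ⟨by linarith [hr.2], by linarith [hr.1]⟩
  have h := compare (y := fun r => y (a + b - r)) (y1 := fun r => -y1 (a + b - r))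
    (y2 := fun r => y2 (a + b - r)) (a := a) (b := b) (θ := θ) hm
    (fun r hr => (h1 _ (hmem r hr)).comp_const_sub (a + b) r)
    (fun r hr => by
      have h3 := ((h2 _ (hmem r hr)).comp_const_sub (a + b) r).neg
      rw [neg_neg] at h3
      exact h3)
    (fun r hr => hy _ (hmem r hr))
    (by rw [add_sub_cancel_left]; exact h0) hθ0 hθ1
    (by rw [add_sub_cancel_left]; linarith) (a + b - r) (hmem r hr)
  simp only [add_sub_cancel_left, sub_sub_cancel] at h
  have e1 : a + b - r - a = b - r := by ring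
  rw [e1] at h
  exact h

end Pool.Agent.Lib.MP_c84763_mp
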