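import Mathlib

/-! # Energy identities for `f'' = Q f` -/

open MeasureTheory Set
open scoped ComplexConjugate

namespace Pool.Agent.Lib.MP_c84763_mp

theorem hasDerivAt_conj_mul {f f' : ℝ → ℂ} {r : ℝ} {Q : ℂ} (h1 : HasDerivAt f (f' r) r)
    (h2 : HasDerivAt f' (Q * f r) r) :
    HasDerivAt (fun r => conj (f r) * f' r) (((‖f' r‖ ^ 2 : ℝ) : ℂ) + Q * ((‖f r‖ ^ 2 : ℝ) : ℂ)) r := by
  have h3 := (h1.star).mul h2
  have h4 : star (f' r) * f' r + star (f r) * (Q * f r) =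
      ((‖f' r‖ ^ 2 : ℝ) : ℂ) + Q * ((‖f r‖ ^ 2 : ℝ) : ℂ) := by
    have e1 : star (f' r) * f' r = ((‖f' r‖ ^ 2 : ℝ) : ℂ) := by
      rw [Complex.ofReal_pow]
      exact Complex.conj_mul' (f' r)
    have e2 : star (f r) * f r = ((‖f r‖ ^ 2 : ℝ) : ℂ) := by
      rw [Complex.ofReal_pow]
      exact Complex.conj_mul' (f r)
    rw [← e1, ← e2]
    ring
  rw [h4] at h3
  exact h3

theorem hasDerivAt_im {f f' : ℝ → ℂ} {r : ℝ} {Q : ℂ} (h1 : HasDerivAt f (f' r) r)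
    (h2 : HasDerivAt f' (Q * f r) r) :
    HasDerivAt (fun r => (conj (f r) * f' r).im) (Q.im * ‖f r‖ ^ 2) r := by
  have h3 := (Complex.imCLM.hasFDerivAt (x := conj (f r) * f' r)).comp_hasDerivAt r
    (hasDerivAt_conj_mul h1 h2)
  have h4 : Complex.imCLM (((‖f' r‖ ^ 2 : ℝ) : ℂ) + Q * ((‖f r‖ ^ 2 : ℝ) : ℂ)) =
      Q.im * ‖f r‖ ^ 2 := by
    rw [Complex.imCLM_apply, Complex.add_im, Complex.ofReal_im, Complex.im_mul_ofReal, zero_add]
  rw [h4] at h3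
  exact h3

theorem hasDerivAt_re {f f' : ℝ → ℂ} {r : ℝ} {Q : ℂ} (h1 : HasDerivAt f (f' r) r)
    (h2 : HasDerivAt f' (Q * f r) r) :
    HasDerivAt (fun r => (conj (f r) * f' r).re) (‖f' r‖ ^ 2 + Q.re * ‖f r‖ ^ 2) r := by
  have h3 := (Complex.reCLM.hasFDerivAt (x := conj (f r) * f' r)).comp_hasDerivAt r
    (hasDerivAt_conj_mul h1 h2)
  have h4 : Complex.reCLM (((‖f' r‖ ^ 2 : ℝ) : ℂ) + Q * ((‖f r‖ ^ 2 : ℝ) : ℂ)) =
      ‖f' r‖ ^ 2 + Q.re * ‖f r‖ ^ 2 := by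
    rw [Complex.reCLM_apply, Complex.add_re, Complex.ofReal_re, Complex.re_mul_ofReal]
  rw [h4] at h3
  exact h3

theorem hasDerivAt_nsq {f f' : ℝ → ℂ} {r : ℝ} (h1 : HasDerivAt f (f' r) r) :
    HasDerivAt (fun r => ‖f r‖ ^ 2) (2 * (conj (f r) * f' r).re) r := by
  have h3 := h1.norm_sq
  rw [Complex.inner, mul_comm (f' r)] at h3
  exact h3

private theorem cont_of {f g : ℝ → ℂ} {s : Set ℝ} (h : ∀ r ∈ s, HasDerivAt f (g r) r) :
    ContinuousOn f s := fun r hr => (h r hr).continuousAt.continuousWithinAt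

theorem im_integral {f f' Q : ℝ → ℂ} {a b : ℝ} (hab : a ≤ b)
    (h1 : ∀ r ∈ Icc a b, HasDerivAt f (f' r) r)
    (h2 : ∀ r ∈ Icc a b, HasDerivAt f' (Q r * f r) r) (hQ : ContinuousOn Q (Icc a b)) :
    (conj (f b) * f' b).im - (conj (f a) * f' a).im = ∫ r in a..b, (Q r).im * ‖f r‖ ^ 2 := by
  symm
  have hu : uIcc a b = Icc a b := uIcc_of_le hab
  refine intervalIntegral.integral_eq_sub_of_hasDerivAt
    (f := fun r => (conj (f r) * f' r).im) ?_ ?_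
  · intro r hr
    rw [hu] at hr
    exact hasDerivAt_im (h1 r hr) (h2 r hr)
  · refine ContinuousOn.intervalIntegrable ?_
    rw [hu]
    exact (Complex.continuous_im.comp_continuousOn hQ).mul ((cont_of h1).norm.pow 2)

theorem re_integral {f f' Q : ℝ → ℂ} {a b : ℝ} (hab : a ≤ b)
    (h1 : ∀ r ∈ Icc a b, HasDerivAt f (f' r) r)
    (h2 : ∀ r ∈ Icc a b, HasDerivAt f' (Q r * f r) r) (hQ : ContinuousOn Q (Icc a b)) :
    (conj (f b) * f' b).re - (conj (f a) * f' a).re =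
      (∫ r in a..b, ‖f' r‖ ^ 2) + ∫ r in a..b, (Q r).re * ‖f r‖ ^ 2 := by
  have hu : uIcc a b = Icc a b := uIcc_of_le hab
  have i1 : IntervalIntegrable (fun r => ‖f' r‖ ^ 2) volume a b := by
    refine ContinuousOn.intervalIntegrable ?_
    rw [hu]
    exact (cont_of h2).norm.pow 2
  have i2 : IntervalIntegrable (fun r => (Q r).re * ‖f r‖ ^ 2) volume a b := by
    refine ContinuousOn.intervalIntegrable ?_
    rw [hu]
    exact (Complex.continuous_re.comp_continuousOn hQ).mul ((cont_of h1).norm.pow 2)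
  rw [← intervalIntegral.integral_add i1 i2]
  symm
  refine intervalIntegral.integral_eq_sub_of_hasDerivAt
    (f := fun r => (conj (f r) * f' r).re) ?_ (i1.add i2)
  intro r hr
  rw [hu] at hr
  exact hasDerivAt_re (h1 r hr) (h2 r hr)

end Pool.Agent.Lib.MP_c84763_mp
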