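import Mathlib
import Pool.Agent.Lib.MP_c84763_mp.Ident
import Pool.Agent.Lib.MP_c84763_mp.Compare

/-! # The regular solution before the left wall -/

open MeasureTheory Set Filter Topology
open scoped ComplexConjugate

namespace Pool.Agent.Lib.MP_c84763_mp

/-- If `Re Q ≥ 0` on `(0,ρ]` then `Re (conj f f') ≥ 0` and `‖f‖` is nondecreasing there. -/
theorem inner_mono {f f' Q : ℝ → ℂ} {ρ : ℝ}
    (h1 : ∀ r ∈ Ioc 0 ρ, HasDerivAt f (f' r) r)
    (h2 : ∀ r ∈ Ioc 0 ρ, HasDerivAt f' (Q r * f r) r)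
    (hlim : Tendsto (fun r => conj (f r) * f' r) (𝓝[>] 0) (𝓝 0))
    (hre0 : ∀ r ∈ Ioc 0 ρ, 0 ≤ (Q r).re) :
    (∀ r ∈ Ioc 0 ρ, 0 ≤ (conj (f r) * f' r).re) ∧
      ∀ r s, 0 < r → r ≤ s → s ≤ ρ → ‖f r‖ ≤ ‖f s‖ := by
  have hmono : MonotoneOn (fun r => (conj (f r) * f' r).re) (Ioc 0 ρ) := by
    apply monotoneOn_of_deriv_nonneg (convex_Ioc 0 ρ)
    · intro r hr
      exact (hasDerivAt_re (h1 r hr) (h2 r hr)).continuousAt.continuousWithinAt
    · intro r hr
      have hr' := interior_subset hr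
      exact (hasDerivAt_re (h1 r hr') (h2 r hr')).differentiableAt.differentiableWithinAt
    · intro r hr
      have hr' := interior_subset hr
      rw [(hasDerivAt_re (h1 r hr') (h2 r hr')).deriv]
      have := hre0 r hr'
      positivity
  have hre : ∀ r ∈ Ioc 0 ρ, 0 ≤ (conj (f r) * f' r).re := by
    intro r hr
    have hl : Tendsto (fun s => (conj (f s) * f' s).re) (𝓝[>] 0) (𝓝 0) :=
      (Complex.continuous_re.tendsto 0).comp hlim
    refine le_of_tendsto hl ?_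
    have : Ioc (0 : ℝ) r ∈ 𝓝[>] (0 : ℝ) := Ioc_mem_nhdsGT hr.1
    filter_upwards [this] with s hs
    exact hmono ⟨hs.1, hs.2.trans hr.2⟩ hr hs.2
  refine ⟨hre, ?_⟩
  have hm2 : MonotoneOn (fun r => ‖f r‖ ^ 2) (Ioc 0 ρ) := by
    apply monotoneOn_of_deriv_nonneg (convex_Ioc 0 ρ)
    · intro r hr
      exact (hasDerivAt_nsq (h1 r hr)).continuousAt.continuousWithinAt
    · intro r hr
      have hr' := interior_subset hr
      exact (hasDerivAt_nsq (h1 r hr')).differentiableAt.differentiableWithinAt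
    · intro r hr
      have hr' := interior_subset hr
      rw [(hasDerivAt_nsq (h1 r hr')).deriv]
      have := hre r hr'
      positivity
  intro r s hr hrs hs
  have h := hm2 ⟨hr, hrs.trans hs⟩ ⟨hr.trans_le hrs, hs⟩ hrs
  exact (pow_le_pow_iff_left₀ (norm_nonneg _) (norm_nonneg _) two_ne_zero).1 h

/-- Proof. For small `ε > 0`, by `im_integral`,
`Im (conj f f')(b) = Im (conj f f')(ε) + ∫_ε^b (Im Q) |f|²`, which is at most
`Im (conj f f')(ε) + H X |f X|² - η ∫_X^ρ |f|²`, and by `compare` (`θ = 0`) on `[X,ρ]`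
`|f r|² ≥ (1/2) |f X|² e^(m (r - X))`; let `ε → 0`. -/
theorem inner_im {f f' Q : ℝ → ℂ} {X ρ b m H η : ℝ} (hX : 0 < X) (hXρ : X ≤ ρ) (hρb : ρ ≤ b)
    (hm : 0 < m) (hη : 0 < η) (hH : 0 ≤ H)
    (h1 : ∀ r ∈ Ioc 0 b, HasDerivAt f (f' r) r)
    (h2 : ∀ r ∈ Ioc 0 b, HasDerivAt f' (Q r * f r) r) (hQ : ContinuousOn Q (Ioc 0 b))
    (hlim : Tendsto (fun r => conj (f r) * f' r) (𝓝[>] 0) (𝓝 0))
    (hre0 : ∀ r ∈ Ioc 0 ρ, 0 ≤ (Q r).re) (hre : ∀ r ∈ Icc X ρ, m ^ 2 ≤ 2 * (Q r).re)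
    (him1 : ∀ r ∈ Ioc 0 X, (Q r).im ≤ H) (him2 : ∀ r ∈ Icc X b, (Q r).im ≤ -η)
    (hne : ∃ r ∈ Ioc 0 X, f r ≠ 0)
    (hcond : H * X < η * (Real.exp (m * (ρ - X)) - 1) / (2 * m)) :
    (conj (f b) * f' b).im < 0 := by
  have hXb : X ≤ b := hXρ.trans hρb
  have h1ρ : ∀ r ∈ Ioc 0 ρ, HasDerivAt f (f' r) r := fun r hr => h1 r ⟨hr.1, hr.2.trans hρb⟩
  have h2ρ : ∀ r ∈ Ioc 0 ρ, HasDerivAt f' (Q r * f r) r := fun r hr => h2 r ⟨hr.1, hr.2.trans hρb⟩
  obtain ⟨hg, hmon⟩ := inner_mono h1ρ h2ρ hlim hre0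
  -- the value at `X` is nonzero
  have hfX : 0 < ‖f X‖ := by
    obtain ⟨r, hr, hr0⟩ := hne
    exact lt_of_lt_of_le (norm_pos_iff.2 hr0) (hmon r X hr.1 hr.2 hXρ)
  -- continuity
  have hfc : ContinuousOn f (Ioc 0 b) := fun r hr => (h1 r hr).continuousAt.continuousWithinAt
  have hcont : ContinuousOn (fun r => (Q r).im * ‖f r‖ ^ 2) (Ioc 0 b) :=
    (Complex.continuous_im.comp_continuousOn hQ).mul (hfc.norm.pow 2)
  have hii : ∀ s t, 0 < s → s ≤ b → 0 < t → t ≤ b →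
      IntervalIntegrable (fun r => (Q r).im * ‖f r‖ ^ 2) volume s t := by
    intro s t hs hsb ht htb
    apply ContinuousOn.intervalIntegrable
    apply hcont.mono
    intro r hr
    rw [mem_uIcc] at hr
    rcases hr with hr | hr
    · exact ⟨hs.trans_le hr.1, hr.2.trans htb⟩
    · exact ⟨ht.trans_le hr.1, hr.2.trans hsb⟩
  -- lower bound of `|f|²` on `[X,ρ]`
  have hlow : ∀ r ∈ Icc X ρ, (1 : ℝ) / 2 * ‖f X‖ ^ 2 * Real.exp (m * (r - X)) ≤ ‖f r‖ ^ 2 := by
    have hc := compare (y := fun r => ‖f r‖ ^ 2) (y1 := fun r => 2 * (conj (f r) * f' r).re)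
      (y2 := fun r => 2 * (‖f' r‖ ^ 2 + (Q r).re * ‖f r‖ ^ 2)) (a := X) (b := ρ) (m := m) (θ := 0)
      hm
      (fun r hr => hasDerivAt_nsq (h1ρ r ⟨hX.trans_le hr.1, hr.2⟩))
      (fun r hr => (hasDerivAt_re (h1ρ r ⟨hX.trans_le hr.1, hr.2⟩)
        (h2ρ r ⟨hX.trans_le hr.1, hr.2⟩)).const_mul 2)
      (fun r hr => by
        have h := hre r hr
        have h3 : m ^ 2 * ‖f r‖ ^ 2 ≤ 2 * (Q r).re * ‖f r‖ ^ 2 :=
          mul_le_mul_of_nonneg_right h (by positivity)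
        have h4 : 0 ≤ ‖f' r‖ ^ 2 := by positivity
        show m ^ 2 * ‖f r‖ ^ 2 ≤ 2 * (‖f' r‖ ^ 2 + (Q r).re * ‖f r‖ ^ 2)
        linarith)
      (by positivity) le_rfl zero_le_one
      (by
        have := hg X ⟨hX, hXρ⟩
        simpa using this)
    intro r hr
    have := hc r hr
    simpa using this
  -- the three integrals
  set A : ℝ := ‖f X‖ ^ 2 with hA
  have hA0 : 0 < A := by positivity
  have hI2 : ∫ r in X..ρ, (Q r).im * ‖f r‖ ^ 2 ≤
      -(η * (A * ((Real.exp (m * (ρ - X)) - 1) / (2 * m)))) := by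
    have hstep : ∫ r in X..ρ, (Q r).im * ‖f r‖ ^ 2 ≤
        ∫ r in X..ρ, -(η * ((1 : ℝ) / 2 * A)) * Real.exp (m * (r - X)) := by
      apply intervalIntegral.integral_mono_on hXρ (hii X ρ hX hXb (hX.trans_le hXρ) hρb)
      · apply Continuous.intervalIntegrable
        fun_prop
      · intro r hr
        have h3 := him2 r ⟨hr.1, hr.2.trans hρb⟩
        have h4 := hlow r hr
        have h5 : (Q r).im * ‖f r‖ ^ 2 ≤ -η * ‖f r‖ ^ 2 :=
          mul_le_mul_of_nonneg_right h3 (by positivity)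
        have h6 := mul_le_mul_of_nonneg_left h4 hη.le
        linarith
    refine hstep.trans (le_of_eq ?_)
    rw [intervalIntegral.integral_const_mul]
    have hint : ∫ r in X..ρ, Real.exp (m * (r - X)) = (Real.exp (m * (ρ - X)) - 1) / m := by
      have hd : ∀ r ∈ uIcc X ρ, HasDerivAt (fun r => Real.exp (m * (r - X)) / m)
          (Real.exp (m * (r - X))) r := by
        intro r _
        have h := ((((hasDerivAt_id r).sub_const X).const_mul m).exp).div_const m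
        have he : Real.exp (m * (id r - X)) * (m * 1) / m = Real.exp (m * (r - X)) := by
          field_simp
          simp
        rw [he] at h
        exact h
      rw [intervalIntegral.integral_eq_sub_of_hasDerivAt hd]
      · simp
        ring
      · apply Continuous.intervalIntegrable
        fun_prop
    rw [hint]
    field_simp
  have hI3 : ∫ r in ρ..b, (Q r).im * ‖f r‖ ^ 2 ≤ 0 := by
    have h0 : ∫ r in ρ..b, (Q r).im * ‖f r‖ ^ 2 ≤ ∫ r in ρ..b, (0 : ℝ) := by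
      apply intervalIntegral.integral_mono_on hρb
        (hii ρ b (hX.trans_le hXρ) hρb (hX.trans_le hXb) le_rfl) intervalIntegrable_const
      intro r hr
      have h3 := him2 r ⟨hXρ.trans hr.1, hr.2⟩
      exact mul_nonpos_of_nonpos_of_nonneg (by linarith) (by positivity)
    simpa using h0
  have hI1 : ∀ ε ∈ Ioc 0 X, ∫ r in ε..X, (Q r).im * ‖f r‖ ^ 2 ≤ H * X * A := by
    intro ε hε
    have hstep : ∫ r in ε..X, (Q r).im * ‖f r‖ ^ 2 ≤ ∫ r in ε..X, H * A := by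
      apply intervalIntegral.integral_mono_on hε.2 (hii ε X hε.1 (hε.2.trans hXb) hX hXb)
      · exact intervalIntegrable_const
      · intro r hr
        have hr0 : 0 < r := hε.1.trans_le hr.1
        have h3 := him1 r ⟨hr0, hr.2⟩
        have h4 : ‖f r‖ ^ 2 ≤ A := by
          have := hmon r X hr0 hr.2 hXρ
          rw [hA]
          gcongr
        calc (Q r).im * ‖f r‖ ^ 2 ≤ H * ‖f r‖ ^ 2 := mul_le_mul_of_nonneg_right h3 (by positivity)
          _ ≤ H * A := mul_le_mul_of_nonneg_left h4 hH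
    refine hstep.trans ?_
    rw [intervalIntegral.integral_const, smul_eq_mul]
    have : X - ε ≤ X := by linarith [hε.1]
    have hHA : 0 ≤ H * A := by positivity
    calc (X - ε) * (H * A) ≤ X * (H * A) := mul_le_mul_of_nonneg_right this hHA
      _ = H * X * A := by ring
  -- conclusion
  have hkey : ∀ ε ∈ Ioc 0 X, (conj (f b) * f' b).im ≤ (conj (f ε) * f' ε).im +
      A * (H * X - η * (Real.exp (m * (ρ - X)) - 1) / (2 * m)) := by
    intro ε hε
    have hid := im_integral (f := f) (f' := f') (Q := Q) (a := ε) (b := b) (hε.2.trans hXb)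
      (fun r hr => h1 r ⟨hε.1.trans_le hr.1, hr.2⟩)
      (fun r hr => h2 r ⟨hε.1.trans_le hr.1, hr.2⟩)
      (hQ.mono (fun r hr => ⟨hε.1.trans_le hr.1, hr.2⟩))
    have hs1 := intervalIntegral.integral_add_adjacent_intervals
      (hii ε X hε.1 (hε.2.trans hXb) hX hXb) (hii X ρ hX hXb (hX.trans_le hXρ) hρb)
    have hs2 := intervalIntegral.integral_add_adjacent_intervals
      (hii ε ρ hε.1 (hε.2.trans hXb) (hX.trans_le hXρ) hρb)
      (hii ρ b (hX.trans_le hXρ) hρb (hX.trans_le hXb) le_rfl)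
    have ha := hI1 ε hε
    have : A * (H * X - η * (Real.exp (m * (ρ - X)) - 1) / (2 * m)) =
        H * X * A + -(η * (A * ((Real.exp (m * (ρ - X)) - 1) / (2 * m)))) := by ring
    rw [this]
    linarith
  have hl : Tendsto (fun s => (conj (f s) * f' s).im +
      A * (H * X - η * (Real.exp (m * (ρ - X)) - 1) / (2 * m))) (𝓝[>] 0)
      (𝓝 (0 + A * (H * X - η * (Real.exp (m * (ρ - X)) - 1) / (2 * m)))) := by
    have h' : Tendsto (fun s => (conj (f s) * f' s).im) (𝓝[>] 0) (𝓝 0) :=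
      (Complex.continuous_im.tendsto 0).comp hlim
    exact h'.add_const _
  have hfin := ge_of_tendsto hl (by
    filter_upwards [Ioc_mem_nhdsGT hX] with s hs
    exact hkey s hs)
  have hneg : A * (H * X - η * (Real.exp (m * (ρ - X)) - 1) / (2 * m)) < 0 :=
    mul_neg_of_pos_of_neg hA0 (by linarith)
  linarith

end Pool.Agent.Lib.MP_c84763_mp
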