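import Mathlib
import Pool.Agent.Lib.MP_c84763_mp.InnerOde

/-! The statements `inner_mono` and `inner_im` are proved in `InnerOde`. -/
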