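import Mathlib
import Pool.Agent.Lib.MP_c84763_mp.Basic

/-! # Numerical facts on `κ` and `zOf κ` -/

open Set

namespace Pool.Agent.Lib.MP_c84763_mp

variable {k : ℝ} {N : ℕ} {P : Par} {X c : ℝ} {n D : ℕ} {κ : ℂ}

theorem c_pos (hG : Good k N P X) (hM : Mode k N P c n D) : 0 < c := by
  have hk : 0 < k := lt_of_lt_of_le one_pos hG.hk
  exact lt_of_lt_of_le (one_div_pos.2 hk) hM.hc1

theorem lam_pos (hG : Good k N P X) (hM : Mode k N P c n D) : 0 < lam D := by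
  have _ := hG.hk
  have hD : (4 : ℝ) ≤ (D : ℝ) := by exact_mod_cast hM.hD
  unfold lam
  have h1 : 0 < (D : ℝ) - 1 := by linarith
  have h2 : 0 < (D : ℝ) - 3 := by linarith
  positivity

private theorem Num1_n (hM : Mode k N P c n D) : (1 : ℝ) ≤ (n : ℝ) := by
  exact_mod_cast hM.hn1

private theorem Num1_norm (hG : Good k N P X) : ‖κ * P.L‖ = ‖κ‖ * P.L := by
  rw [norm_mul, Complex.norm_real, Real.norm_of_nonneg hG.hL.le]

private theorem Num1_pi (hM : Mode k N P c n D) : ‖((Real.pi * n : ℝ) : ℂ)‖ = Real.pi * n := by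
  have h1 := Num1_n hM
  rw [Complex.norm_real, Real.norm_of_nonneg (mul_nonneg Real.pi_pos.le (by linarith))]

theorem kappa_re_pos (hG : Good k N P X) (hM : Mode k N P c n D)
    (hκ : ‖κ * P.L - ((Real.pi * n : ℝ) : ℂ)‖ ≤ 1 / 2) : 0 < κ.re := by
  have h1 := Num1_n hM
  have h2 := (Complex.abs_re_le_norm _).trans hκ
  rw [Complex.sub_re, Complex.re_mul_ofReal, Complex.ofReal_re] at h2
  have h3 := (abs_le.1 h2).1
  have h4 : 3 < Real.pi := Real.pi_gt_three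
  have h5 : Real.pi * 1 ≤ Real.pi * n := mul_le_mul_of_nonneg_left h1 Real.pi_pos.le
  have h6 : 0 < κ.re * P.L := by linarith
  exact (pos_iff_pos_of_mul_pos h6).2 hG.hL

theorem kappa_lower (hG : Good k N P X) (hM : Mode k N P c n D)
    (hκ : ‖κ * P.L - ((Real.pi * n : ℝ) : ℂ)‖ ≤ 1 / 2) : 2 * n / P.L ≤ ‖κ‖ := by
  have h1 := Num1_n hM
  rw [div_le_iff₀ hG.hL, ← Num1_norm hG]
  have h2 : ‖((Real.pi * n : ℝ) : ℂ)‖ ≤ ‖κ * P.L‖ + ‖κ * P.L - ((Real.pi * n : ℝ) : ℂ)‖ := by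
    have := norm_sub_norm_le ((Real.pi * n : ℝ) : ℂ) (κ * P.L)
    rw [norm_sub_rev] at this
    linarith
  rw [Num1_pi hM] at h2
  have h4 : 3 < Real.pi := Real.pi_gt_three
  have h5 : 3 * (n : ℝ) ≤ Real.pi * n := mul_le_mul_of_nonneg_right h4.le (by linarith)
  linarith

theorem kappa_upper (hG : Good k N P X) (hM : Mode k N P c n D)
    (hκ : ‖κ * P.L - ((Real.pi * n : ℝ) : ℂ)‖ ≤ 1 / 2) : ‖κ‖ ≤ 4 * n / P.L := by
  have h1 := Num1_n hM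
  rw [le_div_iff₀ hG.hL, ← Num1_norm hG]
  have h2 : ‖κ * P.L‖ ≤ ‖((Real.pi * n : ℝ) : ℂ)‖ + ‖κ * P.L - ((Real.pi * n : ℝ) : ℂ)‖ := by
    have := norm_sub_norm_le (κ * P.L) ((Real.pi * n : ℝ) : ℂ)
    linarith
  rw [Num1_pi hM] at h2
  have h4 : Real.pi < 3.15 := Real.pi_lt_d2
  have h5 : Real.pi * n ≤ 3.15 * (n : ℝ) := mul_le_mul_of_nonneg_right h4.le (by linarith)
  linarith

theorem kappa_im (hG : Good k N P X) (hM : Mode k N P c n D)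
    (hκ : ‖κ * P.L - ((Real.pi * n : ℝ) : ℂ)‖ ≤ 1 / 2) : |κ.im| * P.L ≤ 1 / 2 := by
  have _ := hM.hn1
  have h2 := (Complex.abs_im_le_norm _).trans hκ
  rw [Complex.sub_im, Complex.im_mul_ofReal, Complex.ofReal_im, sub_zero, abs_mul,
    abs_of_pos hG.hL] at h2
  exact h2

/-- `t = lam D / R²` satisfies `4 n²/L² ≤ t ≤ 10 n²/L²`. -/
theorem t_bounds (hG : Good k N P X) (hM : Mode k N P c n D) :
    4 * (n : ℝ) ^ 2 / P.L ^ 2 ≤ lam D / P.R ^ 2 ∧ lam D / P.R ^ 2 ≤ 10 * (n : ℝ) ^ 2 / P.L ^ 2 := by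
  have hL : 0 < P.L ^ 2 := pow_pos hG.hL 2
  have hR : 0 < P.R ^ 2 := pow_pos hG.hR 2
  constructor
  · rw [div_le_div_iff₀ hL hR]
    exact hM.lo
  · rw [div_le_div_iff₀ hR hL]
    exact hM.hi

end Pool.Agent.Lib.MP_c84763_mp
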