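import Mathlib
import Pool.Agent.Lib.MP_c84763_mp.Num1

/-! # Numerical facts on `κ²` and `zOf κ` -/

open Set

namespace Pool.Agent.Lib.MP_c84763_mp

variable {k : ℝ} {N : ℕ} {P : Par} {X c : ℝ} {n D : ℕ} {κ : ℂ}

private theorem Num1b_re (hG : Good k N P X) (hM : Mode k N P c n D)
    (hκ : ‖κ * P.L - ((Real.pi * n : ℝ) : ℂ)‖ ≤ 1 / 2) : 1 / 2 ≤ κ.re * P.L := by
  have hn : (1 : ℝ) ≤ n := by exact_mod_cast hM.hn1
  have h1 : |(κ * P.L - ((Real.pi * n : ℝ) : ℂ)).re| ≤ 1 / 2 := (Complex.abs_re_le_norm _).trans hκ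
  have h2 : (κ * P.L - ((Real.pi * n : ℝ) : ℂ)).re = κ.re * P.L - Real.pi * n := by
    simp [Complex.sub_re, Complex.mul_re]
  rw [h2] at h1
  have h3 := (abs_le.1 h1).1
  have hpi := Real.pi_gt_three
  nlinarith

private theorem Num1b_zre : (zOf D c P κ).re = lam D / P.R ^ 2 + (κ ^ 2).re := by
  unfold zOf
  rw [Complex.add_re, Complex.add_re, Complex.ofReal_re, Complex.re_ofReal_mul, Complex.I_re]
  ring

/-- `|Im κ²| ≤ 4 n/L² ≤ 4 N/L² ≤ c h/4` by `c1` and `1/k ≤ c`. -/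
theorem kappa_sq_im (hG : Good k N P X) (hM : Mode k N P c n D)
    (hκ : ‖κ * P.L - ((Real.pi * n : ℝ) : ℂ)‖ ≤ 1 / 2) : |(κ ^ 2).im| ≤ c * P.h / 4 := by
  have hL := hG.hL
  have hk : 0 < k := lt_of_lt_of_le one_pos hG.hk
  have h1 := kappa_upper hG hM hκ
  have h2 := kappa_im hG hM hκ
  have h3 : (κ ^ 2).im = 2 * κ.re * κ.im := by
    rw [pow_two, Complex.mul_im]
    ring
  have h4 : |κ.re| ≤ 4 * n / P.L := (Complex.abs_re_le_norm κ).trans h1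
  have h5 : |κ.im| ≤ 1 / 2 / P.L := by
    rw [le_div_iff₀ hL]
    exact h2
  have h6 : |(κ ^ 2).im| ≤ 4 * n / P.L ^ 2 := by
    rw [h3, abs_mul, abs_mul, abs_two]
    have : |κ.re| * |κ.im| ≤ (4 * n / P.L) * (1 / 2 / P.L) :=
      mul_le_mul h4 h5 (abs_nonneg _) (by positivity)
    calc 2 * |κ.re| * |κ.im| = 2 * (|κ.re| * |κ.im|) := by ring
      _ ≤ 2 * ((4 * n / P.L) * (1 / 2 / P.L)) := by linarith
      _ = 4 * n / P.L ^ 2 := by
        field_simp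
  have hnN : (n : ℝ) ≤ N := by exact_mod_cast hM.hn2
  have h7 : 4 * (n : ℝ) / P.L ^ 2 ≤ P.h / (4 * k) := by
    rw [div_le_div_iff₀ (by positivity) (by positivity)]
    have := hG.c1
    nlinarith
  have h8 : P.h / (4 * k) ≤ c * P.h / 4 := by
    have : P.h / (4 * k) = (1 / k) * (P.h / 4) := by
      field_simp
    rw [this]
    have h9 := mul_le_mul_of_nonneg_right hM.hc1 (show 0 ≤ P.h / 4 from by linarith [hG.hh])
    linarith
  linarith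

theorem kappa_sq_re (hG : Good k N P X) (hM : Mode k N P c n D)
    (hκ : ‖κ * P.L - ((Real.pi * n : ℝ) : ℂ)‖ ≤ 1 / 2) : 0 ≤ (κ ^ 2).re := by
  have hL := hG.hL
  have h1 := Num1b_re hG hM hκ
  have h2 := kappa_im hG hM hκ
  have h3 : (κ ^ 2).re = κ.re ^ 2 - κ.im ^ 2 := by
    rw [pow_two, Complex.mul_re]
    ring
  rw [h3]
  have h4 : |κ.im| ≤ κ.re := by
    have : |κ.im| * P.L ≤ κ.re * P.L := by linarith
    exact le_of_mul_le_mul_right this hL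
  have h5 : κ.im ^ 2 ≤ κ.re ^ 2 := by
    rw [← sq_abs κ.im]
    exact pow_le_pow_left₀ (abs_nonneg _) h4 2
  linarith

/-- `(π n + 1/2)² ≤ 14 n²`. -/
theorem kappa_sq_norm (hG : Good k N P X) (hM : Mode k N P c n D)
    (hκ : ‖κ * P.L - ((Real.pi * n : ℝ) : ℂ)‖ ≤ 1 / 2) : ‖κ‖ ^ 2 ≤ 14 * (n : ℝ) ^ 2 / P.L ^ 2 := by
  have hL := hG.hL
  have hn : (1 : ℝ) ≤ n := by exact_mod_cast hM.hn1
  have h1 : ‖κ * P.L‖ ≤ Real.pi * n + 1 / 2 := by
    have h2 : ‖((Real.pi * n : ℝ) : ℂ)‖ = Real.pi * n := by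
      rw [Complex.norm_real, Real.norm_eq_abs, abs_of_nonneg (by positivity)]
    have h3 : κ * P.L = ((Real.pi * n : ℝ) : ℂ) + (κ * P.L - ((Real.pi * n : ℝ) : ℂ)) := by ring
    rw [h3]
    refine (norm_add_le _ _).trans ?_
    rw [h2]
    linarith
  have h4 : ‖κ * P.L‖ = ‖κ‖ * P.L := by
    rw [norm_mul, Complex.norm_real, Real.norm_eq_abs, abs_of_pos hL]
  rw [h4] at h1
  have hpi := Real.pi_lt_d2
  have h5 : ‖κ‖ * P.L ≤ 3.65 * n := by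
    refine h1.trans ?_
    nlinarith
  rw [le_div_iff₀ (by positivity)]
  have h6 : (‖κ‖ * P.L) ^ 2 ≤ (3.65 * n) ^ 2 := pow_le_pow_left₀ (by positivity) h5 2
  nlinarith [sq_nonneg (n : ℝ)]

theorem z_im (hG : Good k N P X) (hM : Mode k N P c n D)
    (hκ : ‖κ * P.L - ((Real.pi * n : ℝ) : ℂ)‖ ≤ 1 / 2) :
    3 / 4 * (c * P.h) ≤ (zOf D c P κ).im ∧ (zOf D c P κ).im ≤ 5 / 4 * (c * P.h) := by
  have h1 := kappa_sq_im hG hM hκ
  have h2 : (zOf D c P κ).im = c * P.h + (κ ^ 2).im := by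
    unfold zOf
    rw [Complex.add_im, Complex.add_im, Complex.ofReal_im, Complex.im_ofReal_mul, Complex.I_im]
    ring
  have h3 := abs_le.1 h1
  rw [h2]
  constructor <;> linarith [h3.1, h3.2]

theorem z_re (hG : Good k N P X) (hM : Mode k N P c n D)
    (hκ : ‖κ * P.L - ((Real.pi * n : ℝ) : ℂ)‖ ≤ 1 / 2) :
    lam D / P.R ^ 2 ≤ (zOf D c P κ).re ∧
      (zOf D c P κ).re ≤ lam D / P.R ^ 2 + 14 * (n : ℝ) ^ 2 / P.L ^ 2 := by
  have h1 := kappa_sq_re hG hM hκ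
  have h2 := kappa_sq_norm hG hM hκ
  have h3 : (zOf D c P κ).re = lam D / P.R ^ 2 + (κ ^ 2).re := Num1b_zre
  have h4 : (κ ^ 2).re ≤ ‖κ‖ ^ 2 := by
    rw [← norm_pow]
    exact Complex.re_le_norm _
  rw [h3]
  constructor <;> linarith

theorem z_norm (hG : Good k N P X) (hM : Mode k N P c n D)
    (hκ : ‖κ * P.L - ((Real.pi * n : ℝ) : ℂ)‖ ≤ 1 / 2) :
    ‖zOf D c P κ‖ ≤ 24 * (n : ℝ) ^ 2 / P.L ^ 2 + c * P.h := by
  have h2 := kappa_sq_norm hG hM hκ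
  have h3 := (t_bounds hG hM).2
  have h0 := (t_bounds hG hM).1
  have hc := c_pos hG hM
  have hh := hG.hh
  have hL := hG.hL
  have ht : 0 ≤ lam D / P.R ^ 2 := (show (0 : ℝ) ≤ 4 * (n : ℝ) ^ 2 / P.L ^ 2 by positivity).trans h0
  unfold zOf
  refine (norm_add_le _ _).trans ?_
  have h5 : ‖κ ^ 2‖ ≤ 14 * (n : ℝ) ^ 2 / P.L ^ 2 := by rw [norm_pow]; exact h2
  have h6 : ‖((lam D / P.R ^ 2 : ℝ) : ℂ) + ((c * P.h : ℝ) : ℂ) * Complex.I‖ ≤
      lam D / P.R ^ 2 + c * P.h := by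
    refine (norm_add_le _ _).trans ?_
    rw [norm_mul, Complex.norm_I, mul_one, Complex.norm_real, Complex.norm_real, Real.norm_eq_abs,
      Real.norm_eq_abs, abs_of_nonneg ht, abs_of_nonneg (by positivity)]
  have h7 : 24 * (n : ℝ) ^ 2 / P.L ^ 2 = 10 * (n : ℝ) ^ 2 / P.L ^ 2 + 14 * (n : ℝ) ^ 2 / P.L ^ 2 := by
    ring
  rw [h7]
  linarith

/-- Distinct radial modes of the same `D` have distinct spectral parameters: the discs
`‖κ L - π n‖ ≤ 1/2` are disjoint and `Re κ > 0`. -/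
theorem z_inj (hG : Good k N P X) {n' : ℕ} {κ' : ℂ} (hM : Mode k N P c n D)
    (hM' : Mode k N P c n' D) (hκ : ‖κ * P.L - ((Real.pi * n : ℝ) : ℂ)‖ ≤ 1 / 2)
    (hκ' : ‖κ' * P.L - ((Real.pi * n' : ℝ) : ℂ)‖ ≤ 1 / 2)
    (h : zOf D c P κ = zOf D c P κ') : n = n' := by
  have hL := hG.hL
  have h1 : κ ^ 2 = κ' ^ 2 := by
    unfold zOf at h
    exact add_left_cancel h
  have hp := kappa_re_pos hG hM hκ
  have hp' := kappa_re_pos hG hM' hκ'
  have h2 : κ = κ' := by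
    rcases sq_eq_sq_iff_eq_or_eq_neg.1 h1 with h3 | h3
    · exact h3
    · exfalso
      rw [h3, Complex.neg_re] at hp
      linarith
  subst h2
  have h4 : ‖((Real.pi * n : ℝ) : ℂ) - ((Real.pi * n' : ℝ) : ℂ)‖ ≤ 1 := by
    have h5 : ((Real.pi * n : ℝ) : ℂ) - ((Real.pi * n' : ℝ) : ℂ) =
        (κ * P.L - ((Real.pi * n' : ℝ) : ℂ)) - (κ * P.L - ((Real.pi * n : ℝ) : ℂ)) := by ring
    rw [h5]
    refine (norm_sub_le _ _).trans ?_
    linarith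
  rw [← Complex.ofReal_sub, Complex.norm_real, Real.norm_eq_abs, ← mul_sub, abs_mul,
    abs_of_pos Real.pi_pos] at h4
  have hpi := Real.pi_gt_three
  have h6 : |(n : ℝ) - n'| < 1 := by
    by_contra hcon
    rw [not_lt] at hcon
    nlinarith
  have h7 : |((n : ℤ) : ℝ) - ((n' : ℤ) : ℝ)| < 1 := by
    push_cast
    exact h6
  have h8 : |(n : ℤ) - (n' : ℤ)| < 1 := by
    exact_mod_cast h7
  have h9 : (n : ℤ) - n' = 0 := Int.abs_lt_one_iff.1 h8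
  omega

end Pool.Agent.Lib.MP_c84763_mp
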