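import Mathlib
import Pool.Agent.Lib.MP_c84763_mp.Num1b

/-! # Numerical facts on the coefficient `Q` -/

open Set

namespace Pool.Agent.Lib.MP_c84763_mp

variable {k : ℝ} {N : ℕ} {P : Par} {X c : ℝ} {n D : ℕ} {κ : ℂ} {v : ℝ → ℂ}

/-- The coefficient of the radial equation at the spectral parameter `z`. -/
noncomputable def Qf (D : ℕ) (c : ℝ) (v : ℝ → ℂ) (z : ℂ) (r : ℝ) : ℂ :=
  ((lam D / r ^ 2 : ℝ) : ℂ) + (c : ℂ) * v r - z

/-- `(1280)² n²/L² ≤ c A`. -/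
private theorem Num2_nu (hG : Good k N P X) (hM : Mode k N P c n D) :
    1280 ^ 2 * ((n : ℝ) ^ 2 / P.L ^ 2) ≤ c * P.A := by
  have hk : 0 < k := lt_of_lt_of_le one_pos hG.hk
  have hc := c_pos hG hM
  have hck : 1 ≤ c * k := (div_le_iff₀ hk).1 hM.hc1
  have hL2 : 0 < P.L ^ 2 := pow_pos hG.hL 2
  have hnN : (n : ℝ) ≤ N := by exact_mod_cast hM.hn2
  have hn0 : (0 : ℝ) ≤ n := Nat.cast_nonneg n
  have h1 : c * ((1280 * N) ^ 2 * k) ≤ c * (P.A * P.L ^ 2) := mul_le_mul_of_nonneg_left hG.c2 hc.le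
  have h2 : (n : ℝ) ^ 2 ≤ (N : ℝ) ^ 2 := pow_le_pow_left₀ hn0 hnN 2
  have h3 : (1280 * (N : ℝ)) ^ 2 * 1 ≤ (1280 * (N : ℝ)) ^ 2 * (c * k) :=
    mul_le_mul_of_nonneg_left hck (by positivity)
  rw [← mul_div_assoc, div_le_iff₀ hL2]
  nlinarith

private theorem Num2_nu_pos (hG : Good k N P X) (hM : Mode k N P c n D) :
    1 / P.L ^ 2 ≤ (n : ℝ) ^ 2 / P.L ^ 2 := by
  have hL2 : 0 < P.L ^ 2 := pow_pos hG.hL 2
  have hn : (1 : ℝ) ≤ n := by exact_mod_cast hM.hn1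
  have h1 : (1 : ℝ) ≤ (n : ℝ) ^ 2 := one_le_pow₀ hn
  exact div_le_div_of_nonneg_right h1 hL2.le

private theorem Num2_re (D : ℕ) (c : ℝ) (v : ℝ → ℂ) (z : ℂ) (r : ℝ) :
    (Qf D c v z r).re = lam D / r ^ 2 + c * (v r).re - z.re := by
  unfold Qf
  rw [Complex.sub_re, Complex.add_re, Complex.ofReal_re, Complex.re_ofReal_mul]

private theorem Num2_im (D : ℕ) (c : ℝ) (v : ℝ → ℂ) (z : ℂ) (r : ℝ) :
    (Qf D c v z r).im = c * (v r).im - z.im := by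
  unfold Qf
  rw [Complex.sub_im, Complex.add_im, Complex.ofReal_im, Complex.im_ofReal_mul, zero_add]

theorem Qf_continuousOn (D : ℕ) (c : ℝ) {v : ℝ → ℂ} (hv : Continuous v) (z : ℂ) :
    ContinuousOn (Qf D c v z) (Ioi 0) := by
  unfold Qf
  have h1 : ContinuousOn (fun r : ℝ => ((lam D / r ^ 2 : ℝ) : ℂ)) (Ioi 0) := by
    refine Complex.continuous_ofReal.comp_continuousOn ?_
    refine continuousOn_const.div (continuousOn_id.pow 2) fun r hr => ?_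
    exact pow_ne_zero 2 (ne_of_gt hr)
  exact (h1.add (continuous_const.mul hv).continuousOn).sub continuousOn_const

/-- For `0 < r ≤ R/3`: `lam D/r² ≥ 9 t`, so `Re Q ≥ 8 t - 14 n²/L² ≥ 8/L²`. -/
theorem Q_re_inner (hG : Good k N P X) (hF : Fits P X v) (hM : Mode k N P c n D)
    (hκ : ‖κ * P.L - ((Real.pi * n : ℝ) : ℂ)‖ ≤ 1 / 2) {r : ℝ} (hr : 0 < r)
    (hr2 : r ≤ P.R / 3) : (4 / P.L) ^ 2 ≤ 2 * (Qf D c v (zOf D c P κ) r).re := by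
  have hc := c_pos hG hM
  have hL2 : 0 < P.L ^ 2 := pow_pos hG.hL 2
  have hlam := lam_pos hG hM
  obtain ⟨t1, t2⟩ := t_bounds hG hM
  obtain ⟨-, z2⟩ := z_re hG hM hκ
  have hv0 := mul_nonneg hc.le (hF.re_nonneg r)
  have hnu := Num2_nu_pos hG hM
  rw [Num2_re]
  have h1 : 9 * (lam D / P.R ^ 2) ≤ lam D / r ^ 2 := by
    have hR := hG.hR
    have h3r : 3 * r ≤ P.R := by linarith
    have h2 : (3 * r) ^ 2 ≤ P.R ^ 2 := pow_le_pow_left₀ (by positivity) h3r 2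
    rw [← mul_div_assoc, div_le_div_iff₀ (by positivity) (by positivity)]
    nlinarith
  have e1 : 4 * (n : ℝ) ^ 2 / P.L ^ 2 = 4 * ((n : ℝ) ^ 2 / P.L ^ 2) := by ring
  have e2 : 14 * (n : ℝ) ^ 2 / P.L ^ 2 = 14 * ((n : ℝ) ^ 2 / P.L ^ 2) := by ring
  have e3 : (4 / P.L) ^ 2 = 16 * (1 / P.L ^ 2) := by
    rw [div_pow]
    ring
  have e4 : 0 < 1 / P.L ^ 2 := by positivity
  rw [e1] at t1
  rw [e2] at z2
  rw [e3]
  linarith

/-- On the walls (`v r = A`): `Re Q ≥ c A - 24 N²/L² ≥ c A/2`, by `c2`. -/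
theorem Q_re_wall (hG : Good k N P X) (hM : Mode k N P c n D)
    (hκ : ‖κ * P.L - ((Real.pi * n : ℝ) : ℂ)‖ ≤ 1 / 2) {r : ℝ} (hr : 0 < r)
    (hv : v r = P.A) : √(c * P.A) ^ 2 ≤ 2 * (Qf D c v (zOf D c P κ) r).re := by
  have hc := c_pos hG hM
  have hlam := lam_pos hG hM
  obtain ⟨t1, t2⟩ := t_bounds hG hM
  obtain ⟨-, z2⟩ := z_re hG hM hκ
  have hnu := Num2_nu hG hM
  have hnu0 : 0 ≤ (n : ℝ) ^ 2 / P.L ^ 2 := by positivity
  have hcA : 0 ≤ c * P.A := (mul_pos hc hG.hA).le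
  rw [Num2_re, hv, Complex.ofReal_re, Real.sq_sqrt hcA]
  have h1 : 0 ≤ lam D / r ^ 2 := by positivity
  have e2 : 14 * (n : ℝ) ^ 2 / P.L ^ 2 = 14 * ((n : ℝ) ^ 2 / P.L ^ 2) := by ring
  have e3 : 10 * (n : ℝ) ^ 2 / P.L ^ 2 = 10 * ((n : ℝ) ^ 2 / P.L ^ 2) := by ring
  rw [e2] at z2
  rw [e3] at t2
  linarith

/-- Where `v` is real: `Im Q ≤ -(3/4) c h`. -/
theorem Q_im_real (hG : Good k N P X) (hM : Mode k N P c n D)
    (hκ : ‖κ * P.L - ((Real.pi * n : ℝ) : ℂ)‖ ≤ 1 / 2) {r : ℝ}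
    (hv : (v r).im = 0) : (Qf D c v (zOf D c P κ) r).im ≤ -(3 / 4 * (c * P.h)) := by
  obtain ⟨z1, -⟩ := z_im hG hM hκ
  rw [Num2_im, hv]
  linarith

theorem Q_im_le (hG : Good k N P X) (hM : Mode k N P c n D)
    (hκ : ‖κ * P.L - ((Real.pi * n : ℝ) : ℂ)‖ ≤ 1 / 2) {r : ℝ}
    (hv : (v r).im ≤ 1) : (Qf D c v (zOf D c P κ) r).im ≤ c := by
  have hc := c_pos hG hM
  obtain ⟨z1, -⟩ := z_im hG hM hκ
  have h1 : 0 ≤ c * P.h := (mul_pos hc hG.hh).le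
  have h2 : c * (v r).im ≤ c * 1 := mul_le_mul_of_nonneg_left hv hc.le
  rw [Num2_im]
  linarith

/-- On the ramps: `|Q| ≤ lam D/r² + c (A+h) + |z| ≤ 4 c A` (`lam D/r² ≤ 11 n²/L²`, `z_norm`, `c2`,
`c2'`; note `e ≤ L ≤ R/1000`). -/
theorem Q_norm_ramp (hG : Good k N P X) (hM : Mode k N P c n D)
    (hκ : ‖κ * P.L - ((Real.pi * n : ℝ) : ℂ)‖ ≤ 1 / 2) {r : ℝ} (hr : P.R - P.e ≤ r)
    (hv : ‖v r‖ ≤ P.A + P.h) : ‖Qf D c v (zOf D c P κ) r‖ ≤ 4 * (c * P.A) := by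
  have hc := c_pos hG hM
  have hlam := lam_pos hG hM
  have hL := hG.hL
  have hR := hG.hR
  have hN : (1 : ℝ) ≤ N := by exact_mod_cast hG.hN
  have hLR : 1000 * P.L ≤ P.R := by
    have h1 : 1000 * P.L * 1 ≤ 1000 * P.L * N := mul_le_mul_of_nonneg_left hN (by positivity)
    have h2 := hG.c5
    linarith
  have heL : P.e ≤ P.L := by
    have h1 := hG.c5'
    have h2 := hG.hw
    have h3 := hG.he
    linarith
  have hr0 : 999 / 1000 * P.R ≤ r := by linarith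
  have hrpos : 0 < r := lt_of_lt_of_le (by positivity) hr0
  obtain ⟨t1, t2⟩ := t_bounds hG hM
  have zn := z_norm hG hM hκ
  have hnu := Num2_nu hG hM
  have hnu0 : 0 ≤ (n : ℝ) ^ 2 / P.L ^ 2 := by positivity
  have hcA : 0 ≤ c * P.A := (mul_pos hc hG.hA).le
  have hch : c * P.h ≤ c * P.A := mul_le_mul_of_nonneg_left hG.c2' hc.le
  have h1 : lam D / r ^ 2 ≤ 11 / 10 * (lam D / P.R ^ 2) := by
    have h2 : (999 / 1000 * P.R) ^ 2 ≤ r ^ 2 := pow_le_pow_left₀ (by positivity) hr0 2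
    rw [← mul_div_assoc, div_le_div_iff₀ (by positivity) (by positivity)]
    nlinarith [mul_le_mul_of_nonneg_left h2 hlam.le, mul_nonneg hlam.le (sq_nonneg P.R)]
  have h2 : ‖((lam D / r ^ 2 : ℝ) : ℂ)‖ = lam D / r ^ 2 := by
    rw [Complex.norm_real, Real.norm_of_nonneg (by positivity)]
  have h3 : ‖(c : ℂ) * v r‖ ≤ c * (P.A + P.h) := by
    rw [norm_mul, Complex.norm_real, Real.norm_of_nonneg hc.le]
    exact mul_le_mul_of_nonneg_left hv hc.le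
  have h4 : ‖Qf D c v (zOf D c P κ) r‖ ≤ lam D / r ^ 2 + c * (P.A + P.h) + ‖zOf D c P κ‖ := by
    unfold Qf
    refine (norm_sub_le _ _).trans (add_le_add ?_ le_rfl)
    refine (norm_add_le _ _).trans (add_le_add h2.le h3)
  have e2 : 24 * (n : ℝ) ^ 2 / P.L ^ 2 = 24 * ((n : ℝ) ^ 2 / P.L ^ 2) := by ring
  have e3 : 10 * (n : ℝ) ^ 2 / P.L ^ 2 = 10 * ((n : ℝ) ^ 2 / P.L ^ 2) := by ring
  rw [e2] at zn
  rw [e3] at t2
  linarith

end Pool.Agent.Lib.MP_c84763_mp
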