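import Mathlib
import Pool.Agent.Lib.MP_c84763_mp.Num1

/-! # Numerical conditions -/

open Set

namespace Pool.Agent.Lib.MP_c84763_mp

variable {k : ℝ} {N : ℕ} {P : Par} {X c : ℝ} {n D : ℕ} {κ : ℂ} {v : ℝ → ℂ}

private theorem k_pos (hG : Good k N P X) : 0 < k := lt_of_lt_of_le one_pos hG.hk

private theorem ck_ge (hG : Good k N P X) (hM : Mode k N P c n D) : 1 ≤ c * k := by
  have hk := k_pos hG
  have := hM.hc1
  rwa [div_le_iff₀ hk] at this

private theorem sqrt_mul_L (hG : Good k N P X) (hM : Mode k N P c n D) :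
    1280 * (N : ℝ) ≤ √(c * P.A) * P.L := by
  have hc := c_pos hG hM
  have hk := k_pos hG
  have h1 := hG.c2
  have h2 := ck_ge hG hM
  have h3 : (1280 * (N : ℝ)) ^ 2 ≤ c * P.A * P.L ^ 2 := by
    have h4 : c * ((1280 * (N : ℝ)) ^ 2 * k) ≤ c * (P.A * P.L ^ 2) :=
      mul_le_mul_of_nonneg_left h1 hc.le
    have h5 : (1280 * (N : ℝ)) ^ 2 * 1 ≤ (1280 * (N : ℝ)) ^ 2 * (c * k) :=
      mul_le_mul_of_nonneg_left h2 (by positivity)
    nlinarith
  have h4 : √(c * P.A) * P.L = √(c * P.A * P.L ^ 2) := by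
    rw [Real.sqrt_mul (mul_nonneg hc.le hG.hA.le), Real.sqrt_sq hG.hL.le]
  rw [h4]
  exact Real.le_sqrt_of_sq_le h3

private theorem sqrt_c_le (hG : Good k N P X) (hM : Mode k N P c n D) :
    √(c * P.A) ≤ √(k * P.A) :=
  Real.sqrt_le_sqrt (mul_le_mul_of_nonneg_right hM.hc2 hG.hA.le)

/-- `e^x ≥ 1 + x`, `√(cA) w ≥ 2 A √(ck)/h ≥ 2 A/h ≥ c A/((3/4) c h)`. -/
theorem exp_cond (hG : Good k N P X) (hM : Mode k N P c n D) :
    1 + √(c * P.A) ^ 2 / (3 / 4 * (c * P.h)) ≤ Real.exp (√(c * P.A) * P.w) := by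
  have hc := c_pos hG hM
  have hk := k_pos hG
  have hA := hG.hA
  have hh := hG.hh
  have h1 := Real.add_one_le_exp (√(c * P.A) * P.w)
  refine le_trans ?_ h1
  rw [Real.sq_sqrt (mul_nonneg hc.le hA.le)]
  have h2 : P.A ≤ √(c * P.A) * √(k * P.A) := by
    rw [← Real.sqrt_mul (mul_nonneg hc.le hA.le)]
    apply Real.le_sqrt_of_sq_le
    have := ck_ge hG hM
    have h3 : P.A ^ 2 * 1 ≤ P.A ^ 2 * (c * k) := mul_le_mul_of_nonneg_left this (by positivity)
    nlinarith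
  have h3 : 2 * P.A ≤ √(c * P.A) * P.w * P.h := by
    have h4 : √(c * P.A) * (2 * √(k * P.A)) ≤ √(c * P.A) * (P.w * P.h) :=
      mul_le_mul_of_nonneg_left hG.c4 (Real.sqrt_nonneg _)
    nlinarith
  have h4 : c * P.A / (3 / 4 * (c * P.h)) ≤ √(c * P.A) * P.w := by
    rw [div_le_iff₀ (by positivity)]
    have h5 : c * (2 * P.A) ≤ c * (√(c * P.A) * P.w * P.h) := mul_le_mul_of_nonneg_left h3 hc.le
    have h6 : 0 < c * P.A := by positivity
    nlinarith
  linarith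

theorem ramp_cond1 (hG : Good k N P X) (hM : Mode k N P c n D) :
    4 * (c * P.A) * P.e ^ 2 ≤ 1 / 8 := by
  have hc := c_pos hG hM
  have hA := hG.hA
  have he := hG.he
  have h1 : √(c * P.A) * P.e ≤ 1 / 128 :=
    (mul_le_mul_of_nonneg_right (sqrt_c_le hG hM) he.le).trans hG.c3
  have h2 : (√(c * P.A) * P.e) ^ 2 ≤ (1 / 128) ^ 2 := pow_le_pow_left₀ (by positivity) h1 2
  rw [mul_pow, Real.sq_sqrt (mul_nonneg hc.le hA.le)] at h2
  nlinarith

theorem ramp_cond2 (hG : Good k N P X) (hM : Mode k N P c n D) :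
    4 * (c * P.A) * (4 / √(c * P.A)) * P.e ≤ 1 / 8 := by
  have hc := c_pos hG hM
  have hA := hG.hA
  have he := hG.he
  have h1 : √(c * P.A) * P.e ≤ 1 / 128 :=
    (mul_le_mul_of_nonneg_right (sqrt_c_le hG hM) he.le).trans hG.c3
  have hs : 0 < √(c * P.A) := Real.sqrt_pos.mpr (mul_pos hc hA)
  have h2 : 4 * (c * P.A) * (4 / √(c * P.A)) * P.e = 16 * (√(c * P.A) * P.e) := by
    have h3 : c * P.A = √(c * P.A) * √(c * P.A) := (Real.mul_self_sqrt (mul_nonneg hc.le hA.le)).symm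
    calc 4 * (c * P.A) * (4 / √(c * P.A)) * P.e
        = 4 * (√(c * P.A) * √(c * P.A)) * (4 / √(c * P.A)) * P.e := by rw [← h3]
      _ = _ := by field_simp; ring
  rw [h2]
  linarith

/-- `L √(cA) ≥ 1280 N`, `e ≤ L/(163840 N)`. -/
theorem kappa_ramp (hG : Good k N P X) (hM : Mode k N P c n D)
    (hκ : ‖κ * P.L - ((Real.pi * n : ℝ) : ℂ)‖ ≤ 1 / 2) :
    ‖κ‖ * (2 * (4 / √(c * P.A) + P.e)) ≤ 1 / 20 := by
  have hc := c_pos hG hM
  have hA := hG.hA
  have he := hG.he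
  have hL := hG.hL
  have hs : 0 < √(c * P.A) := Real.sqrt_pos.mpr (mul_pos hc hA)
  have hN : (1 : ℝ) ≤ N := by exact_mod_cast hG.hN
  have hn : (n : ℝ) ≤ N := by exact_mod_cast hM.hn2
  have h0 : ‖κ‖ ≤ 4 * N / P.L :=
    (kappa_upper hG hM hκ).trans (div_le_div_of_nonneg_right (by linarith) hL.le)
  have h1 := sqrt_mul_L hG hM
  have h2 : √(c * P.A) * P.e ≤ 1 / 128 :=
    (mul_le_mul_of_nonneg_right (sqrt_c_le hG hM) he.le).trans hG.c3
  have h3 : 4 / √(c * P.A) ≤ P.L / (320 * N) := by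
    rw [div_le_div_iff₀ hs (by positivity)]
    nlinarith
  have h4 : P.e ≤ P.L / (163840 * N) := by
    have h5 : P.e ≤ 1 / 128 / √(c * P.A) := by
      rw [le_div_iff₀ hs]
      linarith
    refine h5.trans ?_
    rw [div_le_div_iff₀ hs (by positivity)]
    nlinarith
  have h5 : 2 * (4 / √(c * P.A) + P.e) ≤ 2 * (P.L / (320 * N) + P.L / (163840 * N)) := by
    linarith
  calc ‖κ‖ * (2 * (4 / √(c * P.A) + P.e))
      ≤ 4 * N / P.L * (2 * (P.L / (320 * N) + P.L / (163840 * N))) :=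
        mul_le_mul h0 h5 (by positivity) (by positivity)
    _ = 8 / 320 + 8 / 163840 := by field_simp; norm_num
    _ ≤ 1 / 20 := by norm_num

/-- `R/3 - X ≥ R/4`; `c6`. -/
theorem inner_cond (hG : Good k N P X) (hM : Mode k N P c n D) :
    c * X < 3 / 4 * (c * P.h) * (Real.exp (4 / P.L * (P.R / 3 - X)) - 1) / (2 * (4 / P.L)) := by
  have hc := c_pos hG hM
  have hL := hG.hL
  have hh := hG.hh
  have hX := hG.hX
  have h1 := hG.c6'
  have h2 : P.R / P.L ≤ 4 / P.L * (P.R / 3 - X) := by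
    rw [div_mul_eq_mul_div]
    exact div_le_div_of_nonneg_right (by linarith) hL.le
  have h3 : Real.exp (P.R / P.L) ≤ Real.exp (4 / P.L * (P.R / 3 - X)) := Real.exp_le_exp.mpr h2
  have h4 := hG.c6
  have h5 : P.h * P.L * (Real.exp (P.R / P.L) - 1) ≤
      P.h * P.L * (Real.exp (4 / P.L * (P.R / 3 - X)) - 1) :=
    mul_le_mul_of_nonneg_left (by linarith) (by positivity)
  have h6 : 3 / 4 * (c * P.h) * (Real.exp (4 / P.L * (P.R / 3 - X)) - 1) / (2 * (4 / P.L)) =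
      c * (3 / 32 * (P.h * P.L * (Real.exp (4 / P.L * (P.R / 3 - X)) - 1))) := by
    field_simp
    ring
  rw [h6]
  exact mul_lt_mul_of_pos_left (by linarith) hc

/-- On the cavity `lam D/r²` is nearly constant; `1 - R²/r² ≤ 2 L/R`. -/
theorem cav_eta (hG : Good k N P X) (hM : Mode k N P c n D) {r : ℝ} (hr : P.R ≤ r)
    (hr2 : r ≤ P.R + P.L) :
    |lam D / P.R ^ 2 - lam D / r ^ 2| ≤ 2 * (lam D / P.R ^ 2) * P.L / P.R := by
  have hl := lam_pos hG hM
  have hR := hG.hR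
  have hL := hG.hL
  have hr0 : 0 < r := hR.trans_le hr
  have h1 : lam D / P.R ^ 2 - lam D / r ^ 2 = lam D / P.R ^ 2 * ((r - P.R) * (r + P.R) / r ^ 2) := by
    field_simp
    ring
  have h2 : 0 ≤ (r - P.R) * (r + P.R) / r ^ 2 :=
    div_nonneg (mul_nonneg (by linarith) (by linarith)) (by positivity)
  have h3 : (r - P.R) * (r + P.R) / r ^ 2 ≤ 2 * P.L / P.R := by
    rw [div_le_div_iff₀ (by positivity) hR]
    have a : (r - P.R) * (r + P.R) ≤ P.L * (2 * r) :=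
      mul_le_mul (by linarith) (by linarith) (by linarith) hL.le
    calc (r - P.R) * (r + P.R) * P.R ≤ P.L * (2 * r) * P.R := mul_le_mul_of_nonneg_right a hR.le
      _ ≤ P.L * (2 * r) * r := mul_le_mul_of_nonneg_left hr (by positivity)
      _ = 2 * P.L * r ^ 2 := by ring
  rw [h1, abs_of_nonneg (mul_nonneg (by positivity) h2)]
  calc lam D / P.R ^ 2 * ((r - P.R) * (r + P.R) / r ^ 2) ≤ lam D / P.R ^ 2 * (2 * P.L / P.R) :=
        mul_le_mul_of_nonneg_left h3 (by positivity)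
    _ = _ := by ring

theorem cav_small (hG : Good k N P X) (hM : Mode k N P c n D)
    (hκ : ‖κ * P.L - ((Real.pi * n : ℝ) : ℂ)‖ ≤ 1 / 2) :
    2 * (lam D / P.R ^ 2) * P.L / P.R * P.L ≤ ‖κ‖ / 100 := by
  have hR := hG.hR
  have hL := hG.hL
  have h1 := (t_bounds hG hM).2
  have h2 := kappa_lower hG hM hκ
  have hn1 : (1 : ℝ) ≤ n := by exact_mod_cast hM.hn1
  have hn : (n : ℝ) ≤ N := by exact_mod_cast hM.hn2
  have h3 : 2 * (lam D / P.R ^ 2) * P.L / P.R * P.L ≤ 20 * (n : ℝ) ^ 2 / P.R := by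
    calc 2 * (lam D / P.R ^ 2) * P.L / P.R * P.L = (lam D / P.R ^ 2) * (2 * P.L ^ 2 / P.R) := by
          ring
      _ ≤ (10 * (n : ℝ) ^ 2 / P.L ^ 2) * (2 * P.L ^ 2 / P.R) :=
          mul_le_mul_of_nonneg_right h1 (by positivity)
      _ = 20 * (n : ℝ) ^ 2 / P.R := by field_simp; ring
  have h4 : 20 * (n : ℝ) ^ 2 / P.R ≤ 2 * n / P.L / 100 := by
    rw [div_div, div_le_div_iff₀ hR (by positivity)]
    have h5 : 1000 * (n : ℝ) * P.L ≤ P.R := by
      refine le_trans ?_ hG.c5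
      exact mul_le_mul_of_nonneg_right (by linarith) hL.le
    have h6 : (2 * (n : ℝ)) * (1000 * (n : ℝ) * P.L) ≤ (2 * (n : ℝ)) * P.R :=
      mul_le_mul_of_nonneg_left h5 (by positivity)
    nlinarith
  linarith

/-- Positions: everything takes place to the right of `X`. -/
theorem positions (hG : Good k N P X) : X ≤ P.R / 3 ∧ P.R / 3 ≤ P.R - P.e - P.w ∧
    1 < P.R - P.e - P.w := by
  have hN : (1 : ℝ) ≤ N := by exact_mod_cast hG.hN
  have hL := hG.hL
  have he := hG.he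
  have hw := hG.hw
  have hR := hG.hR
  have hX := hG.hX
  have h1 := hG.c6'
  have h2 := hG.c5'
  have h3 : 1000 * P.L ≤ P.R := by
    refine le_trans ?_ hG.c5
    have : 1000 * P.L * 1 ≤ 1000 * P.L * N := mul_le_mul_of_nonneg_left hN (by positivity)
    linarith
  refine ⟨by linarith, by linarith, by linarith⟩

end Pool.Agent.Lib.MP_c84763_mp
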