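import Mathlib

/-! # Crossing a short ramp -/

open Set

namespace Pool.Agent.Lib.MP_c84763_mp

private theorem Ramp_aux {f f' Q : ℝ → ℂ} {a e B τ : ℝ} (he : 0 ≤ e) (hτ : 0 ≤ τ) (hB0 : 0 ≤ B)
    (h1 : ∀ r ∈ Icc a (a + e), HasDerivAt f (f' r) r)
    (h2 : ∀ r ∈ Icc a (a + e), HasDerivAt f' (Q r * f r) r)
    (hB : ∀ r ∈ Icc a (a + e), ‖Q r‖ ≤ B) (hc1 : B * e ^ 2 ≤ 1 / 8) (hc2 : B * τ * e ≤ 1 / 8)
    {p q : ℝ} (hp : p ∈ Icc a (a + e)) (hq : q ∈ Icc a (a + e))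
    (h0 : ‖f p‖ ≤ τ * ‖f' p‖) (hne : f' p ≠ 0) :
    ‖f q‖ ≤ 2 * (τ + e) * ‖f' q‖ ∧ f' q ≠ 0 := by
  have hcf : ContinuousOn f (Icc a (a + e)) := fun r hr => (h1 r hr).continuousAt.continuousWithinAt
  obtain ⟨x0, hx0, hmax⟩ := isCompact_Icc.exists_isMaxOn ⟨p, hp⟩ hcf.norm
  set F := ‖f x0‖ with hF
  have hFle : ∀ r ∈ Icc a (a + e), ‖f r‖ ≤ F := fun r hr => hmax hr
  have hF0 : 0 ≤ F := norm_nonneg _
  set A := ‖f' p‖ with hA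
  have hA0 : 0 < A := norm_pos_iff.2 hne
  have hdist : ∀ r ∈ Icc a (a + e), ‖r - p‖ ≤ e := by
    intro r hr
    rw [Real.norm_eq_abs, abs_le]
    constructor <;> linarith [hr.1, hr.2, hp.1, hp.2]
  have k1 : ∀ r ∈ Icc a (a + e), ‖f' r - f' p‖ ≤ B * F * e := by
    intro r hr
    have := (convex_Icc a (a + e)).norm_image_sub_le_of_norm_hasDerivWithin_le
      (f := f') (f' := fun r => Q r * f r) (C := B * F)
      (fun x hx => (h2 x hx).hasDerivWithinAt)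
      (fun x hx => by
        rw [norm_mul]
        exact mul_le_mul (hB x hx) (hFle x hx) (norm_nonneg _) hB0) hp hr
    exact this.trans (mul_le_mul_of_nonneg_left (hdist r hr) (mul_nonneg hB0 hF0))
  have k2 : ∀ r ∈ Icc a (a + e), ‖f' r‖ ≤ A + B * F * e := by
    intro r hr
    have := k1 r hr
    have h3 : ‖f' r‖ ≤ ‖f' p‖ + ‖f' r - f' p‖ := by
      have : f' r = f' p + (f' r - f' p) := by ring
      calc ‖f' r‖ = ‖f' p + (f' r - f' p)‖ := by rw [← this]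
        _ ≤ _ := norm_add_le _ _
    linarith
  have k3 : ∀ r ∈ Icc a (a + e), ‖f r - f p‖ ≤ (A + B * F * e) * e := by
    intro r hr
    have := (convex_Icc a (a + e)).norm_image_sub_le_of_norm_hasDerivWithin_le
      (f := f) (f' := f') (C := A + B * F * e)
      (fun x hx => (h1 x hx).hasDerivWithinAt) (fun x hx => k2 x hx) hp hr
    have h4 : 0 ≤ A + B * F * e := by positivity
    exact this.trans (mul_le_mul_of_nonneg_left (hdist r hr) h4)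
  have k4 : F ≤ τ * A + (A + B * F * e) * e := by
    have h5 := k3 x0 hx0
    have h3 : ‖f x0‖ ≤ ‖f p‖ + ‖f x0 - f p‖ := by
      have : f x0 = f p + (f x0 - f p) := by ring
      calc ‖f x0‖ = ‖f p + (f x0 - f p)‖ := by rw [← this]
        _ ≤ _ := norm_add_le _ _
    rw [← hF] at h3
    linarith
  have k5 : F ≤ 8 / 7 * ((τ + e) * A) := by
    have : B * F * e * e ≤ 1 / 8 * F := by
      calc B * F * e * e = (B * e ^ 2) * F := by ring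
        _ ≤ 1 / 8 * F := mul_le_mul_of_nonneg_right hc1 hF0
    nlinarith
  have k6 : B * F * e ≤ 2 / 7 * A := by
    have hBe : 0 ≤ B * e := mul_nonneg hB0 he
    calc B * F * e = (B * e) * F := by ring
      _ ≤ (B * e) * (8 / 7 * ((τ + e) * A)) := mul_le_mul_of_nonneg_left k5 hBe
      _ = 8 / 7 * ((B * τ * e + B * e ^ 2) * A) := by ring
      _ ≤ 8 / 7 * ((1 / 8 + 1 / 8) * A) := by
        have : (B * τ * e + B * e ^ 2) * A ≤ (1 / 8 + 1 / 8) * A :=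
          mul_le_mul_of_nonneg_right (by linarith) hA0.le
        linarith
      _ = 2 / 7 * A := by ring
  have k7 : 5 / 7 * A ≤ ‖f' q‖ := by
    have h3 : ‖f' p‖ ≤ ‖f' q‖ + ‖f' q - f' p‖ := by
      have : f' p = f' q - (f' q - f' p) := by ring
      calc ‖f' p‖ = ‖f' q - (f' q - f' p)‖ := by rw [← this]
        _ ≤ _ := norm_sub_le _ _
    have := k1 q hq
    rw [← hA] at h3
    linarith
  refine ⟨?_, ?_⟩
  · have h6 := hFle q hq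
    have h7 : (τ + e) * A ≤ (τ + e) * (7 / 5 * ‖f' q‖) :=
      mul_le_mul_of_nonneg_left (by linarith) (by linarith)
    have h8 : 0 ≤ (τ + e) * ‖f' q‖ := mul_nonneg (by linarith) (norm_nonneg _)
    nlinarith
  · rw [← norm_pos_iff]
    linarith

/-- Proof. Let `F`, `F1` be the suprema of `‖f‖`, `‖f' - f' a‖` on `[a, a+e]`. Then
`F1 ≤ B F e`, `F ≤ ‖f a‖ + e (‖f' a‖ + B F e)`, so `F (1 - B e²) ≤ (τ + e) ‖f' a‖`,
`F ≤ (8/7) (τ + e) ‖f' a‖`, `F1 ≤ (8/7) (1/8 + 1/8) ‖f' a‖ = (2/7) ‖f' a‖`. -/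
theorem ramp {f f' Q : ℝ → ℂ} {a e B τ : ℝ} (he : 0 ≤ e) (hτ : 0 ≤ τ) (hB0 : 0 ≤ B)
    (h1 : ∀ r ∈ Icc a (a + e), HasDerivAt f (f' r) r)
    (h2 : ∀ r ∈ Icc a (a + e), HasDerivAt f' (Q r * f r) r)
    (hB : ∀ r ∈ Icc a (a + e), ‖Q r‖ ≤ B) (hc1 : B * e ^ 2 ≤ 1 / 8) (hc2 : B * τ * e ≤ 1 / 8)
    (h0 : ‖f a‖ ≤ τ * ‖f' a‖) (hne : f' a ≠ 0) :
    ‖f (a + e)‖ ≤ 2 * (τ + e) * ‖f' (a + e)‖ ∧ f' (a + e) ≠ 0 := by
  exact Ramp_aux he hτ hB0 h1 h2 hB hc1 hc2 (left_mem_Icc.2 (by linarith)) (right_mem_Icc.2 (by linarith)) h0 hne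

/-- The same from right to left. -/
theorem ramp_left {f f' Q : ℝ → ℂ} {a e B τ : ℝ} (he : 0 ≤ e) (hτ : 0 ≤ τ) (hB0 : 0 ≤ B)
    (h1 : ∀ r ∈ Icc a (a + e), HasDerivAt f (f' r) r)
    (h2 : ∀ r ∈ Icc a (a + e), HasDerivAt f' (Q r * f r) r)
    (hB : ∀ r ∈ Icc a (a + e), ‖Q r‖ ≤ B) (hc1 : B * e ^ 2 ≤ 1 / 8) (hc2 : B * τ * e ≤ 1 / 8)
    (h0 : ‖f (a + e)‖ ≤ τ * ‖f' (a + e)‖) (hne : f' (a + e) ≠ 0) :
    ‖f a‖ ≤ 2 * (τ + e) * ‖f' a‖ ∧ f' a ≠ 0 := by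
  exact Ramp_aux he hτ hB0 h1 h2 hB hc1 hc2 (right_mem_Icc.2 (by linarith)) (left_mem_Icc.2 (by linarith)) h0 hne

end Pool.Agent.Lib.MP_c84763_mp
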