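import Mathlib
import Pool.Agent.Lib.MP_c84763_mp.Basic

/-! # Glueing of solutions -/

namespace Pool.Agent.Lib.MP_c84763_mp

theorem hasDerivAt_glue {f g : ℝ → ℂ} {b : ℝ} {d : ℂ} (hf : HasDerivAt f d b)
    (hg : HasDerivAt g d b) (h : f b = g b) :
    HasDerivAt (fun r => if r ≤ b then f r else g r) d b := by
  have h1 : HasDerivWithinAt (fun r => if r ≤ b then f r else g r) d (Set.Iic b) b :=
    (hf.hasDerivWithinAt).congr (fun x hx => if_pos hx) (if_pos le_rfl)
  have h2 : HasDerivWithinAt (fun r => if r ≤ b then f r else g r) d (Set.Ici b) b := by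
    refine (hg.hasDerivWithinAt).congr (fun x hx => ?_) (by simp [h])
    by_cases hxb : x ≤ b
    · have hx' : x = b := le_antisymm hxb hx
      simp [hx', h]
    · simp [hxb]
  have h3 := h1.union h2
  rwa [Set.Iic_union_Ici, hasDerivWithinAt_univ] at h3

private theorem hasDerivAt_piece_left {f g : ℝ → ℂ} {b r : ℝ} {d : ℂ} (hf : HasDerivAt f d r)
    (h : r < b) : HasDerivAt (fun r => if r ≤ b then f r else g r) d r := by
  refine hf.congr_of_eventuallyEq ?_
  filter_upwards [Iio_mem_nhds h] with x hx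
  exact if_pos (le_of_lt hx)

private theorem hasDerivAt_piece_right {f g : ℝ → ℂ} {b r : ℝ} {d : ℂ} (hg : HasDerivAt g d r)
    (h : b < r) : HasDerivAt (fun r => if r ≤ b then f r else g r) d r := by
  refine hg.congr_of_eventuallyEq ?_
  filter_upwards [Ioi_mem_nhds h] with x hx
  exact if_neg (not_le.2 hx)

theorem isSol_glue {D : ℕ} {c : ℝ} {v : ℝ → ℂ} {z : ℂ} {f f' g g' : ℝ → ℂ} {s s1 s2 : Set ℝ}
    {b : ℝ} (h1 : IsSol D c v z f f' s1) (h2 : IsSol D c v z g g' s2)
    (hs1 : ∀ r ∈ s, r ≤ b → r ∈ s1) (hs2 : ∀ r ∈ s, b ≤ r → r ∈ s2)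
    (hfg : f b = g b) (hfg' : f' b = g' b) :
    IsSol D c v z (fun r => if r ≤ b then f r else g r)
      (fun r => if r ≤ b then f' r else g' r) s := by
  constructor
  · intro r hr
    rcases lt_trichotomy r b with hb | hb | hb
    · have := hasDerivAt_piece_left (g := g) (h1.d1 r (hs1 r hr hb.le)) hb
      simpa only [if_pos hb.le] using this
    · subst hb
      have a := h1.d1 r (hs1 r hr le_rfl)
      have a' := h2.d1 r (hs2 r hr le_rfl)
      rw [← hfg'] at a'
      simpa only [le_refl, if_true] using hasDerivAt_glue a a' hfg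
    · have := hasDerivAt_piece_right (f := f) (h2.d1 r (hs2 r hr hb.le)) hb
      simpa only [if_neg (not_le.2 hb)] using this
  · intro r hr
    rcases lt_trichotomy r b with hb | hb | hb
    · have := hasDerivAt_piece_left (g := g') (h1.d2 r (hs1 r hr hb.le)) hb
      simpa only [if_pos hb.le] using this
    · subst hb
      have a := h1.d2 r (hs1 r hr le_rfl)
      have a' := h2.d2 r (hs2 r hr le_rfl)
      rw [← hfg] at a'
      simpa only [le_refl, if_true] using hasDerivAt_glue a a' hfg'
    · have := hasDerivAt_piece_right (f := f') (h2.d2 r (hs2 r hr hb.le)) hb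
      simpa only [if_neg (not_le.2 hb)] using this

end Pool.Agent.Lib.MP_c84763_mp
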