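import Mathlib

/-! # Picard iterates of `y'' = (q - z) y` -/

open MeasureTheory

namespace Pool.Agent.Lib.MP_c84763_mp

/-- Picard iterates of the Volterra equation of `y'' = (q - z) y`, `y(α) = y0`, `y'(α) = y1`. -/
noncomputable def it (q : ℝ → ℂ) (α : ℝ) (y0 y1 : ℂ) : ℕ → ℂ → ℝ → ℂ
  | 0, _, r => y0 + y1 * ((r - α : ℝ) : ℂ)
  | (k + 1), z, r => ∫ s in α..r, ((r - s : ℝ) : ℂ) * ((q s - z) * it q α y0 y1 k z s)

/-- Their derivatives. -/
noncomputable def it' (q : ℝ → ℂ) (α : ℝ) (y0 y1 : ℂ) : ℕ → ℂ → ℝ → ℂ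
  | 0, _, _ => y1
  | (k + 1), z, r => ∫ s in α..r, (q s - z) * it q α y0 y1 k z s

private theorem itSplit (q : ℝ → ℂ) (hq : Continuous q) (α : ℝ) (y0 y1 : ℂ) (k : ℕ) (z : ℂ)
    (hc : Continuous (it q α y0 y1 k z)) (r : ℝ) :
    it q α y0 y1 (k + 1) z r =
      (r : ℂ) * (∫ s in α..r, (q s - z) * it q α y0 y1 k z s) -
        ∫ s in α..r, (s : ℂ) * ((q s - z) * it q α y0 y1 k z s) := by
  have hF : Continuous (fun s => (q s - z) * it q α y0 y1 k z s) := (hq.sub continuous_const).mul hc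
  have hG : Continuous (fun s : ℝ => (s : ℂ) * ((q s - z) * it q α y0 y1 k z s)) :=
    Complex.continuous_ofReal.mul hF
  have hH : Continuous (fun s : ℝ => (r : ℂ) * ((q s - z) * it q α y0 y1 k z s)) :=
    continuous_const.mul hF
  rw [← intervalIntegral.integral_const_mul, ← intervalIntegral.integral_sub
    (hH.intervalIntegrable _ _) (hG.intervalIntegrable _ _)]
  show (∫ s in α..r, ((r - s : ℝ) : ℂ) * ((q s - z) * it q α y0 y1 k z s)) = _
  congr 1
  funext s
  push_cast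
  ring

private theorem itDerivAux (q : ℝ → ℂ) (hq : Continuous q) (α : ℝ) (y0 y1 : ℂ) (k : ℕ) (z : ℂ)
    (hc : Continuous (it q α y0 y1 k z)) (r : ℝ) :
    HasDerivAt (it q α y0 y1 (k + 1) z) (it' q α y0 y1 (k + 1) z r) r := by
  have hF : Continuous (fun s => (q s - z) * it q α y0 y1 k z s) := (hq.sub continuous_const).mul hc
  have hG : Continuous (fun s : ℝ => (s : ℂ) * ((q s - z) * it q α y0 y1 k z s)) :=
    Complex.continuous_ofReal.mul hF
  have h1 := intervalIntegral.integral_hasDerivAt_right (hF.intervalIntegrable α r)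
    (hF.stronglyMeasurableAtFilter _ _) hF.continuousAt
  have h2 := intervalIntegral.integral_hasDerivAt_right (hG.intervalIntegrable α r)
    (hG.stronglyMeasurableAtFilter _ _) hG.continuousAt
  have h0 : HasDerivAt (fun x : ℝ => (x : ℂ)) 1 r := by
    simpa using (hasDerivAt_id r).ofReal_comp
  have h3 := (h0.mul h1).sub h2
  have he : it q α y0 y1 (k + 1) z = fun r : ℝ => (r : ℂ) *
      (∫ s in α..r, (q s - z) * it q α y0 y1 k z s) -
        ∫ s in α..r, (s : ℂ) * ((q s - z) * it q α y0 y1 k z s) := by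
    funext x
    exact itSplit q hq α y0 y1 k z hc x
  rw [he]
  refine h3.congr_deriv ?_
  show _ = ∫ s in α..r, (q s - z) * it q α y0 y1 k z s
  ring

theorem it_continuous (q : ℝ → ℂ) (hq : Continuous q) (α : ℝ) (y0 y1 : ℂ) (k : ℕ) (z : ℂ) :
    Continuous (it q α y0 y1 k z) := by
  induction k with
  | zero =>
    show Continuous (fun r : ℝ => y0 + y1 * ((r - α : ℝ) : ℂ))
    fun_prop
  | succ k ih =>
    exact continuous_iff_continuousAt.2 fun r =>
      (itDerivAux q hq α y0 y1 k z ih r).continuousAt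

theorem it_hasDerivAt (q : ℝ → ℂ) (hq : Continuous q) (α : ℝ) (y0 y1 : ℂ) (k : ℕ) (z : ℂ) (r : ℝ) :
    HasDerivAt (it q α y0 y1 k z) (it' q α y0 y1 k z r) r := by
  cases k with
  | zero =>
    show HasDerivAt (fun r : ℝ => y0 + y1 * ((r - α : ℝ) : ℂ)) y1 r
    have h0 : HasDerivAt (fun x : ℝ => ((x - α : ℝ) : ℂ)) 1 r := by
      simpa using ((hasDerivAt_id r).sub_const α).ofReal_comp
    simpa using (h0.const_mul y1).const_add y0
  | succ k =>
    exact itDerivAux q hq α y0 y1 k z (it_continuous q hq α y0 y1 k z) r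

theorem it'_hasDerivAt (q : ℝ → ℂ) (hq : Continuous q) (α : ℝ) (y0 y1 : ℂ) (k : ℕ) (z : ℂ) (r : ℝ) :
    HasDerivAt (it' q α y0 y1 (k + 1) z) ((q r - z) * it q α y0 y1 k z r) r := by
  have hF : Continuous (fun s => (q s - z) * it q α y0 y1 k z s) :=
    (hq.sub continuous_const).mul (it_continuous q hq α y0 y1 k z)
  exact intervalIntegral.integral_hasDerivAt_right (hF.intervalIntegrable α r)
    (hF.stronglyMeasurableAtFilter _ _) hF.continuousAt

end Pool.Agent.Lib.MP_c84763_mp
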