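import Mathlib
import Pool.Agent.Lib.MP_c84763_mp.OdeIter

/-! # The Picard iterates are entire functions of `z`

Hint: for fixed `r` they are polynomials in `z` (coefficients: continuous functions of `r` given by
the same recursion), or differentiate under the integral sign, using joint continuity. -/

open MeasureTheory

namespace Pool.Agent.Lib.MP_c84763_mp

/-- Polynomials in `z` whose coefficients are continuous functions of `s`. -/
private inductive OdeAnPF : (ℂ → ℝ → ℂ) → Prop
  | base (a : ℝ → ℂ) (ha : Continuous a) : OdeAnPF (fun _ s => a s)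
  | add {F G : ℂ → ℝ → ℂ} (hF : OdeAnPF F) (hG : OdeAnPF G) : OdeAnPF (fun z s => F z s + G z s)
  | zmul {F : ℂ → ℝ → ℂ} (hF : OdeAnPF F) : OdeAnPF (fun z s => z * F z s)

private theorem OdeAn_cont {F : ℂ → ℝ → ℂ} (h : OdeAnPF F) : ∀ z, Continuous (F z) := by
  induction h with
  | base a ha => exact fun _ => ha
  | add _ _ ihF ihG => exact fun z => (ihF z).add (ihG z)
  | zmul _ ih => exact fun z => continuous_const.mul (ih z)

private theorem OdeAn_diff {F : ℂ → ℝ → ℂ} (h : OdeAnPF F) :
    ∀ s, Differentiable ℂ (fun z => F z s) := by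
  induction h with
  | base a ha => exact fun _ => differentiable_const _
  | add _ _ ihF ihG => exact fun s => (ihF s).add (ihG s)
  | zmul _ ih => exact fun s => differentiable_id.mul (ih s)

private theorem OdeAn_gmul {F : ℂ → ℝ → ℂ} (h : OdeAnPF F) {g : ℝ → ℂ} (hg : Continuous g) :
    OdeAnPF (fun z s => g s * F z s) := by
  induction h with
  | base a ha => exact OdeAnPF.base _ (hg.mul ha)
  | @add F G _ _ ihF ihG =>
    have e : (fun z s => g s * (F z s + G z s)) =
        fun (z : ℂ) (s : ℝ) => g s * F z s + g s * G z s := by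
      funext z s
      ring
    rw [e]
    exact OdeAnPF.add ihF ihG
  | @zmul F _ ih =>
    have e : (fun z s => g s * (z * F z s)) = fun (z : ℂ) (s : ℝ) => z * (g s * F z s) := by
      funext z s
      ring
    rw [e]
    exact OdeAnPF.zmul ih

private theorem OdeAn_prim {F : ℂ → ℝ → ℂ} (h : OdeAnPF F) (α : ℝ) :
    OdeAnPF (fun z r => ∫ s in α..r, F z s) := by
  induction h with
  | base a ha =>
    exact OdeAnPF.base _ (intervalIntegral.continuous_primitive
      (fun x y => ha.intervalIntegrable x y) α)
  | @add F G hF hG ihF ihG =>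
    have e : (fun z r => ∫ s in α..r, (F z s + G z s)) =
        fun (z : ℂ) (r : ℝ) => (∫ s in α..r, F z s) + ∫ s in α..r, G z s := by
      funext z r
      exact intervalIntegral.integral_add ((OdeAn_cont hF z).intervalIntegrable _ _)
        ((OdeAn_cont hG z).intervalIntegrable _ _)
    rw [e]
    exact OdeAnPF.add ihF ihG
  | @zmul F _ ih =>
    have e : (fun z r => ∫ s in α..r, z * F z s) =
        fun (z : ℂ) (r : ℝ) => z * ∫ s in α..r, F z s := by
      funext z r
      exact intervalIntegral.integral_const_mul _ _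
    rw [e]
    exact OdeAnPF.zmul ih

private theorem OdeAn_step {F : ℂ → ℝ → ℂ} (h : OdeAnPF F) {q : ℝ → ℂ} (hq : Continuous q) :
    OdeAnPF (fun z s => (q s - z) * F z s) := by
  have e : (fun z s => (q s - z) * F z s) =
      fun (z : ℂ) (s : ℝ) => q s * F z s + z * ((-1 : ℂ) * F z s) := by
    funext z s
    ring
  rw [e]
  exact OdeAnPF.add (OdeAn_gmul h hq)
    (OdeAnPF.zmul (OdeAn_gmul h (g := fun _ => (-1 : ℂ)) continuous_const))

private theorem OdeAn_it (q : ℝ → ℂ) (hq : Continuous q) (α : ℝ) (y0 y1 : ℂ) (k : ℕ) :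
    OdeAnPF (it q α y0 y1 k) := by
  induction k with
  | zero =>
    exact OdeAnPF.base (fun r => y0 + y1 * ((r - α : ℝ) : ℂ)) (by fun_prop)
  | succ k ih =>
    have hG := OdeAn_step ih hq
    have e : it q α y0 y1 (k + 1) = fun (z : ℂ) (r : ℝ) =>
        ((r : ℝ) : ℂ) * (∫ s in α..r, (q s - z) * it q α y0 y1 k z s) +
          (-1 : ℂ) * ∫ s in α..r, ((s : ℝ) : ℂ) * ((q s - z) * it q α y0 y1 k z s) := by
      funext z r
      have hc : Continuous fun s => (q s - z) * it q α y0 y1 k z s := OdeAn_cont hG z
      have hc2 : Continuous fun s : ℝ => ((s : ℝ) : ℂ) * ((q s - z) * it q α y0 y1 k z s) :=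
        Complex.continuous_ofReal.mul hc
      show (∫ s in α..r, ((r - s : ℝ) : ℂ) * ((q s - z) * it q α y0 y1 k z s)) = _
      rw [← intervalIntegral.integral_const_mul, ← intervalIntegral.integral_const_mul,
        ← intervalIntegral.integral_add]
      · congr 1
        funext s
        push_cast
        ring
      · exact (continuous_const.mul hc).intervalIntegrable _ _
      · exact (continuous_const.mul hc2).intervalIntegrable _ _
    rw [e]
    exact OdeAnPF.add (OdeAn_gmul (OdeAn_prim hG α) Complex.continuous_ofReal)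
      (OdeAn_gmul (OdeAn_prim (OdeAn_gmul hG Complex.continuous_ofReal) α)
        (g := fun _ => (-1 : ℂ)) continuous_const)

theorem it_an (q : ℝ → ℂ) (hq : Continuous q) (α : ℝ) (y0 y1 : ℂ) (k : ℕ) (r : ℝ) :
    Differentiable ℂ (fun z => it q α y0 y1 k z r) := by
  exact OdeAn_diff (OdeAn_it q hq α y0 y1 k) r

theorem it'_an (q : ℝ → ℂ) (hq : Continuous q) (α : ℝ) (y0 y1 : ℂ) (k : ℕ) (r : ℝ) :
    Differentiable ℂ (fun z => it' q α y0 y1 k z r) := by
  cases k with
  | zero => exact differentiable_const _
  | succ k => exact OdeAn_diff (OdeAn_prim (OdeAn_step (OdeAn_it q hq α y0 y1 k) hq) α) r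

end Pool.Agent.Lib.MP_c84763_mp
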