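import Mathlib
import Pool.Agent.Lib.MP_c84763_mp.OdeIter

/-! # Bounds for the Picard iterates -/

open MeasureTheory

namespace Pool.Agent.Lib.MP_c84763_mp

private theorem uIoc_abs {α r s : ℝ} (hs : s ∈ Set.uIoc α r) : |s - α| ≤ |r - α| ∧ |r - s| ≤ |r - α| := by
  rw [Set.mem_uIoc] at hs
  rcases hs with ⟨h1, h2⟩ | ⟨h1, h2⟩
  · rw [abs_of_nonneg (by linarith : (0:ℝ) ≤ s - α), abs_of_nonneg (by linarith : (0:ℝ) ≤ r - α),
      abs_of_nonneg (by linarith : (0:ℝ) ≤ r - s)]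
    constructor <;> linarith
  · rw [abs_of_nonpos (by linarith : s - α ≤ 0), abs_of_nonpos (by linarith : r - α ≤ 0),
      abs_of_nonpos (by linarith : r - s ≤ 0)]
    constructor <;> linarith

theorem it_bound (q : ℝ → ℂ) (hq : Continuous q) (α : ℝ) (y0 y1 : ℂ) (T B : ℝ) (hT : 0 ≤ T)
    (z : ℂ) (hB : ∀ s, |s - α| ≤ T → ‖q s - z‖ ≤ B) (k : ℕ) (r : ℝ) (hr : |r - α| ≤ T) :
    ‖it q α y0 y1 k z r‖ ≤ (‖y0‖ + ‖y1‖ * T) * (T * B * |r - α|) ^ k / (k.factorial : ℝ) := by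
  have hB0 : 0 ≤ B := (norm_nonneg _).trans (hB r hr)
  induction k generalizing r with
  | zero =>
    rw [pow_zero, mul_one, Nat.factorial_zero, Nat.cast_one, div_one]
    show ‖y0 + y1 * ((r - α : ℝ) : ℂ)‖ ≤ _
    refine (norm_add_le _ _).trans ?_
    rw [norm_mul, Complex.norm_real, Real.norm_eq_abs]
    gcongr
  | succ k ih =>
    show ‖∫ s in α..r, ((r - s : ℝ) : ℂ) * ((q s - z) * it q α y0 y1 k z s)‖ ≤ _
    have hcont : Continuous fun s => ((r - s : ℝ) : ℂ) * ((q s - z) * it q α y0 y1 k z s) := by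
      have h1 := it_continuous q hq α y0 y1 k z
      fun_prop
    have hcont2 : Continuous fun s : ℝ =>
        T * B * ((‖y0‖ + ‖y1‖ * T) * (T * B) ^ k / (k.factorial : ℝ)) * |s - α| ^ k := by
      fun_prop
    refine intervalIntegral.norm_integral_le_integral_norm_uIoc.trans ?_
    have hmono : ∫ s in Set.uIoc α r, ‖((r - s : ℝ) : ℂ) * ((q s - z) * it q α y0 y1 k z s)‖ ≤
        ∫ s in Set.uIoc α r,
          T * B * ((‖y0‖ + ‖y1‖ * T) * (T * B) ^ k / (k.factorial : ℝ)) * |s - α| ^ k := by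
      refine setIntegral_mono_on (hcont.norm.integrableOn_uIoc) (hcont2.integrableOn_uIoc)
        measurableSet_uIoc fun s hs => ?_
      obtain ⟨h1, h2⟩ := uIoc_abs hs
      have hs' : |s - α| ≤ T := h1.trans hr
      rw [norm_mul, norm_mul, Complex.norm_real, Real.norm_eq_abs]
      have h3 := ih s hs'
      calc |r - s| * (‖q s - z‖ * ‖it q α y0 y1 k z s‖)
          ≤ T * (B * ((‖y0‖ + ‖y1‖ * T) * (T * B * |s - α|) ^ k / (k.factorial : ℝ))) := by
            gcongr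
            · exact h2.trans hr
            · exact hB s hs'
        _ = T * B * ((‖y0‖ + ‖y1‖ * T) * (T * B) ^ k / (k.factorial : ℝ)) * |s - α| ^ k := by
            rw [mul_pow (T * B)]
            ring
    refine hmono.trans (le_of_eq ?_)
    rw [integral_const_mul, integral_pow_abs_sub_uIoc, Nat.factorial_succ]
    push_cast
    have hk1 : ((k : ℝ) + 1) ≠ 0 := by positivity
    have hk2 : (k.factorial : ℝ) ≠ 0 := by positivity
    field_simp
    ring

theorem it'_bound (q : ℝ → ℂ) (hq : Continuous q) (α : ℝ) (y0 y1 : ℂ) (T B : ℝ) (hT : 0 ≤ T)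
    (z : ℂ) (hB : ∀ s, |s - α| ≤ T → ‖q s - z‖ ≤ B) (k : ℕ) (r : ℝ) (hr : |r - α| ≤ T) :
    ‖it' q α y0 y1 (k + 1) z r‖ ≤
      B * T * ((‖y0‖ + ‖y1‖ * T) * (T * B * T) ^ k / (k.factorial : ℝ)) := by
  have hB0 : 0 ≤ B := (norm_nonneg _).trans (hB r hr)
  show ‖∫ s in α..r, (q s - z) * it q α y0 y1 k z s‖ ≤ _
  have h : ∀ s ∈ Set.uIoc α r, ‖(q s - z) * it q α y0 y1 k z s‖ ≤
      B * ((‖y0‖ + ‖y1‖ * T) * (T * B * T) ^ k / (k.factorial : ℝ)) := by
    intro s hs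
    obtain ⟨h1, h2⟩ := uIoc_abs hs
    have hs' : |s - α| ≤ T := h1.trans hr
    rw [norm_mul]
    calc ‖q s - z‖ * ‖it q α y0 y1 k z s‖
        ≤ B * ((‖y0‖ + ‖y1‖ * T) * (T * B * |s - α|) ^ k / (k.factorial : ℝ)) := by
          gcongr
          · exact hB s hs'
          · exact it_bound q hq α y0 y1 T B hT z hB k s hs'
      _ ≤ B * ((‖y0‖ + ‖y1‖ * T) * (T * B * T) ^ k / (k.factorial : ℝ)) := by gcongr
  refine (intervalIntegral.norm_integral_le_of_norm_le_const h).trans ?_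
  calc B * ((‖y0‖ + ‖y1‖ * T) * (T * B * T) ^ k / (k.factorial : ℝ)) * |r - α|
      ≤ B * ((‖y0‖ + ‖y1‖ * T) * (T * B * T) ^ k / (k.factorial : ℝ)) * T := by gcongr
    _ = B * T * ((‖y0‖ + ‖y1‖ * T) * (T * B * T) ^ k / (k.factorial : ℝ)) := by ring

end Pool.Agent.Lib.MP_c84763_mp
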