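import Mathlib
import Pool.Agent.Lib.MP_c84763_mp.OdeBound
import Pool.Agent.Lib.MP_c84763_mp.OdeAn

/-! # Fundamental solutions of `y'' = (q - z) y`, entire in `z`

Sum the Picard iterates: `hasDerivAt_tsum_of_isPreconnected` (or `hasDerivAt_tsum`) on bounded
intervals and `differentiableOn_tsum_of_summable_norm` on discs. -/

open MeasureTheory

namespace Pool.Agent.Lib.MP_c84763_mp

/-- Uniform bounds of the iterates for bounded `r` and `z`. -/
private theorem Ode_unif (q : ℝ → ℂ) (hq : Continuous q) (α : ℝ) (y0 y1 : ℂ) (T R : ℝ)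
    (hT : 0 ≤ T) : ∃ (u v : ℕ → ℝ) (B : ℝ), Summable u ∧ Summable v ∧ 0 ≤ B ∧
      ∀ z : ℂ, ‖z‖ < R → ∀ r : ℝ, |r - α| ≤ T →
        ‖q r - z‖ ≤ B ∧ ∀ k, ‖it q α y0 y1 k z r‖ ≤ u k ∧ ‖it' q α y0 y1 k z r‖ ≤ v k := by
  obtain ⟨Q, hQ⟩ := (isCompact_closedBall α T).exists_bound_of_continuousOn hq.continuousOn
  set B : ℝ := |Q| + |R| with hBdef
  have hB0 : 0 ≤ B := by positivity
  have hb : ∀ z : ℂ, ‖z‖ < R → ∀ s : ℝ, |s - α| ≤ T → ‖q s - z‖ ≤ B := by
    intro z hz s hs
    have h1 : ‖q s‖ ≤ Q := hQ s (by rw [Metric.mem_closedBall, Real.dist_eq]; exact hs)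
    have h2 := norm_sub_le (q s) z
    have h3 := le_abs_self Q
    have h4 := le_abs_self R
    linarith
  set C : ℝ := ‖y0‖ + ‖y1‖ * T with hC
  have hC0 : 0 ≤ C := by positivity
  set u : ℕ → ℝ := fun k => C * (T * B * T) ^ k / (k.factorial : ℝ) with hu
  set v : ℕ → ℝ := fun k => match k with
    | 0 => ‖y1‖
    | k + 1 => B * T * (C * (T * B * T) ^ k / (k.factorial : ℝ)) with hv
  have hsu : Summable u := by
    have h := (Real.summable_pow_div_factorial (T * B * T)).mul_left C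
    refine h.congr fun k => ?_
    rw [hu]
    ring
  have hsv : Summable v := by
    rw [← summable_nat_add_iff 1]
    exact hsu.mul_left (B * T)
  refine ⟨u, v, B, hsu, hsv, hB0, fun z hz r hr => ⟨hb z hz r hr, fun k => ⟨?_, ?_⟩⟩⟩
  · refine (it_bound q hq α y0 y1 T B hT z (hb z hz) k r hr).trans ?_
    have h1 : (T * B * |r - α|) ^ k ≤ (T * B * T) ^ k := by gcongr
    have h2 : C * (T * B * |r - α|) ^ k ≤ C * (T * B * T) ^ k := mul_le_mul_of_nonneg_left h1 hC0
    exact div_le_div_of_nonneg_right h2 (by positivity)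
  · cases k with
    | zero => exact le_rfl
    | succ k => exact it'_bound q hq α y0 y1 T B hT z (hb z hz) k r hr

theorem exists_sol (q : ℝ → ℂ) (hq : Continuous q) (α : ℝ) (y0 y1 : ℂ) :
    ∃ Y Y' : ℂ → ℝ → ℂ, (∀ z, Y z α = y0 ∧ Y' z α = y1) ∧
      (∀ z r, HasDerivAt (Y z) (Y' z r) r) ∧
      (∀ z r, HasDerivAt (Y' z) ((q r - z) * Y z r) r) ∧
      (∀ r, Differentiable ℂ (fun z => Y z r)) ∧ (∀ r, Differentiable ℂ (fun z => Y' z r)) := by
  have hball : ∀ (T : ℝ) (r : ℝ), r ∈ Metric.ball α T ↔ |r - α| < T := fun T r => by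
    rw [Metric.mem_ball, Real.dist_eq]
  refine ⟨fun z r => ∑' k, it q α y0 y1 k z r, fun z r => ∑' k, it' q α y0 y1 k z r,
    fun z => ⟨?_, ?_⟩, fun z r => ?_, fun z r => ?_, fun r => ?_, fun r => ?_⟩
  · have h : ∑' k, it q α y0 y1 k z α = it q α y0 y1 0 z α := by
      refine tsum_eq_single 0 fun k hk => ?_
      obtain ⟨k, rfl⟩ := Nat.exists_eq_succ_of_ne_zero hk
      exact intervalIntegral.integral_same
    show ∑' k, it q α y0 y1 k z α = y0
    rw [h]
    show y0 + y1 * ((α - α : ℝ) : ℂ) = y0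
    simp
  · have h : ∑' k, it' q α y0 y1 k z α = it' q α y0 y1 0 z α := by
      refine tsum_eq_single 0 fun k hk => ?_
      obtain ⟨k, rfl⟩ := Nat.exists_eq_succ_of_ne_zero hk
      exact intervalIntegral.integral_same
    exact h
  · obtain ⟨u, v, B, hsu, hsv, _, h⟩ := Ode_unif q hq α y0 y1 (|r - α| + 1) (‖z‖ + 1)
      (by positivity)
    have hz : ‖z‖ < ‖z‖ + 1 := by linarith
    refine hasDerivAt_tsum_of_isPreconnected (t := Metric.ball α (|r - α| + 1)) (y₀ := α) hsv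
      Metric.isOpen_ball (convex_ball α _).isPreconnected
      (fun k y _ => it_hasDerivAt q hq α y0 y1 k z y)
      (fun k y hy => ((h z hz y ((hball _ _).1 hy).le).2 k).2)
      (Metric.mem_ball_self (by positivity)) ?_ ((hball _ _).2 (by linarith))
    exact Summable.of_norm_bounded hsu fun k => ((h z hz α (by simp; positivity)).2 k).1
  · obtain ⟨u, v, B, hsu, hsv, hB0, h⟩ := Ode_unif q hq α y0 y1 (|r - α| + 1) (‖z‖ + 1)
      (by positivity)
    have hz : ‖z‖ < ‖z‖ + 1 := by linarith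
    have hmem : r ∈ Metric.ball α (|r - α| + 1) := (hball _ _).2 (by linarith)
    have hs' : ∀ y ∈ Metric.ball α (|r - α| + 1), Summable fun k => it' q α y0 y1 k z y :=
      fun y hy => Summable.of_norm_bounded hsv fun k => ((h z hz y ((hball _ _).1 hy).le).2 k).2
    have h1 : HasDerivAt (fun y => ∑' k, it' q α y0 y1 (k + 1) z y)
        (∑' k, (q r - z) * it q α y0 y1 k z r) r := by
      refine hasDerivAt_tsum_of_isPreconnected (t := Metric.ball α (|r - α| + 1)) (y₀ := α)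
        (hsu.mul_left B) Metric.isOpen_ball (convex_ball α _).isPreconnected
        (fun k y _ => it'_hasDerivAt q hq α y0 y1 k z y) (fun k y hy => ?_)
        (Metric.mem_ball_self (by positivity)) ?_ hmem
      · obtain ⟨a1, a2⟩ := h z hz y ((hball _ _).1 hy).le
        rw [norm_mul]
        exact mul_le_mul a1 (a2 k).1 (norm_nonneg _) hB0
      · exact (summable_nat_add_iff 1).2 (hs' α (Metric.mem_ball_self (by positivity)))
    rw [tsum_mul_left] at h1
    have h2 : HasDerivAt (fun y => y1 + ∑' k, it' q α y0 y1 (k + 1) z y)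
        ((q r - z) * ∑' k, it q α y0 y1 k z r) r := h1.const_add y1
    refine h2.congr_of_eventuallyEq ?_
    filter_upwards [Metric.isOpen_ball.mem_nhds hmem] with y hy
    exact (hs' y hy).tsum_eq_zero_add
  · intro z
    obtain ⟨u, v, B, hsu, hsv, _, h⟩ := Ode_unif q hq α y0 y1 |r - α| (‖z‖ + 1) (by positivity)
    have h1 : DifferentiableOn ℂ (fun w => ∑' k, it q α y0 y1 k w r)
        (Metric.ball (0 : ℂ) (‖z‖ + 1)) :=
      Complex.differentiableOn_tsum_of_summable_norm hsu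
        (fun k => (it_an q hq α y0 y1 k r).differentiableOn) Metric.isOpen_ball
        fun k w hw => ((h w (mem_ball_zero_iff.1 hw) r le_rfl).2 k).1
    exact h1.differentiableAt (Metric.isOpen_ball.mem_nhds (mem_ball_zero_iff.2 (by linarith)))
  · intro z
    obtain ⟨u, v, B, hsu, hsv, _, h⟩ := Ode_unif q hq α y0 y1 |r - α| (‖z‖ + 1) (by positivity)
    have h1 : DifferentiableOn ℂ (fun w => ∑' k, it' q α y0 y1 k w r)
        (Metric.ball (0 : ℂ) (‖z‖ + 1)) :=
      Complex.differentiableOn_tsum_of_summable_norm hsv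
        (fun k => (it'_an q hq α y0 y1 k r).differentiableOn) Metric.isOpen_ball
        fun k w hw => ((h w (mem_ball_zero_iff.1 hw) r le_rfl).2 k).2
    exact h1.differentiableAt (Metric.isOpen_ball.mem_nhds (mem_ball_zero_iff.2 (by linarith)))

/-- A fundamental system at the point `b`. -/
structure IsFund (q : ℝ → ℂ) (b : ℝ) (C C' S S' : ℂ → ℝ → ℂ) : Prop where
  C0 : ∀ z, C z b = 1
  C1 : ∀ z, C' z b = 0
  S0 : ∀ z, S z b = 0
  S1 : ∀ z, S' z b = 1
  dC : ∀ z r, HasDerivAt (C z) (C' z r) r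
  dC' : ∀ z r, HasDerivAt (C' z) ((q r - z) * C z r) r
  dS : ∀ z r, HasDerivAt (S z) (S' z r) r
  dS' : ∀ z r, HasDerivAt (S' z) ((q r - z) * S z r) r
  anC : ∀ r, Differentiable ℂ (fun z => C z r)
  anC' : ∀ r, Differentiable ℂ (fun z => C' z r)
  anS : ∀ r, Differentiable ℂ (fun z => S z r)
  anS' : ∀ r, Differentiable ℂ (fun z => S' z r)

theorem exists_fund (q : ℝ → ℂ) (hq : Continuous q) (b : ℝ) :
    ∃ C C' S S' : ℂ → ℝ → ℂ, IsFund q b C C' S S' := by
  obtain ⟨C, C', h1, h2, h3, h4, h5⟩ := exists_sol q hq b 1 0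
  obtain ⟨S, S', k1, k2, k3, k4, k5⟩ := exists_sol q hq b 0 1
  exact ⟨C, C', S, S', fun z => (h1 z).1, fun z => (h1 z).2, fun z => (k1 z).1,
    fun z => (k1 z).2, h2, h3, k2, k3, h4, h5, k4, k5⟩

end Pool.Agent.Lib.MP_c84763_mp
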