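import Mathlib
import Pool.Agent.Lib.MP_c84763_mp.Basic

/-! # The entire function `Φ_D` -/

namespace Pool.Agent.Lib.MP_c84763_mp

private def Fast (a : ℕ → ℂ) : Prop := ∀ R : ℝ, 0 ≤ R → Summable fun m => ‖a m‖ * R ^ m

private theorem fast_pow (m : ℕ) : ((m : ℝ) + 1) ≤ 2 ^ (m + 1) := by
  have h : m + 1 < 2 ^ (m + 1) := Nat.lt_two_pow_self
  exact_mod_cast h.le

private theorem norm_succ (m : ℕ) : ‖(m : ℂ) + 1‖ = (m : ℝ) + 1 := by
  have h : (m : ℂ) + 1 = ((m + 1 : ℕ) : ℂ) := by push_cast; ring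
  rw [h, Complex.norm_natCast]
  push_cast
  ring

private theorem Fast.shift {a : ℕ → ℂ} (h : Fast a) :
    Fast fun m => ((m : ℂ) + 1) * a (m + 1) := by
  intro R hR
  have h1 := (summable_nat_add_iff 1).2 (h (2 * (R + 1)) (by positivity))
  refine Summable.of_nonneg_of_le (fun m => by positivity) (fun m => ?_) h1
  rw [norm_mul, norm_succ]
  have h2 := fast_pow m
  have h3 : R ^ m ≤ (R + 1) ^ (m + 1) := by
    calc R ^ m ≤ (R + 1) ^ m := pow_le_pow_left₀ hR (by linarith) m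
      _ ≤ (R + 1) ^ (m + 1) := pow_le_pow_right₀ (by linarith) (Nat.le_succ m)
  have h4 : ((m : ℝ) + 1) * R ^ m ≤ (2 * (R + 1)) ^ (m + 1) := by
    rw [mul_pow]
    exact mul_le_mul h2 h3 (pow_nonneg hR m) (by positivity)
  calc ((m : ℝ) + 1) * ‖a (m + 1)‖ * R ^ m = ‖a (m + 1)‖ * (((m : ℝ) + 1) * R ^ m) := by ring
    _ ≤ ‖a (m + 1)‖ * (2 * (R + 1)) ^ (m + 1) := mul_le_mul_of_nonneg_left h4 (norm_nonneg _)

private theorem Fast.summable {a : ℕ → ℂ} (h : Fast a) (w : ℂ) :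
    Summable fun m => a m * w ^ m := by
  refine Summable.of_norm ?_
  have h1 := h ‖w‖ (norm_nonneg w)
  refine h1.congr fun m => ?_
  rw [norm_mul, norm_pow]

private theorem Fast.hasDerivAt {a : ℕ → ℂ} (h : Fast a) (w : ℂ) :
    HasDerivAt (fun z : ℂ => ∑' m, a m * z ^ m)
      (∑' m : ℕ, (((m : ℂ) + 1) * a (m + 1)) * w ^ m) w := by
  have hR : 0 ≤ 2 * (‖w‖ + 1) := by positivity
  have hw : w ∈ Metric.ball (0 : ℂ) (‖w‖ + 1) := by
    rw [Metric.mem_ball, dist_zero_right]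
    linarith
  have hbd : ∀ (m : ℕ) (y : ℂ), y ∈ Metric.ball (0 : ℂ) (‖w‖ + 1) →
      ‖a m * ((m : ℂ) * y ^ (m - 1))‖ ≤ ‖a m‖ * (2 * (‖w‖ + 1)) ^ m := by
    intro m y hy
    rw [norm_mul]
    refine mul_le_mul_of_nonneg_left ?_ (norm_nonneg _)
    rcases m with _ | m
    · simp
    · rw [Metric.mem_ball, dist_zero_right] at hy
      rw [norm_mul, Complex.norm_natCast, norm_pow, mul_pow, Nat.add_sub_cancel]
      have h2 : ((m + 1 : ℕ) : ℝ) ≤ 2 ^ (m + 1) := by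
        have := fast_pow m
        push_cast
        exact this
      have h3 : ‖y‖ ^ m ≤ (‖w‖ + 1) ^ (m + 1) := by
        calc ‖y‖ ^ m ≤ (‖w‖ + 1) ^ m := pow_le_pow_left₀ (norm_nonneg y) hy.le m
          _ ≤ (‖w‖ + 1) ^ (m + 1) :=
            pow_le_pow_right₀ (by linarith [norm_nonneg w]) (Nat.le_succ m)
      exact mul_le_mul h2 h3 (pow_nonneg (norm_nonneg y) m) (by positivity)
  have key := hasDerivAt_tsum_of_isPreconnected
    (u := fun m => ‖a m‖ * (2 * (‖w‖ + 1)) ^ m)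
    (g := fun m z => a m * z ^ m) (g' := fun m z => a m * ((m : ℂ) * z ^ (m - 1)))
    (t := Metric.ball (0 : ℂ) (‖w‖ + 1)) (y₀ := w) (y := w)
    (h _ hR) Metric.isOpen_ball (convex_ball (0 : ℂ) (‖w‖ + 1)).isPreconnected
    (fun m y _ => (hasDerivAt_pow m y).const_mul (a m)) hbd hw (h.summable w) hw
  have hs : Summable fun m : ℕ => a m * ((m : ℂ) * w ^ (m - 1)) :=
    Summable.of_norm_bounded (h _ hR) fun m => hbd m w hw
  have e : ∑' m : ℕ, a m * ((m : ℂ) * w ^ (m - 1)) =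
      ∑' m : ℕ, (((m : ℂ) + 1) * a (m + 1)) * w ^ m := by
    rw [hs.tsum_eq_zero_add]
    simp only [Nat.cast_zero, zero_mul, mul_zero, zero_add, Nat.add_sub_cancel]
    refine tsum_congr fun m => ?_
    push_cast
    ring
  rw [← e]
  exact key

private theorem phi_bound (D : ℕ) (hD : 1 ≤ D) (m : ℕ) : |phiCoef D m| ≤ 1 / (m.factorial : ℝ) := by
  induction m with
  | zero => simp [phiCoef]
  | succ m ih =>
    have hD' : (1 : ℝ) ≤ (D : ℝ) := by exact_mod_cast hD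
    have hm : (0 : ℝ) ≤ (m : ℝ) := Nat.cast_nonneg m
    have hden : (m : ℝ) + 1 ≤ 2 * ((m : ℝ) + 1) * (2 * (m : ℝ) + (D : ℝ)) := by nlinarith
    have hpos : (0 : ℝ) < 2 * ((m : ℝ) + 1) * (2 * (m : ℝ) + (D : ℝ)) := by linarith
    rw [phiCoef, abs_div, abs_neg, abs_of_pos hpos, Nat.factorial_succ]
    push_cast
    have hf : (0 : ℝ) < (m.factorial : ℝ) := by exact_mod_cast Nat.factorial_pos m
    calc |phiCoef D m| / (2 * ((m : ℝ) + 1) * (2 * (m : ℝ) + (D : ℝ)))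
        ≤ (1 / (m.factorial : ℝ)) / ((m : ℝ) + 1) := by
          apply div_le_div₀ (by positivity) ih (by linarith) hden
      _ = 1 / (((m : ℝ) + 1) * (m.factorial : ℝ)) := by
          field_simp

private theorem phi_fast (D : ℕ) (hD : 1 ≤ D) : Fast fun m => ((phiCoef D m : ℝ) : ℂ) := by
  intro R hR
  refine Summable.of_nonneg_of_le (fun m => by positivity) (fun m => ?_)
    (Real.summable_pow_div_factorial R)
  rw [Complex.norm_real, Real.norm_eq_abs]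
  calc |phiCoef D m| * R ^ m ≤ 1 / (m.factorial : ℝ) * R ^ m :=
        mul_le_mul_of_nonneg_right (phi_bound D hD m) (pow_nonneg hR m)
    _ = R ^ m / (m.factorial : ℝ) := by ring

theorem phi_zero (D : ℕ) : Phi D 0 = 1 := by
  unfold Phi
  rw [tsum_eq_single 0]
  · simp [phiCoef]
  · intro m hm
    rw [zero_pow hm, mul_zero]

private theorem phi_hasDeriv (D : ℕ) (hD : 1 ≤ D) (w : ℂ) : HasDerivAt (Phi D)
    (∑' m : ℕ, (((m : ℂ) + 1) * ((phiCoef D (m + 1) : ℝ) : ℂ)) * w ^ m) w :=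
  (phi_fast D hD).hasDerivAt w

theorem phi_differentiable (D : ℕ) (hD : 1 ≤ D) : Differentiable ℂ (Phi D) :=
  fun w => (phi_hasDeriv D hD w).differentiableAt

theorem phi_ode (D : ℕ) (hD : 1 ≤ D) (w : ℂ) :
    4 * w * deriv (deriv (Phi D)) w + 2 * (D : ℂ) * deriv (Phi D) w + Phi D w = 0 := by
  have h0 := phi_fast D hD
  have h1 := h0.shift
  have h2 := h1.shift
  have d1 : deriv (Phi D) = fun z : ℂ =>
      ∑' m : ℕ, (((m : ℂ) + 1) * ((phiCoef D (m + 1) : ℝ) : ℂ)) * z ^ m :=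
    funext fun z => (phi_hasDeriv D hD z).deriv
  have d2 : deriv (deriv (Phi D)) w = ∑' m : ℕ, (((m : ℂ) + 1) *
      (((m + 1 : ℕ) : ℂ) + 1) * ((phiCoef D (m + 1 + 1) : ℝ) : ℂ)) * w ^ m := by
    rw [d1, (h1.hasDerivAt w).deriv]
    refine tsum_congr fun m => ?_
    ring
  have s0 := h0.summable w
  have s1 := h1.summable w
  have s2 := h2.summable w
  have s2' : Summable fun m : ℕ => (((m : ℂ) + 1) *
      (((m + 1 : ℕ) : ℂ) + 1) * ((phiCoef D (m + 1 + 1) : ℝ) : ℂ)) * w ^ m := by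
    refine s2.congr fun m => ?_
    ring
  have e3 : Summable fun m : ℕ => (m : ℂ) * ((((m : ℂ) + 1) *
      ((phiCoef D (m + 1) : ℝ) : ℂ)) * w ^ m) := by
    rw [← summable_nat_add_iff 1]
    refine (s2'.mul_left w).congr fun m => ?_
    push_cast
    ring
  have e4 : w * ∑' m : ℕ, (((m : ℂ) + 1) *
      (((m + 1 : ℕ) : ℂ) + 1) * ((phiCoef D (m + 1 + 1) : ℝ) : ℂ)) * w ^ m =
      ∑' m : ℕ, (m : ℂ) * ((((m : ℂ) + 1) * ((phiCoef D (m + 1) : ℝ) : ℂ)) * w ^ m) := by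
    rw [e3.tsum_eq_zero_add, ← tsum_mul_left]
    simp only [Nat.cast_zero, zero_mul, zero_add]
    refine tsum_congr fun m => ?_
    push_cast
    ring
  have e5 : 4 * w * deriv (deriv (Phi D)) w = 4 * (w * ∑' m : ℕ, (((m : ℂ) + 1) *
      (((m + 1 : ℕ) : ℂ) + 1) * ((phiCoef D (m + 1 + 1) : ℝ) : ℂ)) * w ^ m) := by
    rw [d2]
    ring
  have e6 : Phi D w = ∑' m : ℕ, ((phiCoef D m : ℝ) : ℂ) * w ^ m := rfl
  rw [e5, e4, e6, d1, ← tsum_mul_left, ← tsum_mul_left,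
    ← (e3.mul_left 4).tsum_add (s1.mul_left (2 * (D : ℂ))),
    ← ((e3.mul_left 4).add (s1.mul_left (2 * (D : ℂ)))).tsum_add s0]
  have hz : ∀ m : ℕ, 4 * ((m : ℂ) * ((((m : ℂ) + 1) *
      ((phiCoef D (m + 1) : ℝ) : ℂ)) * w ^ m)) +
      2 * (D : ℂ) * ((((m : ℂ) + 1) * ((phiCoef D (m + 1) : ℝ) : ℂ)) * w ^ m) +
      ((phiCoef D m : ℝ) : ℂ) * w ^ m = 0 := by
    intro m
    have hD' : (1 : ℝ) ≤ (D : ℝ) := by exact_mod_cast hD
    have hm : (0 : ℝ) ≤ (m : ℝ) := Nat.cast_nonneg m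
    have hr : phiCoef D m = -(phiCoef D (m + 1) * (2 * ((m : ℝ) + 1) * (2 * (m : ℝ) + (D : ℝ)))) := by
      have hpos : (2 * ((m : ℝ) + 1) * (2 * (m : ℝ) + (D : ℝ))) ≠ 0 := by
        have : (0 : ℝ) < 2 * ((m : ℝ) + 1) * (2 * (m : ℝ) + (D : ℝ)) := by positivity
        exact this.ne'
      rw [show phiCoef D (m + 1) =
        -phiCoef D m / (2 * ((m : ℝ) + 1) * (2 * (m : ℝ) + (D : ℝ))) from rfl]
      field_simp
    rw [hr]
    push_cast
    ring
  rw [tsum_congr hz]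
  exact tsum_zero

end Pool.Agent.Lib.MP_c84763_mp
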