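import Mathlib
import Pool.Agent.Lib.MP_c84763_mp.Phi

/-! # The regular solution for the zero potential -/

open Filter Topology
open scoped ComplexConjugate

namespace Pool.Agent.Lib.MP_c84763_mp

/-- The derivative of `f0`. -/
noncomputable def f0' (D : ℕ) (z : ℂ) (r : ℝ) : ℂ :=
  (((((D : ℝ) - 1) / 2) * r ^ (((D : ℝ) - 1) / 2 - 1) : ℝ) : ℂ) * Phi D (z * (r : ℂ) ^ 2) +
    ((r ^ (((D : ℝ) - 1) / 2) : ℝ) : ℂ) * (deriv (Phi D) (z * (r : ℂ) ^ 2) * (2 * z * (r : ℂ)))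

private lemma st_w (z : ℂ) (r : ℝ) :
    HasDerivAt (fun x : ℝ => z * (x : ℂ) ^ 2) (2 * z * (r : ℂ)) r := by
  have h1 : HasDerivAt (fun x : ℝ => (x : ℂ)) 1 r := Complex.ofRealCLM.hasDerivAt
  have h2 := (h1.pow 2).const_mul z
  refine h2.congr_deriv ?_
  push_cast
  ring

private lemma st_pow (p : ℝ) {r : ℝ} (hr : 0 < r) :
    HasDerivAt (fun x : ℝ => ((x ^ p : ℝ) : ℂ)) ((p * r ^ (p - 1) : ℝ) : ℂ) r :=
  (Real.hasDerivAt_rpow_const (Or.inl hr.ne')).ofReal_comp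

private lemma st_phi (D : ℕ) (hD : 1 ≤ D) (z : ℂ) (r : ℝ) :
    HasDerivAt (fun x : ℝ => Phi D (z * (x : ℂ) ^ 2))
      (deriv (Phi D) (z * (r : ℂ) ^ 2) * (2 * z * (r : ℂ))) r :=
  HasDerivAt.comp r (phi_differentiable D hD _).hasDerivAt (st_w z r)

private lemma st_dd (D : ℕ) (hD : 1 ≤ D) : Differentiable ℂ (deriv (Phi D)) := by
  have h := (phi_differentiable D hD).differentiableOn.deriv isOpen_univ
  exact fun w => (h w (Set.mem_univ w)).differentiableAt Filter.univ_mem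

private lemma st_phi' (D : ℕ) (hD : 1 ≤ D) (z : ℂ) (r : ℝ) :
    HasDerivAt (fun x : ℝ => deriv (Phi D) (z * (x : ℂ) ^ 2))
      (deriv (deriv (Phi D)) (z * (r : ℂ) ^ 2) * (2 * z * (r : ℂ))) r :=
  HasDerivAt.comp r (st_dd D hD _).hasDerivAt (st_w z r)

theorem f0_hasDerivAt (D : ℕ) (hD : 1 ≤ D) (z : ℂ) (r : ℝ) (hr : 0 < r) :
    HasDerivAt (f0 D z) (f0' D z r) r := by
  exact (st_pow (((D : ℝ) - 1) / 2) hr).mul (st_phi D hD z r)

/-- uses `phi_ode` -/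
theorem f0'_hasDerivAt (D : ℕ) (hD : 1 ≤ D) (z : ℂ) (r : ℝ) (hr : 0 < r) :
    HasDerivAt (f0' D z) ((((lam D / r ^ 2 : ℝ) : ℂ) - z) * f0 D z r) r := by
  have h1 : HasDerivAt (fun x : ℝ => (((((D : ℝ) - 1) / 2) * x ^ (((D : ℝ) - 1) / 2 - 1) : ℝ) : ℂ))
      ((((((D : ℝ) - 1) / 2) * ((((D : ℝ) - 1) / 2 - 1) * r ^ (((D : ℝ) - 1) / 2 - 1 - 1))) : ℝ) : ℂ)
      r :=
    ((Real.hasDerivAt_rpow_const (Or.inl hr.ne')).const_mul (((D : ℝ) - 1) / 2)).ofReal_comp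
  have hl : HasDerivAt (fun x : ℝ => 2 * z * (x : ℂ)) (2 * z) r := by
    have h1 : HasDerivAt (fun x : ℝ => (x : ℂ)) 1 r := Complex.ofRealCLM.hasDerivAt
    simpa using h1.const_mul (2 * z)
  have h2 := (h1.mul (st_phi D hD z r)).add
    ((st_pow (((D : ℝ) - 1) / 2) hr).mul ((st_phi' D hD z r).mul hl))
  have h3 : HasDerivAt (f0' D z) _ r := h2
  refine h3.congr_deriv ?_
  simp only [Pi.mul_apply]
  have hode := phi_ode D hD (z * (r : ℂ) ^ 2)
  have hr0 : (r : ℂ) ≠ 0 := Complex.ofReal_ne_zero.2 hr.ne'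
  have e1 : r ^ (((D : ℝ) - 1) / 2 - 1) = r ^ (((D : ℝ) - 1) / 2) / r := by
    rw [Real.rpow_sub_one hr.ne']
  have e2 : r ^ (((D : ℝ) - 1) / 2 - 1 - 1) = r ^ (((D : ℝ) - 1) / 2) / r / r := by
    rw [Real.rpow_sub_one hr.ne', Real.rpow_sub_one hr.ne']
  rw [e1, e2]
  unfold f0 lam
  generalize hX : r ^ (((D : ℝ) - 1) / 2) = X
  generalize hA : deriv (deriv (Phi D)) (z * (r : ℂ) ^ 2) = A at hode ⊢
  generalize hB : deriv (Phi D) (z * (r : ℂ) ^ 2) = B at hode ⊢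
  generalize hC : Phi D (z * (r : ℂ) ^ 2) = C at hode ⊢
  push_cast
  have key : ∀ c : ℂ, c = C → (((D : ℂ) - 1) / 2 * (((D : ℂ) - 1) / 2 - 1) * ((X : ℂ) / r / r)) * c
      = ((D : ℂ) - 1) * ((D : ℂ) - 3) / 4 / (r : ℂ) ^ 2 * (X * c) := by
    intro c _
    field_simp
    ring
  have k1 := key C rfl
  have k2 : (X : ℂ) / r * r = X := by field_simp
  linear_combination k1 + z * (X : ℂ) * hode + (4 * z * B * (((D : ℂ) - 1) / 2)) * k2

theorem f0_an (D : ℕ) (hD : 1 ≤ D) (r : ℝ) : Differentiable ℂ (fun z => f0 D z r) := by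
  unfold f0
  exact (((phi_differentiable D hD).comp (differentiable_id.mul_const _))).const_mul _

theorem f0'_an (D : ℕ) (hD : 1 ≤ D) (r : ℝ) : Differentiable ℂ (fun z => f0' D z r) := by
  unfold f0'
  have h1 : Differentiable ℂ fun z : ℂ => Phi D (z * (r : ℂ) ^ 2) :=
    (phi_differentiable D hD).comp (differentiable_id.mul_const _)
  have h2 : Differentiable ℂ fun z : ℂ => deriv (Phi D) (z * (r : ℂ) ^ 2) :=
    (st_dd D hD).comp (differentiable_id.mul_const _)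
  exact (h1.const_mul _).add ((h2.mul ((differentiable_id.const_mul 2).mul_const _)).const_mul _)

theorem f0_tendsto (D : ℕ) (hD : 4 ≤ D) (z : ℂ) :
    Tendsto (fun r => conj (f0 D z r) * f0' D z r) (𝓝[>] 0) (𝓝 0) := by
  have hD1 : 1 ≤ D := by omega
  have hD' : (4 : ℝ) ≤ D := by exact_mod_cast hD
  have hw : ContinuousAt (fun x : ℝ => z * (x : ℂ) ^ 2) 0 := by fun_prop
  have hphi : ContinuousAt (fun x : ℝ => Phi D (z * (x : ℂ) ^ 2)) 0 :=
    (st_phi D hD1 z 0).continuousAt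
  have hphi' : ContinuousAt (fun x : ℝ => deriv (Phi D) (z * (x : ℂ) ^ 2)) 0 :=
    (st_phi' D hD1 z 0).continuousAt
  have hp : ∀ a : ℝ, 0 < a → ContinuousAt (fun x : ℝ => ((x ^ a : ℝ) : ℂ)) 0 := by
    intro a ha
    exact Complex.continuous_ofReal.continuousAt.comp
      (Real.continuousAt_rpow_const 0 a (Or.inr ha.le))
  have h1 : ContinuousAt (f0 D z) 0 := (hp _ (by linarith)).mul hphi
  have h2 : ContinuousAt (f0' D z) 0 := by
    refine ContinuousAt.add (ContinuousAt.mul ?_ hphi) ((hp _ (by linarith)).mul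
      (hphi'.mul (by fun_prop)))
    have h3 := (hp (((D : ℝ) - 1) / 2 - 1) (by linarith)).const_mul
      (((((D : ℝ) - 1) / 2 : ℝ)) : ℂ)
    refine h3.congr (Eventually.of_forall fun x => ?_)
    push_cast
    rfl
  have e1 : f0 D z 0 = 0 := by
    unfold f0
    rw [Real.zero_rpow (by linarith)]
    simp
  have e2 : ContinuousAt (fun r => conj (f0 D z r) * f0' D z r) 0 :=
    (Complex.continuous_conj.continuousAt.comp h1).mul h2
  have e3 := e2.tendsto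
  simp only [e1, map_zero, zero_mul] at e3
  exact e3.mono_left nhdsWithin_le_nhds

theorem f0_ne (D : ℕ) (hD : 1 ≤ D) (z : ℂ) : ∀ᶠ r in 𝓝[>] (0 : ℝ), f0 D z r ≠ 0 := by
  have hphi : ContinuousAt (fun x : ℝ => Phi D (z * (x : ℂ) ^ 2)) 0 :=
    (st_phi D hD z 0).continuousAt
  have h0 : Phi D (z * ((0 : ℝ) : ℂ) ^ 2) ≠ 0 := by
    have : z * ((0 : ℝ) : ℂ) ^ 2 = 0 := by simp
    rw [this, phi_zero]
    exact one_ne_zero
  have h1 := hphi.eventually_ne h0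
  filter_upwards [nhdsWithin_le_nhds h1, self_mem_nhdsWithin] with r hr1 hr2
  unfold f0
  refine mul_ne_zero (Complex.ofReal_ne_zero.2 ?_) hr1
  exact (Real.rpow_pos_of_pos hr2 _).ne'

end Pool.Agent.Lib.MP_c84763_mp
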