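import Mathlib
import Pool.Agent.Lib.MP_c84763_mp.Start
import Pool.Agent.Lib.MP_c84763_mp.Ode
import Pool.Agent.Lib.MP_c84763_mp.Glue

/-! # Existence of the regular solution

For `r ≤ 1` take `f0`, for `r ≥ 1` the combination `f0 D z 1 * C z r + f0' D z 1 * S z r` of a
fundamental system at `1` for `q r = lam D / (max r 1)^2 + c v r`. -/

namespace Pool.Agent.Lib.MP_c84763_mp

theorem exists_regular (D : ℕ) (hD : 1 ≤ D) (c : ℝ) (v : ℝ → ℂ) (hv : Continuous v)
    (hv0 : ∀ r, r ≤ 1 → v r = 0) :
    ∃ f f' : ℂ → ℝ → ℂ, IsRegular D c v f f' ∧ ∀ z r, 0 < r → r ≤ 1 → f' z r = f0' D z r := by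
  set q : ℝ → ℂ := fun r => ((lam D / (max r 1) ^ 2 : ℝ) : ℂ) + (c : ℂ) * v r with hq
  have hqc : Continuous q := by
    apply Continuous.add
    · apply Complex.continuous_ofReal.comp
      apply Continuous.div continuous_const
      · exact (continuous_id.max continuous_const).pow 2
      · intro r
        have : (0 : ℝ) < max r 1 := lt_of_lt_of_le one_pos (le_max_right _ _)
        positivity
    · exact continuous_const.mul hv
  obtain ⟨C, C', S, S', hF⟩ := exists_fund q hqc 1
  refine ⟨fun z r => if r ≤ 1 then f0 D z r else f0 D z 1 * C z r + f0' D z 1 * S z r,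
    fun z r => if r ≤ 1 then f0' D z r else f0 D z 1 * C' z r + f0' D z 1 * S' z r, ?_, ?_⟩
  · constructor
    · intro z
      have h1 : IsSol D c v z (f0 D z) (f0' D z) (Set.Ioc 0 1) := by
        constructor
        · intro r hr
          exact f0_hasDerivAt D hD z r hr.1
        · intro r hr
          have h := f0'_hasDerivAt D hD z r hr.1
          convert h using 2
          rw [hv0 r hr.2]
          ring
      have h2 : IsSol D c v z (fun r => f0 D z 1 * C z r + f0' D z 1 * S z r)
          (fun r => f0 D z 1 * C' z r + f0' D z 1 * S' z r) (Set.Ici 1) := by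
        constructor
        · intro r _
          exact ((hF.dC z r).const_mul _).add ((hF.dS z r).const_mul _)
        · intro r hr
          have h := ((hF.dC' z r).const_mul (f0 D z 1)).add ((hF.dS' z r).const_mul (f0' D z 1))
          refine h.congr_deriv ?_
          have hqr : q r = ((lam D / r ^ 2 : ℝ) : ℂ) + (c : ℂ) * v r := by
            simp only [hq]
            rw [max_eq_left (show (1 : ℝ) ≤ r from hr)]
          rw [hqr]
          ring
      exact isSol_glue h1 h2 (fun r hr hr1 => ⟨hr, hr1⟩) (fun r _ hr1 => hr1)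
        (by simp only [hF.C0, hF.S0]; ring) (by simp only [hF.C1, hF.S1]; ring)
    · intro z r _ hr1
      exact if_pos hr1
    · intro r hr
      by_cases h : r ≤ 1
      · simp only [if_pos h]
        exact f0_an D hD r
      · simp only [if_neg h]
        exact ((f0_an D hD 1).mul (hF.anC r)).add ((f0'_an D hD 1).mul (hF.anS r))
    · intro r hr
      by_cases h : r ≤ 1
      · simp only [if_pos h]
        exact f0'_an D hD r
      · simp only [if_neg h]
        exact ((f0_an D hD 1).mul (hF.anC' r)).add ((f0'_an D hD 1).mul (hF.anS' r))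
  · intro z r _ hr1
    exact if_pos hr1

end Pool.Agent.Lib.MP_c84763_mp
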