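import Mathlib
import Pool.Agent.Lib.MP_c84763_mp.Ident
import Pool.Agent.Lib.MP_c84763_mp.Compare

/-! # The wall lemma -/

open MeasureTheory Set
open scoped ComplexConjugate

namespace Pool.Agent.Lib.MP_c84763_mp

/-- Proof. By `im_integral` the imaginary part of `conj f f'` at `b` is `≤ -η ∫ |f|² < 0`, so
`f b ≠ 0`, `f' b ≠ 0`. If `‖f' b‖ < (K/4) ‖f b‖`, then `y = |f|²` satisfies
`y'' = 2 ‖f'‖² + 2 (Re Q) y ≥ K² y`, `y'(b) ≤ 2 ‖f b‖ ‖f' b‖ ≤ (K/2) y b`, so by `compare_right`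
(`θ = 1/2`) `y r ≥ (1/4) y b e^(K (b - r))`, hence
`(K/4) y b > ‖f b‖ ‖f' b‖ ≥ η ∫ y ≥ η y b (e^(K (b-a)) - 1) / (4 K)`, contradiction. -/
theorem left_wall {f f' Q : ℝ → ℂ} {a b K η : ℝ} (hK : 0 < K) (hη : 0 < η) (hab : a < b)
    (h1 : ∀ r ∈ Icc a b, HasDerivAt f (f' r) r)
    (h2 : ∀ r ∈ Icc a b, HasDerivAt f' (Q r * f r) r) (hQ : ContinuousOn Q (Icc a b))
    (hre : ∀ r ∈ Icc a b, K ^ 2 ≤ 2 * (Q r).re) (him : ∀ r ∈ Icc a b, (Q r).im ≤ -η)
    (hexp : 1 + K ^ 2 / η ≤ Real.exp (K * (b - a))) (h0 : (conj (f a) * f' a).im < 0) :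
    ‖f b‖ ≤ 4 / K * ‖f' b‖ ∧ f' b ≠ 0 := by
  have hab' := hab.le
  have hu : uIcc a b = Icc a b := uIcc_of_le hab'
  have cf : ContinuousOn f (Icc a b) := fun r hr => (h1 r hr).continuousAt.continuousWithinAt
  have cy : ContinuousOn (fun r => ‖f r‖ ^ 2) (Icc a b) := cf.norm.pow 2
  have iy : IntervalIntegrable (fun r => ‖f r‖ ^ 2) volume a b := by
    refine ContinuousOn.intervalIntegrable ?_
    rw [hu]
    exact cy
  have iQ : IntervalIntegrable (fun r => (Q r).im * ‖f r‖ ^ 2) volume a b := by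
    refine ContinuousOn.intervalIntegrable ?_
    rw [hu]
    exact (Complex.continuous_im.comp_continuousOn hQ).mul cy
  have him1 := im_integral hab' h1 h2 hQ
  have him2 : ∫ r in a..b, (Q r).im * ‖f r‖ ^ 2 ≤ -η * ∫ r in a..b, ‖f r‖ ^ 2 := by
    rw [← intervalIntegral.integral_const_mul]
    refine intervalIntegral.integral_mono_on hab' iQ (iy.const_mul _) ?_
    intro r hr
    exact mul_le_mul_of_nonneg_right (him r hr) (sq_nonneg _)
  have hpos : 0 ≤ ∫ r in a..b, ‖f r‖ ^ 2 :=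
    intervalIntegral.integral_nonneg hab' fun r _ => sq_nonneg _
  have hneg : (conj (f b) * f' b).im < 0 := by
    have : -η * ∫ r in a..b, ‖f r‖ ^ 2 ≤ 0 := by
      have := mul_nonneg hη.le hpos
      linarith
    linarith
  have hne : conj (f b) * f' b ≠ 0 := by
    intro h
    rw [h, Complex.zero_im] at hneg
    exact lt_irrefl _ hneg
  have hf' : f' b ≠ 0 := right_ne_zero_of_mul hne
  have hf : f b ≠ 0 := by
    intro h
    rw [h, map_zero, zero_mul] at hne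
    exact hne rfl
  have hfb : 0 < ‖f b‖ := norm_pos_iff.2 hf
  refine ⟨?_, hf'⟩
  by_contra hcon
  push Not at hcon
  have hlt : ‖f' b‖ < K / 4 * ‖f b‖ := by
    have h3 : 4 / K * ‖f' b‖ < ‖f b‖ := hcon
    have h4 : K / 4 * (4 / K * ‖f' b‖) < K / 4 * ‖f b‖ :=
      mul_lt_mul_of_pos_left h3 (by positivity)
    have h5 : K / 4 * (4 / K * ‖f' b‖) = ‖f' b‖ := by
      field_simp
    rwa [h5] at h4
  have habs : |(conj (f b) * f' b).im| ≤ ‖f b‖ * ‖f' b‖ := by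
    refine (Complex.abs_im_le_norm _).trans ?_
    rw [norm_mul, Complex.norm_conj]
  have hre1 : (conj (f b) * f' b).re ≤ ‖f b‖ * ‖f' b‖ := by
    refine (Complex.re_le_norm _).trans ?_
    rw [norm_mul, Complex.norm_conj]
  have hcomp := compare_right (y := fun r => ‖f r‖ ^ 2) (y1 := fun r => 2 * (conj (f r) * f' r).re)
    (y2 := fun r => 2 * (‖f' r‖ ^ 2 + (Q r).re * ‖f r‖ ^ 2)) (a := a) (b := b) (m := K)
    (θ := 1 / 2) hK
    (fun r hr => hasDerivAt_nsq (h1 r hr))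
    (fun r hr => (hasDerivAt_re (h1 r hr) (h2 r hr)).const_mul 2)
    (by
      intro r hr
      have h3 := hre r hr
      have h4 := mul_le_mul_of_nonneg_right h3 (sq_nonneg ‖f r‖)
      have h5 := sq_nonneg ‖f' r‖
      show K ^ 2 * ‖f r‖ ^ 2 ≤ 2 * (‖f' r‖ ^ 2 + (Q r).re * ‖f r‖ ^ 2)
      linarith)
    (sq_nonneg _) (by norm_num) (by norm_num)
    (by
      show 2 * (conj (f b) * f' b).re ≤ 1 / 2 * K * ‖f b‖ ^ 2
      have h3 : ‖f b‖ * ‖f' b‖ ≤ ‖f b‖ * (K / 4 * ‖f b‖) :=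
        mul_le_mul_of_nonneg_left hlt.le hfb.le
      have h4 : ‖f b‖ * (K / 4 * ‖f b‖) = K / 4 * ‖f b‖ ^ 2 := by ring
      rw [h4] at h3
      linarith)
  have hexpint : ∫ r in a..b, Real.exp (K * (b - r)) = (Real.exp (K * (b - a)) - 1) / K := by
    have h3 : ∀ r ∈ uIcc a b, HasDerivAt (fun r => -(Real.exp (K * (b - r)) / K))
        (Real.exp (K * (b - r))) r := by
      intro r _
      have h4 : HasDerivAt (fun r : ℝ => K * (b - r)) (K * (-1)) r :=
        ((hasDerivAt_id r).const_sub b).const_mul K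
      have h5 := (h4.exp.div_const K).neg
      have h6 : -(Real.exp (K * (b - r)) * (K * -1) / K) = Real.exp (K * (b - r)) := by
        field_simp
      rw [h6] at h5
      exact h5
    rw [intervalIntegral.integral_eq_sub_of_hasDerivAt h3]
    · rw [sub_self, mul_zero, Real.exp_zero]
      ring
    · exact Continuous.intervalIntegrable (by fun_prop) _ _
  have hlow : 1 / 4 * ‖f b‖ ^ 2 * ((Real.exp (K * (b - a)) - 1) / K) ≤ ∫ r in a..b, ‖f r‖ ^ 2 := by
    rw [← hexpint, ← intervalIntegral.integral_const_mul]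
    refine intervalIntegral.integral_mono_on hab'
      (Continuous.intervalIntegrable (by fun_prop) _ _) iy ?_
    intro r hr
    have h3 := hcomp r hr
    have h4 : (1 - 1 / 2 : ℝ) / 2 * ‖f b‖ ^ 2 * Real.exp (K * (b - r)) =
        1 / 4 * ‖f b‖ ^ 2 * Real.exp (K * (b - r)) := by ring
    rw [← h4]
    exact h3
  have hq : K / η ≤ (Real.exp (K * (b - a)) - 1) / K := by
    rw [le_div_iff₀ hK]
    have h3 : K / η * K = K ^ 2 / η := by ring
    rw [h3]
    linarith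
  have h6 : 1 / 4 * ‖f b‖ ^ 2 * (K / η) ≤ ∫ r in a..b, ‖f r‖ ^ 2 :=
    (mul_le_mul_of_nonneg_left hq (by positivity)).trans hlow
  have h7 : K / 4 * ‖f b‖ ^ 2 ≤ η * ∫ r in a..b, ‖f r‖ ^ 2 := by
    have h8 := mul_le_mul_of_nonneg_left h6 hη.le
    have h9 : η * (1 / 4 * ‖f b‖ ^ 2 * (K / η)) = K / 4 * ‖f b‖ ^ 2 := by
      field_simp
    rwa [h9] at h8
  have h10 : ‖f b‖ * ‖f' b‖ < K / 4 * ‖f b‖ ^ 2 := by
    have h3 : ‖f b‖ * ‖f' b‖ < ‖f b‖ * (K / 4 * ‖f b‖) :=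
      mul_lt_mul_of_pos_left hlt hfb
    have h4 : ‖f b‖ * (K / 4 * ‖f b‖) = K / 4 * ‖f b‖ ^ 2 := by ring
    rwa [h4] at h3
  have h11 := neg_abs_le (conj (f b) * f' b).im
  linarith

/-- Apply `left_wall` to `r ↦ f (a + b - r)`, `r ↦ -f' (a + b - r)`. -/
theorem right_wall {f f' Q : ℝ → ℂ} {a b K η : ℝ} (hK : 0 < K) (hη : 0 < η) (hab : a < b)
    (h1 : ∀ r ∈ Icc a b, HasDerivAt f (f' r) r)
    (h2 : ∀ r ∈ Icc a b, HasDerivAt f' (Q r * f r) r) (hQ : ContinuousOn Q (Icc a b))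
    (hre : ∀ r ∈ Icc a b, K ^ 2 ≤ 2 * (Q r).re) (him : ∀ r ∈ Icc a b, (Q r).im ≤ -η)
    (hexp : 1 + K ^ 2 / η ≤ Real.exp (K * (b - a))) (h0 : 0 < (conj (f b) * f' b).im) :
    ‖f a‖ ≤ 4 / K * ‖f' a‖ ∧ f' a ≠ 0 := by
  have hmem : ∀ r ∈ Icc a b, a + b - r ∈ Icc a b := by
    intro r hr
    exact ⟨by linarith [hr.2], by linarith [hr.1]⟩
  have h := left_wall (f := fun r => f (a + b - r)) (f' := fun r => -f' (a + b - r))
    (Q := fun r => Q (a + b - r)) (a := a) (b := b) hK hη hab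
    (fun r hr => by
      have h3 := (h1 _ (hmem r hr)).comp_const_sub (a + b) r
      exact h3)
    (fun r hr => by
      have h3 := ((h2 _ (hmem r hr)).comp_const_sub (a + b) r).neg
      rw [neg_neg] at h3
      exact h3)
    (hQ.comp (by fun_prop) (fun r hr => hmem r hr))
    (fun r hr => hre _ (hmem r hr)) (fun r hr => him _ (hmem r hr)) hexp
    (by
      show (conj (f (a + b - a)) * -f' (a + b - a)).im < 0
      rw [add_sub_cancel_left, mul_neg, Complex.neg_im]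
      linarith)
  have e1 : a + b - b = a := by ring
  simp only [e1, norm_neg, ne_eq, neg_eq_zero] at h
  exact h

end Pool.Agent.Lib.MP_c84763_mp
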