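import Mathlib
import Pool.Agent.Lib.MP_c84763_mp.Num2
import Pool.Agent.Lib.MP_c84763_mp.Num3
import Pool.Agent.Lib.MP_c84763_mp.Regular
import Pool.Agent.Lib.MP_c84763_mp.Wall
import Pool.Agent.Lib.MP_c84763_mp.Ramp
import Pool.Agent.Lib.MP_c84763_mp.Inner

/-! # The regular solution at the left end of the cavity -/

open Set Filter Topology
open scoped ComplexConjugate

namespace Pool.Agent.Lib.MP_c84763_mp

variable {k : ℝ} {N : ℕ} {P : Par} {X c : ℝ} {n D : ℕ} {v : ℝ → ℂ} {f f' : ℂ → ℝ → ℂ}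

/-- `inner_im` with `ρ = R/3`, `m = 4/L`, `H = c`, `η = (3/4) c h`, `b = R - e - w`
(`f0_tendsto`, `f0_ne` near `0`). -/
theorem left_im (hG : Good k N P X) (hF : Fits P X v) (hM : Mode k N P c n D)
    (hf : IsRegular D c v f f') (hf' : ∀ z r, 0 < r → r ≤ 1 → f' z r = f0' D z r)
    {κ : ℂ} (hκ : ‖κ * P.L - ((Real.pi * n : ℝ) : ℂ)‖ ≤ 1 / 2) :
    (conj (f (zOf D c P κ) (P.R - P.e - P.w)) * f' (zOf D c P κ) (P.R - P.e - P.w)).im < 0 := by
  have hc := c_pos hG hM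
  have hsol := hf.sol (zOf D c P κ)
  obtain ⟨hp1, hp2, hp3⟩ := positions hG
  have hX := hG.hX
  have hL := hG.hL
  have hh := hG.hh
  have hw := hG.hw
  have hR : 0 < P.R - P.e - P.w := by linarith
  have hnear : ∀ᶠ r in 𝓝[>] (0 : ℝ), 0 < r ∧ r ≤ 1 := by
    filter_upwards [self_mem_nhdsWithin, nhdsWithin_le_nhds (Iic_mem_nhds (zero_lt_one' ℝ))]
      with r h1 h2
    exact ⟨h1, h2⟩
  have hlim : Tendsto (fun r => conj (f (zOf D c P κ) r) * f' (zOf D c P κ) r) (𝓝[>] 0)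
      (𝓝 0) := by
    refine (f0_tendsto D hM.hD (zOf D c P κ)).congr' ?_
    filter_upwards [hnear] with r hr
    rw [hf.near _ r hr.1 hr.2, hf' _ r hr.1 hr.2]
  have hne : ∃ r ∈ Ioc 0 X, f (zOf D c P κ) r ≠ 0 := by
    have hD1 : 1 ≤ D := le_trans (by norm_num) hM.hD
    obtain ⟨r, h1, h2⟩ := (hnear.and (f0_ne D hD1 (zOf D c P κ))).exists
    refine ⟨r, ⟨h1.1, h1.2.trans hX⟩, ?_⟩
    rw [hf.near _ r h1.1 h1.2]
    exact h2
  refine inner_im (Q := Qf D c v (zOf D c P κ)) (X := X) (ρ := P.R / 3) (m := 4 / P.L) (H := c)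
    (η := 3 / 4 * (c * P.h)) (by linarith) hp1 hp2 (by positivity) (by positivity) hc.le
    (fun r hr => hsol.d1 r hr.1) (fun r hr => hsol.d2 r hr.1)
    ((Qf_continuousOn D c hF.cont _).mono fun r hr => hr.1) hlim ?_ ?_ ?_ ?_ hne
    (inner_cond hG hM)
  · intro r hr
    have h1 := Q_re_inner hG hF hM hκ hr.1 hr.2
    have h2 : (0 : ℝ) ≤ (4 / P.L) ^ 2 := sq_nonneg _
    linarith
  · intro r hr
    exact Q_re_inner hG hF hM hκ (by linarith [hr.1]) hr.2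
  · intro r hr
    exact Q_im_le hG hM hκ (hF.im_le_one r)
  · intro r hr
    exact Q_im_real hG hM hκ (hF.mid r hr.1 (by linarith [hr.2]))

/-- `left_wall` on `[R-e-w, R-e]` with `K = √(cA)`, then `ramp` on `[R-e, R]` with `B = 4cA`. -/
theorem left_side (hG : Good k N P X) (hF : Fits P X v) (hM : Mode k N P c n D)
    (hf : IsRegular D c v f f') (hf' : ∀ z r, 0 < r → r ≤ 1 → f' z r = f0' D z r)
    {κ : ℂ} (hκ : ‖κ * P.L - ((Real.pi * n : ℝ) : ℂ)‖ ≤ 1 / 2) :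
    f' (zOf D c P κ) P.R ≠ 0 ∧
      ‖κ‖ * ‖f (zOf D c P κ) P.R‖ ≤ 1 / 20 * ‖f' (zOf D c P κ) P.R‖ := by
  have hc := c_pos hG hM
  have hsol := hf.sol (zOf D c P κ)
  obtain ⟨hp1, hp2, hp3⟩ := positions hG
  have hL := hG.hL
  have hh := hG.hh
  have hw := hG.hw
  have he := hG.he
  have hA := hG.hA
  have hR : 0 < P.R - P.e - P.w := by linarith
  have hK : 0 < √(c * P.A) := Real.sqrt_pos.2 (mul_pos hc hA)
  have hwall := left_wall (f := f (zOf D c P κ)) (f' := f' (zOf D c P κ))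
    (Q := Qf D c v (zOf D c P κ)) (a := P.R - P.e - P.w) (b := P.R - P.e) (K := √(c * P.A))
    (η := 3 / 4 * (c * P.h)) hK (by positivity) (by linarith)
    (fun r hr => hsol.d1 r (lt_of_lt_of_le hR hr.1))
    (fun r hr => hsol.d2 r (lt_of_lt_of_le hR hr.1))
    ((Qf_continuousOn D c hF.cont _).mono fun r hr => lt_of_lt_of_le hR hr.1)
    (fun r hr => Q_re_wall hG hM hκ (lt_of_lt_of_le hR hr.1) (hF.lwall r hr.1 hr.2))
    (fun r hr => Q_im_real hG hM hκ (by rw [hF.lwall r hr.1 hr.2, Complex.ofReal_im]))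
    (by
      have h := exp_cond hG hM
      have e : P.R - P.e - (P.R - P.e - P.w) = P.w := by ring
      rw [e]
      exact h)
    (left_im hG hF hM hf hf' hκ)
  have hRe : P.R - P.e + P.e = P.R := by ring
  have hramp := ramp (f := f (zOf D c P κ)) (f' := f' (zOf D c P κ))
    (Q := Qf D c v (zOf D c P κ)) (a := P.R - P.e) (e := P.e) (B := 4 * (c * P.A))
    (τ := 4 / √(c * P.A)) he.le (by positivity) (by positivity)
    (fun r hr => hsol.d1 r (lt_of_lt_of_le (by linarith) hr.1))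
    (fun r hr => hsol.d2 r (lt_of_lt_of_le (by linarith) hr.1))
    (fun r hr => Q_norm_ramp hG hM hκ hr.1 (hF.lramp r hr.1 (by linarith [hr.2])))
    (ramp_cond1 hG hM) (ramp_cond2 hG hM) hwall.1 hwall.2
  rw [hRe] at hramp
  refine ⟨hramp.2, ?_⟩
  have h1 := mul_le_mul_of_nonneg_left hramp.1 (norm_nonneg κ)
  have h2 := mul_le_mul_of_nonneg_right (kappa_ramp hG hM hκ) (norm_nonneg (f' (zOf D c P κ) P.R))
  calc ‖κ‖ * ‖f (zOf D c P κ) P.R‖
      ≤ ‖κ‖ * (2 * (4 / √(c * P.A) + P.e) * ‖f' (zOf D c P κ) P.R‖) := h1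
    _ = ‖κ‖ * (2 * (4 / √(c * P.A) + P.e)) * ‖f' (zOf D c P κ) P.R‖ := by ring
    _ ≤ 1 / 20 * ‖f' (zOf D c P κ) P.R‖ := h2

end Pool.Agent.Lib.MP_c84763_mp
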