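import Mathlib

/-! # Minimum modulus principle and the sine on a small circle -/

open Set Metric

namespace Pool.Agent.Lib.MP_c84763_mp

/-- Otherwise `1/G` is holomorphic, and the maximum principle gives a contradiction. -/
theorem exists_zero_of_norm_lt {G : ℂ → ℂ} {z0 : ℂ} {ρ m : ℝ} (hρ : 0 < ρ)
    (hG : ∀ z ∈ closedBall z0 ρ, DifferentiableAt ℂ G z)
    (hm : ∀ z ∈ sphere z0 ρ, m ≤ ‖G z‖) (h0 : ‖G z0‖ < m) :
    ∃ z ∈ closedBall z0 ρ, G z = 0 := by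
  by_contra hcon
  push Not at hcon
  have hm0 : 0 < m := (norm_nonneg _).trans_lt h0
  have hd : DiffContOnCl ℂ (fun z => (G z)⁻¹) (ball z0 ρ) := by
    refine ⟨fun z hz => ?_, fun z hz => ?_⟩
    · exact ((hG z (ball_subset_closedBall hz)).inv
        (hcon z (ball_subset_closedBall hz))).differentiableWithinAt
    · rw [closure_ball z0 hρ.ne'] at hz
      exact ((hG z hz).inv (hcon z hz)).continuousAt.continuousWithinAt
  have h1 : ‖(G z0)⁻¹‖ ≤ m⁻¹ := by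
    refine Complex.norm_le_of_forall_mem_frontier_norm_le isBounded_ball hd ?_
      (subset_closure (mem_ball_self hρ))
    intro z hz
    rw [frontier_ball z0 hρ.ne'] at hz
    show ‖(G z)⁻¹‖ ≤ m⁻¹
    rw [norm_inv]
    exact inv_anti₀ hm0 (hm z hz)
  rw [norm_inv] at h1
  have h2 : 0 < ‖G z0‖ := norm_pos_iff.2 (hcon z0 (mem_closedBall_self hρ.le))
  exact absurd ((inv_le_inv₀ h2 hm0).1 h1) (not_le.2 h0)

private theorem MinMod_sin_sq {x : ℝ} (hx : x ^ 2 ≤ 1 / 4) :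
    225 / 256 * x ^ 2 ≤ Real.sin x ^ 2 := by
  have key : ∀ y : ℝ, 0 ≤ y → y ^ 2 ≤ 1 / 4 → 15 / 16 * y ≤ Real.sin y := by
    intro y hy hy2
    rcases hy.eq_or_lt with rfl | hy0
    · simp
    · have hy1 : y ≤ 1 / 2 := by nlinarith
      have := Real.sin_gt_sub_cube hy0
      nlinarith [mul_nonneg hy (sub_nonneg.2 hy2)]
  rcases le_total 0 x with h | h
  · have h1 := key x h hx
    have h2 : 0 ≤ 15 / 16 * x := by positivity
    nlinarith
  · have h1 := key (-x) (by linarith) (by rwa [neg_sq])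
    rw [Real.sin_neg] at h1
    have h2 : 0 ≤ 15 / 16 * -x := by nlinarith
    nlinarith

private theorem MinMod_sinh_sq (y : ℝ) : y ^ 2 ≤ Real.sinh y ^ 2 := by
  rcases le_total 0 y with h | h
  · have h1 := Real.self_le_sinh_iff.2 h
    nlinarith
  · have h1 := Real.self_le_sinh_iff.2 (show (0 : ℝ) ≤ -y by linarith)
    rw [Real.sinh_neg] at h1
    nlinarith

/-- `|sin (πn + ζ)| = |sin ζ| ≥ 1/2 - 1/40` for `|ζ| = 1/2`. -/
theorem norm_sin_circle (n : ℕ) (w : ℂ) (hw : ‖w - ((Real.pi * n : ℝ) : ℂ)‖ = 1 / 2) :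
    9 / 20 ≤ ‖Complex.sin w‖ := by
  set ζ : ℂ := w - ((Real.pi * n : ℝ) : ℂ) with hζ
  have hw2 : w = ζ + n * (Real.pi : ℂ) := by
    rw [hζ]
    push_cast
    ring
  have h1 : ‖Complex.sin w‖ = ‖Complex.sin ζ‖ := by
    rw [hw2, Complex.sin_antiperiodic.add_nat_mul_eq n, norm_mul, norm_pow, norm_neg, norm_one,
      one_pow, one_mul]
  rw [h1]
  have h2 : ‖Complex.sin ζ‖ ^ 2 = Real.sin ζ.re ^ 2 + Real.sinh ζ.im ^ 2 := by
    rw [Complex.sq_norm, Complex.sin_eq, Complex.normSq_apply]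
    have e1 : (Complex.sin (ζ.re : ℂ) * Complex.cosh (ζ.im : ℂ) +
        Complex.cos (ζ.re : ℂ) * Complex.sinh (ζ.im : ℂ) * Complex.I) =
        ((Real.sin ζ.re * Real.cosh ζ.im : ℝ) : ℂ) +
          ((Real.cos ζ.re * Real.sinh ζ.im : ℝ) : ℂ) * Complex.I := by
      push_cast
      ring
    rw [e1]
    simp only [Complex.add_re, Complex.add_im, Complex.mul_re, Complex.mul_im, Complex.ofReal_re,
      Complex.ofReal_im, Complex.I_re, Complex.I_im]
    have h3 := Real.sin_sq_add_cos_sq ζ.re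
    have h4 := Real.cosh_sq ζ.im
    have h5 : Real.cos ζ.re ^ 2 = 1 - Real.sin ζ.re ^ 2 := by linarith
    ring_nf
    rw [h4, h5]
    ring
  have h3 : ‖ζ‖ ^ 2 = ζ.re ^ 2 + ζ.im ^ 2 := by
    rw [Complex.sq_norm, Complex.normSq_apply]
    ring
  rw [hw] at h3
  have h4 := MinMod_sin_sq (x := ζ.re) (by nlinarith [sq_nonneg ζ.im])
  have h5 := MinMod_sinh_sq ζ.im
  have h6 : (9 / 20 : ℝ) ^ 2 ≤ ‖Complex.sin ζ‖ ^ 2 := by
    rw [h2]
    nlinarith [sq_nonneg ζ.im]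
  exact (abs_le_of_sq_le_sq' h6 (norm_nonneg _)).2

end Pool.Agent.Lib.MP_c84763_mp
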