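import Mathlib
import Pool.Agent.Lib.MP_c84763_mp.Ident
import Pool.Agent.Lib.MP_c84763_mp.Ode

/-! # Dirichlet approximations of the Weyl solution, first bounds

`mX X z` is chosen such that `C + mX S` vanishes at `X`. -/

open MeasureTheory Set
open scoped ComplexConjugate

namespace Pool.Agent.Lib.MP_c84763_mp

/-- The Dirichlet approximation of the Weyl function. -/
noncomputable def mX (C S : ℂ → ℝ → ℂ) (X : ℝ) (z : ℂ) : ℂ := -(C z X) / S z X

/-- The solution `C + mX S` and its derivative. -/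
noncomputable def FX (C S : ℂ → ℝ → ℂ) (m z : ℂ) (r : ℝ) : ℂ := C z r + m * S z r

/-- Proof: `Im (conj S S')(X) = ∫_b^X Im (q - z) |S|² < 0` by `im_integral`. -/
theorem S_ne {q : ℝ → ℂ} (hq : Continuous q) {b σ : ℝ} (hσ : ∀ r, b ≤ r → (q r).im ≤ σ)
    {C C' S S' : ℂ → ℝ → ℂ} (hF : IsFund q b C C' S S') {z : ℂ} (hz : σ < z.im) {X : ℝ}
    (hX : b < X) : S z X ≠ 0 := by
  intro h0
  have hSc : Continuous (S z) := continuous_iff_continuousAt.2 fun r => (hF.dS z r).continuousAt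
  have h1 := im_integral (f := S z) (f' := S' z) (Q := fun r => q r - z) hX.le
    (fun r _ => hF.dS z r) (fun r _ => hF.dS' z r)
    ((hq.sub continuous_const).continuousOn)
  rw [h0, hF.S0] at h1
  simp only [map_zero, zero_mul, Complex.zero_im, sub_zero] at h1
  -- a point where `S` does not vanish
  obtain ⟨c, hc, hc0⟩ : ∃ c ∈ Icc b X, 0 < ‖S z c‖ ^ 2 := by
    have hd : HasDerivAt (S z) 1 b := by
      have := hF.dS z b
      rwa [hF.S1] at this
    have h2 : ∀ᶠ r in nhdsWithin b (Ioi b), S z r ≠ 0 :=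
      (hd.eventually_ne one_ne_zero (c := 0)).filter_mono
        (nhdsWithin_mono b fun r hr => ne_of_gt hr)
    have h3 : Ioc b X ∈ nhdsWithin b (Ioi b) := Ioc_mem_nhdsGT hX
    obtain ⟨c, hc1, hc2⟩ := (h2.and h3).exists
    exact ⟨c, ⟨hc2.1.le, hc2.2⟩, by positivity⟩
  have h4 : 0 < ∫ r in b..X, -(((q r - z).im) * ‖S z r‖ ^ 2) := by
    refine intervalIntegral.integral_pos hX ?_ ?_ ⟨c, hc, ?_⟩
    · have : Continuous fun r => -(((q r - z).im) * ‖S z r‖ ^ 2) :=
        ((Complex.continuous_im.comp (hq.sub continuous_const)).mul (hSc.norm.pow 2)).neg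
      exact this.continuousOn
    · intro r hr
      have := hσ r hr.1.le
      rw [Complex.sub_im]
      nlinarith [sq_nonneg ‖S z r‖]
    · have := hσ c hc.1
      rw [Complex.sub_im]
      nlinarith
  rw [intervalIntegral.integral_neg, ← h1] at h4
  simp at h4

private theorem FX_facts {q : ℝ → ℂ} {b : ℝ}
    {C C' S S' : ℂ → ℝ → ℂ} (hF : IsFund q b C C' S S') (m z : ℂ) :
    FX C S m z b = 1 ∧ FX C' S' m z b = m ∧
      (∀ r, HasDerivAt (FX C S m z) (FX C' S' m z r) r) ∧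
      (∀ r, HasDerivAt (FX C' S' m z) ((q r - z) * FX C S m z r) r) := by
  refine ⟨?_, ?_, fun r => ?_, fun r => ?_⟩
  · simp [FX, hF.C0, hF.S0]
  · simp [FX, hF.C1, hF.S1]
  · exact (hF.dC z r).add ((hF.dS z r).const_mul m)
  · have := (hF.dC' z r).add ((hF.dS' z r).const_mul m)
    have e : (q r - z) * FX C S m z r = (q r - z) * C z r + m * ((q r - z) * S z r) := by
      unfold FX
      ring
    rw [e]
    exact this

private theorem FX_end {q : ℝ → ℂ} (hq : Continuous q) {b σ : ℝ}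
    (hσ : ∀ r, b ≤ r → (q r).im ≤ σ)
    {C C' S S' : ℂ → ℝ → ℂ} (hF : IsFund q b C C' S S') {z : ℂ} (hz : σ < z.im) {X : ℝ}
    (hX : b < X) : FX C S (mX C S X z) z X = 0 := by
  have := S_ne hq hσ hF hz hX
  unfold FX mX
  field_simp
  ring

/-- Proof: `im_integral` for `F = C + mX S`, `F b = 1`, `F' b = mX`, `F X = 0`. -/
theorem mX_im {q : ℝ → ℂ} (hq : Continuous q) {b σ : ℝ} (hσ : ∀ r, b ≤ r → (q r).im ≤ σ)
    {C C' S S' : ℂ → ℝ → ℂ} (hF : IsFund q b C C' S S') {z : ℂ} (hz : σ < z.im) {X Y : ℝ}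
    (hX : b < X) (hY : b ≤ Y) (hYX : Y ≤ X) :
    (z.im - σ) * (∫ r in b..Y, ‖FX C S (mX C S X z) z r‖ ^ 2) ≤ (mX C S X z).im := by
  obtain ⟨e0, e1, d0, d1⟩ := FX_facts hF (mX C S X z) z
  have e2 := FX_end hq hσ hF hz hX
  set m : ℂ := mX C S X z with hm
  set F : ℝ → ℂ := FX C S m z with hFd
  set F' : ℝ → ℂ := FX C' S' m z with hFd'
  have hFc : Continuous F := continuous_iff_continuousAt.2 fun r => (d0 r).continuousAt
  have h1 := im_integral (f := F) (f' := F') (Q := fun r => q r - z) hX.le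
    (fun r _ => d0 r) (fun r _ => d1 r) ((hq.sub continuous_const).continuousOn)
  rw [e0, e1, e2] at h1
  simp only [map_zero, zero_mul, Complex.zero_im, map_one, one_mul, zero_sub] at h1
  have hc1 : Continuous fun r => ‖F r‖ ^ 2 := hFc.norm.pow 2
  have hc2 : Continuous fun r => (q r - z).im * ‖F r‖ ^ 2 :=
    (Complex.continuous_im.comp (hq.sub continuous_const)).mul hc1
  have h2 : (z.im - σ) * (∫ r in b..X, ‖F r‖ ^ 2) ≤ m.im := by
    have h3 : m.im = ∫ r in b..X, -((q r - z).im * ‖F r‖ ^ 2) := by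
      rw [intervalIntegral.integral_neg, ← h1, neg_neg]
    rw [h3, ← intervalIntegral.integral_const_mul]
    refine intervalIntegral.integral_mono_on hX.le ((hc1.const_smul (z.im - σ)).intervalIntegrable _ _)
      (hc2.neg.intervalIntegrable _ _) ?_
    intro r hr
    have := hσ r hr.1
    rw [Complex.sub_im]
    nlinarith [sq_nonneg ‖F r‖]
  have h4 : (∫ r in b..Y, ‖F r‖ ^ 2) ≤ ∫ r in b..X, ‖F r‖ ^ 2 := by
    refine intervalIntegral.integral_mono_interval le_rfl hY hYX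
      (Filter.Eventually.of_forall fun r => sq_nonneg _) (hc1.intervalIntegrable _ _)
  have h5 : 0 ≤ z.im - σ := by linarith
  exact (mul_le_mul_of_nonneg_left h4 h5).trans h2

/-- Proof: `re_integral` on `[b,X]` gives
`∫ |F'|² = -Re mX - ∫ (Re Q) |F|² ≤ |mX| + B ∫ |F|² ≤ |mX| (1 + B/η)`. -/
theorem mX_deriv {q : ℝ → ℂ} (hq : Continuous q) {b σ B : ℝ}
    (hσ : ∀ r, b ≤ r → (q r).im ≤ σ) {C C' S S' : ℂ → ℝ → ℂ} (hF : IsFund q b C C' S S')
    {z : ℂ} (hz : σ < z.im) (hB : ∀ r, b ≤ r → ‖q r - z‖ ≤ B) {X : ℝ} (hX : b < X) :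
    (∫ r in b..X, ‖FX C' S' (mX C S X z) z r‖ ^ 2) ≤
      ‖mX C S X z‖ * (1 + B / (z.im - σ)) := by
  have h0 := mX_im hq hσ hF hz hX hX.le le_rfl
  obtain ⟨e0, e1, d0, d1⟩ := FX_facts hF (mX C S X z) z
  have e2 := FX_end hq hσ hF hz hX
  set m : ℂ := mX C S X z with hm
  set F : ℝ → ℂ := FX C S m z with hFd
  set F' : ℝ → ℂ := FX C' S' m z with hFd'
  have hFc : Continuous F := continuous_iff_continuousAt.2 fun r => (d0 r).continuousAt
  have h1 := re_integral (f := F) (f' := F') (Q := fun r => q r - z) hX.le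
    (fun r _ => d0 r) (fun r _ => d1 r) ((hq.sub continuous_const).continuousOn)
  rw [e0, e1, e2] at h1
  simp only [map_zero, zero_mul, Complex.zero_re, map_one, one_mul, zero_sub] at h1
  have hc1 : Continuous fun r => ‖F r‖ ^ 2 := hFc.norm.pow 2
  have hc2 : Continuous fun r => (q r - z).re * ‖F r‖ ^ 2 :=
    (Complex.continuous_re.comp (hq.sub continuous_const)).mul hc1
  have hη : 0 < z.im - σ := by linarith
  have hB0 : 0 ≤ B := (norm_nonneg _).trans (hB b le_rfl)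
  have h2 : -(B * ∫ r in b..X, ‖F r‖ ^ 2) ≤ ∫ r in b..X, (q r - z).re * ‖F r‖ ^ 2 := by
    rw [← neg_mul, ← intervalIntegral.integral_const_mul]
    refine intervalIntegral.integral_mono_on hX.le ((hc1.const_smul (-B)).intervalIntegrable _ _)
      (hc2.intervalIntegrable _ _) ?_
    intro r hr
    have h3 := hB r hr.1
    have h4 := Complex.abs_re_le_norm (q r - z)
    have h5 := neg_abs_le (q r - z).re
    exact mul_le_mul_of_nonneg_right (by linarith) (sq_nonneg _)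
  have h3 : -m.re ≤ ‖m‖ := (neg_le_abs _).trans (Complex.abs_re_le_norm m)
  have h4 : m.im ≤ ‖m‖ := (le_abs_self _).trans (Complex.abs_im_le_norm m)
  have h5 : (∫ r in b..X, ‖F r‖ ^ 2) ≤ ‖m‖ / (z.im - σ) := by
    rw [le_div_iff₀ hη]
    linarith
  have h6 : B * (∫ r in b..X, ‖F r‖ ^ 2) ≤ B * (‖m‖ / (z.im - σ)) :=
    mul_le_mul_of_nonneg_left h5 hB0
  have h7 : B * (‖m‖ / (z.im - σ)) = ‖m‖ * (B / (z.im - σ)) := by ring
  rw [mul_add, mul_one, ← h7]
  linarith

end Pool.Agent.Lib.MP_c84763_mp
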