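import Mathlib
import Pool.Agent.Lib.MP_c84763_mp.Weyl1

/-! # Uniform bound for the Dirichlet approximations -/

open MeasureTheory Set Filter
open scoped ComplexConjugate

namespace Pool.Agent.Lib.MP_c84763_mp

/-- Proof. With `F = C + mX S`, `F' b = mX`. For `r ∈ [b,b+1]`:
`|mX|² = |F'(r)|² - ∫_b^r 2 Re (conj F' Q F) ≤ |F'(r)|² + 2 B ‖F'‖₂ ‖F‖₂` (norms over `[b,X]`);
average over `r ∈ [b,b+1]` and use `mX_im`, `mX_deriv`:
`|mX|² ≤ |mX| (1+B/η) + 2 B |mX| √((1+B/η)/η)`. -/
theorem mX_bound {q : ℝ → ℂ} (hq : Continuous q) {b σ B : ℝ}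
    (hσ : ∀ r, b ≤ r → (q r).im ≤ σ) {C C' S S' : ℂ → ℝ → ℂ} (hF : IsFund q b C C' S S')
    {z : ℂ} (hz : σ < z.im) (hB : ∀ r, b ≤ r → ‖q r - z‖ ≤ B) {X : ℝ} (hX : b + 1 ≤ X) :
    ‖mX C S X z‖ ≤ (1 + B / (z.im - σ)) + 2 * B * √((1 + B / (z.im - σ)) / (z.im - σ)) := by
  have hη : 0 < z.im - σ := by linarith
  have hB0 : 0 ≤ B := (norm_nonneg _).trans (hB b le_rfl)
  have hbX : b < X := by linarith
  have hi1 := mX_im hq hσ hF hz hbX hbX.le (le_refl X)
  have hi2 := mX_deriv hq hσ hF hz hB hbX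
  set m := mX C S X z with hm
  set η := z.im - σ with hηdef
  set A := 1 + B / η with hA
  have hA1 : 1 ≤ A := by
    rw [hA]
    have : 0 ≤ B / η := by positivity
    linarith
  have hA0 : 0 < A := by linarith
  set F : ℝ → ℂ := FX C S m z with hFdef
  set G : ℝ → ℂ := FX C' S' m z with hGdef
  have hF1 : ∀ r, HasDerivAt F (G r) r := fun r => (hF.dC z r).add ((hF.dS z r).const_mul m)
  have hF2 : ∀ r, HasDerivAt G ((q r - z) * F r) r := by
    intro r
    have h := (hF.dC' z r).add ((hF.dS' z r).const_mul m)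
    have e : (q r - z) * F r = (q r - z) * C z r + m * ((q r - z) * S z r) := by
      rw [hFdef, FX]
      ring
    rw [e]
    exact h
  have hFc : Continuous F := continuous_iff_continuousAt.2 fun r => (hF1 r).continuousAt
  have hGc : Continuous G := continuous_iff_continuousAt.2 fun r => (hF2 r).continuousAt
  have hGb : G b = m := by
    rw [hGdef, FX, hF.C1, hF.S1]
    ring
  have hF2i : ∀ a c : ℝ, IntervalIntegrable (fun r => ‖F r‖ ^ 2) volume a c := fun a c =>
    (hFc.norm.pow 2).intervalIntegrable a c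
  have hG2i : ∀ a c : ℝ, IntervalIntegrable (fun r => ‖G r‖ ^ 2) volume a c := fun a c =>
    (hGc.norm.pow 2).intervalIntegrable a c
  set s := √(A / η) with hs
  have hs0 : 0 < s := Real.sqrt_pos.2 (by positivity)
  have hss : s ^ 2 = A / η := Real.sq_sqrt (by positivity)
  set t := s / A with ht
  have ht0 : 0 < t := by positivity
  set k : ℝ → ℝ := fun r => B * (t * ‖G r‖ ^ 2 + t⁻¹ * ‖F r‖ ^ 2) with hk
  have hkc : Continuous k := by
    rw [hk]
    fun_prop
  have hk0 : ∀ r, 0 ≤ k r := fun r => by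
    rw [hk]
    positivity
  have hkint : ∫ r in b..X, k r = B * (t * (∫ r in b..X, ‖G r‖ ^ 2) +
      t⁻¹ * ∫ r in b..X, ‖F r‖ ^ 2) := by
    rw [hk, intervalIntegral.integral_const_mul, intervalIntegral.integral_add,
      intervalIntegral.integral_const_mul, intervalIntegral.integral_const_mul]
    · exact (hG2i b X).const_mul t
    · exact (hF2i b X).const_mul t⁻¹
  set g : ℝ → ℝ := fun r => 2 * (conj (G r) * ((q r - z) * F r)).re with hg
  have hgc : Continuous g := by
    rw [hg]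
    have h1 : Continuous fun r => conj (G r) * ((q r - z) * F r) :=
      (Complex.continuous_conj.comp hGc).mul ((hq.sub continuous_const).mul hFc)
    exact continuous_const.mul (Complex.continuous_re.comp h1)
  have hgk : ∀ r, b ≤ r → -g r ≤ k r := by
    intro r hr
    have h1 : |g r| ≤ 2 * (‖G r‖ * (B * ‖F r‖)) := by
      rw [hg]
      simp only
      rw [abs_mul, abs_of_pos (by norm_num : (0 : ℝ) < 2)]
      refine mul_le_mul_of_nonneg_left ?_ (by norm_num)
      refine (Complex.abs_re_le_norm _).trans ?_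
      rw [norm_mul, norm_mul, Complex.norm_conj]
      exact mul_le_mul_of_nonneg_left
        (mul_le_mul_of_nonneg_right (hB r hr) (norm_nonneg _)) (norm_nonneg _)
    have h2 : 2 * (‖G r‖ * ‖F r‖) ≤ t * ‖G r‖ ^ 2 + t⁻¹ * ‖F r‖ ^ 2 := by
      have e : t * ‖G r‖ ^ 2 + t⁻¹ * ‖F r‖ ^ 2 - 2 * (‖G r‖ * ‖F r‖) =
          t⁻¹ * (t * ‖G r‖ - ‖F r‖) ^ 2 := by
        field_simp
        ring
      have : 0 ≤ t⁻¹ * (t * ‖G r‖ - ‖F r‖) ^ 2 := by positivity
      linarith
    have h3 : 2 * (‖G r‖ * (B * ‖F r‖)) ≤ k r := by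
      have := mul_le_mul_of_nonneg_left h2 hB0
      calc 2 * (‖G r‖ * (B * ‖F r‖)) = B * (2 * (‖G r‖ * ‖F r‖)) := by ring
        _ ≤ k r := this
    exact (neg_le_abs _).trans (h1.trans h3)
  have hpt : ∀ r ∈ Icc b (b + 1), ‖m‖ ^ 2 ≤ ‖G r‖ ^ 2 + ∫ x in b..X, k x := by
    intro r hr
    have h1 : ∫ x in b..r, g x = ‖G r‖ ^ 2 - ‖G b‖ ^ 2 := by
      apply intervalIntegral.integral_eq_sub_of_hasDerivAt
      · intro x _
        exact hasDerivAt_nsq (f := G) (f' := fun r => (q r - z) * F r) (hF2 x)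
      · exact hgc.intervalIntegrable _ _
    have h2 : ∫ x in b..r, -g x ≤ ∫ x in b..r, k x := by
      apply intervalIntegral.integral_mono_on hr.1 (hgc.neg.intervalIntegrable _ _)
        (hkc.intervalIntegrable _ _)
      intro x hx
      exact hgk x hx.1
    have h3 : ∫ x in b..r, k x ≤ ∫ x in b..X, k x := by
      apply intervalIntegral.integral_mono_interval (le_refl b) hr.1 (by linarith [hr.2])
      · exact Eventually.of_forall hk0
      · exact hkc.intervalIntegrable _ _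
    rw [intervalIntegral.integral_neg, h1, hGb] at h2
    linarith
  have hint : ‖m‖ ^ 2 ≤ (∫ r in b..X, ‖G r‖ ^ 2) + ∫ x in b..X, k x := by
    have h1 : ∫ r in b..(b + 1), ‖m‖ ^ 2 ≤ ∫ r in b..(b + 1), (‖G r‖ ^ 2 + ∫ x in b..X, k x) := by
      apply intervalIntegral.integral_mono_on (by linarith) intervalIntegrable_const
        ((hG2i _ _).add intervalIntegrable_const)
      exact hpt
    rw [intervalIntegral.integral_const, intervalIntegral.integral_add (hG2i _ _)
      intervalIntegrable_const, intervalIntegral.integral_const] at h1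
    have h2 : ∫ r in b..(b + 1), ‖G r‖ ^ 2 ≤ ∫ r in b..X, ‖G r‖ ^ 2 := by
      apply intervalIntegral.integral_mono_interval (le_refl b) (by linarith) (by linarith)
      · exact Eventually.of_forall fun r => by positivity
      · exact hG2i _ _
    simp only [add_sub_cancel_left, smul_eq_mul, one_mul] at h1
    linarith
  have hI1 : ∫ r in b..X, ‖F r‖ ^ 2 ≤ ‖m‖ / η := by
    rw [le_div_iff₀ hη]
    have := (Complex.abs_im_le_norm m)
    have h2 := le_abs_self m.im
    linarith
  rw [hkint] at hint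
  have hfin : ‖m‖ ^ 2 ≤ ‖m‖ * (A + 2 * B * s) := by
    have e1 : t * (‖m‖ * A) = ‖m‖ * s := by
      rw [ht]
      field_simp
    have e2 : t⁻¹ * (‖m‖ / η) = ‖m‖ * s := by
      rw [ht, inv_div]
      have : A / s / η = s := by
        rw [div_div, mul_comm s η, ← div_div, ← hss]
        field_simp
      calc A / s * (‖m‖ / η) = ‖m‖ * (A / s / η) := by ring
        _ = ‖m‖ * s := by rw [this]
    have h1 : t * (∫ r in b..X, ‖G r‖ ^ 2) ≤ ‖m‖ * s := by
      rw [← e1]
      exact mul_le_mul_of_nonneg_left hi2 ht0.le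
    have h2 : t⁻¹ * (∫ r in b..X, ‖F r‖ ^ 2) ≤ ‖m‖ * s := by
      rw [← e2]
      exact mul_le_mul_of_nonneg_left hI1 (by positivity)
    have h3 := mul_le_mul_of_nonneg_left (add_le_add h1 h2) hB0
    calc ‖m‖ ^ 2 ≤ _ := hint
      _ ≤ ‖m‖ * A + B * (‖m‖ * s + ‖m‖ * s) := add_le_add hi2 h3
      _ = ‖m‖ * (A + 2 * B * s) := by ring
  rcases (norm_nonneg m).eq_or_lt with h0 | h0
  · rw [← h0]
    positivity
  · rw [sq] at hfin
    exact le_of_mul_le_mul_left hfin h0

end Pool.Agent.Lib.MP_c84763_mp
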