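import Mathlib
import Pool.Agent.Lib.MP_c84763_mp.Weyl1

/-! # The Dirichlet approximations form a Cauchy family -/

open MeasureTheory Set
open scoped ComplexConjugate

namespace Pool.Agent.Lib.MP_c84763_mp

private theorem cs_cont {f g : ℝ → ℝ} (hf : Continuous f) (hg : Continuous g) {a b : ℝ}
    (hab : a ≤ b) {P Q : ℝ} (hP : (∫ r in a..b, f r ^ 2) ≤ P) (hQ : (∫ r in a..b, g r ^ 2) ≤ Q) :
    (∫ r in a..b, f r * g r) ≤ √P * √Q := by
  have hff : IntervalIntegrable (fun r => f r ^ 2) volume a b := (hf.pow 2).intervalIntegrable a b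
  have hgg : IntervalIntegrable (fun r => g r ^ 2) volume a b := (hg.pow 2).intervalIntegrable a b
  have hfg : IntervalIntegrable (fun r => f r * g r) volume a b := (hf.mul hg).intervalIntegrable a b
  have h0 : 0 ≤ ∫ r in a..b, f r ^ 2 :=
    intervalIntegral.integral_nonneg hab fun r _ => sq_nonneg _
  have h1 : 0 ≤ ∫ r in a..b, g r ^ 2 :=
    intervalIntegral.integral_nonneg hab fun r _ => sq_nonneg _
  have hd : discrim (∫ r in a..b, f r ^ 2) (2 * ∫ r in a..b, f r * g r)
      (∫ r in a..b, g r ^ 2) ≤ 0 := by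
    apply discrim_le_zero
    intro x
    have h2 : 0 ≤ ∫ r in a..b, (x * f r + g r) ^ 2 :=
      intervalIntegral.integral_nonneg hab fun r _ => sq_nonneg _
    have h3 : (∫ r in a..b, (x * f r + g r) ^ 2) =
        ∫ r in a..b, (x * x * f r ^ 2 + 2 * x * (f r * g r)) + g r ^ 2 := by
      congr 1
      ext r
      ring
    rw [h3, intervalIntegral.integral_add ((hff.const_mul _).add (hfg.const_mul _)) hgg,
      intervalIntegral.integral_add (hff.const_mul _) (hfg.const_mul _),
      intervalIntegral.integral_const_mul, intervalIntegral.integral_const_mul] at h2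
    nlinarith [h2]
  have h4 : (∫ r in a..b, f r * g r) ^ 2 ≤
      (∫ r in a..b, f r ^ 2) * (∫ r in a..b, g r ^ 2) := by
    unfold discrim at hd
    nlinarith [hd]
  have h5 : (∫ r in a..b, f r * g r) ^ 2 ≤ P * Q :=
    h4.trans (mul_le_mul hP hQ h1 (h0.trans hP))
  rw [← Real.sqrt_mul (h0.trans hP)]
  exact Real.le_sqrt_of_sq_le h5

/-- Proof. The Wronskian `W = F_X F_Y' - F_X' F_Y` is constant and equal to `mX Y - mX X`
(value at `b`). Hence `|W| (X - b) ≤ ∫_b^X (|F_X| |F_Y'| + |F_X'| |F_Y|)`, and by Cauchy-Schwarz,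
`mX_im` and `mX_deriv` this is at most `2 √(M/η) √(M (1 + B/η))`. -/
theorem mX_cauchy {q : ℝ → ℂ} (hq : Continuous q) {b σ B M : ℝ}
    (hσ : ∀ r, b ≤ r → (q r).im ≤ σ) {C C' S S' : ℂ → ℝ → ℂ} (hF : IsFund q b C C' S S')
    {z : ℂ} (hz : σ < z.im) (hB : ∀ r, b ≤ r → ‖q r - z‖ ≤ B) {X Y : ℝ} (hX : b < X)
    (hXY : X ≤ Y) (hMX : ‖mX C S X z‖ ≤ M) (hMY : ‖mX C S Y z‖ ≤ M) :
    ‖mX C S X z - mX C S Y z‖ * (X - b) ≤
      2 * √(M / (z.im - σ)) * √(M * (1 + B / (z.im - σ))) := by
  have hη : 0 < z.im - σ := sub_pos.2 hz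
  have hB0 : 0 ≤ B := (norm_nonneg _).trans (hB b le_rfl)
  have hY : b < Y := hX.trans_le hXY
  have hk : 0 ≤ 1 + B / (z.im - σ) := by positivity
  -- the Wronskian
  have hWd : ∀ r, HasDerivAt (fun r => C z r * S' z r - C' z r * S z r) 0 r := by
    intro r
    have h := ((hF.dC z r).mul (hF.dS' z r)).sub ((hF.dC' z r).mul (hF.dS z r))
    have h2 : C' z r * S' z r + C z r * ((q r - z) * S z r) -
        ((q r - z) * C z r * S z r + C' z r * S' z r) = 0 := by ring
    rw [h2] at h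
    exact h
  have hW : ∀ r, C z r * S' z r - C' z r * S z r = 1 := by
    intro r
    have h := is_const_of_deriv_eq_zero (fun r => (hWd r).differentiableAt)
      (fun r => (hWd r).deriv) r b
    simp only [hF.C0, hF.C1, hF.S0, hF.S1] at h
    simpa using h
  have hcC : Continuous (C z) := continuous_iff_continuousAt.2 fun r => (hF.dC z r).continuousAt
  have hcC' : Continuous (C' z) := continuous_iff_continuousAt.2 fun r => (hF.dC' z r).continuousAt
  have hcS : Continuous (S z) := continuous_iff_continuousAt.2 fun r => (hF.dS z r).continuousAt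
  have hcS' : Continuous (S' z) := continuous_iff_continuousAt.2 fun r => (hF.dS' z r).continuousAt
  have hcF : ∀ m : ℂ, Continuous fun r => ‖FX C S m z r‖ := by
    intro m
    unfold FX
    exact (hcC.add (hcS.const_smul m)).norm
  have hcF' : ∀ m : ℂ, Continuous fun r => ‖FX C' S' m z r‖ := by
    intro m
    unfold FX
    exact (hcC'.add (hcS'.const_smul m)).norm
  -- the four bounds
  have b1 : (∫ r in b..X, ‖FX C S (mX C S X z) z r‖ ^ 2) ≤ M / (z.im - σ) := by
    rw [le_div_iff₀ hη, mul_comm]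
    exact (mX_im hq hσ hF hz hX hX.le le_rfl).trans (((Complex.abs_im_le_norm _).trans hMX) |>
      (le_abs_self _).trans)
  have b2 : (∫ r in b..X, ‖FX C S (mX C S Y z) z r‖ ^ 2) ≤ M / (z.im - σ) := by
    rw [le_div_iff₀ hη, mul_comm]
    exact (mX_im hq hσ hF hz hY hX.le hXY).trans (((Complex.abs_im_le_norm _).trans hMY) |>
      (le_abs_self _).trans)
  have b3 : (∫ r in b..X, ‖FX C' S' (mX C S X z) z r‖ ^ 2) ≤ M * (1 + B / (z.im - σ)) :=
    (mX_deriv hq hσ hF hz hB hX).trans (mul_le_mul_of_nonneg_right hMX hk)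
  have b4 : (∫ r in b..X, ‖FX C' S' (mX C S Y z) z r‖ ^ 2) ≤ M * (1 + B / (z.im - σ)) := by
    refine le_trans ?_ ((mX_deriv hq hσ hF hz hB hY).trans (mul_le_mul_of_nonneg_right hMY hk))
    exact intervalIntegral.integral_mono_interval le_rfl hX.le hXY
      (Filter.Eventually.of_forall fun r => sq_nonneg _)
      (((hcF' _).pow 2).intervalIntegrable _ _)
  have c1 := cs_cont (hcF (mX C S X z)) (hcF' (mX C S Y z)) hX.le b1 b4
  have c2 := cs_cont (hcF (mX C S Y z)) (hcF' (mX C S X z)) hX.le b2 b3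
  have hpt : ∀ r, ‖mX C S X z - mX C S Y z‖ ≤
      ‖FX C S (mX C S X z) z r‖ * ‖FX C' S' (mX C S Y z) z r‖ +
      ‖FX C S (mX C S Y z) z r‖ * ‖FX C' S' (mX C S X z) z r‖ := by
    intro r
    have h1 : mX C S X z - mX C S Y z =
        FX C S (mX C S Y z) z r * FX C' S' (mX C S X z) z r -
        FX C S (mX C S X z) z r * FX C' S' (mX C S Y z) z r := by
      have h2 := hW r
      unfold FX
      linear_combination (-(mX C S X z - mX C S Y z)) * h2
    calc ‖mX C S X z - mX C S Y z‖ = ‖FX C S (mX C S Y z) z r * FX C' S' (mX C S X z) z r -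
        FX C S (mX C S X z) z r * FX C' S' (mX C S Y z) z r‖ := congrArg norm h1
      _ ≤ ‖FX C S (mX C S Y z) z r * FX C' S' (mX C S X z) z r‖ +
        ‖FX C S (mX C S X z) z r * FX C' S' (mX C S Y z) z r‖ := norm_sub_le _ _
      _ = _ := by rw [norm_mul, norm_mul, add_comm]
  have hmono : (∫ _ in b..X, ‖mX C S X z - mX C S Y z‖) ≤
      ∫ r in b..X, (‖FX C S (mX C S X z) z r‖ * ‖FX C' S' (mX C S Y z) z r‖ +
      ‖FX C S (mX C S Y z) z r‖ * ‖FX C' S' (mX C S X z) z r‖) :=
    intervalIntegral.integral_mono_on hX.le (continuous_const.intervalIntegrable _ _)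
      ((((hcF _).mul (hcF' _)).add ((hcF _).mul (hcF' _))).intervalIntegrable _ _)
      (fun r _ => hpt r)
  have i1 : IntervalIntegrable
      (fun r => ‖FX C S (mX C S X z) z r‖ * ‖FX C' S' (mX C S Y z) z r‖) volume b X :=
    ((hcF _).mul (hcF' _)).intervalIntegrable _ _
  have i2 : IntervalIntegrable
      (fun r => ‖FX C S (mX C S Y z) z r‖ * ‖FX C' S' (mX C S X z) z r‖) volume b X :=
    ((hcF _).mul (hcF' _)).intervalIntegrable _ _
  rw [intervalIntegral.integral_const, smul_eq_mul,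
    intervalIntegral.integral_add i1 i2] at hmono
  calc ‖mX C S X z - mX C S Y z‖ * (X - b) = (X - b) * ‖mX C S X z - mX C S Y z‖ := mul_comm _ _
    _ ≤ _ := hmono
    _ ≤ √(M / (z.im - σ)) * √(M * (1 + B / (z.im - σ))) +
        √(M / (z.im - σ)) * √(M * (1 + B / (z.im - σ))) := add_le_add c1 c2
    _ = _ := by ring

end Pool.Agent.Lib.MP_c84763_mp
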