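import Mathlib
import Pool.Agent.Lib.MP_c84763_mp.Weyl2
import Pool.Agent.Lib.MP_c84763_mp.Weyl3

/-! # The Weyl function of a bounded potential on a half-line -/

open MeasureTheory Set
open scoped ComplexConjugate

namespace Pool.Agent.Lib.MP_c84763_mp

/-- Proof. `m z = lim mX C S X z` as `X → ∞`; the convergence is locally uniform on `{σ < Im z}`
by `mX_bound` and `mX_cauchy`, each `mX` is differentiable there (`S_ne`), so `m` is
(`TendstoLocallyUniformlyOn.differentiableOn`). For fixed `Y` pass to the limit in `mX_im`. -/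
theorem weyl {q : ℝ → ℂ} (hq : Continuous q) {b σ qm : ℝ}
    (hσ : ∀ r, b ≤ r → (q r).im ≤ σ) (hqm : ∀ r, b ≤ r → ‖q r‖ ≤ qm)
    {C C' S S' : ℂ → ℝ → ℂ} (hF : IsFund q b C C' S S') :
    ∃ m : ℂ → ℂ, DifferentiableOn ℂ m {z : ℂ | σ < z.im} ∧
      ∀ z : ℂ, σ < z.im → ∀ Y, b ≤ Y →
        (z.im - σ) * (∫ r in b..Y, ‖FX C S (m z) z r‖ ^ 2) ≤ (m z).im := by
  -- the bounds
  let B : ℂ → ℝ := fun z => qm + ‖z‖
  let M : ℂ → ℝ := fun z =>
    (1 + B z / (z.im - σ)) + 2 * B z * √((1 + B z / (z.im - σ)) / (z.im - σ))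
  let K : ℂ → ℝ := fun z =>
    2 * √(M z / (z.im - σ)) * √(M z * (1 + B z / (z.im - σ)))
  have hB : ∀ z r, b ≤ r → ‖q r - z‖ ≤ B z := fun z r hr =>
    (norm_sub_le _ _).trans (add_le_add (hqm r hr) le_rfl)
  let X : ℕ → ℝ := fun n => b + 1 + n
  have hX1 : ∀ n, b + 1 ≤ X n := fun n => by
    have : (0 : ℝ) ≤ n := Nat.cast_nonneg n
    simp only [X]
    linarith
  have hXb : ∀ n, b < X n := fun n => by
    have := hX1 n
    linarith
  have hXmono : ∀ {n m : ℕ}, n ≤ m → X n ≤ X m := fun {n m} h => by
    have : (n : ℝ) ≤ m := by exact_mod_cast h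
    simp only [X]
    linarith
  have hbd : ∀ z, σ < z.im → ∀ n, ‖mX C S (X n) z‖ ≤ M z := fun z hz n =>
    mX_bound hq hσ hF hz (hB z) (hX1 n)
  have hcau : ∀ z, σ < z.im → ∀ n m : ℕ, n ≤ m →
      dist (mX C S (X n) z) (mX C S (X m) z) ≤ K z / ((n : ℝ) + 1) := by
    intro z hz n m hnm
    have h := mX_cauchy hq hσ hF hz (hB z) (hXb n) (hXmono hnm) (hbd z hz n) (hbd z hz m)
    have e : X n - b = (n : ℝ) + 1 := by simp only [X]; ring
    rw [e] at h
    rw [dist_eq_norm, le_div_iff₀ (by positivity)]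
    exact h
  have hlim0 : ∀ c : ℝ, Filter.Tendsto (fun n : ℕ => c / ((n : ℝ) + 1)) Filter.atTop (nhds 0) := by
    intro c
    have h := (tendsto_one_div_add_atTop_nhds_zero_nat (𝕜 := ℝ)).const_mul c
    rw [mul_zero] at h
    refine h.congr fun n => ?_
    rw [mul_one_div]
  have hex : ∀ z, ∃ w : ℂ, σ < z.im →
      Filter.Tendsto (fun n => mX C S (X n) z) Filter.atTop (nhds w) := by
    intro z
    by_cases hz : σ < z.im
    · have hc : CauchySeq (fun n => mX C S (X n) z) :=
        cauchySeq_of_le_tendsto_0' (fun n => K z / ((n : ℝ) + 1)) (hcau z hz) (hlim0 _)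
      obtain ⟨w, hw⟩ := cauchySeq_tendsto_of_complete hc
      exact ⟨w, fun _ => hw⟩
    · exact ⟨0, fun h => absurd h hz⟩
  choose m hm using hex
  have hdist : ∀ z, σ < z.im → ∀ n : ℕ, dist (m z) (mX C S (X n) z) ≤ K z / ((n : ℝ) + 1) := by
    intro z hz n
    rw [dist_comm]
    refine le_of_tendsto ((tendsto_const_nhds (x := mX C S (X n) z)).dist (hm z hz)) ?_
    filter_upwards [Filter.eventually_ge_atTop n] with k hk
    exact hcau z hz n k hk
  refine ⟨m, ?_, ?_⟩
  · have hopen : IsOpen {z : ℂ | σ < z.im} := isOpen_lt continuous_const Complex.continuous_im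
    have hconv : TendstoLocallyUniformlyOn (fun n z => mX C S (X n) z) m Filter.atTop
        {z : ℂ | σ < z.im} := by
      rw [Metric.tendstoLocallyUniformlyOn_iff]
      intro ε hε z hz
      have hz' : σ < z.im := hz
      have hne : z.im - σ ≠ 0 := by linarith
      have hBc : Continuous B := continuous_const.add continuous_norm
      have hq1 : ContinuousAt (fun z : ℂ => B z / (z.im - σ)) z :=
        hBc.continuousAt.div (Complex.continuous_im.continuousAt.sub continuousAt_const) hne
      have hq2 : ContinuousAt (fun z : ℂ => (1 + B z / (z.im - σ)) / (z.im - σ)) z :=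
        (continuousAt_const.add hq1).div
          (Complex.continuous_im.continuousAt.sub continuousAt_const) hne
      have hM : ContinuousAt M z :=
        (continuousAt_const.add hq1).add ((continuousAt_const.mul hBc.continuousAt).mul hq2.sqrt)
      have hK : ContinuousAt K z :=
        (continuousAt_const.mul (hM.div
          (Complex.continuous_im.continuousAt.sub continuousAt_const) hne).sqrt).mul
          (hM.mul (continuousAt_const.add hq1)).sqrt
      have hev : ∀ᶠ y in nhds z, K y < K z + 1 := hK.eventually_lt_const (by linarith)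
      refine ⟨{y | K y < K z + 1} ∩ {z : ℂ | σ < z.im}, ?_, ?_⟩
      · exact Filter.inter_mem (mem_nhdsWithin_of_mem_nhds hev) self_mem_nhdsWithin
      · have h1 : ∀ᶠ n : ℕ in Filter.atTop, (K z + 1) / ((n : ℝ) + 1) < ε :=
          (hlim0 (K z + 1)).eventually_lt_const hε
        filter_upwards [h1] with n hn y hy
        refine (hdist y hy.2 n).trans_lt (lt_of_le_of_lt ?_ hn)
        exact div_le_div_of_nonneg_right (le_of_lt hy.1) (by positivity)
    refine hconv.differentiableOn (Filter.Eventually.of_forall fun n => ?_) hopen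
    intro z hz
    exact (((hF.anC (X n)).differentiableAt.neg).div (hF.anS (X n)).differentiableAt
      (S_ne hq hσ hF hz (hXb n))).differentiableWithinAt
  · intro z hz Y hY
    have hCc : Continuous (C z) := continuous_iff_continuousAt.mpr fun r => (hF.dC z r).continuousAt
    have hSc : Continuous (S z) := continuous_iff_continuousAt.mpr fun r => (hF.dS z r).continuousAt
    have hcont : Continuous (fun w : ℂ => ∫ r in b..Y, ‖FX C S w z r‖ ^ 2) := by
      refine intervalIntegral.continuous_parametric_intervalIntegral_of_continuous' ?_ b Y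
      unfold FX Function.uncurry
      fun_prop
    have hl : Filter.Tendsto (fun n => (z.im - σ) *
        ∫ r in b..Y, ‖FX C S (mX C S (X n) z) z r‖ ^ 2) Filter.atTop
        (nhds ((z.im - σ) * ∫ r in b..Y, ‖FX C S (m z) z r‖ ^ 2)) :=
      ((hcont.tendsto (m z)).comp (hm z hz)).const_mul _
    have hr : Filter.Tendsto (fun n => (mX C S (X n) z).im) Filter.atTop (nhds (m z).im) :=
      (Complex.continuous_im.tendsto (m z)).comp (hm z hz)
    refine le_of_tendsto_of_tendsto hl hr ?_
    obtain ⟨n0, hn0⟩ := exists_nat_ge (Y - b)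
    filter_upwards [Filter.eventually_ge_atTop n0] with n hn
    refine mX_im hq hσ hF hz (hXb n) hY ?_
    have : (n0 : ℝ) ≤ n := by exact_mod_cast hn
    simp only [X]
    linarith

end Pool.Agent.Lib.MP_c84763_mp
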