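import Mathlib
import Pool.Agent.Lib.MP_c84763_mp.Num2
import Pool.Agent.Lib.MP_c84763_mp.Num3
import Pool.Agent.Lib.MP_c84763_mp.Weyl
import Pool.Agent.Lib.MP_c84763_mp.Wall
import Pool.Agent.Lib.MP_c84763_mp.Ramp

/-! # The Weyl solution at the right end of the cavity -/

open Set Filter Topology MeasureTheory
open scoped ComplexConjugate

namespace Pool.Agent.Lib.MP_c84763_mp

variable {k : ℝ} {N : ℕ} {P : Par} {X c : ℝ} {n D : ℕ} {v : ℝ → ℂ}

/-- Take the fundamental system at `b = R + L + e + w` for `q r = lam D/(max r 1)² + c v r`, the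
Weyl function `m` (`weyl` with `σ = c h/8`), `g = C + m S`. -/
theorem exists_outer (hG : Good k N P X) (hF : Fits P X v) (hM : Mode k N P c n D) :
    ∃ g g' : ℂ → ℝ → ℂ,
      (∀ z : ℂ, c * P.h / 8 < z.im → IsSol D c v z (g z) (g' z) (Ioi 1)) ∧
      (∀ z : ℂ, c * P.h / 8 < z.im → IntegrableOn (fun r => ‖g z r‖ ^ 2) (Ioi (P.R + P.L))) ∧
      (∀ z : ℂ, c * P.h / 8 < z.im → DifferentiableAt ℂ (fun z => g z (P.R + P.L)) z ∧
        DifferentiableAt ℂ (fun z => g' z (P.R + P.L)) z) ∧
      (∀ z : ℂ, c * P.h / 8 < z.im →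
        0 < (conj (g z (P.R + P.L + P.e + P.w)) * g' z (P.R + P.L + P.e + P.w)).im) := by
  have hc := c_pos hG hM
  have hpos := positions hG
  have hh := hG.hh
  have he := hG.he
  have hw := hG.hw
  have hL := hG.hL
  set b : ℝ := P.R + P.L + P.e + P.w with hb
  have hb1 : 1 < b := by
    rw [hb]
    linarith [hpos.2.2]
  have hRL : 1 < P.R + P.L := by linarith [hpos.2.2]
  set q : ℝ → ℂ := fun r => ((lam D / (max r 1) ^ 2 : ℝ) : ℂ) + (c : ℂ) * v r with hqdef
  have hq : Continuous q := by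
    refine Continuous.add ?_ (continuous_const.mul hF.cont)
    refine Complex.continuous_ofReal.comp (continuous_const.div₀ ?_ ?_)
    · exact (continuous_id.max continuous_const).pow 2
    · intro r
      have : (0 : ℝ) < max r 1 := lt_of_lt_of_le one_pos (le_max_right r 1)
      positivity
  have hσ : ∀ r, b ≤ r → (q r).im ≤ c * P.h / 8 := by
    intro r hr
    have h1 := hF.out r (by rw [hb] at hr; linarith)
    have h2 : (q r).im = c * (v r).im := by
      rw [hqdef]
      simp only [Complex.add_im, Complex.ofReal_im, Complex.im_ofReal_mul, zero_add]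
    rw [h2]
    calc c * (v r).im ≤ c * (P.h / 8) := mul_le_mul_of_nonneg_left h1 hc.le
      _ = c * P.h / 8 := by ring
  have hqm : ∀ r, b ≤ r → ‖q r‖ ≤ |lam D| + c := by
    intro r hr
    refine (norm_add_le _ _).trans (add_le_add ?_ ?_)
    · rw [Complex.norm_real, Real.norm_eq_abs, abs_div]
      have h1 : (1 : ℝ) ≤ |(max r 1) ^ 2| := by
        rw [abs_of_nonneg (by positivity)]
        exact one_le_pow₀ (le_max_right r 1)
      exact div_le_self (abs_nonneg _) h1
    · rw [norm_mul, Complex.norm_real, Real.norm_eq_abs, abs_of_pos hc]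
      calc c * ‖v r‖ ≤ c * 1 := mul_le_mul_of_nonneg_left (hF.bdd r) hc.le
        _ = c := mul_one c
  obtain ⟨C, C', S, S', hfund⟩ := exists_fund q hq b
  obtain ⟨m, hmd, hm⟩ := weyl hq hσ hqm hfund
  have hcont : ∀ z, Continuous fun r => FX C S (m z) z r := by
    intro z
    have h1 : Continuous (C z) := continuous_iff_continuousAt.2 fun r => (hfund.dC z r).continuousAt
    have h2 : Continuous (S z) := continuous_iff_continuousAt.2 fun r => (hfund.dS z r).continuousAt
    exact h1.add (continuous_const.mul h2)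
  have hopen : IsOpen {z : ℂ | c * P.h / 8 < z.im} := isOpen_lt continuous_const Complex.continuous_im
  have hmz : ∀ z : ℂ, c * P.h / 8 < z.im → DifferentiableAt ℂ m z := fun z hz =>
    (hmd z hz).differentiableAt (hopen.mem_nhds hz)
  refine ⟨fun z r => FX C S (m z) z r, fun z r => FX C' S' (m z) z r, ?_, ?_, ?_, ?_⟩
  · intro z _
    refine ⟨fun r _ => ?_, fun r hr => ?_⟩
    · exact (hfund.dC z r).add ((hfund.dS z r).const_mul (m z))
    · have h1 := (hfund.dC' z r).add ((hfund.dS' z r).const_mul (m z))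
      have h2 : (q r - z) * C z r + m z * ((q r - z) * S z r) =
          (((lam D / r ^ 2 : ℝ) : ℂ) + (c : ℂ) * v r - z) * FX C S (m z) z r := by
        have h3 : max r 1 = r := max_eq_left (le_of_lt hr)
        rw [hqdef]
        simp only [h3]
        unfold FX
        ring
      rw [h2] at h1
      exact h1
  · intro z hz
    have hz' : 0 < z.im - c * P.h / 8 := by linarith
    have hsq : Continuous fun r => ‖FX C S (m z) z r‖ ^ 2 := (hcont z).norm.pow 2
    have i1 : IntegrableOn (fun r => ‖FX C S (m z) z r‖ ^ 2) (Ioc (P.R + P.L) b) :=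
      (hsq.integrableOn_Icc (a := P.R + P.L) (b := b)).mono_set Ioc_subset_Icc_self
    have i2 : IntegrableOn (fun r => ‖FX C S (m z) z r‖ ^ 2) (Ioi b) := by
      refine integrableOn_Ioi_of_intervalIntegral_norm_bounded
        ((m z).im / (z.im - c * P.h / 8)) b (b := fun i : ℝ => i) (l := atTop)
        (fun i => (hsq.integrableOn_Icc (a := b) (b := i)).mono_set Ioc_subset_Icc_self)
        tendsto_id ?_
      filter_upwards [eventually_ge_atTop b] with Y hY
      have h1 := hm z hz Y hY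
      have h2 : ∫ x in b..Y, ‖‖FX C S (m z) z x‖ ^ 2‖ = ∫ x in b..Y, ‖FX C S (m z) z x‖ ^ 2 := by
        refine intervalIntegral.integral_congr fun x _ => ?_
        exact Real.norm_of_nonneg (by positivity)
      rw [h2, le_div_iff₀ hz', mul_comm]
      exact h1
    have hu : Ioi (P.R + P.L) = Ioc (P.R + P.L) b ∪ Ioi b := by
      refine (Ioc_union_Ioi_eq_Ioi ?_).symm
      rw [hb]
      linarith
    rw [hu]
    exact i1.union i2
  · intro z hz
    exact ⟨((hfund.anC _) z).add ((hmz z hz).mul ((hfund.anS _) z)),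
      ((hfund.anC' _) z).add ((hmz z hz).mul ((hfund.anS' _) z))⟩
  · intro z hz
    have hz' : 0 < z.im - c * P.h / 8 := by linarith
    have hsq : Continuous fun r => ‖FX C S (m z) z r‖ ^ 2 := (hcont z).norm.pow 2
    have e1 : FX C S (m z) z b = 1 := by
      unfold FX
      rw [hfund.C0, hfund.S0, mul_zero, add_zero]
    have e2 : FX C' S' (m z) z b = m z := by
      unfold FX
      rw [hfund.C1, hfund.S1, mul_one, zero_add]
    have h1 : 0 < ∫ r in b..(b + 1), ‖FX C S (m z) z r‖ ^ 2 := by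
      refine intervalIntegral.integral_pos (by linarith) hsq.continuousOn
        (fun x _ => by positivity) ⟨b, ⟨le_rfl, by linarith⟩, ?_⟩
      rw [e1]
      norm_num
    have h2 := hm z hz (b + 1) (by linarith)
    have h3 : 0 < (m z).im := lt_of_lt_of_le (mul_pos hz' h1) h2
    show 0 < (conj (FX C S (m z) z b) * FX C' S' (m z) z b).im
    rw [e1, e2, map_one, one_mul]
    exact h3

/-- `right_wall` on `[R+L+e, R+L+e+w]`, then `ramp_left` on `[R+L, R+L+e]`. -/
theorem right_side (hG : Good k N P X) (hF : Fits P X v) (hM : Mode k N P c n D)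
    {κ : ℂ} (hκ : ‖κ * P.L - ((Real.pi * n : ℝ) : ℂ)‖ ≤ 1 / 2) {g g' : ℝ → ℂ}
    (hg : IsSol D c v (zOf D c P κ) g g' (Ioi 1))
    (him : 0 < (conj (g (P.R + P.L + P.e + P.w)) * g' (P.R + P.L + P.e + P.w)).im) :
    g' (P.R + P.L) ≠ 0 ∧ ‖κ‖ * ‖g (P.R + P.L)‖ ≤ 1 / 20 * ‖g' (P.R + P.L)‖ := by
  have hc := c_pos hG hM
  have hpos := positions hG
  have hh := hG.hh
  have he := hG.he
  have hw := hG.hw
  have hL := hG.hL
  have hA := hG.hA
  have hK : 0 < √(c * P.A) := Real.sqrt_pos.2 (mul_pos hc hA)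
  have hη : 0 < 3 / 4 * (c * P.h) := by positivity
  have hcQ : ∀ a b : ℝ, 1 < a → ContinuousOn (Qf D c v (zOf D c P κ)) (Icc a b) := by
    intro a b ha
    refine (Qf_continuousOn D c hF.cont (zOf D c P κ)).mono fun r hr => ?_
    exact lt_of_lt_of_le (by linarith) hr.1
  have hsum : P.R + P.L + P.e + P.w - (P.R + P.L + P.e) = P.w := by ring
  obtain ⟨w1, w2⟩ := right_wall (f := g) (f' := g') (Q := Qf D c v (zOf D c P κ))
    (a := P.R + P.L + P.e) (b := P.R + P.L + P.e + P.w) hK hη (by linarith)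
    (fun r hr => hg.d1 r (lt_of_lt_of_le (by linarith [hpos.2.2]) hr.1))
    (fun r hr => hg.d2 r (lt_of_lt_of_le (by linarith [hpos.2.2]) hr.1))
    (hcQ _ _ (by linarith [hpos.2.2]))
    (fun r hr => Q_re_wall hG hM hκ (lt_of_lt_of_le (by linarith [hpos.2.2]) hr.1)
      (hF.rwall r hr.1 hr.2))
    (fun r hr => Q_im_real hG hM hκ (by rw [hF.rwall r hr.1 hr.2, Complex.ofReal_im]))
    (by rw [hsum]; exact exp_cond hG hM) him
  obtain ⟨r1, r2⟩ := ramp_left (f := g) (f' := g') (Q := Qf D c v (zOf D c P κ))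
    (a := P.R + P.L) (e := P.e) (B := 4 * (c * P.A)) (τ := 4 / √(c * P.A)) he.le
    (by positivity) (by positivity)
    (fun r hr => hg.d1 r (lt_of_lt_of_le (by linarith [hpos.2.2]) hr.1))
    (fun r hr => hg.d2 r (lt_of_lt_of_le (by linarith [hpos.2.2]) hr.1))
    (fun r hr => Q_norm_ramp hG hM hκ (by linarith [hr.1]) (hF.rramp r hr.1 hr.2))
    (ramp_cond1 hG hM) (ramp_cond2 hG hM) w1 w2
  refine ⟨r2, ?_⟩
  calc ‖κ‖ * ‖g (P.R + P.L)‖
      ≤ ‖κ‖ * (2 * (4 / √(c * P.A) + P.e) * ‖g' (P.R + P.L)‖) :=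
        mul_le_mul_of_nonneg_left r1 (norm_nonneg _)
    _ = (‖κ‖ * (2 * (4 / √(c * P.A) + P.e))) * ‖g' (P.R + P.L)‖ := by ring
    _ ≤ 1 / 20 * ‖g' (P.R + P.L)‖ :=
        mul_le_mul_of_nonneg_right (kappa_ramp hG hM hκ) (norm_nonneg _)

end Pool.Agent.Lib.MP_c84763_mp
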