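import Mathlib
import Pool.Agent.Lib.MP_c84763_mp.Left
import Pool.Agent.Lib.MP_c84763_mp.Right
import Pool.Agent.Lib.MP_c84763_mp.Cavity
import Pool.Agent.Lib.MP_c84763_mp.MinMod

/-! # The matching condition has a solution -/

open Set Filter Topology MeasureTheory Metric
open scoped ComplexConjugate

namespace Pool.Agent.Lib.MP_c84763_mp

variable {k : ℝ} {N : ℕ} {P : Par} {X c : ℝ} {n D : ℕ} {v : ℝ → ℂ} {f f' g g' : ℂ → ℝ → ℂ}

/-- The matching function. -/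
noncomputable def Gm (D : ℕ) (c : ℝ) (P : Par) (f f' g g' : ℂ → ℝ → ℂ) (κ : ℂ) : ℂ :=
  κ * (f (zOf D c P κ) (P.R + P.L) / f' (zOf D c P κ) P.R -
    g (zOf D c P κ) (P.R + P.L) / g' (zOf D c P κ) (P.R + P.L) *
      (f' (zOf D c P κ) (P.R + P.L) / f' (zOf D c P κ) P.R))

/-- `cavity` for `φ s = f z (R+s)/f' z R`, `φ' s = f' z (R+s)/f' z R`,
`b = -g z (R+L)/g' z (R+L)`, `η s = lam D/R² - lam D/(R+s)²` (`cav_eta`, `cav_small`). -/
theorem Gm_close (hG : Good k N P X) (hF : Fits P X v) (hM : Mode k N P c n D)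
    (hf : IsRegular D c v f f') {κ : ℂ} (hκ : ‖κ * P.L - ((Real.pi * n : ℝ) : ℂ)‖ ≤ 1 / 2)
    (hl : f' (zOf D c P κ) P.R ≠ 0 ∧
      ‖κ‖ * ‖f (zOf D c P κ) P.R‖ ≤ 1 / 20 * ‖f' (zOf D c P κ) P.R‖)
    (hr : g' (zOf D c P κ) (P.R + P.L) ≠ 0 ∧
      ‖κ‖ * ‖g (zOf D c P κ) (P.R + P.L)‖ ≤ 1 / 20 * ‖g' (zOf D c P κ) (P.R + P.L)‖) :
    ‖Gm D c P f f' g g' κ - Complex.sin (κ * P.L)‖ ≤ 1 / 5 := by
  set z := zOf D c P κ with hz
  have hκ0 : κ ≠ 0 := by
    intro h0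
    have := kappa_re_pos hG hM hκ
    rw [h0] at this
    simp at this
  have hRpos := hG.hR
  have hLpos := hG.hL
  have hsol := hf.sol z
  have hcav := cavity (φ := fun s => f z (P.R + s) / f' z P.R)
    (φ' := fun s => f' z (P.R + s) / f' z P.R)
    (η := fun s => ((lam D / P.R ^ 2 - lam D / (P.R + s) ^ 2 : ℝ) : ℂ)) (κ := κ)
    (b := -(g z (P.R + P.L) / g' z (P.R + P.L))) (L := P.L)
    (η0 := 2 * (lam D / P.R ^ 2) * P.L / P.R) hκ0 hLpos (kappa_im hG hM hκ) ?_ ?_ ?_ ?_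
    (cav_small hG hM hκ) ?_ ?_ ?_
  · have e : Gm D c P f f' g g' κ = κ * (f z (P.R + P.L) / f' z P.R +
        -(g z (P.R + P.L) / g' z (P.R + P.L)) * (f' z (P.R + P.L) / f' z P.R)) := by
      unfold Gm
      rw [← hz]
      ring
    rw [e]
    exact hcav
  · intro s hs
    have hpos : P.R + s ∈ Ioi (0 : ℝ) := by
      have := hs.1
      simp only [mem_Ioi]
      linarith
    have h1 := (hsol.d1 (P.R + s) hpos)
    have h2 : HasDerivAt (fun s => P.R + s) 1 s := by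
      simpa using (hasDerivAt_id s).const_add P.R
    have h3 := (h1.scomp s h2).div_const (f' z P.R)
    simpa using h3
  · intro s hs
    have hpos : P.R + s ∈ Ioi (0 : ℝ) := by
      have := hs.1
      simp only [mem_Ioi]
      linarith
    have h1 := (hsol.d2 (P.R + s) hpos)
    have h2 : HasDerivAt (fun s => P.R + s) 1 s := by
      simpa using (hasDerivAt_id s).const_add P.R
    have h3 := (h1.scomp s h2).div_const (f' z P.R)
    have hv : v (P.R + s) = P.h * Complex.I :=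
      hF.cav (P.R + s) (by linarith [hs.1]) (by linarith [hs.2])
    have e : -(κ ^ 2 + ((lam D / P.R ^ 2 - lam D / (P.R + s) ^ 2 : ℝ) : ℂ)) *
        (f z (P.R + s) / f' z P.R) =
        ((1 : ℝ) • ((((lam D / (P.R + s) ^ 2 : ℝ) : ℂ) + (c : ℂ) * v (P.R + s) - z) *
          f z (P.R + s))) / f' z P.R := by
      rw [hv, hz]
      unfold zOf
      push_cast
      rw [one_smul]
      ring
    rw [e]
    exact h3
  · apply ContinuousOn.comp (g := fun x : ℝ => (x : ℂ)) (t := univ)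
      Complex.continuous_ofReal.continuousOn _ (fun _ _ => mem_univ _)
    apply ContinuousOn.sub continuousOn_const
    apply ContinuousOn.div continuousOn_const (by fun_prop)
    intro s hs
    have := hs.1
    positivity
  · intro s hs
    have := cav_eta hG hM (r := P.R + s) (by linarith [hs.1]) (by linarith [hs.2])
    rw [Complex.norm_real, Real.norm_eq_abs]
    exact this
  · simp only [add_zero]
    exact div_self hl.1
  · simp only [add_zero]
    have hpos : 0 < ‖f' z P.R‖ := norm_pos_iff.mpr hl.1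
    rw [norm_div, ← mul_div_assoc, div_le_iff₀ hpos]
    exact hl.2
  · have hpos : 0 < ‖g' z (P.R + P.L)‖ := norm_pos_iff.mpr hr.1
    rw [norm_neg, norm_div, ← mul_div_assoc, div_le_iff₀ hpos]
    exact hr.2

theorem Gm_differentiableAt (hG : Good k N P X)
    (hf : IsRegular D c v f f') {κ : ℂ} (hl : f' (zOf D c P κ) P.R ≠ 0)
    (hr : g' (zOf D c P κ) (P.R + P.L) ≠ 0)
    (hg : DifferentiableAt ℂ (fun z => g z (P.R + P.L)) (zOf D c P κ) ∧
      DifferentiableAt ℂ (fun z => g' z (P.R + P.L)) (zOf D c P κ)) :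
    DifferentiableAt ℂ (Gm D c P f f' g g') κ := by
  have hzd : DifferentiableAt ℂ (zOf D c P) κ := by
    unfold zOf
    fun_prop
  have hRL : 0 < P.R + P.L := add_pos hG.hR hG.hL
  have h1 : DifferentiableAt ℂ (fun κ => f (zOf D c P κ) (P.R + P.L)) κ :=
    DifferentiableAt.comp (g := fun z => f z (P.R + P.L)) κ
      ((hf.an (P.R + P.L) hRL).differentiableAt) hzd
  have h2 : DifferentiableAt ℂ (fun κ => f' (zOf D c P κ) (P.R + P.L)) κ :=
    DifferentiableAt.comp (g := fun z => f' z (P.R + P.L)) κ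
      ((hf.an' (P.R + P.L) hRL).differentiableAt) hzd
  have h3 : DifferentiableAt ℂ (fun κ => f' (zOf D c P κ) P.R) κ :=
    DifferentiableAt.comp (g := fun z => f' z P.R) κ
      ((hf.an' P.R hG.hR).differentiableAt) hzd
  have h4 : DifferentiableAt ℂ (fun κ => g (zOf D c P κ) (P.R + P.L)) κ :=
    DifferentiableAt.comp (g := fun z => g z (P.R + P.L)) κ hg.1 hzd
  have h5 : DifferentiableAt ℂ (fun κ => g' (zOf D c P κ) (P.R + P.L)) κ :=
    DifferentiableAt.comp (g := fun z => g' z (P.R + P.L)) κ hg.2 hzd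
  unfold Gm
  exact differentiableAt_id.mul ((h1.div h3 hl).sub ((h4.div h5 hr).mul (h2.div h3 hl)))

/-- `exists_zero_of_norm_lt` on `closedBall (π n/L) (1/(2L))` with `m = 1/4`. -/
theorem exists_match (hG : Good k N P X) (hF : Fits P X v) (hM : Mode k N P c n D)
    (hf : IsRegular D c v f f') (hf' : ∀ z r, 0 < r → r ≤ 1 → f' z r = f0' D z r)
    (hg : ∀ z : ℂ, c * P.h / 8 < z.im → IsSol D c v z (g z) (g' z) (Ioi 1))
    (hga : ∀ z : ℂ, c * P.h / 8 < z.im → DifferentiableAt ℂ (fun z => g z (P.R + P.L)) z ∧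
        DifferentiableAt ℂ (fun z => g' z (P.R + P.L)) z)
    (hgi : ∀ z : ℂ, c * P.h / 8 < z.im →
        0 < (conj (g z (P.R + P.L + P.e + P.w)) * g' z (P.R + P.L + P.e + P.w)).im) :
    ∃ κ : ℂ, ‖κ * P.L - ((Real.pi * n : ℝ) : ℂ)‖ ≤ 1 / 2 ∧
      g' (zOf D c P κ) (P.R + P.L) ≠ 0 ∧
      f (zOf D c P κ) (P.R + P.L) =
        f' (zOf D c P κ) (P.R + P.L) / g' (zOf D c P κ) (P.R + P.L) *
          g (zOf D c P κ) (P.R + P.L) := by
  have hLpos := hG.hL
  have hLc : (P.L : ℂ) ≠ 0 := by exact_mod_cast hLpos.ne'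
  have hch : 0 < c * P.h := mul_pos (c_pos hG hM) hG.hh
  have hzim : ∀ κ : ℂ, ‖κ * P.L - ((Real.pi * n : ℝ) : ℂ)‖ ≤ 1 / 2 →
      c * P.h / 8 < (zOf D c P κ).im := by
    intro κ hκ
    have := (z_im hG hM hκ).1
    linarith
  have hleft : ∀ κ : ℂ, ‖κ * P.L - ((Real.pi * n : ℝ) : ℂ)‖ ≤ 1 / 2 →
      f' (zOf D c P κ) P.R ≠ 0 ∧
      ‖κ‖ * ‖f (zOf D c P κ) P.R‖ ≤ 1 / 20 * ‖f' (zOf D c P κ) P.R‖ := fun κ hκ =>
    left_side hG hF hM hf hf' hκ
  have hright : ∀ κ : ℂ, ‖κ * P.L - ((Real.pi * n : ℝ) : ℂ)‖ ≤ 1 / 2 →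
      g' (zOf D c P κ) (P.R + P.L) ≠ 0 ∧
      ‖κ‖ * ‖g (zOf D c P κ) (P.R + P.L)‖ ≤ 1 / 20 * ‖g' (zOf D c P κ) (P.R + P.L)‖ :=
    fun κ hκ => right_side hG hF hM hκ (hg _ (hzim κ hκ)) (hgi _ (hzim κ hκ))
  have hclose : ∀ κ : ℂ, ‖κ * P.L - ((Real.pi * n : ℝ) : ℂ)‖ ≤ 1 / 2 →
      ‖Gm D c P f f' g g' κ - Complex.sin (κ * P.L)‖ ≤ 1 / 5 := fun κ hκ =>
    Gm_close hG hF hM hf hκ (hleft κ hκ) (hright κ hκ)
  -- the disc
  set z0 : ℂ := ((Real.pi * n : ℝ) : ℂ) / P.L with hz0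
  have hdisc : ∀ κ : ℂ, ‖κ * P.L - ((Real.pi * n : ℝ) : ℂ)‖ = ‖κ - z0‖ * P.L := by
    intro κ
    have e : κ * P.L - ((Real.pi * n : ℝ) : ℂ) = (κ - z0) * P.L := by
      rw [hz0, sub_mul, div_mul_cancel₀ _ hLc]
    rw [e, norm_mul, Complex.norm_real, Real.norm_eq_abs, abs_of_pos hLpos]
  have hin : ∀ κ ∈ closedBall z0 (1 / (2 * P.L)),
      ‖κ * P.L - ((Real.pi * n : ℝ) : ℂ)‖ ≤ 1 / 2 := by
    intro κ hκ
    rw [mem_closedBall, dist_eq_norm] at hκ
    rw [hdisc]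
    calc ‖κ - z0‖ * P.L ≤ 1 / (2 * P.L) * P.L := by gcongr
      _ = 1 / 2 := by field_simp
  have hsph : ∀ κ ∈ sphere z0 (1 / (2 * P.L)),
      ‖κ * P.L - ((Real.pi * n : ℝ) : ℂ)‖ = 1 / 2 := by
    intro κ hκ
    rw [mem_sphere, dist_eq_norm] at hκ
    rw [hdisc, hκ]
    field_simp
  have hex : ∃ κ ∈ closedBall z0 (1 / (2 * P.L)), Gm D c P f f' g g' κ = 0 := by
    apply exists_zero_of_norm_lt (m := 1 / 4) (by positivity)
    · intro κ hκ
      have hκ' := hin κ hκ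
      exact Gm_differentiableAt hG hf (hleft κ hκ').1 (hright κ hκ').1 (hga _ (hzim κ hκ'))
    · intro κ hκ
      have hκ' := hsph κ hκ
      have h1 := hclose κ hκ'.le
      have h2 := norm_sin_circle n (κ * P.L) hκ'
      have h3 : ‖Complex.sin (κ * P.L)‖ ≤ ‖Gm D c P f f' g g' κ‖ +
          ‖Gm D c P f f' g g' κ - Complex.sin (κ * P.L)‖ := by
        have := norm_sub_le (Gm D c P f f' g g' κ)
          (Gm D c P f f' g g' κ - Complex.sin (κ * P.L))
        rwa [sub_sub_cancel] at this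
      linarith
    · have hκ' : ‖z0 * P.L - ((Real.pi * n : ℝ) : ℂ)‖ ≤ 1 / 2 := by
        rw [hdisc]
        simp
      have h1 := hclose z0 hκ'
      have h2 : Complex.sin (z0 * P.L) = 0 := by
        rw [hz0, div_mul_cancel₀ _ hLc, Complex.sin_eq_zero_iff]
        exact ⟨n, by push_cast; ring⟩
      rw [h2, sub_zero] at h1
      linarith
  obtain ⟨κ, hκ, hzero⟩ := hex
  have hκ' := hin κ hκ
  have hl := (hleft κ hκ').1
  have hr := (hright κ hκ').1
  refine ⟨κ, hκ', hr, ?_⟩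
  have hκ0 : κ ≠ 0 := by
    intro h0
    have := kappa_re_pos hG hM hκ'
    rw [h0] at this
    simp at this
  unfold Gm at hzero
  have h1 := (mul_eq_zero.mp hzero).resolve_left hκ0
  rw [sub_eq_zero] at h1
  have h2 : f (zOf D c P κ) (P.R + P.L) = f (zOf D c P κ) (P.R + P.L) / f' (zOf D c P κ) P.R *
      f' (zOf D c P κ) P.R := by
    rw [div_mul_cancel₀ _ hl]
  rw [h2, h1]
  field_simp

end Pool.Agent.Lib.MP_c84763_mp
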