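import Mathlib
import Pool.Agent.Lib.MP_c84763_mp.Match

/-! # One eigenvalue for every mode -/

open Set Filter Topology MeasureTheory Metric
open scoped ComplexConjugate

namespace Pool.Agent.Lib.MP_c84763_mp

variable {k : ℝ} {N : ℕ} {P : Par} {X c : ℝ} {n D : ℕ} {v : ℝ → ℂ}

/-- `exists_regular`, `exists_outer`, `exists_match`; glue `f z` and
`(f' z (R+L)/g' z (R+L)) g z` at `R + L` (`isSol_glue`). -/
theorem channel (hG : Good k N P X) (hF : Fits P X v) (hM : Mode k N P c n D) :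
    ∃ (κ : ℂ) (f f' : ℝ → ℂ), ‖κ * P.L - ((Real.pi * n : ℝ) : ℂ)‖ ≤ 1 / 2 ∧
      IsGlobal D c v (zOf D c P κ) f f' := by
  obtain ⟨f, f', hf, hf'⟩ := exists_regular D (by have := hM.hD; omega) c v hF.cont hF.zero
  obtain ⟨g, g', hg1, hg2, hg3, hg4⟩ := exists_outer hG hF hM
  obtain ⟨κ, hκ, hg0, hmatch⟩ := exists_match hG hF hM hf hf' hg1 hg3 hg4
  have hc : 0 < c := c_pos hG hM
  have hh : 0 < P.h := hG.hh
  have hL : 0 < P.L := hG.hL
  have he : 0 < P.e := hG.he
  have hw : 0 < P.w := hG.hw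
  have hzi : c * P.h / 8 < (zOf D c P κ).im := by
    have h1 := (z_im hG hM hκ).1
    have h2 : 0 < c * P.h := mul_pos hc hh
    linarith
  have hb1 : 1 < P.R + P.L := by
    have h1 := (positions hG).2.2
    linarith
  suffices h : ∃ (f f' : ℝ → ℂ), IsGlobal D c v (zOf D c P κ) f f' by
    obtain ⟨f, f', h⟩ := h
    exact ⟨κ, f, f', hκ, h⟩
  generalize zOf D c P κ = z at hzi hg0 hmatch
  generalize hb : P.R + P.L = b at hb1 hg0 hmatch hg2
  generalize ha : f' z b / g' z b = a at hmatch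
  have hsg : IsSol D c v z (fun r => a * g z r) (fun r => a * g' z r) (Ioi 1) := by
    constructor
    · intro r hr
      exact ((hg1 z hzi).d1 r hr).const_mul a
    · intro r hr
      refine (((hg1 z hzi).d2 r hr).const_mul a).congr_deriv ?_
      ring
  have hglue := isSol_glue (s := Ioi 0) (b := b) (hf.sol z) hsg (fun r hr _ => hr)
    (fun r _ hr => lt_of_lt_of_le hb1 hr) hmatch (by rw [← ha]; field_simp)
  refine ⟨_, _, hglue, ?_, ?_⟩
  · intro r hr hr1
    show (if r ≤ b then f z r else a * g z r) = f0 D z r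
    rw [if_pos (hr1.trans hb1.le)]
    exact hf.near z r hr hr1
  · have hsplit : Ioi (1 : ℝ) = Ioc 1 b ∪ Ioi b := (Ioc_union_Ioi_eq_Ioi hb1.le).symm
    rw [hsplit]
    refine IntegrableOn.union ?_ ?_
    · have h1 : IntegrableOn (fun r => ‖f z r‖ ^ 2) (Ioc 1 b) := by
        have h2 : ContinuousOn (fun r => ‖f z r‖ ^ 2) (Icc 1 b) := by
          refine ContinuousOn.pow (ContinuousOn.norm ?_) 2
          intro r hr
          exact ((hf.sol z).d1 r (lt_of_lt_of_le one_pos hr.1)).continuousAt.continuousWithinAt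
        exact (h2.integrableOn_compact isCompact_Icc).mono_set Ioc_subset_Icc_self
      refine h1.congr_fun ?_ measurableSet_Ioc
      intro r hr
      show ‖f z r‖ ^ 2 = ‖if r ≤ b then f z r else a * g z r‖ ^ 2
      rw [if_pos hr.2]
    · have h1 : IntegrableOn (fun r => ‖a‖ ^ 2 * ‖g z r‖ ^ 2) (Ioi b) :=
        (hg2 z hzi).const_mul _
      refine h1.congr_fun ?_ measurableSet_Ioi
      intro r hr
      show ‖a‖ ^ 2 * ‖g z r‖ ^ 2 = ‖if r ≤ b then f z r else a * g z r‖ ^ 2
      rw [if_neg (not_le.2 hr), norm_mul, mul_pow]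

end Pool.Agent.Lib.MP_c84763_mp
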