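import Mathlib
import Pool.Agent.Lib.MP_c84763_mp.Basic

/-! # Elementary properties of the shell profile -/

open Set Filter Topology

namespace Pool.Agent.Lib.MP_c84763_mp

theorem trap_continuous (a b : ℝ) {e : ℝ} (he : 0 < e) : Continuous (trap a b e) := by
  have _ := he
  unfold trap
  fun_prop

theorem trap_nonneg (a b e r : ℝ) : 0 ≤ trap a b e r := by
  exact le_max_left _ _

theorem trap_le_one (a b e r : ℝ) : trap a b e r ≤ 1 := by
  exact max_le zero_le_one (min_le_left _ _)

theorem trap_one {a b e r : ℝ} (he : 0 < e) (h1 : a ≤ r) (h2 : r ≤ b) : trap a b e r = 1 := by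
  unfold trap
  have h3 : 0 ≤ (r - a) / e := div_nonneg (by linarith) he.le
  have h4 : 0 ≤ (b - r) / e := div_nonneg (by linarith) he.le
  rw [min_eq_left (le_min (by linarith) (by linarith)), max_eq_right zero_le_one]

theorem trap_left {a b e r : ℝ} (he : 0 < e) (h : r ≤ a - e) : trap a b e r = 0 := by
  unfold trap
  have h3 : (r - a) / e ≤ -1 := by
    rw [div_le_iff₀ he]
    linarith
  refine max_eq_left ?_
  exact (min_le_right _ _).trans ((min_le_left _ _).trans (by linarith))

theorem trap_right {a b e r : ℝ} (he : 0 < e) (h : b + e ≤ r) : trap a b e r = 0 := by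
  unfold trap
  have h3 : (b - r) / e ≤ -1 := by
    rw [div_le_iff₀ he]
    linarith
  refine max_eq_left ?_
  exact (min_le_right _ _).trans ((min_le_right _ _).trans (by linarith))

/-- All parameters are positive. -/
structure PosPar (P : Par) : Prop where
  hR : 0 < P.R
  hL : 0 < P.L
  hh : 0 < P.h
  hA : 0 < P.A
  hw : 0 < P.w
  he : 0 < P.e

variable {P : Par}

theorem shell_continuous (hP : PosPar P) : Continuous (shell P) := by
  have h1 := trap_continuous P.R (P.R + P.L) hP.he
  have h2 := trap_continuous (P.R - P.e - P.w) (P.R - P.e) hP.he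
  have h3 := trap_continuous (P.R + P.L + P.e) (P.R + P.L + P.e + P.w) hP.he
  unfold shell
  exact ((Complex.continuous_ofReal.comp (h1.const_mul _)).mul_const _).add
    (Complex.continuous_ofReal.comp ((h2.add h3).const_mul _))

theorem shell_re (P : Par) (r : ℝ) : (shell P r).re =
    P.A * (trap (P.R - P.e - P.w) (P.R - P.e) P.e r +
      trap (P.R + P.L + P.e) (P.R + P.L + P.e + P.w) P.e r) := by
  unfold shell
  rw [Complex.add_re, Complex.re_ofReal_mul, Complex.I_re, mul_zero, zero_add, Complex.ofReal_re]

theorem shell_im (P : Par) (r : ℝ) : (shell P r).im = P.h * trap P.R (P.R + P.L) P.e r := by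
  unfold shell
  rw [Complex.add_im, Complex.im_ofReal_mul, Complex.I_im, mul_one, Complex.ofReal_im, add_zero]

theorem shell_re_nonneg (hP : PosPar P) (r : ℝ) : 0 ≤ (shell P r).re := by
  rw [shell_re]
  exact mul_nonneg hP.hA.le (add_nonneg (trap_nonneg _ _ _ _) (trap_nonneg _ _ _ _))

theorem shell_im_nonneg (hP : PosPar P) (r : ℝ) : 0 ≤ (shell P r).im := by
  rw [shell_im]
  exact mul_nonneg hP.hh.le (trap_nonneg _ _ _ _)

theorem shell_im_le (hP : PosPar P) (r : ℝ) : (shell P r).im ≤ P.h := by
  rw [shell_im]
  exact mul_le_of_le_one_right hP.hh.le (trap_le_one _ _ _ _)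

/-- The two walls are disjoint (`r < R` or `R < r`), so `‖shell‖ ≤ A + h`. -/
theorem shell_norm_le (hP : PosPar P) (r : ℝ) : ‖shell P r‖ ≤ P.A + P.h := by
  have hs : trap (P.R - P.e - P.w) (P.R - P.e) P.e r +
      trap (P.R + P.L + P.e) (P.R + P.L + P.e + P.w) P.e r ≤ 1 := by
    rcases le_total P.R r with h | h
    · rw [trap_right hP.he (by linarith : P.R - P.e + P.e ≤ r), zero_add]
      exact trap_le_one _ _ _ _
    · rw [trap_left hP.he (by linarith [hP.hL] : r ≤ P.R + P.L + P.e - P.e), add_zero]
      exact trap_le_one _ _ _ _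
  have h1 := Complex.norm_le_abs_re_add_abs_im (shell P r)
  rw [abs_of_nonneg (shell_re_nonneg hP r), abs_of_nonneg (shell_im_nonneg hP r)] at h1
  have h2 := shell_im_le hP r
  have h3 : (shell P r).re ≤ P.A := by
    rw [shell_re]
    exact mul_le_of_le_one_right hP.hA.le hs
  linarith

theorem shell_zero_left (hP : PosPar P) {r : ℝ} (hr : r ≤ P.R - 2 * P.e - P.w) :
    shell P r = 0 := by
  have he := hP.he
  have hw := hP.hw
  have hL := hP.hL
  apply Complex.ext
  · rw [shell_re, trap_left he (by linarith), trap_left he (by linarith), add_zero, mul_zero,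
      Complex.zero_re]
  · rw [shell_im, trap_left he (by linarith), mul_zero, Complex.zero_im]

theorem shell_zero_right (hP : PosPar P) {r : ℝ} (hr : P.R + P.L + 2 * P.e + P.w ≤ r) :
    shell P r = 0 := by
  have he := hP.he
  have hw := hP.hw
  have hL := hP.hL
  apply Complex.ext
  · rw [shell_re, trap_right he (by linarith), trap_right he (by linarith), add_zero, mul_zero,
      Complex.zero_re]
  · rw [shell_im, trap_right he (by linarith), mul_zero, Complex.zero_im]

theorem shell_im_left (hP : PosPar P) {r : ℝ} (hr : r ≤ P.R - P.e) : (shell P r).im = 0 := by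
  rw [shell_im, trap_left hP.he (by linarith), mul_zero]

theorem shell_im_right (hP : PosPar P) {r : ℝ} (hr : P.R + P.L + P.e ≤ r) :
    (shell P r).im = 0 := by
  rw [shell_im, trap_right hP.he (by linarith), mul_zero]

theorem shell_lwall (hP : PosPar P) {r : ℝ} (h1 : P.R - P.e - P.w ≤ r) (h2 : r ≤ P.R - P.e) :
    shell P r = P.A := by
  have he := hP.he
  have hL := hP.hL
  apply Complex.ext
  · rw [shell_re, trap_one he h1 h2, trap_left he (by linarith), add_zero, mul_one,
      Complex.ofReal_re]
  · rw [shell_im_left hP h2, Complex.ofReal_im]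

theorem shell_rwall (hP : PosPar P) {r : ℝ} (h1 : P.R + P.L + P.e ≤ r)
    (h2 : r ≤ P.R + P.L + P.e + P.w) : shell P r = P.A := by
  have he := hP.he
  have hL := hP.hL
  apply Complex.ext
  · rw [shell_re, trap_right he (by linarith), trap_one he h1 h2, zero_add, mul_one,
      Complex.ofReal_re]
  · rw [shell_im_right hP h1, Complex.ofReal_im]

theorem shell_cav (hP : PosPar P) {r : ℝ} (h1 : P.R ≤ r) (h2 : r ≤ P.R + P.L) :
    shell P r = P.h * Complex.I := by
  have he := hP.he
  apply Complex.ext
  · rw [shell_re, trap_right he (by linarith), trap_left he (by linarith), add_zero, mul_zero,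
      Complex.re_ofReal_mul, Complex.I_re, mul_zero]
  · rw [shell_im, trap_one he h1 h2, mul_one, Complex.im_ofReal_mul, Complex.I_im, mul_one]

end Pool.Agent.Lib.MP_c84763_mp
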