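import Mathlib
import Pool.Agent.Lib.MP_c84763_mp.ShellFun

/-! # The `L^p` norm of one shell -/

open Set Filter Topology MeasureTheory

namespace Pool.Agent.Lib.MP_c84763_mp

private lemma cost_pow {a b : ℝ} (ha : 0 ≤ a) (hab : a ≤ b) (n : ℕ) :
    b ^ (n + 1) - a ^ (n + 1) ≤ ((n : ℝ) + 1) * b ^ n * (b - a) := by
  have hb : 0 ≤ b := ha.trans hab
  induction n with
  | zero => simp
  | succ n ih =>
    have h1 : a ^ (n + 1) ≤ b ^ (n + 1) := pow_le_pow_left₀ ha hab _
    have h2 : a ^ (n + 1) * (b - a) ≤ b ^ (n + 1) * (b - a) :=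
      mul_le_mul_of_nonneg_right h1 (by linarith)
    have h3 : b * (b ^ (n + 1) - a ^ (n + 1)) ≤ b * (((n : ℝ) + 1) * b ^ n * (b - a)) :=
      mul_le_mul_of_nonneg_left ih hb
    calc b ^ (n + 1 + 1) - a ^ (n + 1 + 1)
        = b * (b ^ (n + 1) - a ^ (n + 1)) + a ^ (n + 1) * (b - a) := by ring
      _ ≤ b * (((n : ℝ) + 1) * b ^ n * (b - a)) + b ^ (n + 1) * (b - a) := add_le_add h3 h2
      _ = (((n + 1 : ℕ) : ℝ) + 1) * b ^ (n + 1) * (b - a) := by
        push_cast
        ring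

private lemma cost_meas {d : ℕ} (a b : ℝ) : MeasurableSet {x : Sp d | a ≤ ‖x‖ ∧ ‖x‖ ≤ b} :=
  ((isClosed_le continuous_const continuous_norm).inter
    (isClosed_le continuous_norm continuous_const)).measurableSet

/-- Volume of an annulus: `vol (ball 0 1) (b^d - a^d) ≤ vol (ball 0 1) d b^(d-1) (b-a)`. -/
theorem annulus_le {d : ℕ} (hd : 1 ≤ d) {a b : ℝ} (ha : 0 ≤ a) (hab : a ≤ b) :
    volume {x : Sp d | a ≤ ‖x‖ ∧ ‖x‖ ≤ b} ≤
      ENNReal.ofReal ((volume (Metric.ball (0 : Sp d) 1)).toReal * d * b ^ (d - 1) * (b - a)) := by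
  have hb : 0 ≤ b := ha.trans hab
  have hset : {x : Sp d | a ≤ ‖x‖ ∧ ‖x‖ ≤ b} =
      Metric.closedBall (0 : Sp d) b \ Metric.ball (0 : Sp d) a := by
    ext x
    simp only [mem_ofPred_eq, Set.mem_sdiff, Metric.mem_closedBall, Metric.mem_ball,
      dist_zero_right, not_lt]
    exact and_comm
  have hsub : Metric.ball (0 : Sp d) a ⊆ Metric.closedBall (0 : Sp d) b :=
    Metric.ball_subset_closedBall.trans (Metric.closedBall_subset_closedBall hab)
  have hfin : Module.finrank ℝ (Sp d) = d := by simp [Sp]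
  have hne : Nonempty (Fin d) := ⟨⟨0, hd⟩⟩
  have hnt : Nontrivial (Sp d) := by
    unfold Sp
    infer_instance
  have hv : volume (Metric.ball (0 : Sp d) 1) =
      ENNReal.ofReal (volume (Metric.ball (0 : Sp d) 1)).toReal :=
    (ENNReal.ofReal_toReal measure_ball_lt_top.ne).symm
  rw [hset, measure_sdiff hsub measurableSet_ball.nullMeasurableSet measure_ball_lt_top.ne,
    Measure.addHaar_closedBall _ _ hb, Measure.addHaar_ball _ _ ha, hfin, hv,
    ← ENNReal.ofReal_mul (by positivity), ← ENNReal.ofReal_mul (by positivity),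
    ← ENNReal.ofReal_sub _ (by positivity)]
  apply ENNReal.ofReal_le_ofReal
  rw [← hv]
  obtain ⟨n, rfl⟩ : ∃ n, d = n + 1 := ⟨d - 1, by omega⟩
  have h1 := cost_pow ha hab n
  have h2 : (0 : ℝ) ≤ (volume (Metric.ball (0 : Sp (n + 1)) 1)).toReal := ENNReal.toReal_nonneg
  have h3 := mul_le_mul_of_nonneg_left h1 h2
  rw [Nat.add_sub_cancel]
  push_cast
  linarith

/-- On the cavity `‖shell‖ = h`; on `[R-2e-w, R]` and `[R+L, R+L+2e+w]`, `‖shell‖ ≤ A+h ≤ 2A`;
elsewhere it is `0`. -/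
theorem cost {d : ℕ} (hd : 1 ≤ d) :
    ∃ C : ℝ, 0 < C ∧ ∀ (P : Par) (p : ℝ), PosPar P → P.h ≤ P.A → 1 ≤ p →
      2 * P.e + P.w ≤ P.L → P.L ≤ P.R / 2 →
      (∫⁻ x : Sp d, ENNReal.ofReal (‖shell P ‖x‖‖ ^ p)) ≤
        ENNReal.ofReal (C * P.R ^ (d - 1) *
          ((2 * P.A) ^ p * (2 * P.w + 4 * P.e) + P.h ^ p * P.L)) := by
  have hv0 : 0 < (volume (Metric.ball (0 : Sp d) 1)).toReal :=
    ENNReal.toReal_pos (Metric.measure_ball_pos volume _ one_pos).ne' measure_ball_lt_top.ne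
  have hd0 : (0 : ℝ) < d := by exact_mod_cast hd
  refine ⟨(volume (Metric.ball (0 : Sp d) 1)).toReal * d * 2 ^ (d - 1), by positivity, ?_⟩
  intro P p hP hhA hp hw hLR
  obtain ⟨hR, hL, hh, hA, hw0, he⟩ := hP
  have hP : PosPar P := ⟨hR, hL, hh, hA, hw0, he⟩
  set v1 := (volume (Metric.ball (0 : Sp d) 1)).toReal with hv1
  set S1 : Set (Sp d) := {x | P.R - 2 * P.e - P.w ≤ ‖x‖ ∧ ‖x‖ ≤ P.R} with hS1
  set S2 : Set (Sp d) := {x | P.R ≤ ‖x‖ ∧ ‖x‖ ≤ P.R + P.L} with hS2
  set S3 : Set (Sp d) := {x | P.R + P.L ≤ ‖x‖ ∧ ‖x‖ ≤ P.R + P.L + 2 * P.e + P.w} with hS3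
  have hp0 : 0 < p := by linarith
  have hle : ∀ r, ENNReal.ofReal (‖shell P r‖ ^ p) ≤ ENNReal.ofReal ((2 * P.A) ^ p) := by
    intro r
    apply ENNReal.ofReal_le_ofReal
    exact Real.rpow_le_rpow (norm_nonneg _) ((shell_norm_le hP r).trans (by linarith)) hp0.le
  have hpt : ∀ x : Sp d, ENNReal.ofReal (‖shell P ‖x‖‖ ^ p) ≤
      S1.indicator (fun _ => ENNReal.ofReal ((2 * P.A) ^ p)) x +
      S2.indicator (fun _ => ENNReal.ofReal (P.h ^ p)) x +
      S3.indicator (fun _ => ENNReal.ofReal ((2 * P.A) ^ p)) x := by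
    intro x
    by_cases h1 : x ∈ S1
    · rw [indicator_of_mem h1]
      exact (hle _).trans (le_add_right (le_add_right le_rfl))
    by_cases h2 : x ∈ S2
    · rw [indicator_of_mem h2]
      refine le_trans (le_of_eq ?_) (le_add_right (le_add_left le_rfl))
      rw [shell_cav hP h2.1 h2.2, norm_mul, Complex.norm_I, mul_one, Complex.norm_real,
        Real.norm_of_nonneg hh.le]
    by_cases h3 : x ∈ S3
    · rw [indicator_of_mem h3]
      exact (hle _).trans (le_add_left le_rfl)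
    have h0 : shell P ‖x‖ = 0 := by
      rcases lt_or_ge ‖x‖ (P.R - 2 * P.e - P.w) with h4 | h4
      · exact shell_zero_left hP h4.le
      · rcases lt_or_ge (P.R + P.L + 2 * P.e + P.w) ‖x‖ with h5 | h5
        · exact shell_zero_right hP h5.le
        · exfalso
          rcases le_or_gt ‖x‖ P.R with h6 | h6
          · exact h1 ⟨h4, h6⟩
          · rcases le_or_gt ‖x‖ (P.R + P.L) with h7 | h7
            · exact h2 ⟨h6.le, h7⟩
            · exact h3 ⟨h7.le, h5⟩
    rw [h0, norm_zero, Real.zero_rpow hp0.ne', ENNReal.ofReal_zero]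
    exact bot_le
  have hK : ∀ a b : ℝ, 0 ≤ a → a ≤ b → b ≤ 2 * P.R →
      volume {x : Sp d | a ≤ ‖x‖ ∧ ‖x‖ ≤ b} ≤
        ENNReal.ofReal (v1 * d * 2 ^ (d - 1) * P.R ^ (d - 1) * (b - a)) := by
    intro a b ha hab hb
    refine (annulus_le hd ha hab).trans (ENNReal.ofReal_le_ofReal ?_)
    have hb0 : 0 ≤ b := ha.trans hab
    have h1 : b ^ (d - 1) ≤ 2 ^ (d - 1) * P.R ^ (d - 1) := by
      rw [← mul_pow]
      exact pow_le_pow_left₀ hb0 hb _
    calc v1 * d * b ^ (d - 1) * (b - a) ≤ v1 * d * (2 ^ (d - 1) * P.R ^ (d - 1)) * (b - a) := by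
          gcongr
      _ = v1 * d * 2 ^ (d - 1) * P.R ^ (d - 1) * (b - a) := by ring
  have hm1 : MeasurableSet S1 := cost_meas _ _
  have hm2 : MeasurableSet S2 := cost_meas _ _
  have hm3 : MeasurableSet S3 := cost_meas _ _
  calc (∫⁻ x : Sp d, ENNReal.ofReal (‖shell P ‖x‖‖ ^ p))
      ≤ ∫⁻ x : Sp d, (S1.indicator (fun _ => ENNReal.ofReal ((2 * P.A) ^ p)) x +
        S2.indicator (fun _ => ENNReal.ofReal (P.h ^ p)) x +
        S3.indicator (fun _ => ENNReal.ofReal ((2 * P.A) ^ p)) x) := lintegral_mono hpt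
    _ = ENNReal.ofReal ((2 * P.A) ^ p) * volume S1 + ENNReal.ofReal (P.h ^ p) * volume S2 +
        ENNReal.ofReal ((2 * P.A) ^ p) * volume S3 := by
        rw [lintegral_add_right _ (measurable_const.indicator hm3),
          lintegral_add_right _ (measurable_const.indicator hm2),
          lintegral_indicator_const hm1, lintegral_indicator_const hm2,
          lintegral_indicator_const hm3]
    _ ≤ ENNReal.ofReal ((2 * P.A) ^ p) * ENNReal.ofReal (v1 * d * 2 ^ (d - 1) * P.R ^ (d - 1) *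
          (P.R - (P.R - 2 * P.e - P.w))) +
        ENNReal.ofReal (P.h ^ p) * ENNReal.ofReal (v1 * d * 2 ^ (d - 1) * P.R ^ (d - 1) *
          (P.R + P.L - P.R)) +
        ENNReal.ofReal ((2 * P.A) ^ p) * ENNReal.ofReal (v1 * d * 2 ^ (d - 1) * P.R ^ (d - 1) *
          (P.R + P.L + 2 * P.e + P.w - (P.R + P.L))) := by
        gcongr
        · exact hK _ _ (by linarith) (by linarith) (by linarith)
        · exact hK _ _ (by linarith) (by linarith) (by linarith)
        · exact hK _ _ (by linarith) (by linarith) (by linarith)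
    _ = ENNReal.ofReal (v1 * d * 2 ^ (d - 1) * P.R ^ (d - 1) *
          ((2 * P.A) ^ p * (2 * P.w + 4 * P.e) + P.h ^ p * P.L)) := by
        have e1 : P.R - (P.R - 2 * P.e - P.w) = 2 * P.e + P.w := by ring
        have e2 : P.R + P.L - P.R = P.L := by ring
        have e3 : P.R + P.L + 2 * P.e + P.w - (P.R + P.L) = 2 * P.e + P.w := by ring
        rw [e1, e2, e3, ← ENNReal.ofReal_mul (by positivity), ← ENNReal.ofReal_mul (by positivity),
          ← ENNReal.ofReal_add (by positivity) (by positivity),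
          ← ENNReal.ofReal_add (by positivity) (by positivity)]
        congr 1
        ring

end Pool.Agent.Lib.MP_c84763_mp
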