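import Mathlib
import Pool.Agent.Lib.MP_c84763_mp.Basic

/-! # The Laplacian of `g(|x|²) P(x)` -/

open Set Filter Topology MeasureTheory InnerProductSpace

namespace Pool.Agent.Lib.MP_c84763_mp

variable {d : ℕ}

private theorem ev_add' (P Q : MvPolynomial (Fin d) ℂ) (x : Sp d) :
    ev (P + Q) x = ev P x + ev Q x := by simp [ev]

private theorem ev_mulX' (P : MvPolynomial (Fin d) ℂ) (j : Fin d) (x : Sp d) :
    ev (P * MvPolynomial.X j) x = ev P x * ((x j : ℝ) : ℂ) := by simp [ev]

theorem ev_contDiff (P : MvPolynomial (Fin d) ℂ) : ContDiff ℝ 2 (ev P) := by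
  induction P using MvPolynomial.induction_on with
  | C a =>
    have : ev (MvPolynomial.C a : MvPolynomial (Fin d) ℂ) = fun _ => a := by
      funext x; simp [ev]
    rw [this]
    exact contDiff_const
  | add p q hp hq =>
    have : ev (p + q) = fun x => ev p x + ev q x := funext fun x => ev_add' p q x
    rw [this]
    exact hp.add hq
  | mul_X p j hp =>
    have : ev (p * MvPolynomial.X j) = fun x => ev p x * ((x j : ℝ) : ℂ) :=
      funext fun x => ev_mulX' p j x
    rw [this]
    refine hp.mul ?_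
    exact (Complex.ofRealCLM.contDiff).comp (EuclideanSpace.proj j : Sp d →L[ℝ] ℝ).contDiff

/-- Line derivative of a polynomial. -/
theorem ev_hasDerivAt (P : MvPolynomial (Fin d) ℂ) (x : Sp d) (i : Fin d) (t : ℝ) :
    HasDerivAt (fun t : ℝ => ev P (x + t • EuclideanSpace.single i (1 : ℝ)))
      (ev (MvPolynomial.pderiv i P) (x + t • EuclideanSpace.single i (1 : ℝ))) t := by
  induction P using MvPolynomial.induction_on with
  | C a =>
    have h1 : (fun t : ℝ => ev (MvPolynomial.C a : MvPolynomial (Fin d) ℂ)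
        (x + t • EuclideanSpace.single i (1 : ℝ))) = fun _ => a := by
      funext x; simp [ev]
    rw [h1]
    have h2 : ev (MvPolynomial.pderiv i (MvPolynomial.C a : MvPolynomial (Fin d) ℂ))
        (x + t • EuclideanSpace.single i (1 : ℝ)) = 0 := by simp [ev]
    rw [h2]
    exact hasDerivAt_const _ _
  | add p q hp hq =>
    simp only [map_add, ev_add']
    exact hp.add hq
  | mul_X p j hp =>
    have hc : HasDerivAt
        (fun t : ℝ => (((x + t • EuclideanSpace.single i (1 : ℝ) : Sp d) j : ℝ) : ℂ))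
        ((Pi.single i (1 : ℂ) : Fin d → ℂ) j) t := by
      have e1 : (fun t : ℝ => (((x + t • EuclideanSpace.single i (1 : ℝ) : Sp d) j : ℝ) : ℂ)) =
          fun t : ℝ => ((x j : ℝ) : ℂ) + ((Pi.single i (1 : ℂ) : Fin d → ℂ) j) * (t : ℂ) := by
        funext t
        by_cases hji : j = i
        · subst hji
          simp
        · simp [hji]
      rw [e1]
      have h2 : HasDerivAt (fun t : ℝ => (t : ℂ)) 1 t := Complex.ofRealCLM.hasDerivAt
      simpa using (h2.const_mul ((Pi.single i (1 : ℂ) : Fin d → ℂ) j)).const_add ((x j : ℝ) : ℂ)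
    simp only [ev_mulX']
    have h3 : ev (MvPolynomial.pderiv i (p * MvPolynomial.X j))
        (x + t • EuclideanSpace.single i (1 : ℝ)) =
        ev (MvPolynomial.pderiv i p) (x + t • EuclideanSpace.single i (1 : ℝ)) *
          (((x + t • EuclideanSpace.single i (1 : ℝ) : Sp d) j : ℝ) : ℂ) +
        ev p (x + t • EuclideanSpace.single i (1 : ℝ)) * ((Pi.single i (1 : ℂ) : Fin d → ℂ) j) := by
      rw [MvPolynomial.pderiv_mul, ev_add', ev_mulX', MvPolynomial.pderiv_X]
      congr 1
      by_cases hji : j = i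
      · subst hji
        simp [ev]
      · simp [ev, hji]
    rw [h3]
    exact hp.mul hc

/-- Euler's identity. -/
theorem ev_euler {l : ℕ} {P : MvPolynomial (Fin d) ℂ} (hP : P.IsHomogeneous l) (x : Sp d) :
    ∑ i, ((x i : ℝ) : ℂ) * ev (MvPolynomial.pderiv i P) x = (l : ℂ) * ev P x := by
  have h := congrArg (MvPolynomial.eval (fun i => ((x i : ℝ) : ℂ))) hP.sum_X_mul_pderiv
  simpa [ev, map_sum] using h

theorem ev_harm {l : ℕ} {P : MvPolynomial (Fin d) ℂ} (hP : IsHarm l P) (x : Sp d) :
    ∑ i, ev (MvPolynomial.pderiv i (MvPolynomial.pderiv i P)) x = 0 := by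
  have h := congrArg (MvPolynomial.eval (fun i => ((x i : ℝ) : ℂ))) hP.harm
  simpa [ev, map_sum] using h

/-- The Laplacian of a `C²` function is the sum of the second derivatives along the coordinate
lines. -/
theorem laplacian_eq_sum {u : Sp d → ℂ} (hu : ContDiff ℝ 2 u) (x : Sp d) :
    Laplacian.laplacian u x =
      ∑ i, deriv (deriv (fun t : ℝ => u (x + t • EuclideanSpace.single i (1 : ℝ)))) 0 := by
  rw [laplacian_eq_iteratedFDeriv_orthonormalBasis u (EuclideanSpace.basisFun (Fin d) ℝ)]
  refine Finset.sum_congr rfl fun i _ => ?_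
  rw [iteratedFDeriv_two_apply]
  simp only [EuclideanSpace.basisFun_apply, Matrix.cons_val_zero, Matrix.cons_val_one]
  set e : Sp d := EuclideanSpace.single i (1 : ℝ) with he
  have hline : ∀ t : ℝ, HasDerivAt (fun t : ℝ => x + t • e) e t := by
    intro t
    simpa using ((hasDerivAt_id t).smul_const e).const_add x
  have hd : Differentiable ℝ u := hu.differentiable (by norm_num)
  have hd2 : Differentiable ℝ (fderiv ℝ u) :=
    (hu.fderiv_right (m := 1) (by norm_num)).differentiable (by norm_num)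
  have h1 : deriv (fun t : ℝ => u (x + t • e)) = fun t : ℝ => fderiv ℝ u (x + t • e) e := by
    funext t
    exact ((hd (x + t • e)).hasFDerivAt.comp_hasDerivAt t (hline t)).deriv
  rw [h1]
  have h2 : HasDerivAt (fun t : ℝ => fderiv ℝ u (x + t • e)) (fderiv ℝ (fderiv ℝ u) (x + (0 : ℝ) • e) e) 0 :=
    (hd2 (x + (0 : ℝ) • e)).hasFDerivAt.comp_hasDerivAt 0 (hline 0)
  have h3 := (h2.clm_apply (hasDerivAt_const (0 : ℝ) e)).deriv
  rw [h3]
  simp

end Pool.Agent.Lib.MP_c84763_mp
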