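import Mathlib
import Pool.Agent.Lib.MP_c84763_mp.Laplace

/-! # The Laplacian of `g(|x|²) P(x)`, main formula -/

open Set Filter Topology MeasureTheory InnerProductSpace

namespace Pool.Agent.Lib.MP_c84763_mp

variable {d : ℕ}

theorem radial_contDiff {g : ℝ → ℂ} (hg : ∀ s, ContDiffAt ℝ 2 g s) (P : MvPolynomial (Fin d) ℂ) :
    ContDiff ℝ 2 (fun x : Sp d => g (‖x‖ ^ 2) * ev P x) := by
  have h1 : ContDiff ℝ 2 g := contDiff_iff_contDiffAt.2 hg
  have h2 : ContDiff ℝ 2 (fun x : Sp d => ‖x‖ ^ 2) := contDiff_norm_sq ℝ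
  exact (h1.comp h2).mul (ev_contDiff P)

private theorem nsq_line (x : Sp d) (i : Fin d) (t : ℝ) :
    ‖x + t • EuclideanSpace.single i (1 : ℝ)‖ ^ 2 = ‖x‖ ^ 2 + 2 * t * x i + t ^ 2 := by
  rw [norm_add_sq_real, inner_smul_right, norm_smul, PiLp.norm_single, norm_one, mul_one,
    Real.norm_eq_abs, sq_abs, EuclideanSpace.inner_single_right]
  simp
  ring

private theorem hasDerivAt_nsq_line (x : Sp d) (i : Fin d) (t : ℝ) :
    HasDerivAt (fun t : ℝ => ‖x + t • EuclideanSpace.single i (1 : ℝ)‖ ^ 2)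
      (2 * x i + 2 * t) t := by
  have h1 : (fun t : ℝ => ‖x + t • EuclideanSpace.single i (1 : ℝ)‖ ^ 2) =
      fun t : ℝ => ‖x‖ ^ 2 + 2 * t * x i + t ^ 2 := funext fun t => nsq_line x i t
  rw [h1]
  have h2 : HasDerivAt (fun t : ℝ => ‖x‖ ^ 2 + 2 * t * x i + t ^ 2)
      (2 * 1 * x i + ((2 : ℕ) : ℝ) * t ^ (2 - 1) * 1) t :=
    ((((hasDerivAt_id t).const_mul 2).mul_const (x i)).const_add (‖x‖ ^ 2)).add
      ((hasDerivAt_id t).pow 2)
  convert h2 using 1
  norm_num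

/-- Along the line `x + t e_i`: `|x + t e_i|² = |x|² + 2 t x_i + t²`; the second derivative at `0`
is `(4 x_i² g'' + 2 g') P + 4 x_i g' ∂_i P + g ∂_i² P`; sum over `i`, Euler and harmonicity. -/
theorem radial_laplacian {g : ℝ → ℂ} (hg : ∀ s, ContDiffAt ℝ 2 g s) {l : ℕ}
    {P : MvPolynomial (Fin d) ℂ} (hP : IsHarm l P) (x : Sp d) :
    Laplacian.laplacian (fun x : Sp d => g (‖x‖ ^ 2) * ev P x) x =
      (4 * ((‖x‖ ^ 2 : ℝ) : ℂ) * deriv (deriv g) (‖x‖ ^ 2) +
        2 * ((d + 2 * l : ℕ) : ℂ) * deriv g (‖x‖ ^ 2)) * ev P x := by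
  have hgC : ContDiff ℝ 2 g := contDiff_iff_contDiffAt.2 hg
  have hgC' : ContDiff ℝ (1 + 1) g := by
    have : (1 + 1 : WithTop ℕ∞) = 2 := by norm_num
    rw [this]
    exact hgC
  have hg1 : Differentiable ℝ g := hgC.differentiable (by norm_num)
  have hg2 : Differentiable ℝ (deriv g) :=
    (contDiff_succ_iff_deriv.1 hgC').2.2.differentiable (by norm_num)
  rw [laplacian_eq_sum (radial_contDiff hg P) x]
  have key : ∀ i : Fin d, deriv (deriv (fun t : ℝ =>
      g (‖x + t • EuclideanSpace.single i (1 : ℝ)‖ ^ 2) *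
        ev P (x + t • EuclideanSpace.single i (1 : ℝ)))) 0 =
      (2 * deriv g (‖x‖ ^ 2) + 4 * ((x i : ℝ) : ℂ) ^ 2 * deriv (deriv g) (‖x‖ ^ 2)) * ev P x +
        4 * deriv g (‖x‖ ^ 2) * (((x i : ℝ) : ℂ) * ev (MvPolynomial.pderiv i P) x) +
        g (‖x‖ ^ 2) * ev (MvPolynomial.pderiv i (MvPolynomial.pderiv i P)) x := by
    intro i
    have hG : ∀ t : ℝ, HasDerivAt (fun t : ℝ => g (‖x + t • EuclideanSpace.single i (1 : ℝ)‖ ^ 2))
        (((2 * x i + 2 * t : ℝ) : ℂ) * deriv g (‖x + t • EuclideanSpace.single i (1 : ℝ)‖ ^ 2))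
        t := by
      intro t
      have h1 := HasDerivAt.scomp t
        (hg1 (‖x + t • EuclideanSpace.single i (1 : ℝ)‖ ^ 2)).hasDerivAt (hasDerivAt_nsq_line x i t)
      rw [Complex.real_smul] at h1
      exact h1
    have hG2 : ∀ t : ℝ, HasDerivAt
        (fun t : ℝ => deriv g (‖x + t • EuclideanSpace.single i (1 : ℝ)‖ ^ 2))
        (((2 * x i + 2 * t : ℝ) : ℂ) *
          deriv (deriv g) (‖x + t • EuclideanSpace.single i (1 : ℝ)‖ ^ 2)) t := by
      intro t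
      have h1 := HasDerivAt.scomp t
        (hg2 (‖x + t • EuclideanSpace.single i (1 : ℝ)‖ ^ 2)).hasDerivAt (hasDerivAt_nsq_line x i t)
      rw [Complex.real_smul] at h1
      exact h1
    have hL : ∀ t : ℝ, HasDerivAt (fun t : ℝ => ((2 * x i + 2 * t : ℝ) : ℂ)) 2 t := by
      intro t
      have h1 : HasDerivAt (fun t : ℝ => 2 * x i + 2 * t) (2 * 1) t :=
        ((hasDerivAt_id t).const_mul 2).const_add (2 * x i)
      have h2 := h1.ofReal_comp
      convert h2 using 1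
      norm_num
    have h1 : deriv (fun t : ℝ => g (‖x + t • EuclideanSpace.single i (1 : ℝ)‖ ^ 2) *
        ev P (x + t • EuclideanSpace.single i (1 : ℝ))) = fun t : ℝ =>
        ((2 * x i + 2 * t : ℝ) : ℂ) * deriv g (‖x + t • EuclideanSpace.single i (1 : ℝ)‖ ^ 2) *
          ev P (x + t • EuclideanSpace.single i (1 : ℝ)) +
        g (‖x + t • EuclideanSpace.single i (1 : ℝ)‖ ^ 2) *
          ev (MvPolynomial.pderiv i P) (x + t • EuclideanSpace.single i (1 : ℝ)) :=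
      funext fun t => ((hG t).mul (ev_hasDerivAt P x i t)).deriv
    rw [h1]
    have h2 := (((hL 0).mul (hG2 0)).mul (ev_hasDerivAt P x i 0)).add
      ((hG 0).mul (ev_hasDerivAt (MvPolynomial.pderiv i P) x i 0))
    have h3 := h2.deriv
    refine h3.trans ?_
    simp only [Pi.mul_apply, zero_smul, add_zero, mul_zero]
    push_cast
    ring
  rw [Finset.sum_congr rfl fun i _ => key i]
  rw [Finset.sum_add_distrib, Finset.sum_add_distrib, ← Finset.sum_mul, ← Finset.mul_sum,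
    ← Finset.mul_sum, ev_euler hP.hom, ev_harm hP, Finset.sum_add_distrib, ← Finset.sum_mul,
    ← Finset.sum_mul, ← Finset.mul_sum]
  have hn : ∑ i, ((x i : ℝ) : ℂ) ^ 2 = ((‖x‖ ^ 2 : ℝ) : ℂ) := by
    rw [EuclideanSpace.real_norm_sq_eq]
    push_cast
    rfl
  rw [hn, Finset.sum_const, Finset.card_univ, Fintype.card_fin, nsmul_eq_mul]
  push_cast
  ring

end Pool.Agent.Lib.MP_c84763_mp
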