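import Mathlib
import Pool.Agent.Lib.MP_c84763_mp.Start

/-! # The radial factor as a function of `s = |x|²` -/

open Set Filter Topology MeasureTheory

namespace Pool.Agent.Lib.MP_c84763_mp

variable {D : ℕ} {c : ℝ} {v : ℝ → ℂ} {z : ℂ} {f f' : ℝ → ℂ}

/-- For `0 < s` the second formula is always valid (`near`). -/
theorem rad_eq (hf : IsGlobal D c v z f f') {s : ℝ} (hs : 0 < s) :
    rad D z f s = ((s ^ (-((D : ℝ) - 1) / 4) : ℝ) : ℂ) * f (√s) := by
  unfold rad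
  split_ifs with h1
  · have hs1 : √s ≤ 1 := by
      rw [Real.sqrt_le_one]
      exact h1
    rw [hf.near (√s) (Real.sqrt_pos.2 hs) hs1, f0]
    have e1 : ((√s : ℝ) : ℂ) ^ 2 = (s : ℂ) := by
      rw [← Complex.ofReal_pow, Real.sq_sqrt hs.le]
    have e2 : (√s) ^ (((D : ℝ) - 1) / 2) = s ^ (((D : ℝ) - 1) / 4) := by
      rw [Real.sqrt_eq_rpow, ← Real.rpow_mul hs.le]
      congr 1
      ring
    have e3 : s ^ (-((D : ℝ) - 1) / 4) * s ^ (((D : ℝ) - 1) / 4) = 1 := by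
      rw [← Real.rpow_add hs]
      have : -((D : ℝ) - 1) / 4 + ((D : ℝ) - 1) / 4 = 0 := by ring
      rw [this, Real.rpow_zero]
    rw [e1, e2, ← mul_assoc, ← Complex.ofReal_mul, e3, Complex.ofReal_one, one_mul]
  · rfl

/-- `f'' = (lam/r² + c v - z) f` is continuous on `(0,∞)`, so `f` is `C²` there. -/
theorem f_contDiffAt (hv : Continuous v) (hf : IsGlobal D c v z f f') {r : ℝ} (hr : 0 < r) :
    ContDiffAt ℝ 2 f r := by
  have hc : ContinuousOn f (Ioi 0) := fun x hx => (hf.sol.d1 x hx).continuousAt.continuousWithinAt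
  have hd' : ∀ x ∈ Ioi (0 : ℝ), deriv f' x =
      (((lam D / x ^ 2 : ℝ) : ℂ) + (c : ℂ) * v x - z) * f x := fun x hx => (hf.sol.d2 x hx).deriv
  have hd : ∀ x ∈ Ioi (0 : ℝ), deriv f x = f' x := fun x hx => (hf.sol.d1 x hx).deriv
  have h0 : ContDiffOn ℝ 0 (deriv f') (Ioi 0) := by
    rw [contDiffOn_zero]
    refine ContinuousOn.congr ?_ hd'
    refine ContinuousOn.mul (ContinuousOn.sub (ContinuousOn.add ?_ ?_) continuousOn_const) hc
    · refine Complex.continuous_ofReal.comp_continuousOn ?_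
      refine continuousOn_const.div (by fun_prop) fun x hx => ?_
      exact pow_ne_zero 2 (ne_of_gt hx)
    · exact (continuous_const.mul hv).continuousOn
  have h1 : ContDiffOn ℝ 1 f' (Ioi 0) := by
    rw [show (1 : WithTop ℕ∞) = 0 + 1 by rfl, contDiffOn_succ_iff_deriv_of_isOpen isOpen_Ioi]
    refine ⟨fun x hx => (hf.sol.d2 x hx).differentiableAt.differentiableWithinAt, ?_, h0⟩
    intro h
    exact absurd h (by simp)
  have h2 : ContDiffOn ℝ 2 f (Ioi 0) := by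
    rw [show (2 : WithTop ℕ∞) = 1 + 1 by rfl, contDiffOn_succ_iff_deriv_of_isOpen isOpen_Ioi]
    refine ⟨fun x hx => (hf.sol.d1 x hx).differentiableAt.differentiableWithinAt, ?_,
      h1.congr hd⟩
    intro h
    exact absurd h (by simp)
  exact h2.contDiffAt (isOpen_Ioi.mem_nhds hr)

private lemma rs_lt (D : ℕ) (z : ℂ) (f : ℝ → ℂ) {s : ℝ} (hs : s < 1) :
    rad D z f =ᶠ[𝓝 s] fun x : ℝ => Phi D (z * (x : ℂ)) := by
  filter_upwards [isOpen_Iio.mem_nhds hs] with x hx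
  unfold rad
  rw [if_pos (le_of_lt hx)]

private lemma rs_pos (hf : IsGlobal D c v z f f') {s : ℝ} (hs : 0 < s) :
    rad D z f =ᶠ[𝓝 s] fun x : ℝ => ((x ^ (-((D : ℝ) - 1) / 4) : ℝ) : ℂ) * f (√x) := by
  filter_upwards [isOpen_Ioi.mem_nhds hs] with x hx
  exact rad_eq hf hx

theorem rad_contDiff (hD : 1 ≤ D) (hv : Continuous v) (hf : IsGlobal D c v z f f') :
    ∀ s, ContDiffAt ℝ 2 (rad D z f) s := by
  intro s
  rcases lt_or_ge s 1 with hs | hs
  · refine ContDiffAt.congr_of_eventuallyEq ?_ (rs_lt D z f hs)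
    have h1 : ContDiff ℂ 2 (Phi D) := (phi_differentiable D hD).contDiff
    have h2 : ContDiff ℝ 2 (Phi D) := h1.restrict_scalars ℝ
    have h3 : ContDiff ℝ 2 (fun x : ℝ => z * (x : ℂ)) :=
      contDiff_const.mul Complex.ofRealCLM.contDiff
    exact (h2.comp h3).contDiffAt
  · have hs0 : 0 < s := by linarith
    refine ContDiffAt.congr_of_eventuallyEq ?_ (rs_pos hf hs0)
    refine ContDiffAt.mul ?_ ?_
    · have h1 : ContDiffAt ℝ 2 (fun x : ℝ => x ^ (-((D : ℝ) - 1) / 4)) s :=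
        Real.contDiffAt_rpow_const_of_ne hs0.ne'
      exact Complex.ofRealCLM.contDiff.contDiffAt.comp s h1
    · exact (f_contDiffAt hv hf (Real.sqrt_pos.2 hs0)).comp s (Real.contDiffAt_sqrt hs0.ne')

private lemma rs_one (D : ℕ) (hD : 1 ≤ D) (z : ℂ) (s : ℝ) :
    HasDerivAt (fun x : ℝ => Phi D (z * (x : ℂ))) (deriv (Phi D) (z * (s : ℂ)) * z) s := by
  have h1 : HasDerivAt (fun x : ℝ => z * (x : ℂ)) z s := by
    have h1 : HasDerivAt (fun x : ℝ => (x : ℂ)) 1 s := Complex.ofRealCLM.hasDerivAt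
    simpa using h1.const_mul z
  exact HasDerivAt.comp s (phi_differentiable D hD _).hasDerivAt h1

private lemma rs_two (D : ℕ) (hD : 1 ≤ D) (z : ℂ) (s : ℝ) :
    HasDerivAt (fun x : ℝ => deriv (Phi D) (z * (x : ℂ)) * z)
      (deriv (deriv (Phi D)) (z * (s : ℂ)) * z * z) s := by
  have h1 : HasDerivAt (fun x : ℝ => z * (x : ℂ)) z s := by
    have h1 : HasDerivAt (fun x : ℝ => (x : ℂ)) 1 s := Complex.ofRealCLM.hasDerivAt
    simpa using h1.const_mul z
  have hdd : Differentiable ℂ (deriv (Phi D)) := by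
    have h := (phi_differentiable D hD).differentiableOn.deriv isOpen_univ
    exact fun w => (h w (Set.mem_univ w)).differentiableAt Filter.univ_mem
  exact (HasDerivAt.comp s (hdd _).hasDerivAt h1).mul_const z

/-- first derivative for positive `s` -/
private noncomputable def rs1 (a : ℝ) (f f' : ℝ → ℂ) (s : ℝ) : ℂ :=
  ((a * s ^ (a - 1) : ℝ) : ℂ) * f (√s) + ((s ^ a : ℝ) : ℂ) * ((1 / (2 * √s) : ℝ) • f' (√s))

private lemma rs_a (hf : IsGlobal D c v z f f') (a : ℝ) {s : ℝ} (hs : 0 < s) :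
    HasDerivAt (fun x : ℝ => ((x ^ a : ℝ) : ℂ) * f (√x)) (rs1 a f f' s) s := by
  have h1 : HasDerivAt (fun x : ℝ => ((x ^ a : ℝ) : ℂ)) ((a * s ^ (a - 1) : ℝ) : ℂ) s :=
    (Real.hasDerivAt_rpow_const (Or.inl hs.ne')).ofReal_comp
  have h2 : HasDerivAt (fun x : ℝ => f (√x)) ((1 / (2 * √s) : ℝ) • f' (√s)) s :=
    HasDerivAt.scomp s (hf.sol.d1 (√s) (Real.sqrt_pos.2 hs)) (Real.hasDerivAt_sqrt hs.ne')
  exact h1.mul h2

private lemma rs_b (hf : IsGlobal D c v z f f') (a : ℝ) {s : ℝ} (hs : 0 < s) :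
    HasDerivAt (rs1 a f f')
      (((a * ((a - 1) * s ^ (a - 1 - 1)) : ℝ) : ℂ) * f (√s) +
        ((a * s ^ (a - 1) : ℝ) : ℂ) * ((1 / (2 * √s) : ℝ) • f' (√s)) +
        (((a * s ^ (a - 1) : ℝ) : ℂ) * ((1 / (2 * √s) : ℝ) • f' (√s)) +
        ((s ^ a : ℝ) : ℂ) * ((1 / (2 * √s) : ℝ) • ((1 / (2 * √s) : ℝ) •
          ((((lam D / (√s) ^ 2 : ℝ) : ℂ) + (c : ℂ) * v (√s) - z) * f (√s))) +
          ((0 * (2 * √s) - 1 * (2 * (1 / (2 * √s)))) / (2 * √s) ^ 2 : ℝ) • f' (√s)))) s := by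
  have hu : 0 < √s := Real.sqrt_pos.2 hs
  have h0 : HasDerivAt (fun x : ℝ => ((a * x ^ (a - 1) : ℝ) : ℂ))
      ((a * ((a - 1) * s ^ (a - 1 - 1)) : ℝ) : ℂ) s :=
    ((Real.hasDerivAt_rpow_const (Or.inl hs.ne')).const_mul a).ofReal_comp
  have h1 : HasDerivAt (fun x : ℝ => ((x ^ a : ℝ) : ℂ)) ((a * s ^ (a - 1) : ℝ) : ℂ) s :=
    (Real.hasDerivAt_rpow_const (Or.inl hs.ne')).ofReal_comp
  have h2 : HasDerivAt (fun x : ℝ => f (√x)) ((1 / (2 * √s) : ℝ) • f' (√s)) s :=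
    HasDerivAt.scomp s (hf.sol.d1 (√s) hu) (Real.hasDerivAt_sqrt hs.ne')
  have h3 : HasDerivAt (fun x : ℝ => f' (√x)) ((1 / (2 * √s) : ℝ) •
      ((((lam D / (√s) ^ 2 : ℝ) : ℂ) + (c : ℂ) * v (√s) - z) * f (√s))) s :=
    HasDerivAt.scomp s (hf.sol.d2 (√s) hu) (Real.hasDerivAt_sqrt hs.ne')
  have h4 : HasDerivAt (fun x : ℝ => 1 / (2 * √x))
      ((0 * (2 * √s) - 1 * (2 * (1 / (2 * √s)))) / (2 * √s) ^ 2) s :=
    (hasDerivAt_const s (1 : ℝ)).div ((Real.hasDerivAt_sqrt hs.ne').const_mul 2) (by positivity)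
  have h5 := (h0.mul h2).add (h1.mul (h4.smul h3))
  exact h5

/-- The radial equation in the variable `s`: for `s < 1` by `phi_ode`, for `s > 0` from the
equation for `f`: with `G(r) = rad(r²) = r^(-(D-1)/2) f(r)`,
`4 s rad'' + 2 D rad' = G'' + ((D-1)/r) G' = r^(-(D-1)/2) (f'' - lam/r² f) = (c v - z) G`. -/
theorem rad_ode (hD : 1 ≤ D) (hv : Continuous v) (hv0 : ∀ r, r ≤ 1 → v r = 0)
    (hf : IsGlobal D c v z f f') {s : ℝ} (hs : 0 ≤ s) :
    4 * (s : ℂ) * deriv (deriv (rad D z f)) s + 2 * (D : ℂ) * deriv (rad D z f) s =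
      ((c : ℂ) * v (√s) - z) * rad D z f s := by
  rcases lt_or_ge s 1 with hs1 | hs1
  · have hev := rs_lt D z f hs1
    have hd1 : deriv (rad D z f) =ᶠ[𝓝 s] fun x : ℝ => deriv (Phi D) (z * (x : ℂ)) * z := by
      filter_upwards [isOpen_Iio.mem_nhds hs1] with x hx
      rw [(rs_lt D z f hx).deriv_eq]
      exact (rs_one D hD z x).deriv
    rw [hd1.deriv_eq, hd1.eq_of_nhds, hev.eq_of_nhds, (rs_two D hD z s).deriv]
    have hv1 : v (√s) = 0 := by
      apply hv0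
      rw [Real.sqrt_le_one]
      exact hs1.le
    rw [hv1]
    have := phi_ode D hD (z * (s : ℂ))
    linear_combination z * this
  · have hs0 : 0 < s := by linarith
    have hev := rs_pos hf hs0
    have hd1 : deriv (rad D z f) =ᶠ[𝓝 s] rs1 (-((D : ℝ) - 1) / 4) f f' := by
      filter_upwards [isOpen_Ioi.mem_nhds hs0] with x hx
      rw [(rs_pos hf hx).deriv_eq]
      exact (rs_a hf _ hx).deriv
    rw [hd1.deriv_eq, hd1.eq_of_nhds, hev.eq_of_nhds, (rs_b hf _ hs0).deriv]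
    unfold rs1
    have hu : 0 < √s := Real.sqrt_pos.2 hs0
    have hsu : s = √s ^ 2 := (Real.sq_sqrt hs0.le).symm
    rw [Real.rpow_sub_one hs0.ne', Real.rpow_sub_one hs0.ne']
    generalize hX : s ^ (-((D : ℝ) - 1) / 4) = X
    generalize √s = u at hu hsu ⊢
    subst hsu
    generalize f u = F
    generalize f' u = F1
    generalize v u = V
    have hu0 : (u : ℂ) ≠ 0 := Complex.ofReal_ne_zero.2 hu.ne'
    simp only [Complex.real_smul, lam]
    push_cast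
    field_simp
    ring

/-- `rad` does not vanish near `0`. -/
theorem rad_zero : rad D z f 0 = 1 := by
  unfold rad
  rw [if_pos zero_le_one, Complex.ofReal_zero, mul_zero, phi_zero]

end Pool.Agent.Lib.MP_c84763_mp
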