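import Mathlib
import Pool.Agent.Lib.MP_c84763_mp.RadSmooth
import Pool.Agent.Lib.MP_c84763_mp.Laplace2

/-! # The eigenfunctions are square integrable -/

open Set Filter Topology MeasureTheory

namespace Pool.Agent.Lib.MP_c84763_mp

variable {d : ℕ}

/-- Homogeneity and compactness of the unit sphere (or a sum over the monomials). -/
theorem ev_bound {l : ℕ} {P : MvPolynomial (Fin d) ℂ} (hP : P.IsHomogeneous l) :
    ∃ C : ℝ, 0 ≤ C ∧ ∀ x : Sp d, ‖ev P x‖ ≤ C * ‖x‖ ^ l := by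
  refine ⟨∑ m ∈ P.support, ‖P.coeff m‖, Finset.sum_nonneg fun _ _ => norm_nonneg _, fun x => ?_⟩
  rw [ev, MvPolynomial.eval_eq', Finset.sum_mul]
  refine (norm_sum_le _ _).trans (Finset.sum_le_sum fun m hm => ?_)
  rw [norm_mul, norm_prod]
  refine mul_le_mul_of_nonneg_left ?_ (norm_nonneg _)
  have hdeg : ∑ i, m i = l := by
    by_contra hne
    refine (MvPolynomial.mem_support_iff.1 hm) (hP.coeff_eq_zero ?_)
    rw [Finsupp.degree_eq_sum]
    exact hne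
  calc ∏ i, ‖((x i : ℝ) : ℂ) ^ m i‖ ≤ ∏ i, ‖x‖ ^ m i := by
        refine Finset.prod_le_prod (fun _ _ => norm_nonneg _) fun i _ => ?_
        rw [norm_pow, Complex.norm_real]
        exact pow_le_pow_left₀ (norm_nonneg _) (PiLp.norm_apply_le x i) _
    _ = ‖x‖ ^ l := by rw [Finset.prod_pow_eq_pow_sum, hdeg]

/-- Integrability of a radial function outside the unit ball (`integrable_fun_norm_addHaar`). -/
theorem radial_integrable (hd : 1 ≤ d) {F : ℝ → ℝ} (hF : IntegrableOn F (Ioi 1)) :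
    Integrable (fun x : Sp d => (Ioi (1 : ℝ)).indicator (fun r => F r * (r ^ (d - 1))⁻¹) ‖x‖)
      volume := by
  have : Nonempty (Fin d) := ⟨⟨0, hd⟩⟩
  rw [integrable_fun_norm_addHaar volume]
  have h1 : Integrable ((Ioi (1 : ℝ)).indicator F) := (integrable_indicator_iff measurableSet_Ioi).2 hF
  refine (h1.integrableOn (s := Ioi 0)).congr_fun ?_ measurableSet_Ioi
  intro r hr
  simp only [smul_eq_mul, finrank_euclideanSpace_fin]
  by_cases h : r ∈ Ioi (1 : ℝ)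
  · rw [indicator_of_mem h, indicator_of_mem h]
    have : r ^ (d - 1) ≠ 0 := pow_ne_zero _ (ne_of_gt hr)
    field_simp
  · rw [indicator_of_notMem h, indicator_of_notMem h, mul_zero]

private theorem L2_pow {r : ℝ} (hr : 0 < r) (hd : 1 ≤ d) (l : ℕ) :
    ((r ^ 2) ^ (-(((d + 2 * l : ℕ) : ℝ) - 1) / 4)) ^ 2 * (r ^ l) ^ 2 = (r ^ (d - 1))⁻¹ := by
  have h1 : (r ^ 2) ^ (-(((d + 2 * l : ℕ) : ℝ) - 1) / 4) =
      r ^ (2 * (-(((d + 2 * l : ℕ) : ℝ) - 1) / 4)) := by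
    rw [Real.rpow_mul hr.le, Real.rpow_two]
  rw [h1, ← Real.rpow_natCast (r ^ _) 2, ← Real.rpow_mul hr.le, ← pow_mul,
    ← Real.rpow_natCast r (l * 2), ← Real.rpow_add hr, ← Real.rpow_natCast r (d - 1),
    ← Real.rpow_neg hr.le]
  congr 1
  push_cast [Nat.cast_sub hd]
  ring

/-- For `‖x‖ > 1`: `‖u x‖² ≤ C² ‖f ‖x‖‖² ‖x‖^(-(d-1))`. -/
theorem eigFun_memLp (hd : 1 ≤ d) {c : ℝ} {v : ℝ → ℂ} {z : ℂ} {l : ℕ} {f f' : ℝ → ℂ}
    (hv : Continuous v) (hf : IsGlobal (d + 2 * l) c v z f f') {P : MvPolynomial (Fin d) ℂ}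
    (hP : P.IsHomogeneous l) : MemLp (eigFun d l z f P) 2 volume := by
  obtain ⟨C, hC, hPC⟩ := ev_bound hP
  have hcont : Continuous (eigFun d l z f P) :=
    (radial_contDiff (fun s => rad_contDiff (by omega) hv hf s) P).continuous
  rw [memLp_two_iff_integrable_sq_norm hcont.aestronglyMeasurable]
  obtain ⟨M, hM⟩ := (isCompact_closedBall (0 : Sp d) 1).exists_bound_of_continuousOn
    hcont.continuousOn
  have h1 := radial_integrable hd (F := fun r => C ^ 2 * ‖f r‖ ^ 2) (hf.l2.const_mul _)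
  have h2 : Integrable (fun x : Sp d => (Metric.closedBall (0 : Sp d) 1).indicator
      (fun _ => M ^ 2) x) volume := by
    rw [integrable_indicator_iff measurableSet_closedBall]
    exact integrableOn_const (measure_closedBall_lt_top).ne
  refine (h1.add h2).mono' (hcont.norm.pow 2).aestronglyMeasurable (Eventually.of_forall fun x => ?_)
  rw [Pi.add_apply, Real.norm_of_nonneg (by positivity)]
  by_cases hx : 1 < ‖x‖
  · have hx0 : (0 : ℝ) < ‖x‖ := by linarith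
    rw [indicator_of_mem (show ‖x‖ ∈ Ioi (1 : ℝ) from hx), indicator_of_notMem
      (show x ∉ Metric.closedBall (0 : Sp d) 1 by simpa using hx), add_zero]
    have h3 : ‖eigFun d l z f P x‖ =
        (‖x‖ ^ 2) ^ (-(((d + 2 * l : ℕ) : ℝ) - 1) / 4) * ‖f ‖x‖‖ * ‖ev P x‖ := by
      rw [eigFun, rad_eq hf (by positivity), norm_mul, norm_mul, Complex.norm_real,
        Real.norm_of_nonneg (by positivity), Real.sqrt_sq hx0.le]
    rw [h3]
    calc ((‖x‖ ^ 2) ^ (-(((d + 2 * l : ℕ) : ℝ) - 1) / 4) * ‖f ‖x‖‖ * ‖ev P x‖) ^ 2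
        ≤ ((‖x‖ ^ 2) ^ (-(((d + 2 * l : ℕ) : ℝ) - 1) / 4) * ‖f ‖x‖‖ * (C * ‖x‖ ^ l)) ^ 2 := by
          have := hPC x
          gcongr
      _ = C ^ 2 * ‖f ‖x‖‖ ^ 2 *
          (((‖x‖ ^ 2) ^ (-(((d + 2 * l : ℕ) : ℝ) - 1) / 4)) ^ 2 * (‖x‖ ^ l) ^ 2) := by ring
      _ = C ^ 2 * ‖f ‖x‖‖ ^ 2 * (‖x‖ ^ (d - 1))⁻¹ := by rw [L2_pow hx0 hd]
      _ ≤ _ := le_rfl
  · have hx' : x ∈ Metric.closedBall (0 : Sp d) 1 := by simpa using not_lt.1 hx
    rw [indicator_of_notMem (show ‖x‖ ∉ Ioi (1 : ℝ) from hx), indicator_of_mem hx', zero_add]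
    exact pow_le_pow_left₀ (norm_nonneg _) (hM x hx') 2

end Pool.Agent.Lib.MP_c84763_mp
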