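import Mathlib
import Pool.Agent.Lib.MP_c84763_mp.L2

/-! # The eigenfunctions -/

open Set Filter Topology MeasureTheory

namespace Pool.Agent.Lib.MP_c84763_mp

variable {d : ℕ}

theorem eigFun_contDiff (hd : 1 ≤ d) {c : ℝ} {v : ℝ → ℂ} {z : ℂ} {l : ℕ} {f f' : ℝ → ℂ}
    (hv : Continuous v) (hf : IsGlobal (d + 2 * l) c v z f f') (P : MvPolynomial (Fin d) ℂ) :
    ContDiff ℝ 2 (eigFun d l z f P) :=
  radial_contDiff (rad_contDiff (by omega) hv hf) P

/-- `radial_laplacian` and `rad_ode`. -/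
theorem eigFun_laplacian (hd : 1 ≤ d) {c : ℝ} {v : ℝ → ℂ} {z : ℂ} {l : ℕ} {f f' : ℝ → ℂ}
    (hv : Continuous v) (hv0 : ∀ r, r ≤ 1 → v r = 0) (hf : IsGlobal (d + 2 * l) c v z f f')
    {P : MvPolynomial (Fin d) ℂ} (hP : IsHarm l P) (x : Sp d) :
    Laplacian.laplacian (eigFun d l z f P) x = ((c : ℂ) * v ‖x‖ - z) * eigFun d l z f P x := by
  have h1 := radial_laplacian (rad_contDiff (D := d + 2 * l) (by omega) hv hf) hP x
  have h2 := rad_ode (D := d + 2 * l) (by omega) hv hv0 hf (s := ‖x‖ ^ 2) (by positivity)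
  rw [Real.sqrt_sq (norm_nonneg x)] at h2
  have e : (eigFun d l z f P) =
      fun x : Sp d => rad (d + 2 * l) z f (‖x‖ ^ 2) * ev P x := rfl
  rw [e, h1, h2]
  ring

theorem eigFun_isEigenfunction (hd : 1 ≤ d) {c hbar : ℝ} (hb : 0 < hbar)
    (hc : c = 1 / hbar ^ 2) {v : ℝ → ℂ} {z : ℂ} (hz : 0 < z.im) {l : ℕ} {f f' : ℝ → ℂ}
    (hv : Continuous v) (hv0 : ∀ r, r ≤ 1 → v r = 0) (hf : IsGlobal (d + 2 * l) c v z f f')
    {P : MvPolynomial (Fin d) ℂ} (hP : IsHarm l P) :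
    IsEigenfunction (fun x : Sp d => v ‖x‖) hbar (z / c) (eigFun d l z f P) := by
  have hc0 : 0 < c := by
    rw [hc]
    positivity
  refine ⟨?_, eigFun_contDiff hd hv hf P, eigFun_memLp hd hv hf hP.hom, ?_⟩
  · rintro ⟨-, h⟩
    rw [Complex.div_ofReal_im] at h
    have : 0 < z.im / c := by positivity
    linarith
  · intro x
    rw [eigFun_laplacian hd hv hv0 hf hP x]
    have h1 : (hbar : ℂ) ^ 2 * (c : ℂ) = 1 := by
      have h2 : hbar ^ 2 * c = 1 := by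
        rw [hc]
        field_simp
      exact_mod_cast h2
    have hc1 : (c : ℂ) ≠ 0 := Complex.ofReal_ne_zero.2 hc0.ne'
    have h3 : z / (c : ℂ) = (hbar : ℂ) ^ 2 * z := by
      rw [div_eq_iff hc1]
      linear_combination (-z) * h1
    rw [h3]
    linear_combination (-(v ‖x‖ * eigFun d l z f P x)) * h1

end Pool.Agent.Lib.MP_c84763_mp
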