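import Mathlib
import Pool.Agent.Lib.MP_c84763_mp.Basic

/-! # Polynomials are determined by their values on `ℝ^d` -/

namespace Pool.Agent.Lib.MP_c84763_mp

variable {d : ℕ}

theorem ev_add (P Q : MvPolynomial (Fin d) ℂ) (x : Sp d) : ev (P + Q) x = ev P x + ev Q x := by
  simp [ev]

theorem ev_smul (a : ℂ) (P : MvPolynomial (Fin d) ℂ) (x : Sp d) : ev (a • P) x = a * ev P x := by
  simp [ev]

theorem ev_sum {ι : Type*} (s : Finset ι) (P : ι → MvPolynomial (Fin d) ℂ) (x : Sp d) :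
    ev (∑ i ∈ s, P i) x = ∑ i ∈ s, ev (P i) x := by
  simp [ev]

theorem ev_scale {l : ℕ} {P : MvPolynomial (Fin d) ℂ} (hP : P.IsHomogeneous l) (t : ℝ)
    (x : Sp d) : ev P (t • x) = (t : ℂ) ^ l * ev P x := by
  rw [ev, ev, MvPolynomial.eval_eq, MvPolynomial.eval_eq, Finset.mul_sum]
  apply Finset.sum_congr rfl
  intro m hm
  have hdeg : ∑ i ∈ m.support, m i = l := by
    have h := hP (MvPolynomial.mem_support_iff.1 hm)
    have h2 : Finsupp.degree m = l := by
      rw [Finsupp.degree_eq_weight_one (R := ℕ)]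
      exact h
    exact h2
  have hprod : ∏ i ∈ m.support, (((t • x) i : ℝ) : ℂ) ^ m i =
      (t : ℂ) ^ l * ∏ i ∈ m.support, ((x i : ℝ) : ℂ) ^ m i := by
    rw [← hdeg, ← Finset.prod_pow_eq_pow_sum, ← Finset.prod_mul_distrib]
    apply Finset.prod_congr rfl
    intro i _
    rw [PiLp.smul_apply, smul_eq_mul, Complex.ofReal_mul, mul_pow]
  rw [hprod]
  ring

theorem ev_eq_zero {P : MvPolynomial (Fin d) ℂ} (h : ∀ x : Sp d, ev P x = 0) : P = 0 := by
  apply MvPolynomial.funext_set (fun _ => Set.range (fun r : ℝ => (r : ℂ)))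
  · intro _
    exact Set.infinite_range_of_injective Complex.ofReal_injective
  · intro y hy
    have hy' : ∀ i, ∃ r : ℝ, (r : ℂ) = y i := fun i => hy i (Set.mem_univ i)
    choose x hx using hy'
    have h1 := h (WithLp.toLp 2 x)
    rw [ev] at h1
    rw [map_zero, ← h1]
    congr 2
    funext i
    exact (hx i).symm

theorem isHarm_sum {l : ℕ} {ι : Type*} (s : Finset ι) (a : ι → ℂ)
    (P : ι → MvPolynomial (Fin d) ℂ) (hP : ∀ i ∈ s, IsHarm l (P i)) :
    IsHarm l (∑ i ∈ s, a i • P i) := by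
  refine ⟨?_, ?_⟩
  · have h : ∑ i ∈ s, a i • P i ∈ MvPolynomial.homogeneousSubmodule (Fin d) ℂ l :=
      Submodule.sum_mem _ fun i hi => Submodule.smul_mem _ _ ((hP i hi).hom)
    exact h
  · simp only [map_sum, Derivation.map_smul]
    rw [Finset.sum_comm]
    apply Finset.sum_eq_zero
    intro j hj
    rw [← Finset.smul_sum, (hP j hj).harm, smul_zero]

end Pool.Agent.Lib.MP_c84763_mp
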