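import Mathlib
import Pool.Agent.Lib.MP_c84763_mp.Basic

/-! # Many harmonic polynomials

For a homogeneous polynomial `p` of degree `l` in the variables `x_1, ..., x_(d-1)`,
`Σ_j (-1)^j x_0^(2j)/(2j)! Δ'^j p` is harmonic, homogeneous of degree `l`, and its restriction to
`x_0 = 0` is `p`; there are `binom(l+d-2, d-2)` monomials `p`.  (Or: rank-nullity for
`Δ : P_l → P_(l-2)` and `dim P_l - dim P_(l-1) = binom(l+d-2, d-2)`.) -/

namespace Pool.Agent.Lib.MP_c84763_mp

private theorem finrank_hom (d l : ℕ) :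
    Module.finrank ℂ (MvPolynomial.homogeneousSubmodule (Fin d) ℂ l) =
      Nat.choose (d + l - 1) l := by
  have hs : {e : Fin d →₀ ℕ | e.degree = l} =
      (((Finset.univ : Finset (Fin d)).finsuppAntidiag l : Finset (Fin d →₀ ℕ)) :
        Set (Fin d →₀ ℕ)) := by
    ext e
    rw [Finset.mem_coe, Finset.mem_finsuppAntidiag, Set.mem_ofPred_eq, Finsupp.degree_eq_sum]
    simp
  rw [MvPolynomial.homogeneousSubmodule_eq_finsupp_supported, hs]
  rw [LinearEquiv.finrank_eq (AddMonoidAlgebra.supportedEquivFinsupp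
    (((Finset.univ : Finset (Fin d)).finsuppAntidiag l : Finset (Fin d →₀ ℕ)) :
      Set (Fin d →₀ ℕ)))]
  rw [Module.finrank_finsupp_self]
  have hc : Fintype.card (((Finset.univ : Finset (Fin d)).finsuppAntidiag l :
      Finset (Fin d →₀ ℕ)) : Set (Fin d →₀ ℕ)) =
      ((Finset.univ : Finset (Fin d)).finsuppAntidiag l).card := by simp
  rw [hc, Finset.card_finsuppAntidiag_nat_eq_choose, Finset.card_univ, Fintype.card_fin]

private noncomputable def lap (d : ℕ) : MvPolynomial (Fin d) ℂ →ₗ[ℂ] MvPolynomial (Fin d) ℂ :=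
  ∑ i, (MvPolynomial.pderiv i : Derivation ℂ (MvPolynomial (Fin d) ℂ)
    (MvPolynomial (Fin d) ℂ)).toLinearMap.comp (MvPolynomial.pderiv i).toLinearMap

private theorem lap_apply (d : ℕ) (p : MvPolynomial (Fin d) ℂ) :
    lap d p = ∑ i, MvPolynomial.pderiv i (MvPolynomial.pderiv i p) := by
  rw [lap, LinearMap.sum_apply]
  rfl

private theorem lap_hom {d l : ℕ} {p : MvPolynomial (Fin d) ℂ} (hp : p.IsHomogeneous l) :
    (lap d p).IsHomogeneous (l - 1 - 1) := by
  rw [lap_apply]
  exact MvPolynomial.IsHomogeneous.sum _ _ _ fun i _ => hp.pderiv.pderiv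

private theorem lap_zero {d l : ℕ} {p : MvPolynomial (Fin d) ℂ} (hp : p.IsHomogeneous l)
    (hl : l ≤ 1) : lap d p = 0 := by
  rw [lap_apply]
  refine Finset.sum_eq_zero fun i _ => ?_
  have h1 : (MvPolynomial.pderiv i p).IsHomogeneous 0 := by
    have := hp.pderiv (i := i)
    have h2 : l - 1 = 0 := by omega
    rwa [h2] at this
  rw [← MvPolynomial.totalDegree_zero_iff_isHomogeneous,
    MvPolynomial.totalDegree_eq_zero_iff_eq_C] at h1
  rw [h1, MvPolynomial.pderiv_C]

private theorem choose_ineq (d l : ℕ) (hd : 2 ≤ d) :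
    Nat.choose (l + d - 2) (d - 2) + Nat.choose (d + l - 1) l ≤
      Nat.choose (d + (l + 2) - 1) (l + 2) ∧
    Nat.choose (l + 2 + d - 2) (d - 2) + Nat.choose (d + l - 1) l ≤
      Nat.choose (d + (l + 2) - 1) (l + 2) := by
  obtain ⟨e, rfl⟩ : ∃ e, d = e + 2 := ⟨d - 2, by omega⟩
  have a1 : l + (e + 2) - 2 = l + e := by omega
  have a2 : e + 2 - 2 = e := by omega
  have a3 : e + 2 + l - 1 = (e + l) + 1 := by omega
  have a4 : e + 2 + (l + 2) - 1 = (e + l + 1 + 1) + 1 := by omega
  have a5 : l + 2 + (e + 2) - 2 = e + l + 1 + 1 := by omega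
  rw [a1, a2, a3, a4, a5]
  have b1 : Nat.choose (e + l + 1 + 1 + 1) (l + 2) =
      Nat.choose (e + l + 1 + 1) (l + 1) + Nat.choose (e + l + 1 + 1) (l + 2) :=
    Nat.choose_succ_succ _ _
  have b2 : Nat.choose (e + l + 1 + 1) (l + 1) =
      Nat.choose (e + l + 1) l + Nat.choose (e + l + 1) (l + 1) :=
    Nat.choose_succ_succ _ _
  have b3 : Nat.choose (e + l + 1 + 1) e = Nat.choose (e + l + 1 + 1) (l + 2) :=
    Nat.choose_symm_of_eq_add (by omega)
  have b4 : Nat.choose (l + e) e ≤ Nat.choose (e + l + 1 + 1) e :=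
    Nat.choose_le_choose _ (by omega)
  omega

private theorem finrank_ker (d l : ℕ) (hd : 2 ≤ d) :
    Nat.choose (l + d - 2) (d - 2) ≤ Module.finrank ℂ (LinearMap.ker
      ((lap d).domRestrict (MvPolynomial.homogeneousSubmodule (Fin d) ℂ l))) := by
  have : Module.Finite ℂ (MvPolynomial.homogeneousSubmodule (Fin d) ℂ l) :=
    Module.Finite.iff_fg.2 (MvPolynomial.homogeneousSubmodule_fg _ _ l)
  have hrk := LinearMap.finrank_range_add_finrank_ker
    ((lap d).domRestrict (MvPolynomial.homogeneousSubmodule (Fin d) ℂ l))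
  rw [finrank_hom] at hrk
  rcases Nat.lt_or_ge l 2 with hl | hl
  · have h0 : LinearMap.range ((lap d).domRestrict
        (MvPolynomial.homogeneousSubmodule (Fin d) ℂ l)) = ⊥ := by
      rw [LinearMap.range_eq_bot]
      ext1 p
      rw [LinearMap.domRestrict_apply, LinearMap.zero_apply]
      exact lap_zero p.2 (by omega)
    rw [h0, finrank_bot, zero_add] at hrk
    rw [hrk]
    obtain ⟨e, rfl⟩ : ∃ e, d = e + 2 := ⟨d - 2, by omega⟩
    have a1 : l + (e + 2) - 2 = l + e := by omega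
    have a2 : e + 2 - 2 = e := by omega
    have a3 : e + 2 + l - 1 = l + e + 1 := by omega
    rw [a1, a2, a3]
    have b3 : Nat.choose (l + e) e = Nat.choose (l + e) l :=
      Nat.choose_symm_of_eq_add (by omega)
    rw [b3]
    exact Nat.choose_le_choose _ (by omega)
  · obtain ⟨k, rfl⟩ : ∃ k, l = k + 2 := ⟨l - 2, by omega⟩
    have : Module.Finite ℂ (MvPolynomial.homogeneousSubmodule (Fin d) ℂ k) :=
      Module.Finite.iff_fg.2 (MvPolynomial.homogeneousSubmodule_fg _ _ k)
    have h1 : LinearMap.range ((lap d).domRestrict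
        (MvPolynomial.homogeneousSubmodule (Fin d) ℂ (k + 2))) ≤
        MvPolynomial.homogeneousSubmodule (Fin d) ℂ k := by
      rintro _ ⟨p, rfl⟩
      rw [LinearMap.domRestrict_apply]
      exact lap_hom p.2
    have h2 := Submodule.finrank_mono h1
    rw [finrank_hom] at h2
    have h3 := (choose_ineq d k hd).2
    omega

private theorem li_sub {V : Type*} [AddCommMonoid V] [Module ℂ V] (p : Submodule ℂ V) {n : ℕ}
    {f : Fin n → p} (hf : LinearIndependent ℂ f) : LinearIndependent ℂ (fun j => (f j : V)) :=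
  hf.map_injOn p.subtype p.injective_subtype.injOn

theorem exists_harm (d l : ℕ) (hd : 2 ≤ d) :
    ∃ H : Fin (Nat.choose (l + d - 2) (d - 2)) → MvPolynomial (Fin d) ℂ,
      LinearIndependent ℂ H ∧ ∀ j, IsHarm l (H j) := by
  have : Module.Finite ℂ (MvPolynomial.homogeneousSubmodule (Fin d) ℂ l) :=
    Module.Finite.iff_fg.2 (MvPolynomial.homogeneousSubmodule_fg _ _ l)
  obtain ⟨f, hf⟩ := exists_linearIndependent_of_le_finrank (finrank_ker d l hd)
  refine ⟨fun j => ((f j).1 : MvPolynomial.homogeneousSubmodule (Fin d) ℂ l).1, ?_, ?_⟩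
  · exact li_sub (MvPolynomial.homogeneousSubmodule (Fin d) ℂ l) (li_sub _ hf)
  · intro j
    refine ⟨(f j).1.2, ?_⟩
    have h1 := LinearMap.mem_ker.1 (f j).2
    rw [LinearMap.domRestrict_apply, lap_apply] at h1
    exact h1

end Pool.Agent.Lib.MP_c84763_mp
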