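import Mathlib
import Pool.Agent.Lib.MP_c84763_mp.EvInj
import Pool.Agent.Lib.MP_c84763_mp.RadSmooth

/-! # Separation of eigenvalues and of degrees -/

open Set Filter Topology MeasureTheory

namespace Pool.Agent.Lib.MP_c84763_mp

variable {d : ℕ}

private theorem lap_sum {T : Type*} [DecidableEq T] {U : T → Sp d → ℂ}
    (hU : ∀ τ, ContDiff ℝ 2 (U τ)) (c : T → ℂ) (s : Finset T) (x : Sp d) :
    Laplacian.laplacian (fun x => ∑ τ ∈ s, c τ * U τ x) x =
      ∑ τ ∈ s, c τ * Laplacian.laplacian (U τ) x := by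
  induction s using Finset.induction_on with
  | empty =>
    simp only [Finset.sum_empty]
    have := InnerProductSpace.laplacian_const (E := Sp d) (c := (0 : ℂ))
    exact congrFun this x
  | insert a s ha ih =>
    have h1 : (fun x => ∑ τ ∈ insert a s, c τ * U τ x) =
        (c a • U a) + fun x => ∑ τ ∈ s, c τ * U τ x := by
      funext y
      rw [Finset.sum_insert ha]
      simp
    have h2 : ContDiffAt ℝ 2 (c a • U a) x := ((hU a).const_smul (c a)).contDiffAt
    have h3 : ContDiffAt ℝ 2 (fun x => ∑ τ ∈ s, c τ * U τ x) x :=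
      (ContDiff.sum fun τ _ => contDiff_const.mul (hU τ)).contDiffAt
    rw [h1, h2.laplacian_add h3, ih, Finset.sum_insert ha,
      InnerProductSpace.laplacian_smul (c a) (hU a).contDiffAt]
    rfl

/-- Induction on the finite set of values of `μ`: apply `Δ` to `Σ U = 0` and subtract
`μ₀ Σ U = 0`. (`w` is the potential `c v(|x|)`.) -/
theorem eigen_sep {T : Type*} [Fintype T] [DecidableEq T] {w : Sp d → ℂ} {μ : T → ℂ}
    {U : T → Sp d → ℂ} (hU : ∀ τ, ContDiff ℝ 2 (U τ))
    (hL : ∀ τ x, Laplacian.laplacian (U τ) x = (w x - μ τ) * U τ x)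
    (h0 : ∀ x, ∑ τ, U τ x = 0) (ν : ℂ) (x : Sp d) :
    ∑ τ ∈ Finset.univ.filter (fun τ => μ τ = ν), U τ x = 0 := by
  classical
  have hpow : ∀ n : ℕ, ∀ x, ∑ τ, μ τ ^ n * U τ x = 0 := by
    intro n
    induction n with
    | zero => intro x; simpa using h0 x
    | succ n ih =>
      intro x
      have h1 : (fun x => ∑ τ, μ τ ^ n * U τ x) = fun _ => (0 : ℂ) := funext ih
      have h2 := lap_sum hU (fun τ => μ τ ^ n) Finset.univ x
      rw [h1] at h2
      have h3 : Laplacian.laplacian (fun _ : Sp d => (0 : ℂ)) x = 0 :=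
        congrFun (InnerProductSpace.laplacian_const (E := Sp d) (c := (0 : ℂ))) x
      rw [h3] at h2
      have h4 : ∑ τ, μ τ ^ n * Laplacian.laplacian (U τ) x =
          w x * (∑ τ, μ τ ^ n * U τ x) - ∑ τ, μ τ ^ (n + 1) * U τ x := by
        rw [Finset.mul_sum, ← Finset.sum_sub_distrib]
        refine Finset.sum_congr rfl fun τ _ => ?_
        rw [hL]
        ring
      rw [h4, ih x] at h2
      linear_combination h2
  have hpoly : ∀ p : Polynomial ℂ, ∑ τ, p.eval (μ τ) * U τ x = 0 := by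
    intro p
    have h1 : ∀ τ, p.eval (μ τ) * U τ x =
        ∑ n ∈ Finset.range (p.natDegree + 1), p.coeff n * (μ τ ^ n * U τ x) := by
      intro τ
      rw [Polynomial.eval_eq_sum_range, Finset.sum_mul]
      refine Finset.sum_congr rfl fun n _ => ?_
      ring
    rw [Finset.sum_congr rfl fun τ _ => h1 τ, Finset.sum_comm]
    refine Finset.sum_eq_zero fun n _ => ?_
    rw [← Finset.mul_sum, hpow n x, mul_zero]
  set p : Polynomial ℂ := ∏ m ∈ (Finset.univ.image μ).erase ν, (Polynomial.X - Polynomial.C m)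
    with hp
  have hp1 : p.eval ν ≠ 0 := by
    rw [hp, Polynomial.eval_prod]
    refine Finset.prod_ne_zero_iff.2 fun m hm => ?_
    rw [Polynomial.eval_sub, Polynomial.eval_X, Polynomial.eval_C]
    exact sub_ne_zero.2 (Finset.ne_of_mem_erase hm).symm
  have hp2 : ∀ τ, μ τ ≠ ν → p.eval (μ τ) = 0 := by
    intro τ hτ
    rw [hp, Polynomial.eval_prod]
    refine Finset.prod_eq_zero (i := μ τ)
      (Finset.mem_erase.2 ⟨hτ, Finset.mem_image_of_mem μ (Finset.mem_univ τ)⟩) ?_
    simp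
  have h1 := hpoly p
  have h2 : ∑ τ, p.eval (μ τ) * U τ x =
      p.eval ν * ∑ τ ∈ Finset.univ.filter (fun τ => μ τ = ν), U τ x := by
    rw [Finset.mul_sum, Finset.sum_filter]
    refine Finset.sum_congr rfl fun τ _ => ?_
    split_ifs with h
    · rw [h]
    · rw [hp2 τ h, zero_mul]
  rw [h2] at h1
  exact (mul_eq_zero.1 h1).resolve_left hp1

/-- If `Σ_{τ ∈ s} g_τ(|x|²) P_τ(x) = 0` with `g_τ` continuous at `0`, `g_τ(0) = 1` and `P_τ`
homogeneous of pairwise distinct degrees, then all `P_τ = 0`: replace `x` by `t x`, divide by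
`t^(smallest degree)`, let `t → 0`. -/
theorem degree_sep {T : Type*} [DecidableEq T] (s : Finset T) {g : T → ℝ → ℂ} {l : T → ℕ}
    {P : T → MvPolynomial (Fin d) ℂ} (hg : ∀ τ ∈ s, ContinuousAt (g τ) 0)
    (hg0 : ∀ τ ∈ s, g τ 0 = 1) (hP : ∀ τ ∈ s, (P τ).IsHomogeneous (l τ))
    (hl : ∀ τ ∈ s, ∀ τ' ∈ s, l τ = l τ' → τ = τ')
    (h0 : ∀ x : Sp d, ∑ τ ∈ s, g τ (‖x‖ ^ 2) * ev (P τ) x = 0) : ∀ τ ∈ s, P τ = 0 := by
  induction s using Finset.strongInduction with
  | H s ih =>
    intro τ hτ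
    obtain ⟨τ0, hτ0, hmin⟩ := s.exists_min_image l ⟨τ, hτ⟩
    have hz : P τ0 = 0 := by
      apply ev_eq_zero
      intro x
      have hlim : Tendsto (fun t : ℝ => ∑ τ ∈ s, g τ (‖t • x‖ ^ 2) *
          ((t : ℂ) ^ (l τ - l τ0) * ev (P τ) x)) (𝓝[>] 0)
          (𝓝 (∑ τ ∈ s, 1 * (((0 : ℝ) : ℂ) ^ (l τ - l τ0) * ev (P τ) x))) := by
        refine tendsto_finsetSum _ fun τ hτ => ?_
        refine Tendsto.mul ?_ (Tendsto.mul_const _ ?_)
        · have h1 : Tendsto (fun t : ℝ => ‖t • x‖ ^ 2) (𝓝[>] 0) (𝓝 0) := by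
            have h2 : Continuous fun t : ℝ => ‖t • x‖ ^ 2 := by fun_prop
            have h3 := (h2.tendsto 0).mono_left (nhdsWithin_le_nhds (s := Ioi 0))
            simpa using h3
          have h4 := (hg τ hτ).tendsto.comp h1
          rw [hg0 τ hτ] at h4
          exact h4
        · have h2 : Continuous fun t : ℝ => (t : ℂ) ^ (l τ - l τ0) := by fun_prop
          exact (h2.tendsto 0).mono_left nhdsWithin_le_nhds
      have hev : ∀ᶠ t : ℝ in 𝓝[>] 0, ∑ τ ∈ s, g τ (‖t • x‖ ^ 2) *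
          ((t : ℂ) ^ (l τ - l τ0) * ev (P τ) x) = 0 := by
        filter_upwards [self_mem_nhdsWithin] with t ht
        have ht0 : (t : ℂ) ≠ 0 := Complex.ofReal_ne_zero.2 (ne_of_gt ht)
        have h1 := h0 (t • x)
        have h2 : ∑ τ ∈ s, g τ (‖t • x‖ ^ 2) * ev (P τ) (t • x) = (t : ℂ) ^ (l τ0) *
            ∑ τ ∈ s, g τ (‖t • x‖ ^ 2) * ((t : ℂ) ^ (l τ - l τ0) * ev (P τ) x) := by
          rw [Finset.mul_sum]
          refine Finset.sum_congr rfl fun τ hτ => ?_
          rw [ev_scale (hP τ hτ)]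
          have h3 : (t : ℂ) ^ (l τ) = (t : ℂ) ^ (l τ0) * (t : ℂ) ^ (l τ - l τ0) := by
            rw [← pow_add, Nat.add_sub_cancel' (hmin τ hτ)]
          rw [h3]
          ring
        rw [h2] at h1
        exact (mul_eq_zero.1 h1).resolve_left (pow_ne_zero _ ht0)
      have h1 : ∑ τ ∈ s, 1 * (((0 : ℝ) : ℂ) ^ (l τ - l τ0) * ev (P τ) x) = 0 := by
        refine tendsto_nhds_unique hlim ?_
        exact tendsto_const_nhds.congr' (hev.mono fun t ht => ht.symm)
      rw [Finset.sum_eq_single τ0] at h1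
      · simpa using h1
      · intro τ hτ hne
        have h2 : l τ - l τ0 ≠ 0 := by
          have h3 := hmin τ hτ
          have h4 : l τ ≠ l τ0 := fun h => hne (hl τ hτ τ0 hτ0 h)
          omega
        rw [Complex.ofReal_zero, zero_pow h2]
        ring
      · exact fun h => absurd hτ0 h
    by_cases h : τ = τ0
    · rw [h]
      exact hz
    · refine ih (s.erase τ0) (Finset.erase_ssubset hτ0)
        (fun τ hτ => hg τ (Finset.mem_of_mem_erase hτ))
        (fun τ hτ => hg0 τ (Finset.mem_of_mem_erase hτ))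
        (fun τ hτ => hP τ (Finset.mem_of_mem_erase hτ))
        (fun τ hτ τ' hτ' => hl τ (Finset.mem_of_mem_erase hτ) τ' (Finset.mem_of_mem_erase hτ'))
        (fun x => ?_) τ (Finset.mem_erase.2 ⟨h, hτ⟩)
      have h1 := h0 x
      rw [← Finset.add_sum_erase s _ hτ0, hz] at h1
      simpa [ev] using h1

end Pool.Agent.Lib.MP_c84763_mp
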