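import Mathlib
import Pool.Agent.Lib.MP_c84763_mp.Sep
import Pool.Agent.Lib.MP_c84763_mp.Eigen

/-! # Linear independence of the eigenfunctions -/

open Set Filter Topology MeasureTheory

namespace Pool.Agent.Lib.MP_c84763_mp

variable {d : ℕ}

/-- Given a relation with coefficients `a (τ,j)`, put `P τ = Σ_j a (τ,j) H_j`,
`U τ = eigFun (P τ)`; `eigen_sep` (with `eigFun_laplacian`) and `degree_sep` give `P τ = 0`. -/
theorem indep (hd : 1 ≤ d) {c : ℝ} {v : ℝ → ℂ} (hv : Continuous v)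
    (hv0 : ∀ r, r ≤ 1 → v r = 0) {T : Type} [Fintype T] [DecidableEq T] (l : T → ℕ) (z : T → ℂ)
    (f f' : T → ℝ → ℂ) (hf : ∀ τ, IsGlobal (d + 2 * l τ) c v (z τ) (f τ) (f' τ))
    (hinj : ∀ τ τ', l τ = l τ' → z τ = z τ' → τ = τ') (m : ℕ → ℕ)
    (H : ∀ l : ℕ, Fin (m l) → MvPolynomial (Fin d) ℂ) (hH : ∀ l, LinearIndependent ℂ (H l))
    (hharm : ∀ l j, IsHarm l (H l j)) :
    LinearIndependent ℂ (fun i : (τ : T) × Fin (m (l τ)) =>
      eigFun d (l i.1) (z i.1) (f i.1) (H (l i.1) i.2)) := by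
  rw [Fintype.linearIndependent_iff]
  intro a ha
  set P : T → MvPolynomial (Fin d) ℂ := fun τ => ∑ j, a ⟨τ, j⟩ • H (l τ) j with hPdef
  have hPharm : ∀ τ, IsHarm (l τ) (P τ) := fun τ =>
    isHarm_sum Finset.univ (fun j => a ⟨τ, j⟩) (fun j => H (l τ) j) (fun j _ => hharm (l τ) j)
  have h0 : ∀ x : Sp d, ∑ τ, eigFun d (l τ) (z τ) (f τ) (P τ) x = 0 := by
    intro x
    have h1 := congrFun ha x
    rw [Finset.sum_apply, Fintype.sum_sigma] at h1
    simp only [Pi.smul_apply, smul_eq_mul, Pi.zero_apply] at h1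
    rw [← h1]
    refine Finset.sum_congr rfl fun τ _ => ?_
    simp only [eigFun, hPdef, ev_sum, ev_smul, Finset.mul_sum]
    refine Finset.sum_congr rfl fun j _ => ?_
    ring
  have h1 : ∀ (ν : ℂ) (x : Sp d),
      ∑ τ ∈ Finset.univ.filter (fun τ => z τ = ν), eigFun d (l τ) (z τ) (f τ) (P τ) x = 0 :=
    fun ν x => eigen_sep (w := fun x : Sp d => (c : ℂ) * v ‖x‖) (μ := z)
      (fun τ => eigFun_contDiff hd hv (hf τ) (P τ))
      (fun τ x => eigFun_laplacian hd hv hv0 (hf τ) (hPharm τ) x) h0 ν x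
  have h2 : ∀ τ, P τ = 0 := by
    intro τ₀
    refine degree_sep (Finset.univ.filter (fun τ => z τ = z τ₀))
      (g := fun τ => rad (d + 2 * l τ) (z τ) (f τ)) (l := l) (P := P) ?_ ?_ ?_ ?_
      (fun x => h1 (z τ₀) x) τ₀ (by simp)
    · intro τ _
      exact (rad_contDiff (by omega) hv (hf τ) 0).continuousAt
    · intro τ _
      exact rad_zero
    · intro τ _
      exact (hPharm τ).hom
    · intro τ hτ τ' hτ' hl
      rw [Finset.mem_filter] at hτ hτ'
      exact hinj τ τ' hl (hτ.2.trans hτ'.2.symm)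
  rintro ⟨τ, j⟩
  exact Fintype.linearIndependent_iff.mp (hH (l τ)) (fun j => a ⟨τ, j⟩) (h2 τ) j

end Pool.Agent.Lib.MP_c84763_mp
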