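import Mathlib
import Pool.Agent.Lib.MP_c84763_mp.Num1b

/-! # The modes belonging to a shell -/

open Set

namespace Pool.Agent.Lib.MP_c84763_mp

/-- Pairs `(n,l)` with `n1 ≤ n ≤ N` and `2 n R/L + 1 ≤ l ≤ 3 n R/L`. -/
noncomputable def modes (P : Par) (n1 N : ℕ) : Finset (ℕ × ℕ) :=
  ((Finset.Icc n1 N) ×ˢ (Finset.range (⌊3 * (N : ℝ) * P.R / P.L⌋₊ + 1))).filter
    (fun q => 2 * (q.1 : ℝ) * P.R / P.L + 1 ≤ (q.2 : ℝ) ∧ (q.2 : ℝ) ≤ 3 * (q.1 : ℝ) * P.R / P.L)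

theorem mode_of_mem {k : ℝ} {N : ℕ} {P : Par} {X : ℝ} (hG : Good k N P X) {d : ℕ} (hd : 2 ≤ d)
    (hRd : 7 * (d : ℝ) * P.L ≤ P.R) {c : ℝ} (hc1 : 1 / k ≤ c) (hc2 : c ≤ k) {n1 : ℕ}
    (hn1 : 1 ≤ n1) {q : ℕ × ℕ} (hq : q ∈ modes P n1 N) :
    Mode k N P c q.1 (d + 2 * q.2) := by
  obtain ⟨n, l⟩ := q
  unfold modes at hq
  rw [Finset.mem_filter, Finset.mem_product, Finset.mem_Icc] at hq
  obtain ⟨⟨⟨h1, h2⟩, -⟩, h3, h4⟩ := hq
  dsimp only at h1 h2 h3 h4 ⊢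
  have hR := hG.hR
  have hL := hG.hL
  have hn : 1 ≤ n := hn1.trans h1
  have hn' : (1 : ℝ) ≤ n := by exact_mod_cast hn
  set b : ℝ := (n : ℝ) * P.R / P.L with hb
  have hb0 : 0 < b := by positivity
  have e1 : 2 * (n : ℝ) * P.R / P.L = 2 * b := by rw [hb]; ring
  have e2 : 3 * (n : ℝ) * P.R / P.L = 3 * b := by rw [hb]; ring
  rw [e1] at h3
  rw [e2] at h4
  have hbR : b * P.L = (n : ℝ) * P.R := by
    rw [hb]
    field_simp
  have hl : 1 ≤ l := by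
    have : (0 : ℝ) < l := by linarith
    exact_mod_cast this
  have hd' : (2 : ℝ) ≤ d := by exact_mod_cast hd
  have hdb : 7 * (d : ℝ) ≤ b := by
    have h5 : 7 * (d : ℝ) * P.L ≤ b * P.L := by
      rw [hbR]
      nlinarith
    exact le_of_mul_le_mul_right h5 hL
  refine ⟨hc1, hc2, hn, h2, by omega, ?_, ?_⟩
  · have h6 : 4 * (n : ℝ) ^ 2 * P.R ^ 2 = (2 * b) ^ 2 * P.L ^ 2 := by
      calc 4 * (n : ℝ) ^ 2 * P.R ^ 2 = 4 * ((n : ℝ) * P.R) ^ 2 := by ring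
        _ = (2 * b) ^ 2 * P.L ^ 2 := by rw [← hbR]; ring
    rw [h6]
    refine mul_le_mul_of_nonneg_right ?_ (sq_nonneg _)
    unfold lam
    push_cast
    nlinarith
  · have h6 : 10 * (n : ℝ) ^ 2 * P.R ^ 2 = 10 * b ^ 2 * P.L ^ 2 := by
      calc 10 * (n : ℝ) ^ 2 * P.R ^ 2 = 10 * ((n : ℝ) * P.R) ^ 2 := by ring
        _ = 10 * b ^ 2 * P.L ^ 2 := by rw [← hbR]; ring
    rw [h6]
    refine mul_le_mul_of_nonneg_right ?_ (sq_nonneg _)
    unfold lam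
    push_cast
    have h7 : (l : ℝ) + d / 2 ≤ (43 / 14) * b := by linarith
    have h8 : ((l : ℝ) + d / 2) ^ 2 ≤ ((43 / 14) * b) ^ 2 :=
      pow_le_pow_left₀ (by positivity) h7 2
    nlinarith [sq_nonneg b]

/-- Lower bound of the eigenvalue sum: every `(n,l)` contributes at least
`binom(l+d-2, d-2) (L/(5 n))^d`; there are at least `nR/(2L)` values of `l`, and
`binom(l+d-2,d-2) ≥ l^(d-2)/(d-2)! ≥ (2nR/L)^(d-2)/(d-2)!` (`Nat.pow_le_choose`). -/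
theorem modes_sum {k : ℝ} {N : ℕ} {P : Par} {X : ℝ} (hG : Good k N P X) {d : ℕ} (hd : 2 ≤ d)
    {n1 : ℕ} (hn1 : 1 ≤ n1) :
    2 ^ (d - 2) / (2 * (Nat.factorial (d - 2) : ℝ) * 5 ^ d) * P.R ^ (d - 1) * P.L *
        (∑ n ∈ Finset.Icc n1 N, 1 / (n : ℝ)) ≤
      ∑ q ∈ modes P n1 N,
        (Nat.choose (q.2 + d - 2) (d - 2) : ℝ) * (P.L / (5 * (q.1 : ℝ))) ^ d := by
  have hR := hG.hR
  have hL := hG.hL
  obtain ⟨e, rfl⟩ : ∃ e, d = e + 2 := ⟨d - 2, by omega⟩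
  have ee : e + 2 - 2 = e := by omega
  have ee1 : e + 2 - 1 = e + 1 := by omega
  unfold modes
  rw [Finset.sum_filter, Finset.sum_product, Finset.mul_sum]
  refine Finset.sum_le_sum fun n hn => ?_
  rw [Finset.mem_Icc] at hn
  dsimp only
  rw [← Finset.sum_filter]
  have hn0 : 1 ≤ n := hn1.trans hn.1
  have hn' : (1 : ℝ) ≤ n := by exact_mod_cast hn0
  have hnN : (n : ℝ) ≤ N := by exact_mod_cast hn.2
  set b : ℝ := (n : ℝ) * P.R / P.L with hb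
  have hb0 : 0 < b := by positivity
  have hbR : b * P.L = (n : ℝ) * P.R := by
    rw [hb]
    field_simp
  have e1 : 2 * (n : ℝ) * P.R / P.L = 2 * b := by rw [hb]; ring
  have e2 : 3 * (n : ℝ) * P.R / P.L = 3 * b := by rw [hb]; ring
  have hb4 : 4 ≤ b := by
    have h5 : 4 * P.L ≤ b * P.L := by
      rw [hbR]
      have h6 := hG.c5
      have hN1 : (1 : ℝ) ≤ N := by exact_mod_cast hG.hN
      nlinarith [mul_pos (show (0:ℝ) < N by linarith) hL]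
    exact le_of_mul_le_mul_right h5 hL
  set S : Finset ℕ := (Finset.range (⌊3 * (N : ℝ) * P.R / P.L⌋₊ + 1)).filter
    (fun l => 2 * (n : ℝ) * P.R / P.L + 1 ≤ (l : ℝ) ∧ (l : ℝ) ≤ 3 * (n : ℝ) * P.R / P.L) with hS
  have hcard : b / 2 ≤ (S.card : ℝ) := by
    have hsub : Finset.Icc ⌈2 * b + 1⌉₊ ⌊3 * b⌋₊ ⊆ S := by
      intro l hl
      rw [Finset.mem_Icc] at hl
      have hl1 : 2 * b + 1 ≤ (l : ℝ) := (Nat.le_ceil _).trans (by exact_mod_cast hl.1)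
      have hl2 : (l : ℝ) ≤ 3 * b := by
        have h7 : ((⌊3 * b⌋₊ : ℕ) : ℝ) ≤ 3 * b := Nat.floor_le (by positivity)
        have h8 : (l : ℝ) ≤ (⌊3 * b⌋₊ : ℕ) := by exact_mod_cast hl.2
        exact h8.trans h7
      rw [hS, Finset.mem_filter, Finset.mem_range, e1, e2]
      refine ⟨?_, hl1, hl2⟩
      rw [Nat.lt_succ_iff]
      refine hl.2.trans (Nat.floor_le_floor ?_)
      rw [← e2]
      gcongr
    have h9 := Finset.card_le_card hsub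
    rw [Nat.card_Icc] at h9
    have h10 : (⌈2 * b + 1⌉₊ : ℝ) < 2 * b + 1 + 1 := Nat.ceil_lt_add_one (by positivity)
    have h11 : 3 * b < (⌊3 * b⌋₊ : ℝ) + 1 := Nat.lt_floor_add_one _
    have h12 : ⌊3 * b⌋₊ + 1 ≤ S.card + ⌈2 * b + 1⌉₊ := by omega
    have h13 : ((⌊3 * b⌋₊ : ℕ) : ℝ) + 1 ≤ S.card + (⌈2 * b + 1⌉₊ : ℕ) := by exact_mod_cast h12
    linarith
  have hterm : ∀ l ∈ S, (2 * b) ^ e / (Nat.factorial e : ℝ) * (P.L / (5 * (n : ℝ))) ^ (e + 2) ≤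
      (Nat.choose (l + (e + 2) - 2) (e + 2 - 2) : ℝ) * (P.L / (5 * (n : ℝ))) ^ (e + 2) := by
    intro l hl
    rw [hS, Finset.mem_filter, e1] at hl
    refine mul_le_mul_of_nonneg_right ?_ (by positivity)
    have h14 : l + (e + 2) - 2 = l + e := by omega
    rw [h14, ee]
    have h15 := Nat.pow_le_choose (α := ℝ) e (l + e)
    refine le_trans ?_ h15
    have h16 : l + e + 1 - e = l + 1 := by omega
    rw [h16]
    refine div_le_div_of_nonneg_right ?_ (by positivity)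
    refine pow_le_pow_left₀ (by positivity) ?_ e
    push_cast
    linarith [hl.2.1]
  have hsum := Finset.card_nsmul_le_sum S _ _ hterm
  refine le_trans ?_ hsum
  rw [nsmul_eq_mul]
  have hfac : (0 : ℝ) < (Nat.factorial e : ℝ) := by exact_mod_cast Nat.factorial_pos e
  have h17 : (b / 2) * ((2 * b) ^ e / (Nat.factorial e : ℝ) * (P.L / (5 * (n : ℝ))) ^ (e + 2)) ≤
      (S.card : ℝ) * ((2 * b) ^ e / (Nat.factorial e : ℝ) * (P.L / (5 * (n : ℝ))) ^ (e + 2)) :=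
    mul_le_mul_of_nonneg_right hcard (by positivity)
  refine le_trans (le_of_eq ?_) h17
  rw [ee, ee1, hb]
  have hn00 : (n : ℝ) ≠ 0 := by positivity
  have hL0 : P.L ≠ 0 := hL.ne'
  rw [div_pow, mul_pow, mul_pow, div_pow, mul_pow]
  field_simp
  ring

end Pool.Agent.Lib.MP_c84763_mp
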