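import Mathlib
import Pool.Agent.Lib.MP_c84763_mp.Num1b

/-! # Lower bound for the contribution of one eigenvalue -/

open Set

namespace Pool.Agent.Lib.MP_c84763_mp

theorem im_le_distHalf (E : ℂ) : E.im ≤ distHalf E := by
  have hne : ({z : ℂ | 0 ≤ z.re ∧ z.im = 0}).Nonempty := ⟨0, by simp⟩
  refine (Metric.le_infDist hne).2 fun z hz => ?_
  calc E.im = (E - z).im := by rw [Complex.sub_im, hz.2, sub_zero]
    _ ≤ |(E - z).im| := le_abs_self _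
    _ ≤ ‖E - z‖ := Complex.abs_im_le_norm _
    _ = dist E z := (dist_eq_norm E z).symm

theorem distHalf_le_norm (E : ℂ) : distHalf E ≤ ‖E‖ := by
  have h0 : (0 : ℂ) ∈ {z : ℂ | 0 ≤ z.re ∧ z.im = 0} := by simp
  have := Metric.infDist_le_dist_of_mem (x := E) h0
  simpa [distHalf] using this

/-- For `σ ≤ d/2` the summand is at least the one for `σ = d/2`. -/
theorem term_mono {E : ℂ} (hE : 0 < E.im) {γ σ s : ℝ} (hσ : σ ≤ s) :
    ‖E‖ ^ (-s) * distHalf E ^ (γ + s) ≤ ‖E‖ ^ (-σ) * distHalf E ^ (γ + σ) := by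
  have h1 : 0 < distHalf E := hE.trans_le (im_le_distHalf E)
  have h2 := distHalf_le_norm E
  have h3 : 0 < ‖E‖ := h1.trans_le h2
  have e1 : ‖E‖ ^ (-s) = ‖E‖ ^ (-σ) * ‖E‖ ^ (-(s - σ)) := by
    rw [← Real.rpow_add h3]
    congr 1
    ring
  have e2 : distHalf E ^ (γ + s) = distHalf E ^ (γ + σ) * distHalf E ^ (s - σ) := by
    rw [← Real.rpow_add h1]
    congr 1
    ring
  have h4 : ‖E‖ ^ (-(s - σ)) * distHalf E ^ (s - σ) ≤ 1 := by
    rw [Real.rpow_neg h3.le, inv_mul_le_iff₀ (Real.rpow_pos_of_pos h3 _), mul_one]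
    exact Real.rpow_le_rpow h1.le h2 (sub_nonneg.2 hσ)
  rw [e1, e2]
  calc ‖E‖ ^ (-σ) * ‖E‖ ^ (-(s - σ)) * (distHalf E ^ (γ + σ) * distHalf E ^ (s - σ))
      = (‖E‖ ^ (-σ) * distHalf E ^ (γ + σ)) * (‖E‖ ^ (-(s - σ)) * distHalf E ^ (s - σ)) := by ring
    _ ≤ (‖E‖ ^ (-σ) * distHalf E ^ (γ + σ)) * 1 := by
        refine mul_le_mul_of_nonneg_left h4 ?_
        positivity
    _ = _ := mul_one _

/-- `‖z/c‖ ≤ 25 n²/(c L²)` and `Im (z/c) ≥ (3/4) h`. -/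
theorem term_lower {k : ℝ} {N : ℕ} {P : Par} {X c : ℝ} {n D : ℕ} (hG : Good k N P X)
    (hM : Mode k N P c n D) {κ : ℂ} (hκ : ‖κ * P.L - ((Real.pi * n : ℝ) : ℂ)‖ ≤ 1 / 2)
    (hn : k * P.h * P.L ^ 2 ≤ (n : ℝ) ^ 2) {d : ℕ} {γ : ℝ} (hγ : 0 < γ) :
    c ^ ((d : ℝ) / 2) * (3 / 4 * P.h) ^ (γ + (d : ℝ) / 2) * (P.L / (5 * (n : ℝ))) ^ d ≤
      ‖zOf D c P κ / c‖ ^ (-((d : ℝ) / 2)) * distHalf (zOf D c P κ / c) ^ (γ + (d : ℝ) / 2) := by
  have hc : 0 < c := c_pos hG hM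
  have hL : 0 < P.L := hG.hL
  have hh : 0 < P.h := hG.hh
  have hn1 : (1 : ℝ) ≤ n := by exact_mod_cast hM.hn1
  have hn0 : (0 : ℝ) < n := by linarith
  set z := zOf D c P κ with hz
  have h1 : ‖z‖ ≤ 25 * (n : ℝ) ^ 2 / P.L ^ 2 := by
    refine (z_norm hG hM hκ).trans ?_
    have h2 : c * P.h ≤ (n : ℝ) ^ 2 / P.L ^ 2 := by
      rw [le_div_iff₀ (by positivity)]
      calc c * P.h * P.L ^ 2 ≤ k * P.h * P.L ^ 2 := by
            have := hM.hc2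
            gcongr
        _ ≤ _ := hn
    calc 24 * (n : ℝ) ^ 2 / P.L ^ 2 + c * P.h ≤ 24 * (n : ℝ) ^ 2 / P.L ^ 2 + (n : ℝ) ^ 2 / P.L ^ 2 := by
          gcongr
      _ = _ := by ring
  have h2 : 3 / 4 * P.h ≤ (z / c).im := by
    have h3 := (z_im hG hM hκ).1
    rw [Complex.div_ofReal_im, le_div_iff₀ hc]
    calc 3 / 4 * P.h * c = 3 / 4 * (c * P.h) := by ring
      _ ≤ _ := h3
  have h3 : 3 / 4 * P.h ≤ distHalf (z / c) := h2.trans (im_le_distHalf _)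
  have h4 : 0 < distHalf (z / c) := lt_of_lt_of_le (by positivity) h3
  have h5 : 0 < ‖z / c‖ := h4.trans_le (distHalf_le_norm _)
  have h6 : ‖z / c‖ ≤ c⁻¹ * (5 * n / P.L) ^ 2 := by
    rw [norm_div, Complex.norm_real, Real.norm_of_nonneg hc.le, div_eq_inv_mul]
    refine mul_le_mul_of_nonneg_left (h1.trans (le_of_eq ?_)) (by positivity)
    field_simp
    ring
  have h7 : (c⁻¹ * (5 * n / P.L) ^ 2) ^ (-((d : ℝ) / 2)) =
      c ^ ((d : ℝ) / 2) * (P.L / (5 * (n : ℝ))) ^ d := by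
    rw [Real.mul_rpow (by positivity) (by positivity), Real.inv_rpow hc.le, Real.rpow_neg hc.le,
      inv_inv]
    congr 1
    rw [← Real.rpow_natCast, ← Real.rpow_mul (by positivity), ← Real.rpow_natCast]
    have e1 : P.L / (5 * (n : ℝ)) = (5 * n / P.L)⁻¹ := by rw [inv_div]
    rw [e1, Real.inv_rpow (by positivity), ← Real.rpow_neg (by positivity)]
    congr 1
    push_cast
    ring
  have h8 : (c⁻¹ * (5 * n / P.L) ^ 2) ^ (-((d : ℝ) / 2)) ≤ ‖z / c‖ ^ (-((d : ℝ) / 2)) :=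
    Real.rpow_le_rpow_of_nonpos h5 h6 (by
      have : (0 : ℝ) ≤ (d : ℝ) / 2 := by positivity
      linarith)
  have h9 : (3 / 4 * P.h) ^ (γ + (d : ℝ) / 2) ≤ distHalf (z / c) ^ (γ + (d : ℝ) / 2) :=
    Real.rpow_le_rpow (by positivity) h3 (by positivity)
  rw [h7] at h8
  calc c ^ ((d : ℝ) / 2) * (3 / 4 * P.h) ^ (γ + (d : ℝ) / 2) * (P.L / (5 * (n : ℝ))) ^ d
      = (c ^ ((d : ℝ) / 2) * (P.L / (5 * (n : ℝ))) ^ d) * (3 / 4 * P.h) ^ (γ + (d : ℝ) / 2) := by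
        ring
    _ ≤ _ := by
        refine mul_le_mul h8 h9 (by positivity) (by positivity)

/-- Passing to a finite type of indices. -/
theorem le_eigenSum {d : ℕ} {V : Sp d → ℂ} {hbar γ σ : ℝ} {T : Type} [Fintype T] (E : T → ℂ)
    (u : T → Sp d → ℂ) (hu : LinearIndependent ℂ u)
    (hE : ∀ j, IsEigenfunction V hbar (E j) (u j)) :
    ENNReal.ofReal (∑ j, ‖E j‖ ^ (-σ) * distHalf (E j) ^ (γ + σ)) ≤ eigenSum V hbar γ σ := by
  have hnn : ∀ z : ℂ, 0 ≤ distHalf z := fun z => Metric.infDist_nonneg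
  rw [ENNReal.ofReal_sum_of_nonneg fun j _ => mul_nonneg (Real.rpow_nonneg (norm_nonneg _) _)
    (Real.rpow_nonneg (hnn _) _)]
  let e := Fintype.equivFin T
  have h1 : ∑ j, ENNReal.ofReal (‖E j‖ ^ (-σ) * distHalf (E j) ^ (γ + σ)) =
      ∑ j : Fin (Fintype.card T),
        ENNReal.ofReal (‖(E ∘ e.symm) j‖ ^ (-σ) * distHalf ((E ∘ e.symm) j) ^ (γ + σ)) := by
    rw [← Equiv.sum_comp e.symm]
    rfl
  rw [h1]
  refine le_iSup_of_le (Fintype.card T) ?_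
  refine le_iSup_of_le (E ∘ e.symm) ?_
  refine le_iSup_of_le (u ∘ e.symm) ?_
  refine le_iSup_of_le (hu.comp _ e.symm.injective) ?_
  exact le_iSup_of_le (fun j => hE _) le_rfl

end Pool.Agent.Lib.MP_c84763_mp
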