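import Mathlib
import Pool.Agent.Lib.MP_c84763_mp.Channel
import Pool.Agent.Lib.MP_c84763_mp.Indep
import Pool.Agent.Lib.MP_c84763_mp.Harmonic
import Pool.Agent.Lib.MP_c84763_mp.Modes
import Pool.Agent.Lib.MP_c84763_mp.Term

/-! # The contribution of one shell to the eigenvalue sum -/

open Set MeasureTheory

namespace Pool.Agent.Lib.MP_c84763_mp

/-- The constant `K(d,γ)`. -/
noncomputable def Kd (d : ℕ) (γ : ℝ) : ℝ :=
  (3 / 4) ^ (γ + (d : ℝ) / 2) * (2 ^ (d - 2) / (2 * (Nat.factorial (d - 2) : ℝ) * 5 ^ d))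

/-- `T = modes`, `channel` for every mode, `exists_harm`, `indep` (with `z_inj`), `term_lower`,
`modes_sum`, `le_eigenSum`, `term_mono`. -/
theorem shell_sum {k : ℝ} {N : ℕ} {P : Par} {X : ℝ} {v : ℝ → ℂ} (hG : Good k N P X)
    (hF : Fits P X v) {d : ℕ} (hd : 2 ≤ d) (hRd : 7 * (d : ℝ) * P.L ≤ P.R) {n1 : ℕ}
    (hn1 : 1 ≤ n1) (hn : k * P.h * P.L ^ 2 ≤ (n1 : ℝ) ^ 2) {hbar : ℝ} (hb : 0 < hbar)
    (hc1 : 1 / k ≤ 1 / hbar ^ 2) (hc2 : 1 / hbar ^ 2 ≤ k) {γ σ : ℝ} (hγ : 0 < γ)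
    (hσ : σ ≤ (d : ℝ) / 2) :
    ENNReal.ofReal ((1 / hbar ^ 2) ^ ((d : ℝ) / 2) * (Kd d γ * P.h ^ (γ + (d : ℝ) / 2) *
        P.R ^ (d - 1) * P.L * ∑ n ∈ Finset.Icc n1 N, 1 / (n : ℝ))) ≤
      eigenSum (fun x : Sp d => v ‖x‖) hbar γ σ := by
  classical
  set c : ℝ := 1 / hbar ^ 2 with hc
  have hcpos : 0 < c := by positivity
  have hd1 : 1 ≤ d := by omega
  -- the modes
  have hmode : ∀ τ : {q // q ∈ modes P n1 N}, Mode k N P c τ.1.1 (d + 2 * τ.1.2) :=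
    fun τ => mode_of_mem hG hd hRd hc1 hc2 hn1 τ.2
  choose κ f f' hκ hglob using fun τ => channel hG hF (hmode τ)
  choose H hH hharm using fun l => exists_harm d l hd
  have hcont := hF.cont
  have hzero := hF.zero
  have hind := indep (d := d) hd1 (c := c) hcont hzero
    (T := {q // q ∈ modes P n1 N}) (fun τ => τ.1.2)
    (fun τ => zOf (d + 2 * τ.1.2) c P (κ τ)) f f' hglob
    (by
      intro τ τ' hl hz
      have hl' : τ.1.2 = τ'.1.2 := hl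
      have hM' : Mode k N P c τ'.1.1 (d + 2 * τ.1.2) := by
        rw [hl']; exact hmode τ'
      have hz' : zOf (d + 2 * τ.1.2) c P (κ τ) = zOf (d + 2 * τ.1.2) c P (κ τ') := by
        have h : zOf (d + 2 * τ.1.2) c P (κ τ) = zOf (d + 2 * τ'.1.2) c P (κ τ') := hz
        rw [h, hl']
      have hnn := z_inj hG (hmode τ) hM' (hκ τ) (hκ τ') hz'
      exact Subtype.ext (Prod.ext hnn hl'))
    (fun l => Nat.choose (l + d - 2) (d - 2)) H hH hharm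
  have hzim : ∀ τ : {q // q ∈ modes P n1 N}, 0 < (zOf (d + 2 * τ.1.2) c P (κ τ)).im := by
    intro τ
    have h1 := (z_im hG (hmode τ) (hκ τ)).1
    have h2 : 0 < 3 / 4 * (c * P.h) := by
      have := hG.hh
      positivity
    linarith
  have hle := le_eigenSum (γ := γ) (σ := σ) (hbar := hbar) (V := fun x : Sp d => v ‖x‖)
    (T := (τ : {q // q ∈ modes P n1 N}) × Fin (Nat.choose (τ.1.2 + d - 2) (d - 2)))
    (fun i => zOf (d + 2 * i.1.1.2) c P (κ i.1) / c)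
    (fun i => eigFun d i.1.1.2 (zOf (d + 2 * i.1.1.2) c P (κ i.1)) (f i.1) (H i.1.1.2 i.2))
    hind
    (fun i => eigFun_isEigenfunction hd1 hb hc (hzim i.1) hcont hzero (hglob i.1)
      (hharm i.1.1.2 i.2))
  refine le_trans (ENNReal.ofReal_le_ofReal ?_) hle
  -- termwise lower bound
  have hterm : ∀ i : (τ : {q // q ∈ modes P n1 N}) × Fin (Nat.choose (τ.1.2 + d - 2) (d - 2)),
      c ^ ((d : ℝ) / 2) * (3 / 4 * P.h) ^ (γ + (d : ℝ) / 2) *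
        (P.L / (5 * (i.1.1.1 : ℝ))) ^ d ≤
      ‖zOf (d + 2 * i.1.1.2) c P (κ i.1) / c‖ ^ (-σ) *
        distHalf (zOf (d + 2 * i.1.1.2) c P (κ i.1) / c) ^ (γ + σ) := by
    intro i
    have hmem : i.1.1 ∈ modes P n1 N := i.1.2
    unfold modes at hmem
    rw [Finset.mem_filter, Finset.mem_product, Finset.mem_Icc] at hmem
    have hnn : (n1 : ℝ) ≤ (i.1.1.1 : ℝ) := by exact_mod_cast hmem.1.1.1
    have hn1' : (0 : ℝ) ≤ (n1 : ℝ) := by positivity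
    have h1 : k * P.h * P.L ^ 2 ≤ (i.1.1.1 : ℝ) ^ 2 := hn.trans (by gcongr)
    have h2 := term_lower hG (hmode i.1) (hκ i.1) h1 (d := d) hγ
    refine h2.trans ?_
    apply term_mono _ hσ
    have h3 : (zOf (d + 2 * i.1.1.2) c P (κ i.1) / (c : ℂ)).im =
        (zOf (d + 2 * i.1.1.2) c P (κ i.1)).im / c := by
      rw [Complex.div_ofReal_im]
    rw [h3]
    exact div_pos (hzim i.1) hcpos
  refine le_trans ?_ (Finset.sum_le_sum (fun i _ => hterm i))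
  rw [Fintype.sum_sigma]
  simp only [Finset.sum_const, Finset.card_univ, Fintype.card_fin, nsmul_eq_mul]
  have hsum := modes_sum hG hd hn1
  have hconv : ∑ x : {q // q ∈ modes P n1 N}, (Nat.choose (x.1.2 + d - 2) (d - 2) : ℝ) *
      (c ^ ((d : ℝ) / 2) * (3 / 4 * P.h) ^ (γ + (d : ℝ) / 2) * (P.L / (5 * (x.1.1 : ℝ))) ^ d) =
      c ^ ((d : ℝ) / 2) * (3 / 4 * P.h) ^ (γ + (d : ℝ) / 2) *
        ∑ q ∈ modes P n1 N,
          (Nat.choose (q.2 + d - 2) (d - 2) : ℝ) * (P.L / (5 * (q.1 : ℝ))) ^ d := by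
    rw [Finset.mul_sum, ← Finset.sum_coe_sort (modes P n1 N)]
    apply Finset.sum_congr rfl
    intro x _
    ring
  rw [hconv]
  have hh0 : 0 ≤ P.h := hG.hh.le
  have hpow : (3 / 4 * P.h) ^ (γ + (d : ℝ) / 2) =
      (3 / 4) ^ (γ + (d : ℝ) / 2) * P.h ^ (γ + (d : ℝ) / 2) :=
    Real.mul_rpow (by norm_num) hh0
  have hnonneg : 0 ≤ c ^ ((d : ℝ) / 2) * (3 / 4 * P.h) ^ (γ + (d : ℝ) / 2) := by positivity
  refine le_trans (le_of_eq ?_) (mul_le_mul_of_nonneg_left hsum hnonneg)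
  rw [hpow, Kd]
  ring

end Pool.Agent.Lib.MP_c84763_mp
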