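import Mathlib
import Pool.Agent.Lib.MP_c84763_mp.Family

/-! # Specification of the parameters of the `k`-th shell -/

open Set Filter Topology MeasureTheory

namespace Pool.Agent.Lib.MP_c84763_mp

/-- What we need to know about the `k`-th shell (`Cd` is the constant of `cost`). -/
structure Spec (d : ℕ) (γ Cd : ℝ) (k : ℕ) (X ε : ℝ) (N n1 : ℕ) (P : Par) : Prop where
  good : Good ((k : ℝ) + 1) N P X
  small : P.A + P.h ≤ ε
  dim : 7 * (d : ℝ) * P.L ≤ P.R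
  n1pos : 1 ≤ n1
  n1sq : ((k : ℝ) + 1) * P.h * P.L ^ 2 ≤ (n1 : ℝ) ^ 2
  big : ((k : ℝ) + 1) ^ (1 + (d : ℝ) / 2) ≤ Kd d γ * P.h ^ (γ + (d : ℝ) / 2) *
        P.R ^ (d - 1) * P.L * ∑ n ∈ Finset.Icc n1 N, 1 / (n : ℝ)
  cost : Cd * P.R ^ (d - 1) * ((2 * P.A) ^ (γ + (d : ℝ) / 2) * (2 * P.w + 4 * P.e) +
        P.h ^ (γ + (d : ℝ) / 2) * P.L) ≤ (1 / 2) ^ k

theorem Kd_pos (d : ℕ) (γ : ℝ) : 0 < Kd d γ := by
  unfold Kd
  positivity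

end Pool.Agent.Lib.MP_c84763_mp
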