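import Mathlib

/-! # Choice of the normalised parameters

For `M` large (depending on `K`, `T`) and then `N` large put `A0 = (1280 N)² K`, `h0 = N²/M`,
`e0 = 1/(128 √(K A0)) = 1/(163840 N K)`, `w0 = 2 √(K A0)/h0 = 2560 K M/N`, `n1 = ⌈N √(K/M)⌉`. Then
`Σ_{n1 ≤ n ≤ N} 1/n ≥ log (N/n1) - 1/...` is about `(1/2) log (M/K)`, and
`(2 A0)^p (2 w0 + 4 e0) ≤ C N^(2p-1) M ≤ N^(2p) M^(-p)`. -/

namespace Pool.Agent.Lib.MP_c84763_mp

theorem stage1_sum_ge (a : ℕ) (ha : 1 ≤ a) (m : ℕ) :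
    Real.log (((a : ℝ) + m) / a) ≤ ∑ n ∈ Finset.Ico a (a + m), 1 / (n : ℝ) := by
  have ha' : (0 : ℝ) < a := by exact_mod_cast ha
  induction m with
  | zero => simp [ha'.ne']
  | succ m ih =>
    rw [← add_assoc, Finset.sum_Ico_succ_top (by omega)]
    have hpos : (0 : ℝ) < (a : ℝ) + m := by positivity
    have e : ((a : ℝ) + (m + 1 : ℕ)) / a = (((a : ℝ) + m) / a) * (1 + 1 / ((a : ℝ) + m)) := by
      push_cast
      field_simp
      ring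
    have hlog : Real.log (1 + 1 / ((a : ℝ) + m)) ≤ 1 / ((a : ℝ) + m) := by
      have h := Real.log_le_sub_one_of_pos (x := 1 + 1 / ((a : ℝ) + m)) (by positivity)
      linarith
    rw [e, Real.log_mul (by positivity) (by positivity)]
    have e2 : ((a + m : ℕ) : ℝ) = (a : ℝ) + m := by push_cast; ring
    rw [e2]
    linarith

theorem stage1 (p K T : ℝ) (hp : 1 ≤ p) (hK : 1 ≤ K) :
    ∃ (N n1 : ℕ) (h0 A0 w0 e0 : ℝ), 1 ≤ N ∧ 1 ≤ n1 ∧ 0 < h0 ∧ 0 < A0 ∧ 0 < w0 ∧ 0 < e0 ∧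
      16 * (N : ℝ) * K ≤ h0 ∧ (1280 * (N : ℝ)) ^ 2 * K ≤ A0 ∧ h0 ≤ A0 ∧
      √(K * A0) * e0 ≤ 1 / 128 ∧ 2 * √(K * A0) ≤ w0 * h0 ∧ 2 * e0 + w0 ≤ 1 ∧
      K * h0 ≤ (n1 : ℝ) ^ 2 ∧ T ≤ ∑ n ∈ Finset.Icc n1 N, 1 / (n : ℝ) ∧
      (2 * A0) ^ p * (2 * w0 + 4 * e0) ≤ h0 ^ p := by
  have hK0 : 0 < K := by linarith
  set q : ℝ := Real.exp (-|T|) / 2 with hq
  have hq0 : 0 < q := by positivity
  have hq1 : q ≤ 1 / 2 := by
    have : Real.exp (-|T|) ≤ 1 := Real.exp_le_one_iff.mpr (by simp)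
    rw [hq]; linarith
  set B : ℝ := K ^ 2 / q ^ 2 with hB
  have hB0 : 0 < B := by positivity
  have hB1 : 1 ≤ B := by
    rw [hB, le_div_iff₀ (by positivity)]
    nlinarith [mul_le_mul hK hK (by norm_num) hK0.le]
  obtain ⟨Z, hZ⟩ : ∃ Z : ℝ, Z = (2 * 1280 ^ 2 * B) ^ p * (5120 * B + 1) := ⟨_, rfl⟩
  obtain ⟨N, hN⟩ := exists_nat_ge (1 / q + 2561 * B + Z)
  have hP : 0 ≤ Z := by rw [hZ]; positivity
  have hq' : 0 < 1 / q := by positivity
  have hN1 : 1 / q ≤ N := by linarith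
  have hN2 : 2561 * B ≤ N := by linarith
  have hN3 : (2 * 1280 ^ 2 * B) ^ p * (5120 * B + 1) ≤ N := by rw [← hZ]; linarith
  have hNge : (1 : ℝ) ≤ N := by linarith
  have hN0 : (0 : ℝ) < N := by linarith
  have hNnat : 1 ≤ N := by exact_mod_cast hNge
  have hNq : 1 ≤ (N : ℝ) * q := by
    rw [div_le_iff₀ hq0] at hN1
    exact hN1
  set n1 : ℕ := ⌈(N : ℝ) * q⌉₊ with hn1
  have hn1_ge : (N : ℝ) * q ≤ n1 := Nat.le_ceil _
  have hn1_lt : (n1 : ℝ) < N * q + 1 := Nat.ceil_lt_add_one (by positivity)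
  have hn1_one : 1 ≤ n1 := by
    have : (1 : ℝ) ≤ n1 := by linarith
    exact_mod_cast this
  have hn1_pos : (0 : ℝ) < n1 := by exact_mod_cast hn1_one
  have hn1_le2 : (n1 : ℝ) ≤ 2 * (N * q) := by linarith
  have hn1_leN : n1 ≤ N := by
    have : (n1 : ℝ) ≤ N := by nlinarith
    exact_mod_cast this
  have hsq : √(K * ((1280 * (N : ℝ)) ^ 2 * K)) = 1280 * N * K := by
    rw [show K * ((1280 * (N : ℝ)) ^ 2 * K) = (1280 * N * K) ^ 2 by ring]
    exact Real.sqrt_sq (by positivity)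
  have hBq : B * q ^ 2 = K ^ 2 := by rw [hB]; field_simp
  refine ⟨N, n1, (N : ℝ) ^ 2 * q ^ 2 / K, (1280 * (N : ℝ)) ^ 2 * K, 2560 * B / N,
    1 / (163840 * N * K), hNnat, hn1_one, by positivity, by positivity, by positivity,
    by positivity, ?_, le_rfl, ?_, ?_, ?_, ?_, ?_, ?_, ?_⟩
  · -- 16 N K ≤ h0
    rw [le_div_iff₀ hK0]
    have h1 : 16 * (K ^ 2) ≤ (N : ℝ) * q ^ 2 := by
      rw [← hBq]
      nlinarith [mul_le_mul_of_nonneg_right hN2 (sq_nonneg q), mul_pos hB0 (pow_pos hq0 2)]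
    nlinarith [mul_le_mul_of_nonneg_left h1 hN0.le]
  · -- h0 ≤ A0
    rw [div_le_iff₀ hK0]
    have h1 : q ^ 2 ≤ 1 := by nlinarith
    have h2 : (1 : ℝ) ≤ K * K := by nlinarith
    have h3 : (0 : ℝ) < (N : ℝ) ^ 2 := by positivity
    nlinarith [mul_le_mul_of_nonneg_left h1 h3.le, mul_le_mul_of_nonneg_left h2 h3.le]
  · rw [hsq]
    apply le_of_eq
    field_simp
    norm_num
  · rw [hsq]
    apply le_of_eq
    rw [show 2560 * B / (N : ℝ) * ((N : ℝ) ^ 2 * q ^ 2 / K) = 2560 * (B * q ^ 2) * N / K by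
      field_simp]
    rw [hBq]
    field_simp
    norm_num
  · -- 2 e0 + w0 ≤ 1
    have h1 : 2 * (1 / (163840 * (N : ℝ) * K)) ≤ 1 / N := by
      rw [mul_one_div, div_le_div_iff₀ (by positivity) hN0]
      nlinarith [mul_le_mul_of_nonneg_left hK hN0.le]
    have h2 : 1 / (N : ℝ) + 2560 * B / N ≤ 1 := by
      rw [← add_div, div_le_one hN0]
      linarith
    linarith
  · -- K h0 ≤ n1²
    rw [mul_div_cancel₀ _ hK0.ne']
    have h1 : (N : ℝ) ^ 2 * q ^ 2 = (N * q) ^ 2 := by ring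
    rw [h1]
    gcongr
  · -- the sum
    have e1 : Finset.Icc n1 N = Finset.Ico n1 (n1 + (N + 1 - n1)) := by
      rw [show n1 + (N + 1 - n1) = N + 1 by omega]
      ext x
      simp only [Finset.mem_Icc, Finset.mem_Ico]
      omega
    rw [e1]
    refine le_trans ?_ (stage1_sum_ge n1 hn1_one (N + 1 - n1))
    have e2 : (n1 : ℝ) + ((N + 1 - n1 : ℕ) : ℝ) = N + 1 := by
      rw [Nat.cast_sub (by omega)]
      push_cast
      ring
    rw [e2]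
    have h1 : T ≤ |T| := le_abs_self T
    refine le_trans h1 ?_
    rw [Real.le_log_iff_exp_le (by positivity), le_div_iff₀ hn1_pos]
    have h2 : Real.exp |T| * q = 1 / 2 := by
      rw [hq, Real.exp_neg]
      field_simp
    calc Real.exp |T| * n1 ≤ Real.exp |T| * (2 * (N * q)) := by gcongr
      _ = 2 * N * (Real.exp |T| * q) := by ring
      _ = N := by rw [h2]; ring
      _ ≤ N + 1 := by linarith
  · -- cost
    have hh0 : (0 : ℝ) < (N : ℝ) ^ 2 * q ^ 2 / K := by positivity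
    have e1 : 2 * ((1280 * (N : ℝ)) ^ 2 * K) =
        (2 * 1280 ^ 2 * B) * ((N : ℝ) ^ 2 * q ^ 2 / K) := by
      rw [show (2 * 1280 ^ 2 * B) * ((N : ℝ) ^ 2 * q ^ 2 / K) =
        2 * 1280 ^ 2 * (B * q ^ 2) * (N : ℝ) ^ 2 / K by ring]
      rw [hBq]
      field_simp
    rw [e1, Real.mul_rpow (by positivity) hh0.le]
    have h1 : 2 * (2560 * B / (N : ℝ)) + 4 * (1 / (163840 * N * K)) ≤ (5120 * B + 1) / N := by
      have h3 : 4 * (1 / (163840 * (N : ℝ) * K)) ≤ 1 / N := by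
        rw [mul_one_div, div_le_div_iff₀ (by positivity) hN0]
        nlinarith [mul_le_mul_of_nonneg_left hK hN0.le]
      have e3 : (5120 * B + 1) / (N : ℝ) = 2 * (2560 * B / (N : ℝ)) + 1 / N := by ring
      rw [e3]
      linarith
    have hH : 0 < ((N : ℝ) ^ 2 * q ^ 2 / K) ^ p := Real.rpow_pos_of_pos hh0 p
    have hC : 0 < (2 * 1280 ^ 2 * B) ^ p := Real.rpow_pos_of_pos (by positivity) p
    calc (2 * 1280 ^ 2 * B) ^ p * ((N : ℝ) ^ 2 * q ^ 2 / K) ^ p *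
          (2 * (2560 * B / (N : ℝ)) + 4 * (1 / (163840 * N * K)))
        ≤ (2 * 1280 ^ 2 * B) ^ p * ((N : ℝ) ^ 2 * q ^ 2 / K) ^ p * ((5120 * B + 1) / N) := by
          gcongr
      _ = ((2 * 1280 ^ 2 * B) ^ p * (5120 * B + 1) / N) * ((N : ℝ) ^ 2 * q ^ 2 / K) ^ p := by
          ring
      _ ≤ 1 * ((N : ℝ) ^ 2 * q ^ 2 / K) ^ p := by
          gcongr
          rw [div_le_one hN0]
          exact hN3
      _ = ((N : ℝ) ^ 2 * q ^ 2 / K) ^ p := one_mul _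

end Pool.Agent.Lib.MP_c84763_mp
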