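import Mathlib

/-! # Choice of the scale: `L = (B R0^(d-1))^(1/(2γ))`, `R0 → ∞` -/

namespace Pool.Agent.Lib.MP_c84763_mp

theorem stage2 (d : ℕ) (hd : 2 ≤ d) (γ B h0 G X ε Y : ℝ) (hγ : 0 < γ) (hB : 0 < B) (hh : 0 < h0)
    (hε : 0 < ε) :
    ∃ R0 L : ℝ, 0 < R0 ∧ Y ≤ R0 ∧ 0 < L ∧ L ^ (2 * γ) = B * R0 ^ (d - 1) ∧
      12 * X ≤ h0 / L * (Real.exp R0 - 1) ∧ 12 * X ≤ R0 * L ∧ G ≤ ε * L ^ 2 := by
  have h2γ : 0 < 2 * γ := by positivity
  set s : ℝ := ((d - 1 : ℕ) : ℝ) / (2 * γ) with hs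
  set B' : ℝ := B ^ (1 / (2 * γ)) with hB'
  have hB'0 : 0 < B' := Real.rpow_pos_of_pos hB _
  have hd1 : 0 < ((d - 1 : ℕ) : ℝ) := by
    have : 0 < d - 1 := by omega
    exact_mod_cast this
  have hs0 : 0 < s := div_pos hd1 h2γ
  have hL : Filter.Tendsto (fun R : ℝ => B' * R ^ s) Filter.atTop Filter.atTop :=
    (tendsto_rpow_atTop hs0).const_mul_atTop hB'0
  have hE : Filter.Tendsto (fun R : ℝ => h0 / (2 * B') * (Real.exp R / R ^ s)) Filter.atTop
      Filter.atTop :=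
    (tendsto_exp_div_rpow_atTop s).const_mul_atTop (by positivity)
  obtain ⟨R, hR1, hRY, hRL1, hRX, hRG, hRE⟩ :=
    ((Filter.eventually_ge_atTop (1 : ℝ)).and ((Filter.eventually_ge_atTop Y).and
      ((hL.eventually_ge_atTop 1).and ((hL.eventually_ge_atTop (12 * X)).and
        ((hL.eventually_ge_atTop (G / ε)).and (hE.eventually_ge_atTop (12 * X))))))).exists
  have hR0 : 0 < R := by linarith
  have hRs : 0 < R ^ s := Real.rpow_pos_of_pos hR0 s
  set L : ℝ := B' * R ^ s with hLdef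
  have hL0 : 0 < L := by positivity
  refine ⟨R, L, hR0, hRY, hL0, ?_, ?_, ?_, ?_⟩
  · rw [hLdef, Real.mul_rpow hB'0.le hRs.le, hB', ← Real.rpow_mul hB.le, ← Real.rpow_mul hR0.le,
      one_div, inv_mul_cancel₀ h2γ.ne', Real.rpow_one, hs, div_mul_cancel₀ _ h2γ.ne',
      Real.rpow_natCast]
  · refine le_trans hRE ?_
    have h2 : Real.exp R / 2 ≤ Real.exp R - 1 := by
      have := Real.add_one_le_exp R
      linarith
    calc h0 / (2 * B') * (Real.exp R / R ^ s) = h0 / L * (Real.exp R / 2) := by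
          rw [hLdef]
          field_simp
      _ ≤ h0 / L * (Real.exp R - 1) := mul_le_mul_of_nonneg_left h2 (by positivity)
  · refine le_trans hRX ?_
    nlinarith
  · have h3 : G ≤ ε * L := by
      rw [div_le_iff₀ hε] at hRG
      linarith
    refine le_trans h3 ?_
    refine mul_le_mul_of_nonneg_left ?_ hε.le
    nlinarith

end Pool.Agent.Lib.MP_c84763_mp
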