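import Mathlib
import Pool.Agent.Lib.MP_c84763_mp.Spec
import Pool.Agent.Lib.MP_c84763_mp.Stage1
import Pool.Agent.Lib.MP_c84763_mp.Stage2

/-! # Existence of the parameters -/

namespace Pool.Agent.Lib.MP_c84763_mp

/-- Scaling of `h^p R^(d-1) L`. -/
theorem scale_id {d : ℕ} (hd : 2 ≤ d) {γ Cd h0 R0 L m : ℝ} (hC : 0 < Cd) (hm : 0 < m)
    (hh : 0 < h0) (hR : 0 < R0) (hL : 0 < L)
    (h : L ^ (2 * γ) = m * Cd * h0 ^ (γ + (d : ℝ) / 2) * R0 ^ (d - 1)) :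
    (h0 / L ^ 2) ^ (γ + (d : ℝ) / 2) * (R0 * L) ^ (d - 1) * L = 1 / (m * Cd) := by
  have hp : 0 < h0 ^ (γ + (d : ℝ) / 2) := Real.rpow_pos_of_pos hh _
  have e1 : (h0 / L ^ 2) ^ (γ + (d : ℝ) / 2) = h0 ^ (γ + (d : ℝ) / 2) / (L ^ (2 * γ) * L ^ d) := by
    rw [Real.div_rpow hh.le (by positivity), ← Real.rpow_natCast L 2, ← Real.rpow_mul hL.le,
      ← Real.rpow_natCast L d, ← Real.rpow_add hL]
    congr 2
    push_cast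
    ring
  have e2 : L ^ (d - 1) * L = L ^ d := by
    rw [← pow_succ]
    congr 1
    omega
  rw [e1, h, mul_pow]
  have hLd : L ^ d ≠ 0 := by positivity
  have hRd : R0 ^ (d - 1) ≠ 0 := by positivity
  rw [show h0 ^ (γ + (d : ℝ) / 2) / (m * Cd * h0 ^ (γ + (d : ℝ) / 2) * R0 ^ (d - 1) * L ^ d) *
    (R0 ^ (d - 1) * L ^ (d - 1)) * L = h0 ^ (γ + (d : ℝ) / 2) /
    (m * Cd * h0 ^ (γ + (d : ℝ) / 2) * R0 ^ (d - 1) * L ^ d) *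
    (R0 ^ (d - 1) * (L ^ (d - 1) * L)) by ring, e2]
  field_simp

/-- `stage1` with `p = γ + d/2`, `K = k+1`, `T = (k+1)^(1+d/2) 2^(k+1) Cd/Kd`; `stage2` with
`B = 2^(k+1) Cd h0^p`, `G = A0 + h0`, `Y = max (1000 N) (7 d)`; then
`P = (R0 L, L, h0/L², A0/L², w0 L, e0 L)`. Note `h^p R^(d-1) L = h0^p R0^(d-1) L^(-2γ)
= 1/(2^(k+1) Cd)`. -/
theorem exists_spec (d : ℕ) (hd : 2 ≤ d) (γ Cd : ℝ) (hγ : 0 < γ) (hCd : 0 < Cd) (k : ℕ)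
    (X ε : ℝ) (hX : 1 ≤ X) (hε : 0 < ε) :
    ∃ (N n1 : ℕ) (P : Par), Spec d γ Cd k X ε N n1 P := by
  have hd2 : (2 : ℝ) ≤ (d : ℝ) := by exact_mod_cast hd
  have hp : 1 ≤ γ + (d : ℝ) / 2 := by linarith
  have hK : (1 : ℝ) ≤ (k : ℝ) + 1 := by
    have := Nat.cast_nonneg (α := ℝ) k
    linarith
  have hKd := Kd_pos d γ
  obtain ⟨N, n1, h0, A0, w0, e0, hN, hn1, hh0, hA0, hw0, he0, s1, s2, s3, s4, s5, s6, s7, s8, s9⟩ :=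
    stage1 (γ + (d : ℝ) / 2) ((k : ℝ) + 1)
      (((k : ℝ) + 1) ^ (1 + (d : ℝ) / 2) * (2 ^ (k + 1) * Cd) / Kd d γ) hp hK
  have hh0p : 0 < h0 ^ (γ + (d : ℝ) / 2) := Real.rpow_pos_of_pos hh0 _
  obtain ⟨R0, L, hR0, hY, hL, hLg, t1, t2, t3⟩ := stage2 d hd γ
    (2 ^ (k + 1) * Cd * h0 ^ (γ + (d : ℝ) / 2)) h0 (A0 + h0) X ε
    (max (1000 * (N : ℝ)) (7 * (d : ℝ))) hγ (by positivity) hh0 hε
  have hY1 : 1000 * (N : ℝ) ≤ R0 := le_trans (le_max_left _ _) hY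
  have hY2 : 7 * (d : ℝ) ≤ R0 := le_trans (le_max_right _ _) hY
  have hL2 : (0 : ℝ) < L ^ 2 := by positivity
  have key := scale_id hd hCd (show (0 : ℝ) < 2 ^ (k + 1) by positivity) hh0 hR0 hL hLg
  have hsq : ∀ x : ℝ, √(((k : ℝ) + 1) * (x / L ^ 2)) = √(((k : ℝ) + 1) * x) / L := by
    intro x
    rw [← mul_div_assoc, Real.sqrt_div' _ (by positivity), Real.sqrt_sq hL.le]
  refine ⟨N, n1, ⟨R0 * L, L, h0 / L ^ 2, A0 / L ^ 2, w0 * L, e0 * L⟩, ?_⟩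
  refine ⟨?_, ?_, ?_, hn1, ?_, ?_, ?_⟩
  · refine ⟨hK, hN, hX, by positivity, hL, by positivity, by positivity, by positivity,
      by positivity, ?_, ?_, ?_, ?_, ?_, ?_, ?_, ?_, ?_⟩
    · show 16 * (N : ℝ) * ((k : ℝ) + 1) ≤ h0 / L ^ 2 * L ^ 2
      rw [div_mul_cancel₀ _ hL2.ne']
      exact s1
    · show (1280 * (N : ℝ)) ^ 2 * ((k : ℝ) + 1) ≤ A0 / L ^ 2 * L ^ 2
      rw [div_mul_cancel₀ _ hL2.ne']
      exact s2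
    · show h0 / L ^ 2 ≤ A0 / L ^ 2
      gcongr
    · show √(((k : ℝ) + 1) * (A0 / L ^ 2)) * (e0 * L) ≤ 1 / 128
      rw [hsq, show √(((k : ℝ) + 1) * A0) / L * (e0 * L) = √(((k : ℝ) + 1) * A0) * e0 by
        field_simp]
      exact s4
    · show 2 * √(((k : ℝ) + 1) * (A0 / L ^ 2)) ≤ w0 * L * (h0 / L ^ 2)
      rw [hsq, show w0 * L * (h0 / L ^ 2) = w0 * h0 / L by field_simp, ← mul_div_assoc]
      gcongr
    · show 1000 * (N : ℝ) * L ≤ R0 * L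
      gcongr
    · show 2 * (e0 * L) + w0 * L ≤ L
      nlinarith
    · show 12 * X ≤ h0 / L ^ 2 * L * (Real.exp (R0 * L / L) - 1)
      rw [mul_div_cancel_right₀ _ hL.ne', show h0 / L ^ 2 * L = h0 / L by field_simp]
      exact t1
    · exact t2
  · show A0 / L ^ 2 + h0 / L ^ 2 ≤ ε
    rw [← add_div, div_le_iff₀ hL2]
    exact t3
  · show 7 * (d : ℝ) * L ≤ R0 * L
    gcongr
  · show ((k : ℝ) + 1) * (h0 / L ^ 2) * L ^ 2 ≤ (n1 : ℝ) ^ 2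
    rw [mul_assoc, div_mul_cancel₀ _ hL2.ne']
    exact s7
  · show ((k : ℝ) + 1) ^ (1 + (d : ℝ) / 2) ≤ Kd d γ * (h0 / L ^ 2) ^ (γ + (d : ℝ) / 2) *
      (R0 * L) ^ (d - 1) * L * ∑ n ∈ Finset.Icc n1 N, 1 / (n : ℝ)
    rw [show Kd d γ * (h0 / L ^ 2) ^ (γ + (d : ℝ) / 2) * (R0 * L) ^ (d - 1) * L *
      ∑ n ∈ Finset.Icc n1 N, 1 / (n : ℝ) = Kd d γ * ((h0 / L ^ 2) ^ (γ + (d : ℝ) / 2) *
      (R0 * L) ^ (d - 1) * L) * ∑ n ∈ Finset.Icc n1 N, 1 / (n : ℝ) by ring, key]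
    have h2 : (0 : ℝ) < 2 ^ (k + 1) * Cd := by positivity
    rw [div_le_iff₀ hKd] at s8
    rw [show Kd d γ * (1 / (2 ^ (k + 1) * Cd)) * ∑ n ∈ Finset.Icc n1 N, 1 / (n : ℝ) =
      (∑ n ∈ Finset.Icc n1 N, 1 / (n : ℝ)) * Kd d γ / (2 ^ (k + 1) * Cd) by ring, le_div_iff₀ h2]
    exact s8
  · show Cd * (R0 * L) ^ (d - 1) * ((2 * (A0 / L ^ 2)) ^ (γ + (d : ℝ) / 2) *
      (2 * (w0 * L) + 4 * (e0 * L)) + (h0 / L ^ 2) ^ (γ + (d : ℝ) / 2) * L) ≤ (1 / 2) ^ k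
    have e1 : (2 * (A0 / L ^ 2)) ^ (γ + (d : ℝ) / 2) * (2 * (w0 * L) + 4 * (e0 * L)) ≤
        (h0 / L ^ 2) ^ (γ + (d : ℝ) / 2) * L := by
      rw [← mul_div_assoc, Real.div_rpow (by positivity) hL2.le, Real.div_rpow hh0.le hL2.le,
        show (2 * A0) ^ (γ + (d : ℝ) / 2) / (L ^ 2) ^ (γ + (d : ℝ) / 2) *
          (2 * (w0 * L) + 4 * (e0 * L)) = (2 * A0) ^ (γ + (d : ℝ) / 2) * (2 * w0 + 4 * e0) *
          (L / (L ^ 2) ^ (γ + (d : ℝ) / 2)) by ring,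
        show h0 ^ (γ + (d : ℝ) / 2) / (L ^ 2) ^ (γ + (d : ℝ) / 2) * L =
          h0 ^ (γ + (d : ℝ) / 2) * (L / (L ^ 2) ^ (γ + (d : ℝ) / 2)) by ring]
      gcongr
    have h3 : 0 ≤ Cd * (R0 * L) ^ (d - 1) := by positivity
    calc Cd * (R0 * L) ^ (d - 1) * ((2 * (A0 / L ^ 2)) ^ (γ + (d : ℝ) / 2) *
      (2 * (w0 * L) + 4 * (e0 * L)) + (h0 / L ^ 2) ^ (γ + (d : ℝ) / 2) * L)
        ≤ Cd * (R0 * L) ^ (d - 1) * ((h0 / L ^ 2) ^ (γ + (d : ℝ) / 2) * L +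
          (h0 / L ^ 2) ^ (γ + (d : ℝ) / 2) * L) := by gcongr
      _ = 2 * Cd * ((h0 / L ^ 2) ^ (γ + (d : ℝ) / 2) * (R0 * L) ^ (d - 1) * L) := by ring
      _ = (1 / 2) ^ k := by
        rw [key, pow_succ, one_div_pow]
        field_simp

end Pool.Agent.Lib.MP_c84763_mp
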