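import Mathlib
import Pool.Agent.Lib.MP_c84763_mp.ExistsSpec
import Pool.Agent.Lib.MP_c84763_mp.ShellFun

/-! # The sequence of shells -/

open Set Filter Topology MeasureTheory

namespace Pool.Agent.Lib.MP_c84763_mp

/-- A sequence of shells, one outside the other. -/
structure SeqData (d : ℕ) (γ Cd : ℝ) (X ε : ℕ → ℝ) (N n1 : ℕ → ℕ) (P : ℕ → Par) : Prop where
  X0 : X 0 = 1
  ε0 : ε 0 = 1
  spec : ∀ k, Spec d γ Cd k (X k) (ε k) (N k) (n1 k) (P k)
  Xs : ∀ k, X (k + 1) = (P k).R + (P k).L + 2 * (P k).e + (P k).w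
  εs : ∀ k, ε (k + 1) = min (ε k) ((P k).h / 8)

theorem exists_seqData (d : ℕ) (hd : 2 ≤ d) (γ Cd : ℝ) (hγ : 0 < γ) (hCd : 0 < Cd) :
    ∃ (X ε : ℕ → ℝ) (N n1 : ℕ → ℕ) (P : ℕ → Par), SeqData d γ Cd X ε N n1 P := by
  have hex : ∀ (k : ℕ) (s : {p : ℝ × ℝ // 1 ≤ p.1 ∧ 0 < p.2}), ∃ t : ℕ × ℕ × Par,
      Spec d γ Cd k s.1.1 s.1.2 t.1 t.2.1 t.2.2 := by
    intro k s
    obtain ⟨N, n1, P, h⟩ := exists_spec d hd γ Cd hγ hCd k s.1.1 s.1.2 s.2.1 s.2.2
    exact ⟨(N, n1, P), h⟩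
  choose F hF using hex
  have hstep : ∀ (k : ℕ) (s : {p : ℝ × ℝ // 1 ≤ p.1 ∧ 0 < p.2}),
      1 ≤ (F k s).2.2.R + (F k s).2.2.L + 2 * (F k s).2.2.e + (F k s).2.2.w ∧
        0 < min s.1.2 ((F k s).2.2.h / 8) := by
    intro k s
    have hg := (hF k s).good
    have h1 := hg.c6'
    have h2 := hg.hX
    have h3 := hg.hL
    have h4 := hg.he
    have h5 := hg.hw
    have h6 := hg.hh
    refine ⟨by linarith, lt_min s.2.2 (by linarith)⟩
  let st : ℕ → {p : ℝ × ℝ // 1 ≤ p.1 ∧ 0 < p.2} := fun k =>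
    Nat.rec (motive := fun _ => {p : ℝ × ℝ // 1 ≤ p.1 ∧ 0 < p.2})
      ⟨(1, 1), le_rfl, one_pos⟩ (fun k s =>
        ⟨((F k s).2.2.R + (F k s).2.2.L + 2 * (F k s).2.2.e + (F k s).2.2.w,
          min s.1.2 ((F k s).2.2.h / 8)), hstep k s⟩) k
  exact ⟨fun k => (st k).1.1, fun k => (st k).1.2, fun k => (F k (st k)).1,
    fun k => (F k (st k)).2.1, fun k => (F k (st k)).2.2, rfl, rfl, fun k => hF k (st k),
    fun k => rfl, fun k => rfl⟩

variable {d : ℕ} {γ Cd : ℝ} {X ε : ℕ → ℝ} {N n1 : ℕ → ℕ} {P : ℕ → Par}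

theorem seq_pos (h : SeqData d γ Cd X ε N n1 P) (k : ℕ) : PosPar (P k) := by
  have hg := (h.spec k).good
  exact ⟨hg.hR, hg.hL, hg.hh, hg.hA, hg.hw, hg.he⟩

theorem seq_X_one_le (h : SeqData d γ Cd X ε N n1 P) (k : ℕ) : 1 ≤ X k := by
  exact (h.spec k).good.hX

/-- The `k`-th shell begins after `X k`. -/
theorem seq_start (h : SeqData d γ Cd X ε N n1 P) (k : ℕ) :
    X k ≤ (P k).R - 2 * (P k).e - (P k).w := by
  have hg := (h.spec k).good
  have h1 := hg.c6'
  have h2 := hg.hX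
  have h3 := hg.hL
  have h4 := hg.c5'
  have h5 := hg.c5
  have h6 : (1 : ℝ) ≤ (N k : ℝ) := by exact_mod_cast hg.hN
  have h7 : 1000 * (P k).L ≤ 1000 * (N k : ℝ) * (P k).L := by nlinarith
  linarith

theorem seq_X_mono (h : SeqData d γ Cd X ε N n1 P) : Monotone X := by
  refine monotone_nat_of_le_succ fun k => ?_
  have hp := seq_pos h k
  have h1 := seq_start h k
  have h2 := hp.hL
  have h3 := hp.he
  have h4 := hp.hw
  rw [h.Xs]
  linarith

theorem seq_X_tendsto (h : SeqData d γ Cd X ε N n1 P) : Tendsto X atTop atTop := by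
  have key : ∀ k : ℕ, (k : ℝ) ≤ X k := by
    intro k
    induction k with
    | zero =>
      rw [h.X0]
      norm_num
    | succ k ih =>
      have hp := seq_pos h k
      have h1 := (h.spec k).good.c6'
      have h2 := seq_X_one_le h k
      have h3 := hp.hL
      have h4 := hp.he
      have h5 := hp.hw
      rw [h.Xs]
      push_cast
      linarith
  exact tendsto_atTop_mono key tendsto_natCast_atTop_atTop

theorem seq_ε_anti (h : SeqData d γ Cd X ε N n1 P) : Antitone ε := by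
  refine antitone_nat_of_succ_le fun k => ?_
  rw [h.εs]
  exact min_le_left _ _

/-- `ε (k+1) ≤ h_k/8 ≤ ε k/8`. -/
theorem seq_ε_tendsto (h : SeqData d γ Cd X ε N n1 P) : Tendsto ε atTop (𝓝 0) := by
  have hpos : ∀ k, 0 ≤ ε k := by
    intro k
    have hp := seq_pos h k
    have h1 := (h.spec k).small
    have h2 := hp.hA
    have h3 := hp.hh
    linarith
  have key : ∀ k : ℕ, ε k ≤ (1 / 8 : ℝ) ^ k := by
    intro k
    induction k with
    | zero => rw [h.ε0, pow_zero]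
    | succ k ih =>
      have hp := seq_pos h k
      have h1 := (h.spec k).small
      have h2 := hp.hA
      rw [h.εs, pow_succ]
      refine (min_le_right _ _).trans ?_
      linarith
  exact squeeze_zero hpos key (tendsto_pow_atTop_nhds_zero_of_lt_one (by norm_num) (by norm_num))

/-- The radial potential. -/
noncomputable def vv (P : ℕ → Par) (r : ℝ) : ℂ := ∑ᶠ k, shell (P k) r

theorem vv_eq (h : SeqData d γ Cd X ε N n1 P) (k : ℕ) {r : ℝ} (h1 : X k ≤ r)
    (h2 : r ≤ X (k + 1)) : vv P r = shell (P k) r := by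
  unfold vv
  refine finsum_eq_single _ k fun j hj => ?_
  have hm := seq_X_mono h
  rcases lt_or_gt_of_ne hj with hlt | hgt
  · refine shell_zero_right (seq_pos h j) ?_
    rw [← h.Xs]
    exact (hm (Nat.succ_le_of_lt hlt)).trans h1
  · refine shell_zero_left (seq_pos h j) ?_
    exact (h2.trans (hm (Nat.succ_le_of_lt hgt))).trans (seq_start h j)

theorem vv_zero (h : SeqData d γ Cd X ε N n1 P) {r : ℝ} (hr : r ≤ 1) : vv P r = 0 := by
  unfold vv
  refine finsum_eq_zero_of_forall_eq_zero fun j => ?_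
  exact shell_zero_left (seq_pos h j) ((hr.trans (seq_X_one_le h j)).trans (seq_start h j))

/-- Every `r ≥ X k` lies in one of the intervals `[X j, X (j+1)]`, `j ≥ k`. -/
theorem exists_index (h : SeqData d γ Cd X ε N n1 P) (k : ℕ) {r : ℝ} (hr : X k ≤ r) :
    ∃ j, k ≤ j ∧ X j ≤ r ∧ r ≤ X (j + 1) := by
  classical
  have hex : ∃ m, k ≤ m ∧ r ≤ X (m + 1) := by
    have h1 := (seq_X_tendsto h).eventually_ge_atTop r
    obtain ⟨m, hm1, hm2⟩ := (h1.and (eventually_ge_atTop k)).exists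
    exact ⟨m, hm2, hm1.trans (seq_X_mono h (Nat.le_succ m))⟩
  obtain ⟨h1, h2⟩ := Nat.find_spec hex
  refine ⟨Nat.find hex, h1, ?_, h2⟩
  rcases h1.eq_or_lt with he | hlt
  · rw [← he]
    exact hr
  · obtain ⟨m, hm⟩ : ∃ m, Nat.find hex = m + 1 := Nat.exists_eq_succ_of_ne_zero (by omega)
    have h3 : ¬(k ≤ m ∧ r ≤ X (m + 1)) := Nat.find_min hex (by omega)
    rw [hm] at hlt ⊢
    by_contra hcon
    exact h3 ⟨by omega, (not_le.1 hcon).le⟩

theorem vv_continuous (h : SeqData d γ Cd X ε N n1 P) : Continuous (vv P) := by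
  refine continuous_finsum (fun k => shell_continuous (seq_pos h k)) ?_
  intro r
  obtain ⟨m, hm⟩ := ((seq_X_tendsto h).eventually_gt_atTop r).exists
  refine ⟨Iio (X m), Iio_mem_nhds hm, (Set.finite_Iio m).subset ?_⟩
  rintro k ⟨x, hx1, hx2⟩
  rw [mem_Iio]
  by_contra hcon
  refine hx1 (shell_zero_left (seq_pos h k) ?_)
  exact ((le_of_lt hx2).trans (seq_X_mono h (not_lt.1 hcon))).trans (seq_start h k)

end Pool.Agent.Lib.MP_c84763_mp
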