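import Mathlib
import Pool.Agent.Lib.MP_c84763_mp.Seq
import Pool.Agent.Lib.MP_c84763_mp.Cost

/-! # The potential -/

open Set Filter Topology MeasureTheory

namespace Pool.Agent.Lib.MP_c84763_mp

variable {d : ℕ} {γ Cd : ℝ} {X ε : ℕ → ℝ} {N n1 : ℕ → ℕ} {P : ℕ → Par}

private theorem vvCases (h : SeqData d γ Cd X ε N n1 P) (r : ℝ) :
    (vv P r = 0 ∧ r ≤ 1) ∨ ∃ j, X j ≤ r ∧ r ≤ X (j + 1) ∧ vv P r = shell (P j) r := by
  rcases le_total r 1 with h1 | h1
  · exact Or.inl ⟨vv_zero h h1, h1⟩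
  · right
    obtain ⟨j, _, h2, h3⟩ := exists_index h 0 (r := r) (by rw [h.X0]; exact h1)
    exact ⟨j, h2, h3, vv_eq h j h2 h3⟩

theorem vv_re_nonneg (h : SeqData d γ Cd X ε N n1 P) (r : ℝ) : 0 ≤ (vv P r).re := by
  rcases vvCases h r with ⟨h1, _⟩ | ⟨j, _, _, h1⟩
  · rw [h1]; simp
  · rw [h1]; exact shell_re_nonneg (seq_pos h j) r

theorem vv_im_nonneg (h : SeqData d γ Cd X ε N n1 P) (r : ℝ) : 0 ≤ (vv P r).im := by
  rcases vvCases h r with ⟨h1, _⟩ | ⟨j, _, _, h1⟩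
  · rw [h1]; simp
  · rw [h1]; exact shell_im_nonneg (seq_pos h j) r

theorem vv_norm_le (h : SeqData d γ Cd X ε N n1 P) (k : ℕ) {r : ℝ} (hr : X k ≤ r) :
    ‖vv P r‖ ≤ ε k := by
  obtain ⟨j, hj, h2, h3⟩ := exists_index h k hr
  rw [vv_eq h j h2 h3]
  exact ((shell_norm_le (seq_pos h j) r).trans (h.spec j).small).trans (seq_ε_anti h hj)

theorem vv_fits (h : SeqData d γ Cd X ε N n1 P) (k : ℕ) : Fits (P k) (X k) (vv P) := by
  have hb : ∀ r, ‖vv P r‖ ≤ 1 := by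
    intro r
    rcases le_total r 1 with h1 | h1
    · rw [vv_zero h h1]; simp
    · have h2 := vv_norm_le h 0 (r := r) (by rw [h.X0]; exact h1)
      rwa [h.ε0] at h2
  have hst := seq_start h k
  have hX := h.Xs k
  have hp := seq_pos h k
  have hR := hp.hR
  have hL := hp.hL
  have he := hp.he
  have hw := hp.hw
  refine ⟨vv_continuous h, fun r hr => vv_zero h hr, vv_re_nonneg h, ?_, hb, ?_, ?_, ?_, ?_, ?_,
    ?_, ?_⟩
  · intro r
    exact (Complex.im_le_norm _).trans (hb r)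
  · intro r h1 h2
    rw [vv_eq h k h1 (by rw [hX]; linarith)]
    exact shell_im_left hp h2
  · intro r h1 h2
    rw [vv_eq h k (by linarith) (by rw [hX]; linarith)]
    exact shell_lwall hp h1 h2
  · intro r h1 h2
    rw [vv_eq h k (by linarith) (by rw [hX]; linarith)]
    exact shell_norm_le hp r
  · intro r h1 h2
    rw [vv_eq h k (by linarith) (by rw [hX]; linarith)]
    exact shell_cav hp h1 h2
  · intro r h1 h2
    rw [vv_eq h k (by linarith) (by rw [hX]; linarith)]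
    exact shell_norm_le hp r
  · intro r h1 h2
    rw [vv_eq h k (by linarith) (by rw [hX]; linarith)]
    exact shell_rwall hp h1 h2
  · intro r h1
    rcases le_total r (X (k + 1)) with h2 | h2
    · rw [vv_eq h k (by linarith) h2, shell_im_right hp h1]
      have := hp.hh
      linarith
    · refine ((Complex.im_le_norm _).trans (vv_norm_le h (k + 1) h2)).trans ?_
      rw [h.εs k]
      exact min_le_right _ _

theorem vv_tendsto (h : SeqData d γ Cd X ε N n1 P) :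
    Tendsto (fun x : Sp d => vv P ‖x‖) (cocompact (Sp d)) (𝓝 0) := by
  have h1 : Tendsto (vv P) atTop (𝓝 0) := by
    rw [Metric.tendsto_atTop]
    intro δ hδ
    obtain ⟨k, hk⟩ := ((seq_ε_tendsto h).eventually (gt_mem_nhds hδ)).exists
    refine ⟨X k, fun r hr => ?_⟩
    rw [dist_zero_right]
    exact lt_of_le_of_lt (vv_norm_le h k hr) hk
  exact h1.comp tendsto_norm_cocompact_atTop

/-- `‖vv‖^p ≤ Σ_k ‖shell (P k)‖^p` and `Spec.cost`. -/
theorem vv_memLp (hd : 2 ≤ d) (hγ : 0 < γ) (hCost : ∀ (P : Par) (p : ℝ), PosPar P → P.h ≤ P.A →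
      1 ≤ p → 2 * P.e + P.w ≤ P.L → P.L ≤ P.R / 2 →
      (∫⁻ x : Sp d, ENNReal.ofReal (‖shell P ‖x‖‖ ^ p)) ≤
        ENNReal.ofReal (Cd * P.R ^ (d - 1) *
          ((2 * P.A) ^ p * (2 * P.w + 4 * P.e) + P.h ^ p * P.L)))
    (h : SeqData d γ Cd X ε N n1 P) :
    MemLp (fun x : Sp d => vv P ‖x‖) (ENNReal.ofReal (γ + (d : ℝ) / 2)) volume := by
  have hd' : (2 : ℝ) ≤ d := by exact_mod_cast hd
  have hp1 : 1 ≤ γ + (d : ℝ) / 2 := by linarith
  have hcont : Continuous (fun x : Sp d => vv P ‖x‖) := (vv_continuous h).comp continuous_norm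
  refine ⟨hcont.aestronglyMeasurable, ?_⟩
  have hp0 : ENNReal.ofReal (γ + (d : ℝ) / 2) ≠ 0 := by
    rw [Ne, ENNReal.ofReal_eq_zero, not_le]
    linarith
  rw [eLpNorm_lt_top_iff_lintegral_rpow_enorm_lt_top hp0 ENNReal.ofReal_ne_top,
    ENNReal.toReal_ofReal (by linarith)]
  have hpt : ∀ x : Sp d, ‖vv P ‖x‖‖ₑ ^ (γ + (d : ℝ) / 2) ≤
      ∑' k, ENNReal.ofReal (‖shell (P k) ‖x‖‖ ^ (γ + (d : ℝ) / 2)) := by
    intro x
    have he : ∀ w : ℂ, ‖w‖ₑ ^ (γ + (d : ℝ) / 2) =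
        ENNReal.ofReal (‖w‖ ^ (γ + (d : ℝ) / 2)) := by
      intro w
      rw [← ofReal_norm, ENNReal.ofReal_rpow_of_nonneg (norm_nonneg _) (by linarith)]
    rcases vvCases h ‖x‖ with ⟨h1, _⟩ | ⟨j, _, _, h1⟩
    · rw [h1, enorm_zero, ENNReal.zero_rpow_of_pos (by linarith)]
      exact bot_le
    · rw [h1, he]
      exact ENNReal.le_tsum j
  refine lt_of_le_of_lt (lintegral_mono hpt) ?_
  rw [lintegral_tsum]
  · have hk : ∀ k, (∫⁻ x : Sp d, ENNReal.ofReal (‖shell (P k) ‖x‖‖ ^ (γ + (d : ℝ) / 2))) ≤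
        ENNReal.ofReal ((1 / 2) ^ k) := by
      intro k
      have hG := (h.spec k).good
      have hN : (1 : ℝ) ≤ N k := by exact_mod_cast hG.hN
      have h5 := hG.c5
      have hL := hG.hL
      have h6 : (P k).L ≤ (P k).R / 2 := by nlinarith
      exact (hCost (P k) _ (seq_pos h k) hG.c2' hp1 hG.c5' h6).trans
        (ENNReal.ofReal_le_ofReal (h.spec k).cost)
    refine lt_of_le_of_lt (ENNReal.tsum_le_tsum hk) ?_
    rw [← ENNReal.ofReal_tsum_of_nonneg (fun k => by positivity) summable_geometric_two]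
    exact ENNReal.ofReal_lt_top
  · intro k
    have h1 : Continuous (fun x : Sp d => ‖shell (P k) ‖x‖‖) :=
      ((shell_continuous (seq_pos h k)).comp continuous_norm).norm
    exact (h1.measurable.pow_const _).ennreal_ofReal.aemeasurable

end Pool.Agent.Lib.MP_c84763_mp
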