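import Mathlib
import Pool.Agent.Lib.MP_c84763_mp.Pot

/-! # The main theorem -/

open Set Filter Topology MeasureTheory

namespace Pool.Agent.Lib.MP_c84763_mp

/-- `V x = vv P ‖x‖`. For given `hbar`, `σ` and `M` take `k ≥ M` with
`1/(k+1) ≤ 1/hbar² ≤ k+1`; by `shell_sum` and `Spec.big` the sum is at least
`(1/hbar²)^(d/2) (k+1)^(1+d/2) ≥ k+1`. -/
theorem main (d : ℕ) (hd : 2 ≤ d) (γ : ℝ) (hγ : 0 < γ) :
    ∃ V : Sp d → ℂ, Continuous V ∧ Tendsto V (cocompact (Sp d)) (𝓝 0) ∧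
      MemLp V (ENNReal.ofReal (γ + (d : ℝ) / 2)) volume ∧
      (∀ x, 0 ≤ (V x).re ∧ 0 ≤ (V x).im) ∧
      ∀ hbar : ℝ, 0 < hbar → ∀ σ : ℝ, σ ≤ (d : ℝ) / 2 → eigenSum V hbar γ σ = ⊤ := by
  obtain ⟨Cd, hCd, hcost⟩ := cost (d := d) (by omega)
  obtain ⟨X, ε, N, n1, P, hS⟩ := exists_seqData d hd γ Cd hγ hCd
  refine ⟨fun x => vv P ‖x‖, (vv_continuous hS).comp continuous_norm, vv_tendsto hS,
    vv_memLp hd hγ hcost hS, fun x => ⟨vv_re_nonneg hS _, vv_im_nonneg hS _⟩, ?_⟩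
  intro hbar hb σ hσ
  rw [eq_top_iff]
  refine ENNReal.le_of_forall_nnreal_lt fun M _ => ?_
  -- choose k
  set c : ℝ := 1 / hbar ^ 2 with hc
  have hcpos : 0 < c := by positivity
  obtain ⟨k, hk⟩ := exists_nat_ge (max (M : ℝ) (max c (1 / c)))
  have hk1 : (M : ℝ) ≤ k := (le_max_left _ _).trans hk
  have hk2 : c ≤ (k : ℝ) := ((le_max_left _ _).trans (le_max_right _ _)).trans hk
  have hk3 : 1 / c ≤ (k : ℝ) := ((le_max_right _ _).trans (le_max_right _ _)).trans hk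
  have hkpos : (0 : ℝ) < (k : ℝ) + 1 := by positivity
  have hc1 : 1 / ((k : ℝ) + 1) ≤ c := by
    rw [div_le_iff₀ hkpos]
    rw [div_le_iff₀ hcpos] at hk3
    nlinarith
  have hc2 : c ≤ (k : ℝ) + 1 := by linarith
  have hsp := hS.spec k
  have hmain := shell_sum (hbar := hbar) (σ := σ) hsp.good (vv_fits hS k) hd hsp.dim hsp.n1pos
    hsp.n1sq hb hc1 hc2 hγ hσ
  refine le_trans ?_ hmain
  rw [← hc]
  have h1 : ((k : ℝ) + 1) ≤ c ^ ((d : ℝ) / 2) * ((k : ℝ) + 1) ^ (1 + (d : ℝ) / 2) := by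
    have h2 : (1 / ((k : ℝ) + 1)) ^ ((d : ℝ) / 2) ≤ c ^ ((d : ℝ) / 2) :=
      Real.rpow_le_rpow (by positivity) hc1 (by positivity)
    have h3 : (1 / ((k : ℝ) + 1)) ^ ((d : ℝ) / 2) * ((k : ℝ) + 1) ^ (1 + (d : ℝ) / 2) =
        (k : ℝ) + 1 := by
      rw [Real.rpow_add hkpos, Real.rpow_one, one_div, Real.inv_rpow hkpos.le]
      field_simp
    calc (k : ℝ) + 1 = (1 / ((k : ℝ) + 1)) ^ ((d : ℝ) / 2) *
          ((k : ℝ) + 1) ^ (1 + (d : ℝ) / 2) := h3.symm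
      _ ≤ _ := mul_le_mul_of_nonneg_right h2 (by positivity)
  have h4 : (M : ℝ) ≤ c ^ ((d : ℝ) / 2) * (Kd d γ * (P k).h ^ (γ + (d : ℝ) / 2) *
        (P k).R ^ (d - 1) * (P k).L * ∑ n ∈ Finset.Icc (n1 k) (N k), 1 / (n : ℝ)) := by
    calc (M : ℝ) ≤ (k : ℝ) + 1 := by linarith
      _ ≤ _ := h1
      _ ≤ _ := mul_le_mul_of_nonneg_left hsp.big (by positivity)
  calc (M : ENNReal) = ENNReal.ofReal (M : ℝ) := by rw [ENNReal.ofReal_coe_nnreal]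
    _ ≤ _ := ENNReal.ofReal_le_ofReal h4

end Pool.Agent.Lib.MP_c84763_mp
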